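import Pool.Agent.H429.Stmts3

open MeasureTheory Filter Topology Metric

namespace Pool.Agent.H429

noncomputable section

private theorem aeconv_vol_ne_top : volume BB ≠ ⊤ :=
  (measure_ball_lt_top (μ := volume) (x := (0 : C2)) (r := 1)).ne

private theorem aeconv_vol_ne_zero : volume BB ≠ 0 :=
  (measure_ball_pos volume (0 : C2) one_pos).ne'

private theorem aeconv_meas (ha : S_regopen) (hn : S_null) {g : C2 → C2} (hg : Sys g) (n : ℕ)
    {F : C2 → ℝ} (hF : DifferentiableOn ℝ F {b | Reg g n b}) :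
    AEMeasurable F (volume.restrict BB) := by
  have h1 : ({b | Reg g n b} : Set C2) =ᵐ[volume] BB := by
    refine (Filter.eventuallyLE_antisymm_iff.2 ⟨?_, ?_⟩)
    · exact Eventually.of_forall fun b hb => hb.1
    · have h2 := (hn g hg).1 n
      rw [ae_le_set]
      exact h2
  rw [← Measure.restrict_congr_set h1]
  exact hF.continuousOn.aemeasurable (ha g hg n).measurableSet

/-- the choice of the centre -/
private theorem aeconv_center {F : C2 → ℝ} {T t : ENNReal}
    (hT : ∫⁻ b in BB, ∫⁻ b' in BB, ENNReal.ofReal |F b - F b'| ≤ T) (ht : T < t * volume BB) :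
    ∃ a : ℝ, ∫⁻ b' in BB, ENNReal.ofReal |F b' - a| ≤ t := by
  by_contra hcon
  push Not at hcon
  have h1 : t * volume BB ≤ ∫⁻ b in BB, ∫⁻ b' in BB, ENNReal.ofReal |F b - F b'| := by
    rw [← setLIntegral_const]
    refine lintegral_mono fun b => ?_
    refine (hcon (F b)).le.trans (lintegral_mono fun b' => ?_)
    rw [abs_sub_comm]
  exact absurd (h1.trans hT) (not_le.2 ht)

/-- TARGET -/
theorem t_aeconv (hc : S_card) (ha : S_avgsucc) (hr : S_regopen) (hn : S_null) (he : S_energy)
    (hp : S_poincare) (hs : S_segment) : S_aeconv := by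
  intro g hg φ hφ
  obtain ⟨C, hC⟩ := he g hg φ hφ
  set V : ℝ := (volume BB).toReal with hV
  have hV0 : 0 < V := ENNReal.toReal_pos aeconv_vol_ne_zero aeconv_vol_ne_top
  have hVV : volume BB = ENNReal.ofReal V := (ENNReal.ofReal_toReal aeconv_vol_ne_top).symm
  set K : ℝ := (10 ^ 4 * |C| + 1) / V with hK
  have hK0 : 0 < K := by positivity
  have h1 : ∀ n, ∃ a : ℝ, ∫⁻ b in BB, ENNReal.ofReal |avg g n φ b - a| ≤
      ENNReal.ofReal (K * (1 / 2) ^ n) := by
    intro n
    obtain ⟨h2, h3, h4⟩ := hC n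
    have h5 := hp (avg g n φ) {b | Reg g n b} (hr g hg n) (fun b hb => hb.1) ((hn g hg).1 n) h2 h3
      (fun h => hs g hg n h)
    refine aeconv_center h5 ?_
    have h6 : ENNReal.ofReal (K * (1 / 2) ^ n) * volume BB =
        ENNReal.ofReal ((10 ^ 4 * |C| + 1) * (1 / 2) ^ n) := by
      rw [hVV, ← ENNReal.ofReal_mul (by positivity)]
      congr 1
      rw [hK]
      field_simp
    rw [h6]
    refine lt_of_le_of_lt (mul_le_mul_right h4 _) ?_
    have h7 : (10 ^ 4 : ENNReal) = ENNReal.ofReal (10 ^ 4) := by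
      rw [ENNReal.ofReal_pow (by norm_num)]
      norm_num
    rw [h7, ← ENNReal.ofReal_mul (by positivity)]
    rw [ENNReal.ofReal_lt_ofReal_iff (by positivity)]
    have h8 : (0 : ℝ) < (1 / 2) ^ n := by positivity
    have h9 := le_abs_self C
    nlinarith
  choose α hα using h1
  have hmeas : ∀ n, AEMeasurable (fun b => ENNReal.ofReal |avg g n φ b - α n|)
      (volume.restrict BB) := by
    intro n
    have h2 := aeconv_meas hr hn hg n (hC n).1
    have h3 : AEMeasurable (fun b => avg g n φ b - α n) (volume.restrict BB) := h2.sub_const _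
    exact (ENNReal.measurable_ofReal.comp_aemeasurable h3.norm)
  have hsum : ∫⁻ b in BB, ∑' n, ENNReal.ofReal |avg g n φ b - α n| ≠ ⊤ := by
    rw [lintegral_tsum hmeas]
    refine ne_top_of_le_ne_top ?_ (ENNReal.tsum_le_tsum hα)
    rw [← ENNReal.ofReal_tsum_of_nonneg (fun n => by positivity)]
    · exact ENNReal.ofReal_ne_top
    · exact (summable_geometric_of_lt_one (by norm_num) (by norm_num)).mul_left K
  have hae : ∀ᵐ b ∂(volume.restrict BB), Summable fun n => |avg g n φ b - α n| := by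
    filter_upwards [ae_lt_top' (AEMeasurable.tsum hmeas) hsum] with b hb
    have h2 := ENNReal.summable_toReal hb.ne
    refine h2.congr fun n => ?_
    rw [ENNReal.toReal_ofReal (abs_nonneg _)]
  have hreg : ∀ᵐ b ∂(volume.restrict BB), ∀ n, Reg g n b := by
    rw [ae_all_iff]
    intro n
    rw [ae_restrict_iff' (show MeasurableSet BB from measurableSet_ball)]
    have h2 := (hn g hg).1 n
    rw [ae_iff]
    refine measure_mono_null ?_ h2
    intro b hb
    simp only [Classical.not_imp, Set.mem_ofPred_eq] at hb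
    exact ⟨hb.1, hb.2⟩
  set Gd : Set C2 := {b | (Summable fun n => |avg g n φ b - α n|) ∧ ∀ n, Reg g n b} with hGd
  have hZ : volume (BB \ Gd) = 0 := by
    have h2 := hae.and hreg
    rw [ae_restrict_iff' (show MeasurableSet BB from measurableSet_ball), ae_iff] at h2
    refine measure_mono_null ?_ h2
    intro b hb
    simp only [Classical.not_imp, Set.mem_ofPred_eq]
    exact hb
  have hZ2 := (hn g hg).2 _ hZ
  obtain ⟨b, hbB, hbG, hbpre⟩ : ∃ b ∈ BB, b ∈ Gd ∧ ∀ x ∈ pre g 1 b, x ∈ Gd := by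
    by_contra hcon
    push Not at hcon
    have h3 : BB ⊆ (BB \ Gd) ∪ {b | ∃ x ∈ pre g 1 b, x ∈ BB \ Gd} := by
      intro b hb
      by_cases h4 : b ∈ Gd
      · obtain ⟨x, hx, h5⟩ := hcon b hb h4
        refine Or.inr ⟨x, hx, ?_, h5⟩
        exact closedBall_subset_ball (by norm_num) (hx.2 0 one_pos)
      · exact Or.inl ⟨hb, h4⟩
    exact aeconv_vol_ne_zero (measure_mono_null h3 (measure_union_null hZ hZ2))
  obtain ⟨hfin, -, hcard⟩ := hc g hg 1 b hbB
  have hcard4 : hfin.toFinset.card = 4 := by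
    rw [← Set.ncard_eq_toFinset_card _ hfin, hcard (hbG.2 1)]
    norm_num
  have hstep : ∀ n, |avg g (n + 1) φ b - α n| ≤
      ∑ x ∈ hfin.toFinset, |avg g n φ x - α n| := by
    intro n
    have h2 := ((ha g hg n b (hbG.2 (n + 1))).2.2.1 φ)
    rw [h2, avg, finsum_mem_eq_finite_toFinset_sum _ hfin]
    have h3 : (∑ x ∈ hfin.toFinset, avg g n φ x) / 4 ^ 1 - α n =
        (∑ x ∈ hfin.toFinset, (avg g n φ x - α n)) / 4 := by
      rw [Finset.sum_sub_distrib, Finset.sum_const, hcard4, nsmul_eq_mul]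
      push_cast
      ring
    rw [h3, abs_div, abs_of_pos (by norm_num : (0 : ℝ) < 4)]
    have h4 := Finset.abs_sum_le_sum_abs (fun x => avg g n φ x - α n) hfin.toFinset
    have h5 : 0 ≤ ∑ x ∈ hfin.toFinset, |avg g n φ x - α n| :=
      Finset.sum_nonneg fun _ _ => abs_nonneg _
    rw [div_le_iff₀ (by norm_num)]
    linarith
  have hs2 : Summable fun n => ∑ x ∈ hfin.toFinset, |avg g n φ x - α n| :=
    summable_sum fun x hx => (hbpre x ((Set.Finite.mem_toFinset hfin).1 hx)).1
  have hs1 : Summable fun n => |avg g (n + 1) φ b - α (n + 1)| :=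
    (summable_nat_add_iff 1).2 hbG.1
  have hdist : Summable fun n => dist (α n) (α (n + 1)) := by
    refine Summable.of_nonneg_of_le (fun n => dist_nonneg) (fun n => ?_) (hs1.add hs2)
    rw [Real.dist_eq]
    have h2 : α n - α (n + 1) = (avg g (n + 1) φ b - α (n + 1)) - (avg g (n + 1) φ b - α n) := by
      ring
    rw [h2]
    exact (abs_sub _ _).trans (add_le_add le_rfl (hstep n))
  obtain ⟨c, hcl⟩ := cauchySeq_tendsto_of_complete (cauchySeq_of_summable_dist hdist)
  refine ⟨c, ?_⟩
  have h2 := hae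
  rw [ae_restrict_iff' (show MeasurableSet BB from measurableSet_ball)] at h2
  filter_upwards [h2] with b' hb' hbB'
  have h3 := (hb' hbB').tendsto_atTop_zero
  have h4 : Tendsto (fun n => avg g n φ b' - α n) atTop (𝓝 0) :=
    (tendsto_zero_iff_abs_tendsto_zero _).2 h3
  have h5 := h4.add hcl
  rw [zero_add] at h5
  refine h5.congr fun n => ?_
  ring

end

end Pool.Agent.H429
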