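import Pool.Agent.H429.Stmts3

open MeasureTheory Filter Topology Metric

namespace Pool.Agent.H429

noncomputable section

/-- TARGET -/
theorem t_annulus : S_annulus := by
  intro u E c hu hE hcon
  obtain ⟨H, hH, hHu⟩ := InnerProductSpace.HarmonicOnNhd.exists_analyticOnNhd_ball_re_eq hu
  obtain ⟨A, hA⟩ : ∃ A : Set ℂ, A = {t : ℂ | 3 / 2 < ‖t‖ ∧ ‖t‖ < 7 / 4} := ⟨_, rfl⟩
  rw [← hA] at hE
  have hAo : IsOpen A := by
    rw [hA]
    exact (isOpen_lt continuous_const continuous_norm).inter
      (isOpen_lt continuous_norm continuous_const)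
  obtain ⟨K, hK⟩ : ∃ K : ℂ → ℂ, K = fun t => 4 * (H t - E t - c) := ⟨_, rfl⟩
  have hKd : ∀ t ∈ A, DifferentiableAt ℂ K t := by
    intro t ht
    have h1 : DifferentiableAt ℂ H t := by
      refine (hH t ?_).differentiableAt
      rw [hA] at ht
      rw [mem_ball_zero_iff]
      linarith [ht.2]
    have h2 : DifferentiableAt ℂ E t := (hE t ht).differentiableAt (hAo.mem_nhds ht)
    rw [hK]
    exact ((h1.sub h2).sub_const _).const_mul _
  have hKre : ∀ t ∈ A, (K t).re = Real.log ‖t‖ := by
    intro t ht
    rw [hA] at ht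
    have h1 := hcon t ht.1 ht.2
    have h2 : (H t).re = u t := hHu (by rw [mem_ball_zero_iff]; linarith [ht.2])
    have h3 : (K t).re = 4 * ((H t).re - (E t).re - c) := by
      rw [hK]
      simp [Complex.mul_re]
    rw [h3, h2, h1]
    ring
  have ht0 : ∀ t ∈ A, t ≠ 0 := by
    intro t ht h0
    rw [hA, h0] at ht
    have := ht.1
    simp at this
    linarith
  have hderiv : ∀ t ∈ A, HasDerivAt K (t - 0)⁻¹ t := by
    intro t ht
    have hq : ∀ s ∈ A, DifferentiableAt ℂ (fun s => Complex.exp (K s) / s) s := fun s hs =>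
      (hKd s hs).cexp.div differentiableAt_id (ht0 s hs)
    have hnorm : ∀ s ∈ A, ‖Complex.exp (K s) / s‖ = 1 := by
      intro s hs
      rw [norm_div, Complex.norm_exp, hKre s hs,
        Real.exp_log (norm_pos_iff.2 (ht0 s hs)), div_self (norm_ne_zero_iff.2 (ht0 s hs))]
    have hloc : ∀ᶠ s in 𝓝 t, s ∈ A := hAo.mem_nhds ht
    have hconst := Complex.eventually_eq_of_isLocalMax_norm (hloc.mono hq)
      (show IsLocalMax (norm ∘ fun s => Complex.exp (K s) / s) t by
        filter_upwards [hloc] with s hs
        simp only [Function.comp]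
        rw [hnorm s hs, hnorm t ht])
    have hd0 : HasDerivAt (fun s => Complex.exp (K s) / s) 0 t :=
      (hasDerivAt_const t _).congr_of_eventuallyEq hconst
    have hKt := (hKd t ht).hasDerivAt
    have hd1 := hKt.cexp.div (hasDerivAt_id t) (ht0 t ht)
    have h1 := hd1.unique hd0
    have ht' := ht0 t ht
    have h2 : deriv K t = (t - 0)⁻¹ := by
      rw [div_eq_zero_iff] at h1
      rcases h1 with h1 | h1
      · have h3 : Complex.exp (K t) * (deriv K t * t - 1) = 0 := by
          rw [← h1]
          simp only [id]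
          ring
        have h4 := (mul_eq_zero.1 h3).resolve_left (Complex.exp_ne_zero _)
        rw [sub_zero]
        exact eq_inv_of_mul_eq_one_left (by linear_combination h4)
      · exact absurd (pow_eq_zero_iff two_ne_zero |>.1 h1) ht'
    rw [← h2]
    exact hKt
  have h1 : (∮ z in C((0 : ℂ), 13 / 8), (z - 0)⁻¹) = 0 := by
    refine circleIntegral.integral_eq_zero_of_hasDerivWithinAt (f := K) (by norm_num) ?_
    intro z hz
    refine (hderiv z ?_).hasDerivWithinAt
    rw [mem_sphere_zero_iff_norm] at hz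
    rw [hA]
    constructor
    · rw [hz]; norm_num
    · rw [hz]; norm_num
  rw [circleIntegral.integral_sub_center_inv 0 (by norm_num)] at h1
  exact Complex.two_pi_I_ne_zero h1

end

end Pool.Agent.H429
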