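import Pool.Agent.H429.Stmts3

open MeasureTheory Filter Topology Metric

namespace Pool.Agent.H429

noncomputable section

theorem area_haar : (volume : Measure C2).IsAddHaarMeasure :=
  inferInstanceAs ((volume : Measure ℂ).prod (volume : Measure ℂ)).IsAddHaarMeasure

/-- The complex determinant of the map `(Y, snd)`. -/
theorem area_det_aux (D : C2 →ₗ[ℂ] C2) (h1 : (D (1, 0)).2 = 0) (h2 : (D (0, 1)).2 = 1) :
    LinearMap.det D = (D (1, 0)).1 := by
  rw [← LinearMap.det_toMatrix (Module.Basis.finTwoProd ℂ) D, Matrix.det_fin_two]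
  simp [LinearMap.toMatrix_apply, h1, h2]

/-- The real determinant of a complex linear map. -/
theorem area_det_real (D : C2 →L[ℂ] C2) :
    |(D.restrictScalars ℝ).det| = ‖LinearMap.det (D : C2 →ₗ[ℂ] C2)‖ ^ 2 := by
  have h : (D.restrictScalars ℝ).det = Algebra.norm ℝ (LinearMap.det (D : C2 →ₗ[ℂ] C2)) := by
    rw [← LinearMap.det_restrictScalars]
    rfl
  rw [h, Algebra.norm_complex_apply, Complex.normSq_eq_norm_sq, abs_of_nonneg (sq_nonneg _)]

/-- Two preimages with the same first coordinate whose images have the same second coordinate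
are equal. -/
theorem area_vrel {g : C2 → C2} (hg : Sys g) (n : ℕ) (x x' : C2)
    (hx : ∀ i < n, g^[i] x ∈ PP) (hx' : ∀ i < n, g^[i] x' ∈ PP) (h1 : x.1 = x'.1)
    (h2 : (g^[n] x).2 = (g^[n] x').2) : x = x' := by
  have key : ∀ k, k ≤ n → VRel (g^[k] x) (g^[k] x') ∧
      2 ^ k * ‖x.2 - x'.2‖ ≤ ‖(g^[k] x).2 - (g^[k] x').2‖ := by
    intro k
    induction k with
    | zero =>
      intro _
      refine ⟨?_, by simp⟩
      unfold VRel
      simp only [Function.iterate_zero, id]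
      rw [h1, sub_self, norm_zero]
      positivity
    | succ k ih =>
      intro hk
      obtain ⟨ha, hb⟩ := ih (by omega)
      obtain ⟨hc, hd⟩ := hg.vrel _ (hx k (by omega)) _ (hx' k (by omega)) ha
      rw [Function.iterate_succ_apply', Function.iterate_succ_apply']
      refine ⟨hc, ?_⟩
      calc 2 ^ (k + 1) * ‖x.2 - x'.2‖ = 2 * (2 ^ k * ‖x.2 - x'.2‖) := by ring
        _ ≤ 2 * ‖(g^[k] x).2 - (g^[k] x').2‖ := by linarith
        _ ≤ _ := hd
  have h3 := (key n le_rfl).2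
  rw [h2, sub_self, norm_zero] at h3
  have h4 : ‖x.2 - x'.2‖ ≤ 0 := by
    have h5 : (0 : ℝ) < 2 ^ n := by positivity
    nlinarith [norm_nonneg (x.2 - x'.2)]
  have h6 : x.2 = x'.2 := by
    have := norm_le_zero_iff.1 h4
    exact sub_eq_zero.1 this
  exact Prod.ext h1 h6

/-- The derivative of a branch. -/
theorem area_branch {g : C2 → C2} (hg : Sys g) (hcone : S_cone) (n : ℕ) {N : Set C2}
    (hN : IsOpen N) {y : C2 → C2} (hy : AnalyticOnNhd ℂ y N) (hreg : ∀ b ∈ N, Reg g n b)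
    (hpre : ∀ b ∈ N, y b ∈ pre g n b) {b : C2} (hb : b ∈ N) :
    aa g n (y b) = (fderiv ℂ y b (1, 0)).1 := by
  obtain ⟨A, h1, h2, -⟩ := hcone g hg n b (y b) (hreg b hb) (hpre b hb)
  have hd : DifferentiableAt ℂ g^[n] (y b) := by
    by_contra hnd
    rw [fderiv_zero_of_not_differentiableAt hnd] at h1
    have h3 := congrArg (fun T : C2 →L[ℂ] C2 => (T (1, 0)).1) h1
    simp at h3
  have hyd : DifferentiableAt ℂ y b := (hy b hb).differentiableAt
  have h3 : HasFDerivAt (g^[n] ∘ y) ((fderiv ℂ g^[n] (y b)).comp (fderiv ℂ y b)) b :=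
    hd.hasFDerivAt.comp b hyd.hasFDerivAt
  have h4 : (g^[n] ∘ y) =ᶠ[𝓝 b] id := by
    filter_upwards [hN.mem_nhds hb] with b' hb'
    exact (hpre b' hb').1
  have h5 : HasFDerivAt (g^[n] ∘ y) (ContinuousLinearMap.id ℂ C2) b :=
    (hasFDerivAt_id b).congr_of_eventuallyEq h4
  have h6 := h3.unique h5
  have h7 : fderiv ℂ y b = A := by
    calc fderiv ℂ y b = (ContinuousLinearMap.id ℂ C2).comp (fderiv ℂ y b) := by
          rw [ContinuousLinearMap.id_comp]
      _ = (A.comp (fderiv ℂ g^[n] (y b))).comp (fderiv ℂ y b) := by rw [h2]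
      _ = A.comp ((fderiv ℂ g^[n] (y b)).comp (fderiv ℂ y b)) := rfl
      _ = A := by rw [h6, ContinuousLinearMap.comp_id]
  unfold aa
  rw [ContinuousLinearMap.inverse_eq h1 h2, h7]

/-- TARGET -/
theorem t_area (_hc : S_card) (hb : S_branch1) (hcone : S_cone) : S_area := by
  classical
  have : (volume : Measure C2).IsAddHaarMeasure := area_haar
  intro g hg n
  choose! N hNo hNmem y hy hprop using hb g hg n
  -- a countable cover
  obtain ⟨T, hTc, hTU⟩ := TopologicalSpace.isOpen_iUnion_countable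
    (fun b : {b : C2 // Reg g n b} => N b.1) (fun b => hNo b.1 b.2)
  have hcov : (⋃ i ∈ T, N i.1) = {b | Reg g n b} := by
    rw [hTU]
    ext b
    simp only [Set.mem_iUnion, Set.mem_ofPred_eq]
    constructor
    · rintro ⟨i, hi⟩
      exact (hprop i.1 i.2 b hi).1
    · intro hbR
      exact ⟨⟨b, hbR⟩, hNmem b hbR⟩
  by_cases hTe : T = ∅
  · have : {b | Reg g n b} = ∅ := by
      rw [← hcov, hTe]; simp
    rw [this]
    simp
  obtain ⟨f, hf⟩ := hTc.exists_eq_range (Set.nonempty_iff_ne_empty.2 hTe)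
  -- the sequences
  set N' : ℕ → Set C2 := fun j => N (f j).1 with hN'
  set y' : ℕ → Fin (4 ^ n) → C2 → C2 := fun j => y (f j).1 with hy'
  have hN'o : ∀ j, IsOpen (N' j) := fun j => hNo _ (f j).2
  have hcov' : (⋃ j, N' j) = {b | Reg g n b} := by
    rw [← hcov, hf]
    simp [hN']
  have hy'a : ∀ j i, AnalyticOnNhd ℂ (y' j i) (N' j) := fun j i => hy _ (f j).2 i
  have hp' : ∀ j, ∀ b ∈ N' j, Reg g n b ∧ Function.Injective (fun i => y' j i b) ∧
      pre g n b = Set.range (fun i => y' j i b) := fun j => hprop _ (f j).2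
  have hpre' : ∀ j i, ∀ b ∈ N' j, y' j i b ∈ pre g n b := by
    intro j i b hbN
    rw [(hp' j b hbN).2.2]
    exact ⟨i, rfl⟩
  set M : ℕ → Set C2 := disjointed N' with hM
  have hMm : ∀ j, MeasurableSet (M j) := fun j =>
    MeasurableSet.disjointed (fun i => (hN'o i).measurableSet) j
  have hMsub : ∀ j, M j ⊆ N' j := fun j => disjointed_subset N' j
  have hMd : Pairwise (Function.onFun Disjoint M) := disjoint_disjointed N'
  have hMU : (⋃ j, M j) = {b | Reg g n b} := by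
    rw [hM, iUnion_disjointed, hcov']
  -- the charts
  set ψ : ℕ → Fin (4 ^ n) → C2 → C2 := fun j i b => ((y' j i b).1, b.2) with hψ
  set D : ℕ → Fin (4 ^ n) → C2 → (C2 →L[ℂ] C2) := fun j i b =>
    ((ContinuousLinearMap.fst ℂ ℂ ℂ).comp (fderiv ℂ (y' j i) b)).prod
      (ContinuousLinearMap.snd ℂ ℂ ℂ) with hD
  have hψd : ∀ j i, ∀ b ∈ N' j, HasFDerivAt (ψ j i) (D j i b) b := by
    intro j i b hbN
    have h1 : HasFDerivAt (y' j i) (fderiv ℂ (y' j i) b) b :=
      (hy'a j i b hbN).differentiableAt.hasFDerivAt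
    exact h1.fst.prodMk hasFDerivAt_snd
  have hψr : ∀ j i, ∀ b ∈ M j, HasFDerivWithinAt (ψ j i)
      ((D j i b).restrictScalars ℝ) (M j) b := by
    intro j i b hbM
    exact ((hψd j i b (hMsub j hbM)).restrictScalars ℝ).hasFDerivWithinAt
  have hdet : ∀ j i, ∀ b ∈ N' j, |((D j i b).restrictScalars ℝ).det| =
      ‖aa g n (y' j i b)‖ ^ 2 := by
    intro j i b hbN
    rw [area_det_real, area_det_aux, area_branch hg hcone n (hN'o j) (hy'a j i)
      (fun b hb => (hp' j b hb).1) (hpre' j i) hbN]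
    · rfl
    · rfl
    · rfl
  -- the claim
  have claim : ∀ j i j' i', ∀ b ∈ M j, ∀ b' ∈ M j', ψ j i b = ψ j' i' b' →
      b = b' ∧ j = j' ∧ i = i' := by
    intro j i j' i' b hbM b' hbM' heq
    have h1 : (y' j i b).1 = (y' j' i' b').1 := (Prod.mk.inj heq).1
    have h2 : b.2 = b'.2 := (Prod.mk.inj heq).2
    have hx := hpre' j i b (hMsub j hbM)
    have hx' := hpre' j' i' b' (hMsub j' hbM')
    have h3 : y' j i b = y' j' i' b' := by
      apply area_vrel hg n _ _ hx.2 hx'.2 h1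
      rw [hx.1, hx'.1, h2]
    have h4 : b = b' := by
      rw [← hx.1, ← hx'.1, h3]
    subst h4
    have h5 : j = j' := by
      by_contra hne
      exact (Set.disjoint_left.1 (hMd hne)) hbM hbM'
    subst h5
    exact ⟨rfl, rfl, (hp' j b (hMsub j hbM)).2.1 h3⟩
  have hinj : ∀ j i, Set.InjOn (ψ j i) (M j) := fun j i b hbM b' hbM' heq =>
    (claim j i j i b hbM b' hbM' heq).1
  have himm : ∀ p : ℕ × Fin (4 ^ n), MeasurableSet (ψ p.1 p.2 '' M p.1) := fun p =>
    measurable_image_of_fderivWithin (hMm p.1) (hψr p.1 p.2) (hinj p.1 p.2)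
  have hdisj : Pairwise (Function.onFun Disjoint
      (fun p : ℕ × Fin (4 ^ n) => ψ p.1 p.2 '' M p.1)) := by
    rintro ⟨j, i⟩ ⟨j', i'⟩ hne
    refine Set.disjoint_left.2 ?_
    rintro _ ⟨b, hbM, rfl⟩ ⟨b', hbM', heq⟩
    obtain ⟨-, h1, h2⟩ := claim j i j' i' b hbM b' hbM' heq.symm
    exact hne (by rw [h1, h2])
  have hBB : (⋃ p : ℕ × Fin (4 ^ n), ψ p.1 p.2 '' M p.1) ⊆ BB := by
    refine Set.iUnion_subset ?_
    rintro ⟨j, i⟩ _ ⟨b, hbM, rfl⟩
    have hbB : b ∈ BB := (hp' j b (hMsub j hbM)).1.1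
    have hx := hpre' j i b (hMsub j hbM)
    have h1 : ‖(y' j i b).1‖ < 1 := by
      rcases Nat.eq_zero_or_pos n with h0 | h0
      · have h2 : y' j i b = b := by
          have h3 := hx.1
          subst h0
          exact h3
        rw [h2]
        have h3 : ‖b‖ < 1 := by simpa [BB] using hbB
        exact (norm_fst_le b).trans_lt h3
      · have h2 : y' j i b ∈ PP := hx.2 0 h0
        have h3 : ‖y' j i b‖ ≤ 1 / 12 := by simpa [PP] using h2
        exact ((norm_fst_le _).trans h3).trans_lt (by norm_num)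
    have h2 : ‖b.2‖ < 1 := by
      have h3 : ‖b‖ < 1 := by simpa [BB] using hbB
      exact (norm_snd_le b).trans_lt h3
    simp only [BB, mem_ball_zero_iff]
    exact max_lt h1 h2
  -- the computation
  have hF : ∀ j, ∀ b ∈ M j, ENNReal.ofReal (∑ᶠ x ∈ pre g n b, ‖aa g n x‖ ^ 2) =
      ∑ i, ENNReal.ofReal (‖(fderiv ℂ (y' j i) b (1, 0)).1‖ ^ 2) := by
    intro j b hbM
    have hbN := hMsub j hbM
    rw [(hp' j b hbN).2.2, finsum_mem_range (hp' j b hbN).2.1, finsum_eq_sum_of_fintype,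
      ENNReal.ofReal_sum_of_nonneg (fun _ _ => by positivity)]
    refine Finset.sum_congr rfl fun i _ => ?_
    rw [area_branch hg hcone n (hN'o j) (hy'a j i)
      (fun b hb => (hp' j b hb).1) (hpre' j i) hbN]
  have hint : ∀ j i, ∫⁻ b in M j, ENNReal.ofReal (‖(fderiv ℂ (y' j i) b (1, 0)).1‖ ^ 2) =
      volume (ψ j i '' M j) := by
    intro j i
    rw [← lintegral_abs_det_fderiv_eq_addHaar_image volume (hMm j) (hψr j i) (hinj j i)]
    refine setLIntegral_congr_fun (hMm j) fun b hbM => ?_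
    have hbN := hMsub j hbM
    rw [hdet j i b hbN, area_branch hg hcone n (hN'o j) (hy'a j i)
      (fun b hb => (hp' j b hb).1) (hpre' j i) hbN]
  have hmeas : ∀ j i, Measurable
      (fun b : C2 => ENNReal.ofReal (‖(fderiv ℂ (y' j i) b (1, 0)).1‖ ^ 2)) := by
    intro j i
    have h1 : Measurable (fun b : C2 => fderiv ℂ (y' j i) b (1, 0)) :=
      measurable_fderiv_apply_const ℂ (y' j i) (1, 0)
    exact (h1.fst.norm.pow_const 2).ennreal_ofReal
  calc ∫⁻ b in {b | Reg g n b}, ENNReal.ofReal (∑ᶠ x ∈ pre g n b, ‖aa g n x‖ ^ 2)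
      = ∫⁻ b in ⋃ j, M j, ENNReal.ofReal (∑ᶠ x ∈ pre g n b, ‖aa g n x‖ ^ 2) := by rw [hMU]
    _ = ∑' j, ∫⁻ b in M j, ENNReal.ofReal (∑ᶠ x ∈ pre g n b, ‖aa g n x‖ ^ 2) :=
        lintegral_iUnion hMm hMd _
    _ = ∑' j, ∑ i, volume (ψ j i '' M j) := by
        refine tsum_congr fun j => ?_
        rw [setLIntegral_congr_fun (hMm j) (hF j), lintegral_finsetSum _ fun i _ => hmeas j i]
        exact Finset.sum_congr rfl fun i _ => hint j i
    _ = ∑' p : ℕ × Fin (4 ^ n), volume (ψ p.1 p.2 '' M p.1) := by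
        rw [ENNReal.tsum_prod (f := fun j i => volume (ψ j i '' M j))]
        exact tsum_congr fun j => (tsum_fintype _).symm
    _ = volume (⋃ p : ℕ × Fin (4 ^ n), ψ p.1 p.2 '' M p.1) := (measure_iUnion hdisj himm).symm
    _ ≤ volume BB := measure_mono hBB

end

end Pool.Agent.H429
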