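import Pool.Agent.H429.Stmts3

open MeasureTheory Filter Topology Metric

namespace Pool.Agent.H429

noncomputable section

lemma basic_zero (g : C2 → C2) (b : C2) : pre g 0 b = {b} := by
  ext x
  simp [pre]

lemma basic_one (g : C2 → C2) (b x : C2) : x ∈ pre g 1 b ↔ x ∈ PP ∧ g x = b := by
  unfold pre
  constructor
  · rintro ⟨h1, h2⟩
    exact ⟨h2 0 (by norm_num), h1⟩
  · rintro ⟨h1, h2⟩
    refine ⟨h2, fun i hi => ?_⟩
    have : i = 0 := by omega
    subst this
    exact h1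

lemma basic_first (g : C2 → C2) (n : ℕ) (b x : C2) :
    x ∈ pre g (n + 1) b ↔ x ∈ PP ∧ g x ∈ pre g n b := by
  unfold pre
  constructor
  · rintro ⟨h1, h2⟩
    refine ⟨h2 0 (by omega), ?_, fun i hi => ?_⟩
    · rwa [Function.iterate_succ_apply] at h1
    · have := h2 (i + 1) (by omega)
      rwa [Function.iterate_succ_apply] at this
  · rintro ⟨h1, h2, h3⟩
    refine ⟨by rwa [Function.iterate_succ_apply], fun i hi => ?_⟩
    cases i with
    | zero => exact h1
    | succ i =>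
      rw [Function.iterate_succ_apply]
      exact h3 i (by omega)

lemma basic_add (g : C2 → C2) (n k : ℕ) (b x : C2) :
    x ∈ pre g (n + k) b ↔ x ∈ pre g n (g^[n] x) ∧ g^[n] x ∈ pre g k b := by
  induction n generalizing x with
  | zero => rw [Nat.zero_add, basic_zero]; simp
  | succ n ih =>
    rw [show n + 1 + k = n + k + 1 by ring, basic_first, ih, basic_first,
      Function.iterate_succ_apply]
    tauto

lemma basic_pp {x : C2} (hx : x ∈ PP) : x ∈ BB :=
  closedBall_subset_ball (by norm_num) hx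

lemma basic_bb {x : C2} (hx : x ∈ BB) : x ∈ closedBall (0 : C2) 1 := ball_subset_closedBall hx

lemma basic_union_last (g : C2 → C2) (n : ℕ) (b : C2) :
    pre g (n + 1) b = ⋃ y ∈ pre g 1 b, pre g n y := by
  ext x
  simp only [Set.mem_iUnion, exists_prop]
  rw [basic_add]
  constructor
  · rintro ⟨h1, h2⟩; exact ⟨_, h2, h1⟩
  · rintro ⟨y, h1, h2⟩
    have : g^[n] x = y := h2.1
    rw [this]; exact ⟨h2, h1⟩

lemma basic_union_first (g : C2 → C2) (n : ℕ) (b : C2) :
    pre g (n + 1) b = ⋃ y ∈ pre g n b, pre g 1 y := by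
  ext x
  simp only [Set.mem_iUnion, exists_prop]
  rw [basic_first]
  constructor
  · rintro ⟨h1, h2⟩; exact ⟨_, h2, (basic_one g _ _).2 ⟨h1, rfl⟩⟩
  · rintro ⟨y, h1, h2⟩
    rw [basic_one] at h2
    rw [h2.2]; exact ⟨h2.1, h1⟩

lemma basic_disj (g : C2 → C2) (n : ℕ) (I : Set C2) : I.PairwiseDisjoint (pre g n) := by
  intro y _ y' _ hne
  rw [Function.onFun, Set.disjoint_left]
  intro x hx hx'
  exact hne (hx.1.symm.trans hx'.1)

lemma basic_reg {g : C2 → C2} {n : ℕ} {b y : C2} (h : Reg g (n + 1) b) (hy : y ∈ pre g 1 b) :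
    Reg g n y := by
  refine ⟨basic_pp ((basic_one g b y).1 hy).1, fun k hk1 hk2 x hx => ?_⟩
  refine h.2 (k + 1) (by omega) (by omega) x ?_
  rw [basic_add]
  have : g^[k] x = y := hx.1
  rw [this]; exact ⟨hx, hy⟩

lemma basic_ncard {S : Set C2} (hS : S.Finite) : (S.ncard : ℝ) = ∑ᶠ x ∈ S, (1 : ℝ) := by
  rw [finsum_mem_eq_finite_toFinset_sum _ hS, Set.ncard_eq_toFinset_card S hS]
  simp

lemma basic_finite {g : C2 → C2} (hg : Sys g) (n : ℕ) : ∀ b ∈ BB, (pre g n b).Finite := by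
  induction n with
  | zero => intro b _; rw [basic_zero]; exact Set.finite_singleton _
  | succ n ih =>
    intro b hb
    rw [basic_union_last]
    refine Set.Finite.biUnion (hg.fin b (basic_bb hb)).1 fun y hy => ih y ?_
    exact basic_pp ((basic_one g b y).1 hy).1

lemma basic_sum_last {g : C2 → C2} (hg : Sys g) (n : ℕ) {b : C2} (hb : b ∈ BB) (φ : C2 → ℝ) :
    ∑ᶠ x ∈ pre g (n + 1) b, φ x = ∑ᶠ y ∈ pre g 1 b, ∑ᶠ x ∈ pre g n y, φ x := by
  rw [basic_union_last]
  exact finsum_mem_biUnion (basic_disj g n _) (basic_finite hg 1 b hb)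
    fun y hy => basic_finite hg n y (basic_pp ((basic_one g b y).1 hy).1)

lemma basic_mem_pre {g : C2 → C2} {n : ℕ} {b y : C2} (hb : b ∈ BB) (hy : y ∈ pre g n b) :
    y ∈ BB := by
  cases n with
  | zero => rw [basic_zero] at hy; rw [Set.mem_singleton_iff.1 hy]; exact hb
  | succ n => exact basic_pp ((basic_first g n b y).1 hy).1

lemma basic_sum_first {g : C2 → C2} (hg : Sys g) (n : ℕ) {b : C2} (hb : b ∈ BB) (φ : C2 → ℝ) :
    ∑ᶠ x ∈ pre g (n + 1) b, φ x = ∑ᶠ y ∈ pre g n b, ∑ᶠ x ∈ pre g 1 y, φ x := by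
  rw [basic_union_first]
  exact finsum_mem_biUnion (basic_disj g 1 _) (basic_finite hg n b hb)
    fun y hy => basic_finite hg 1 y (basic_mem_pre hb hy)

theorem t_card : S_card := by
  intro g hg n
  induction n with
  | zero =>
    intro b _
    rw [basic_zero]
    exact ⟨Set.finite_singleton _, by simp, fun _ => by simp⟩
  | succ n ih =>
    intro b hb
    have hf := basic_finite hg (n + 1) b hb
    have hf1 := basic_finite hg 1 b hb
    have hy : ∀ y ∈ pre g 1 b, y ∈ BB := fun y hy => basic_mem_pre hb hy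
    have key : ((pre g (n + 1) b).ncard : ℝ) = ∑ y ∈ hf1.toFinset, ((pre g n y).ncard : ℝ) := by
      rw [basic_ncard hf, basic_sum_last hg n hb, finsum_mem_eq_finite_toFinset_sum _ hf1]
      refine Finset.sum_congr rfl fun y hy' => ?_
      rw [basic_ncard (ih y (hy y ((Set.Finite.mem_toFinset hf1).1 hy'))).1]
    refine ⟨hf, ?_, fun hr => ?_⟩
    · have h1 : ((pre g (n + 1) b).ncard : ℝ) ≤ 4 ^ (n + 1) := by
        rw [key]
        calc ∑ y ∈ hf1.toFinset, ((pre g n y).ncard : ℝ)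
            ≤ ∑ y ∈ hf1.toFinset, (4 : ℝ) ^ n := by
              refine Finset.sum_le_sum fun y hy' => ?_
              exact_mod_cast (ih y (hy y ((Set.Finite.mem_toFinset hf1).1 hy'))).2.1
          _ = (pre g 1 b).ncard * 4 ^ n := by
              rw [Finset.sum_const, nsmul_eq_mul, Set.ncard_eq_toFinset_card _ hf1]
          _ ≤ 4 * 4 ^ n := by
              gcongr
              exact_mod_cast (hg.fin b (basic_bb hb)).2
          _ = 4 ^ (n + 1) := by ring
      exact_mod_cast h1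
    · have h1 : ((pre g (n + 1) b).ncard : ℝ) = 4 ^ (n + 1) := by
        rw [key]
        calc ∑ y ∈ hf1.toFinset, ((pre g n y).ncard : ℝ)
            = ∑ y ∈ hf1.toFinset, (4 : ℝ) ^ n := by
              refine Finset.sum_congr rfl fun y hy' => ?_
              have hy1 := (Set.Finite.mem_toFinset hf1).1 hy'
              exact_mod_cast (ih y (hy y hy1)).2.2 (basic_reg hr hy1)
          _ = (pre g 1 b).ncard * 4 ^ n := by
              rw [Finset.sum_const, nsmul_eq_mul, Set.ncard_eq_toFinset_card _ hf1]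
          _ = 4 * 4 ^ n := by
              rw [hg.four b (basic_bb hb) (hr.2 1 le_rfl (by omega))]
              norm_num
          _ = 4 ^ (n + 1) := by ring
      exact_mod_cast h1

theorem t_avgsucc (_hc : S_card) : S_avgsucc := by
  intro g hg n b hr
  have hb : b ∈ BB := hr.1
  refine ⟨fun y hy => basic_reg hr hy, fun y hy => ⟨fun hn => ?_, ?_⟩, fun φ => ?_, fun φ => ?_⟩
  · exact hy.2 0 hn
  · refine hg.four y (basic_bb (basic_mem_pre hb hy)) fun x hx => ?_
    refine hr.2 (n + 1) (by omega) le_rfl x ?_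
    rw [basic_union_first]
    simp only [Set.mem_iUnion, exists_prop]
    exact ⟨y, hy, hx⟩
  · unfold avg
    rw [basic_sum_last hg n hb]
    have hf := basic_finite hg 1 b hb
    rw [finsum_mem_eq_finite_toFinset_sum _ hf, finsum_mem_eq_finite_toFinset_sum _ hf,
      ← Finset.sum_div, div_div]
    congr 1
    ring
  · unfold avg
    rw [basic_sum_first hg n hb]
    have hf := basic_finite hg n b hb
    rw [finsum_mem_eq_finite_toFinset_sum _ hf, finsum_mem_eq_finite_toFinset_sum _ hf,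
      ← Finset.sum_div, div_div]
    congr 1
    ring

theorem t_vpair : S_vpair := by
  intro g hg k hk
  have h1 : ∀ x ∈ PP, ∀ y ∈ PP, g x ∈ closedBall (0 : C2) 1 → g y ∈ closedBall (0 : C2) 1 →
      jac g x = 0 → jac g y = 0 → VRel x y := by
    intro x hx y hy hgx hgy hjx hjy
    have hs : ball (0 : C2) (1 / 200000) ⊆ closedBall (0 : C2) (1 / 100000) :=
      (ball_subset_ball (by norm_num)).trans ball_subset_closedBall
    have h := hg.jz x (hs (hg.crit x hx hgx hjx)) y (hs (hg.crit y hy hgy hjy))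
    rw [hjx, hjy, sub_zero, zero_add, norm_mul] at h
    have h8 : ‖(8 * 10 ^ 10 : ℂ)‖ = 8 * 10 ^ 10 := by
      rw [norm_mul, norm_pow]; norm_num
    rw [h8] at h
    unfold VRel
    have := norm_nonneg (x.2 - y.2)
    linarith
  have h2 : ∀ (k : ℕ) (x y : C2), (∀ i < k, g^[i] x ∈ PP) → (∀ i < k, g^[i] y ∈ PP) → VRel x y →
      VRel (g^[k] x) (g^[k] y) ∧ 2 ^ k * ‖x.2 - y.2‖ ≤ ‖(g^[k] x).2 - (g^[k] y).2‖ := by
    intro k
    induction k with
    | zero => intro x y _ _ h; exact ⟨h, by simp⟩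
    | succ k ih =>
      intro x y hx hy h
      obtain ⟨i1, i2⟩ := ih x y (fun i hi => hx i (by omega)) (fun i hi => hy i (by omega)) h
      obtain ⟨j1, j2⟩ := hg.vrel _ (hx k (by omega)) _ (hy k (by omega)) i1
      rw [Function.iterate_succ_apply', Function.iterate_succ_apply']
      refine ⟨j1, ?_⟩
      rw [pow_succ]
      linarith
  refine ⟨h1, h2 k, ?_⟩
  rintro b ⟨hb, x, hx, hjx⟩ b' ⟨hb', x', hx', hjx'⟩
  have hgx : ∀ {b x : C2}, b ∈ BB → x ∈ pre g k b → x ∈ PP ∧ g x ∈ closedBall (0 : C2) 1 := by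
    intro b x hb hx
    obtain ⟨m, rfl⟩ : ∃ m, k = m + 1 := ⟨k - 1, by omega⟩
    rw [basic_first] at hx
    exact ⟨hx.1, basic_bb (basic_mem_pre hb hx.2)⟩
  have hxy := h1 x (hgx hb hx).1 x' (hgx hb' hx').1 (hgx hb hx).2 (hgx hb' hx').2 hjx hjx'
  have := (h2 k x x' hx.2 hx'.2 hxy).1
  rwa [hx.1, hx'.1] at this

lemma basic_det (T : C2 →L[ℂ] C2) {C : ℝ} (hC : ‖T‖ ≤ C) : ‖T.det‖ ≤ 2 * C ^ 2 := by
  have hC0 : 0 ≤ C := (norm_nonneg _).trans hC
  have h1 : T.det = (T (1, 0)).1 * (T (0, 1)).2 - (T (0, 1)).1 * (T (1, 0)).2 := by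
    rw [show T.det = LinearMap.det (T : C2 →ₗ[ℂ] C2) from rfl,
      ← LinearMap.det_toMatrix (Module.Basis.finTwoProd ℂ), Matrix.det_fin_two]
    simp [LinearMap.toMatrix_apply]
  have hb : ∀ v : C2, ‖v‖ ≤ 1 → ‖(T v).1‖ ≤ C ∧ ‖(T v).2‖ ≤ C := by
    intro v hv
    have : ‖T v‖ ≤ C := by
      calc ‖T v‖ ≤ ‖T‖ * ‖v‖ := T.le_opNorm v
        _ ≤ C * 1 := by gcongr
        _ = C := mul_one C
    exact ⟨(norm_fst_le _).trans this, (norm_snd_le _).trans this⟩
  have e1 := hb (1, 0) (by simp [Prod.norm_def])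
  have e2 := hb (0, 1) (by simp [Prod.norm_def])
  rw [h1]
  calc ‖(T (1, 0)).1 * (T (0, 1)).2 - (T (0, 1)).1 * (T (1, 0)).2‖
      ≤ ‖(T (1, 0)).1 * (T (0, 1)).2‖ + ‖(T (0, 1)).1 * (T (1, 0)).2‖ := norm_sub_le _ _
    _ = ‖(T (1, 0)).1‖ * ‖(T (0, 1)).2‖ + ‖(T (0, 1)).1‖ * ‖(T (1, 0)).2‖ := by
        rw [norm_mul, norm_mul]
    _ ≤ C * C + C * C := by
        gcongr
        exacts [e1.1, e2.2, e2.1, e1.2]
    _ = 2 * C ^ 2 := by ring

lemma basic_log {g : C2 → C2} (hg : Sys g) {x : C2} (hx : x ∈ PP)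
    (hgx : g x ∈ closedBall (0 : C2) 1) : Real.log ‖jac g x‖ ≤ 100 := by
  have hin := hg.inn x hx hgx
  have hn : ‖fderiv ℂ g x‖ ≤ 2 * 10 ^ 7 := by
    refine norm_fderiv_le_of_lip' ℂ (by norm_num) ?_
    filter_upwards [isOpen_ball.mem_nhds hin] with y hy
    exact hg.lip y (ball_subset_closedBall hy) x hx
  have hd : ‖jac g x‖ ≤ 2 * (2 * 10 ^ 7) ^ 2 := basic_det _ hn
  rcases (norm_nonneg (jac g x)).eq_or_lt with h0 | h0
  · rw [← h0, Real.log_zero]; norm_num
  · rw [Real.log_le_iff_le_exp h0]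
    refine hd.trans ?_
    have h2 : (2 : ℝ) ≤ Real.exp 1 := by
      have := Real.add_one_le_exp (1 : ℝ)
      linarith
    have h3 : Real.exp 100 = Real.exp 1 ^ 100 := by
      rw [← Real.exp_nat_mul]; norm_num
    rw [h3]
    calc (2 * (2 * 10 ^ 7) ^ 2 : ℝ) ≤ 2 ^ 100 := by norm_num
      _ ≤ Real.exp 1 ^ 100 := by gcongr

theorem t_ub (hc : S_card) : S_ub := by
  intro g hg n b hn hr
  have hb : b ∈ BB := hr.1
  obtain ⟨hf, -, hcard⟩ := hc g hg n b hb
  have hcd := hcard hr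
  unfold avg
  rw [finsum_mem_eq_finite_toFinset_sum _ hf, div_le_iff₀ (by positivity)]
  calc ∑ x ∈ hf.toFinset, Real.log ‖jac g x‖ ≤ ∑ x ∈ hf.toFinset, (100 : ℝ) := by
        refine Finset.sum_le_sum fun x hx => ?_
        have hx' := (Set.Finite.mem_toFinset hf).1 hx
        obtain ⟨m, rfl⟩ : ∃ m, n = m + 1 := ⟨n - 1, by omega⟩
        rw [basic_first] at hx'
        exact basic_log hg hx'.1 (basic_bb (basic_mem_pre hb hx'.2))
    _ = 100 * 4 ^ n := by
        rw [Finset.sum_const, nsmul_eq_mul, ← Set.ncard_eq_toFinset_card _ hf, hcd]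
        push_cast
        ring

theorem t_regopen (h : S_branch1) : S_regopen := by
  intro g hg n
  rw [isOpen_iff_mem_nhds]
  intro b hb
  obtain ⟨N, hN, hbN, y, -, hy⟩ := h g hg n b hb
  filter_upwards [hN.mem_nhds hbN] with b' hb'
  exact (hy b' hb').1

end

end Pool.Agent.H429
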