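import Pool.Agent.H429.Stmts3

open MeasureTheory Filter Topology Metric

namespace Pool.Agent.H429

noncomputable section

/-- the local inverse with a parameter -/
theorem branch_ift {E : Type} [NormedAddCommGroup E] [NormedSpace ℂ E] [CompleteSpace E]
    (G : E → C2 → C2) (e₀ : E) (x₀ : C2)
    (han : AnalyticAt ℂ (fun q : E × C2 => G q.1 q.2) (e₀, x₀)) (hj : jac (G e₀) x₀ ≠ 0) :
    ∃ Y : E × C2 → C2, AnalyticAt ℂ Y (e₀, G e₀ x₀) ∧ Y (e₀, G e₀ x₀) = x₀ ∧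
      ∀ᶠ q in 𝓝 (e₀, G e₀ x₀), G q.1 (Y q) = q.2 := by
  set F : E × C2 → C2 := fun q => G q.1 q.2 with hF
  set D : E × C2 →L[ℂ] C2 := fderiv ℂ F (e₀, x₀) with hD
  have hDF : HasStrictFDerivAt F D (e₀, x₀) := han.hasStrictFDerivAt
  have hB : fderiv ℂ (G e₀) x₀ = D.comp (ContinuousLinearMap.inr ℂ E C2) := by
    have h1 : HasFDerivAt (fun x : C2 => F (e₀, x)) (D.comp (ContinuousLinearMap.inr ℂ E C2)) x₀ :=
      hDF.hasFDerivAt.comp x₀ (hasFDerivAt_prodMk_right e₀ x₀)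
    exact h1.fderiv
  have hdet : (D.comp (ContinuousLinearMap.inr ℂ E C2)).det ≠ 0 := by
    rw [← hB]; exact hj
  let i : (E × C2) ≃L[ℂ] (E × C2) := (ContinuousLinearEquiv.refl ℂ E).skewProd
    ((D.comp (ContinuousLinearMap.inr ℂ E C2)).toContinuousLinearEquivOfDetNeZero hdet)
    (D.comp (ContinuousLinearMap.inl ℂ E C2))
  have hi : (i : (E × C2) →L[ℂ] (E × C2)) = (ContinuousLinearMap.fst ℂ E C2).prod D := by
    refine ContinuousLinearMap.ext fun q => ?_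
    change i q = (q.1, D q)
    have h1 : i q = (q.1, D (0, q.2) + D (q.1, 0)) := rfl
    rw [h1, ← map_add, Prod.mk_add_mk, zero_add, add_zero]
  let Ψ : E × C2 → E × C2 := fun q => (q.1, F q)
  have hΨ : HasStrictFDerivAt Ψ (i : (E × C2) →L[ℂ] (E × C2)) (e₀, x₀) := by
    rw [hi]
    exact hasStrictFDerivAt_fst.prodMk hDF
  have hΨan : AnalyticAt ℂ Ψ (e₀, x₀) := analyticAt_fst.prod han
  let R := hΨ.toOpenPartialHomeomorph Ψ
  have hR : ∀ q, R q = Ψ q := fun q => rfl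
  have ha : (e₀, x₀) ∈ R.source := hΨ.mem_toOpenPartialHomeomorph_source
  have hsymm : AnalyticAt ℂ R.symm (R (e₀, x₀)) :=
    R.analyticAt_symm' (i := i) ha hΨan hΨ.hasFDerivAt.fderiv
  have hval : R (e₀, x₀) = (e₀, G e₀ x₀) := rfl
  rw [hval] at hsymm
  refine ⟨fun q => (R.symm q).2, ?_, ?_, ?_⟩
  · exact analyticAt_snd.comp hsymm
  · have : R.symm (R (e₀, x₀)) = (e₀, x₀) := R.left_inv ha
    rw [hval] at this
    change (R.symm (e₀, G e₀ x₀)).2 = x₀
    rw [this]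
  · have htar : (e₀, G e₀ x₀) ∈ R.target := by
      rw [← hval]; exact R.map_source ha
    filter_upwards [R.open_target.mem_nhds htar] with q hq
    have h1 : Ψ (R.symm q) = q := R.right_inv hq
    have h2 : (Ψ (R.symm q)).1 = q.1 := by rw [h1]
    have h3 : (Ψ (R.symm q)).2 = q.2 := by rw [h1]
    change (R.symm q).1 = q.1 at h2
    change G (R.symm q).1 (R.symm q).2 = q.2 at h3
    rw [h2] at h3
    exact h3

theorem branch_pre_zero (g : C2 → C2) (b : C2) : pre g 0 b = {b} := by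
  ext x
  constructor
  · rintro ⟨h, -⟩
    exact h
  · intro h
    exact ⟨h, fun i hi => absurd hi (Nat.not_lt_zero i)⟩

theorem branch_pre_one (g : C2 → C2) (b x : C2) : x ∈ pre g 1 b ↔ g x = b ∧ x ∈ PP := by
  constructor
  · rintro ⟨h, h'⟩
    exact ⟨h, h' 0 Nat.one_pos⟩
  · rintro ⟨h, h'⟩
    refine ⟨h, fun i hi => ?_⟩
    have : i = 0 := by omega
    subst this
    exact h'

theorem branch_pre_succ (g : C2 → C2) (n : ℕ) (b x : C2) :
    x ∈ pre g (n + 1) b ↔ ∃ y ∈ pre g 1 b, x ∈ pre g n y := by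
  constructor
  · rintro ⟨h, h'⟩
    refine ⟨g^[n] x, ?_, rfl, fun i hi => h' i (by omega)⟩
    rw [branch_pre_one, ← Function.iterate_succ_apply' g n x]
    exact ⟨h, h' n (Nat.lt_succ_self n)⟩
  · rintro ⟨y, hy, h, h'⟩
    rw [branch_pre_one] at hy
    refine ⟨?_, fun i hi => ?_⟩
    · rw [Function.iterate_succ_apply' g n x, h, hy.1]
    · rcases Nat.lt_succ_iff_lt_or_eq.1 hi with hi | hi
      · exact h' i hi
      · rw [hi, h]
        exact hy.2

/-- branches of order one -/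
theorem branch_one (hjan : S_jan) {E : Type} [NormedAddCommGroup E] [NormedSpace ℂ E]
    [CompleteSpace E] (G : E → C2 → C2) (Ω : Set E) (hΩ : IsOpen Ω) (hS : ∀ e ∈ Ω, Sys (G e))
    (han : ∀ e ∈ Ω, ∀ x ∈ PP, AnalyticAt ℂ (fun q : E × C2 => G q.1 q.2) (e, x))
    (e₀ : E) (b₀ : C2) (he : e₀ ∈ Ω) (hb : b₀ ∈ BB)
    (hjac : ∀ x ∈ pre (G e₀) 1 b₀, jac (G e₀) x ≠ 0) :
    ∃ N : Set (E × C2), IsOpen N ∧ (e₀, b₀) ∈ N ∧ ∃ Y : Fin 4 → E × C2 → C2,
      (∀ j, AnalyticOnNhd ℂ (Y j) N) ∧ ∀ q ∈ N, q.1 ∈ Ω ∧ q.2 ∈ BB ∧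
        (∀ j, jac (G q.1) (Y j q) ≠ 0) ∧ Function.Injective (fun j => Y j q) ∧
        pre (G q.1) 1 q.2 = Set.range (fun j => Y j q) := by
  have hBB : ∀ b ∈ BB, b ∈ closedBall (0 : C2) 1 := fun b hb => ball_subset_closedBall hb
  have hb' := hBB b₀ hb
  have hcard := (hS e₀ he).four b₀ hb' hjac
  have hfin := ((hS e₀ he).fin b₀ hb').1
  have hfin' : Finite (pre (G e₀) 1 b₀) := hfin
  have hnc : Nat.card (pre (G e₀) 1 b₀) = 4 := hcard
  let ε := (Finite.equivFinOfCardEq hnc).symm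
  let x : Fin 4 → C2 := fun j => (ε j : C2)
  have hx : ∀ j, x j ∈ pre (G e₀) 1 b₀ := fun j => (ε j).2
  have hxinj : Function.Injective x := fun i j h => ε.injective (Subtype.ext h)
  have hxG : ∀ j, G e₀ (x j) = b₀ := fun j => ((branch_pre_one _ _ _).1 (hx j)).1
  have hxP : ∀ j, x j ∈ PP := fun j => ((branch_pre_one _ _ _).1 (hx j)).2
  have hxB : ∀ j, x j ∈ ball (0 : C2) (1 / 12) := fun j =>
    (hS e₀ he).inn _ (hxP j) (by rw [hxG j]; exact hb')
  have hex : ∀ j, ∃ Y : E × C2 → C2, AnalyticAt ℂ Y (e₀, b₀) ∧ Y (e₀, b₀) = x j ∧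
      ∀ᶠ q in 𝓝 (e₀, b₀), G q.1 (Y q) = q.2 := by
    intro j
    have := branch_ift G e₀ (x j) (han e₀ he _ (hxP j)) (hjac _ (hx j))
    rwa [hxG j] at this
  choose Y hYan hY0 hYG using hex
  -- everything holds near the point
  have h1 : ∀ᶠ q in 𝓝 (e₀, b₀), ∀ j, AnalyticAt ℂ (Y j) q :=
    eventually_all.2 fun j => (hYan j).eventually_analyticAt
  have h2 : ∀ᶠ q in 𝓝 (e₀, b₀), ∀ j, G q.1 (Y j q) = q.2 := eventually_all.2 hYG
  have h3 : ∀ᶠ q in 𝓝 (e₀, b₀), ∀ j, Y j q ∈ ball (0 : C2) (1 / 12) := by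
    refine eventually_all.2 fun j => (hYan j).continuousAt.eventually_mem ?_
    rw [hY0 j]
    exact isOpen_ball.mem_nhds (hxB j)
  have h4 : ∀ᶠ q : E × C2 in 𝓝 (e₀, b₀), q.1 ∈ Ω :=
    continuousAt_fst.eventually_mem (hΩ.mem_nhds he)
  have h5 : ∀ᶠ q : E × C2 in 𝓝 (e₀, b₀), q.2 ∈ BB :=
    continuousAt_snd.eventually_mem (isOpen_ball.mem_nhds hb)
  have h6 : ∀ᶠ q : E × C2 in 𝓝 (e₀, b₀), ∀ j, jac (G q.1) (Y j q) ≠ 0 := by
    refine eventually_all.2 fun j => ?_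
    have hc1 : ContinuousAt (fun q : E × C2 => jac (G q.1) q.2) (e₀, Y j (e₀, b₀)) := by
      rw [hY0 j]
      exact (hjan E G e₀ (x j) (han e₀ he _ (hxP j))).2.continuousAt
    have hc2 : ContinuousAt (fun q : E × C2 => (q.1, Y j q)) (e₀, b₀) :=
      continuousAt_fst.prodMk (hYan j).continuousAt
    have hc3 : ContinuousAt (fun q : E × C2 => jac (G q.1) (Y j q)) (e₀, b₀) :=
      ContinuousAt.comp (g := fun q : E × C2 => jac (G q.1) q.2) (f := fun q : E × C2 => (q.1, Y j q))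
        hc1 hc2
    have hne : jac (G (e₀, b₀).1) (Y j (e₀, b₀)) ≠ 0 := by
      rw [hY0 j]
      exact hjac _ (hx j)
    exact hc3.eventually_ne hne
  have h7 : ∀ᶠ q : E × C2 in 𝓝 (e₀, b₀), ∀ i j, i ≠ j → Y i q ≠ Y j q := by
    refine eventually_all.2 fun i => eventually_all.2 fun j => ?_
    by_cases hij : i = j
    · exact Eventually.of_forall fun q h => absurd hij h
    · have hne : Y i (e₀, b₀) - Y j (e₀, b₀) ≠ 0 := by
        rw [hY0 i, hY0 j, sub_ne_zero]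
        exact fun h => hij (hxinj h)
      have hc : ContinuousAt (fun q => Y i q - Y j q) (e₀, b₀) :=
        (hYan i).continuousAt.sub (hYan j).continuousAt
      filter_upwards [hc.eventually_ne hne] with q hq _ h
      exact hq (by rw [h, sub_self])
  obtain ⟨N, hN, hNo, hNm⟩ := _root_.eventually_nhds_iff.1
    (h1.and (h2.and (h3.and (h4.and (h5.and (h6.and h7))))))
  refine ⟨N, hNo, hNm, Y, fun j q hq => (hN q hq).1 j, fun q hq => ?_⟩
  obtain ⟨-, k2, k3, k4, k5, k6, k7⟩ := hN q hq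
  have hinj : Function.Injective (fun j => Y j q) := by
    intro i j h
    by_contra hne
    exact k7 i j hne h
  refine ⟨k4, k5, k6, hinj, ?_⟩
  have hsub : Set.range (fun j => Y j q) ⊆ pre (G q.1) 1 q.2 := by
    rintro _ ⟨j, rfl⟩
    rw [branch_pre_one]
    exact ⟨k2 j, ball_subset_closedBall (k3 j)⟩
  have hf := (hS q.1 k4).fin q.2 (hBB _ k5)
  refine (Set.eq_of_subset_of_ncard_le hsub ?_ hf.1).symm
  have hr : (Set.range (fun j => Y j q)).ncard = 4 := by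
    rw [← Set.image_univ, Set.ncard_image_of_injective _ hinj, Set.ncard_univ, Nat.card_fin]
  rw [hr]
  exact hf.2

/-- TARGETS -/
theorem t_branch (hc : S_card) (hj : S_jan) (ha : S_avgsucc) : S_branch := by
  intro E _ _ _ G Ω hΩ hS han n
  induction n with
  | zero =>
    intro e₀ b₀ he hR
    refine ⟨Ω ×ˢ BB, hΩ.prod isOpen_ball, ⟨he, hR.1⟩, fun _ q => q.2,
      fun _ q _ => analyticAt_snd, fun q hq => ⟨hq.1, ⟨hq.2, fun k h1 h2 => absurd h1 (by omega)⟩,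
        ?_, ?_⟩⟩
    · intro i j _
      have hs : Subsingleton (Fin (4 ^ 0)) := by rw [pow_zero]; infer_instance
      exact hs.elim i j
    · rw [branch_pre_zero]
      have hne : Nonempty (Fin (4 ^ 0)) := ⟨⟨0, by norm_num⟩⟩
      exact Set.range_const.symm
  | succ n ih =>
    intro e₀ b₀ he hR
    have hS0 := ha (G e₀) (hS e₀ he) n b₀ hR
    obtain ⟨N₁, hN₁o, hN₁m, Y, hYan, hYq⟩ := branch_one hj G Ω hΩ hS han e₀ b₀ he hR.1
      (fun x hx => hR.2 1 le_rfl (by omega) x hx)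
    have hY0 : ∀ j, Reg (G e₀) n (Y j (e₀, b₀)) := by
      intro j
      apply hS0.1
      have := (hYq _ hN₁m).2.2.2.2
      change pre (G e₀) 1 b₀ = _ at this
      rw [this]
      exact ⟨j, rfl⟩
    choose Nj hNjo hNjm y hyan hyq using fun j => ih e₀ (Y j (e₀, b₀)) he (hY0 j)
    let N : Set (E × C2) := N₁ ∩ ⋂ j, (N₁ ∩ (fun q : E × C2 => (q.1, Y j q)) ⁻¹' (Nj j))
    have hmap : ∀ j, AnalyticOnNhd ℂ (fun q : E × C2 => (q.1, Y j q)) N₁ := fun j q hq =>
      analyticAt_fst.prod (hYan j q hq)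
    have hNo : IsOpen N := by
      refine hN₁o.inter (isOpen_iInter_of_finite fun j => ?_)
      exact (hmap j).continuousOn.isOpen_inter_preimage hN₁o (hNjo j)
    have hN1 : ∀ q ∈ N, q ∈ N₁ := fun q hq => hq.1
    have hN2 : ∀ q ∈ N, ∀ j, (q.1, Y j q) ∈ Nj j := fun q hq j => (Set.mem_iInter.1 hq.2 j).2
    let σ : Fin (4 ^ (n + 1)) ≃ Fin 4 × Fin (4 ^ n) :=
      (finCongr (pow_succ' 4 n)).trans finProdFinEquiv.symm
    refine ⟨N, hNo, ⟨hN₁m, Set.mem_iInter.2 fun j => ⟨hN₁m, hNjm j⟩⟩,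
      fun i q => y (σ i).1 (σ i).2 (q.1, Y (σ i).1 q), fun i q hq => ?_, fun q hq => ?_⟩
    · exact (hyan (σ i).1 (σ i).2 _ (hN2 q hq _)).comp_of_eq (hmap (σ i).1 q (hN1 q hq)) rfl
    · obtain ⟨k1, k2, k3, k4, k5⟩ := hYq q (hN1 q hq)
      have hR' : ∀ j, Reg (G q.1) n (Y j q) := fun j => (hyq j _ (hN2 q hq j)).2.1
      have hinj' : ∀ j, Function.Injective (fun i => y j i (q.1, Y j q)) := fun j =>
        (hyq j _ (hN2 q hq j)).2.2.1
      have hpre' : ∀ j, pre (G q.1) n (Y j q) = Set.range (fun i => y j i (q.1, Y j q)) := fun j =>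
        (hyq j _ (hN2 q hq j)).2.2.2
      refine ⟨k1, ⟨k2, fun k hk1 hk2 x hx => ?_⟩, ?_, ?_⟩
      · obtain ⟨k', rfl⟩ : ∃ k', k = k' + 1 := ⟨k - 1, by omega⟩
        rw [branch_pre_succ] at hx
        obtain ⟨z, hz, hxz⟩ := hx
        rw [k5] at hz
        obtain ⟨j, rfl⟩ := hz
        by_cases hk' : k' = 0
        · subst hk'
          rw [branch_pre_zero] at hxz
          rw [Set.mem_singleton_iff.1 hxz]
          exact k3 j
        · exact (hR' j).2 k' (by omega) (by omega) x hxz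
      · intro i i' h
        change y (σ i).1 (σ i).2 (q.1, Y (σ i).1 q) = y (σ i').1 (σ i').2 (q.1, Y (σ i').1 q) at h
        have e1 : y (σ i).1 (σ i).2 (q.1, Y (σ i).1 q) ∈ pre (G q.1) n (Y (σ i).1 q) := by
          rw [hpre']; exact ⟨_, rfl⟩
        have e2 : y (σ i').1 (σ i').2 (q.1, Y (σ i').1 q) ∈ pre (G q.1) n (Y (σ i').1 q) := by
          rw [hpre']; exact ⟨_, rfl⟩
        rw [← h] at e2
        have e3 : Y (σ i).1 q = Y (σ i').1 q := e1.1.symm.trans e2.1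
        have e4 : (σ i).1 = (σ i').1 := k4 e3
        apply σ.injective
        refine Prod.ext e4 ?_
        rw [← e4] at h
        exact hinj' (σ i).1 h
      · ext x
        rw [branch_pre_succ, k5]
        constructor
        · rintro ⟨_, ⟨j, rfl⟩, hx⟩
          rw [hpre' j] at hx
          obtain ⟨i, rfl⟩ := hx
          refine ⟨σ.symm (j, i), ?_⟩
          simp only [Equiv.apply_symm_apply]
        · rintro ⟨i, rfl⟩
          refine ⟨Y (σ i).1 q, ⟨_, rfl⟩, ?_⟩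
          rw [hpre']
          exact ⟨_, rfl⟩

theorem t_branch1 (h : S_branch) : S_branch1 := by
  intro g hg n b₀ hR
  obtain ⟨N, hNo, hNm, y, hyan, hyq⟩ := h ℂ (fun _ => g) Set.univ isOpen_univ (fun _ _ => hg)
    (fun e _ x hx => (hg.an x hx).comp_of_eq (analyticAt_snd (p := (e, x))) rfl) n 0 b₀
    (Set.mem_univ _) hR
  have hmap : ∀ b : C2, AnalyticAt ℂ (fun b : C2 => ((0 : ℂ), b)) b := fun b =>
    analyticAt_const.prod analyticAt_id
  refine ⟨(fun b : C2 => ((0 : ℂ), b)) ⁻¹' N, ?_, hNm, fun i b => y i (0, b), ?_, ?_⟩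
  · exact hNo.preimage (by fun_prop)
  · intro i b hb
    exact (hyan i _ hb).comp_of_eq (hmap b) rfl
  · intro b hb
    exact (hyq _ hb).2

end

end Pool.Agent.H429
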