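import Mathlib

open MeasureTheory Filter Topology Metric

namespace Pool.Agent.H429

noncomputable section

/-- The affine chart. -/
abbrev C2 : Type := ℂ × ℂ

/-- The closed bidisc `P` of radius `1/12`. -/
def PP : Set C2 := closedBall (0 : C2) (1 / 12)

/-- The open unit bidisc `B`. -/
def BB : Set C2 := ball (0 : C2) 1

/-- `x` and `y` are vertically related. -/
def VRel (x y : C2) : Prop := ‖x.1 - y.1‖ ≤ ‖x.2 - y.2‖ / 20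

/-- The preimages of order `n` of `b` along `P`. -/
def pre (g : C2 → C2) (n : ℕ) (b : C2) : Set C2 := {x | g^[n] x = b ∧ ∀ i < n, g^[i] x ∈ PP}

/-- The complex Jacobian determinant. -/
def jac (g : C2 → C2) (x : C2) : ℂ := (fderiv ℂ g x).det

/-- The transfer operator: `4⁻ⁿ` times the sum over the preimages of order `n`. -/
def avg (g : C2 → C2) (n : ℕ) (φ : C2 → ℝ) (b : C2) : ℝ := (∑ᶠ x ∈ pre g n b, φ x) / 4 ^ n

/-- `b` is a regular value up to order `n`. -/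
def Reg (g : C2 → C2) (n : ℕ) (b : C2) : Prop :=
  b ∈ BB ∧ ∀ k, 1 ≤ k → k ≤ n → ∀ x ∈ pre g k b, jac g x ≠ 0

/-- The set of points of `B` in the `k`-th image of the critical set. -/
def VV (g : C2 → C2) (k : ℕ) : Set C2 := {b | b ∈ BB ∧ ∃ x ∈ pre g k b, jac g x = 0}

/-- The abstract properties of the maps in the open set `U`, near the set of bounded orbits. -/
structure Sys (g : C2 → C2) : Prop where
  an : ∀ x ∈ PP, AnalyticAt ℂ g x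
  inn : ∀ x ∈ PP, g x ∈ closedBall (0 : C2) 1 → x ∈ ball (0 : C2) (1 / 12)
  cone : ∀ x ∈ PP, ∀ v : C2, ‖v.1‖ ≤ ‖v.2‖ / 20 →
    ‖(fderiv ℂ g x v).1‖ ≤ ‖(fderiv ℂ g x v).2‖ / 20 ∧ 2 * ‖v.2‖ ≤ ‖(fderiv ℂ g x v).2‖
  vrel : ∀ x ∈ PP, ∀ y ∈ PP, VRel x y →
    VRel (g x) (g y) ∧ 2 * ‖x.2 - y.2‖ ≤ ‖(g x).2 - (g y).2‖
  vrel' : ∀ x ∈ PP, ∀ y ∈ PP, ∀ δ : ℝ, 0 ≤ δ → ‖x.1 - y.1‖ ≤ ‖x.2 - y.2‖ / 20 + δ →
    ‖(g x).1 - (g y).1‖ ≤ ‖(g x).2 - (g y).2‖ / 20 + 10 ^ 5 * δ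
  lip : ∀ x ∈ PP, ∀ y ∈ PP, ‖g x - g y‖ ≤ 2 * 10 ^ 7 * ‖x - y‖
  fin : ∀ b ∈ closedBall (0 : C2) 1, (pre g 1 b).Finite ∧ (pre g 1 b).ncard ≤ 4
  four : ∀ b ∈ closedBall (0 : C2) 1, (∀ x ∈ pre g 1 b, jac g x ≠ 0) → (pre g 1 b).ncard = 4
  spread : ∀ b ∈ closedBall (0 : C2) 1, ∀ S ⊆ pre g 1 b,
    (∀ x ∈ S, ∀ y ∈ S, ‖x.1 - y.1‖ ≤ 1 / 50) → S.ncard ≤ 3
  crit : ∀ x ∈ PP, g x ∈ closedBall (0 : C2) 1 → jac g x = 0 → x ∈ ball (0 : C2) (1 / 200000)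
  jz : ∀ x ∈ closedBall (0 : C2) (1 / 100000), ∀ y ∈ closedBall (0 : C2) (1 / 100000),
    ‖jac g x - jac g y + 8 * 10 ^ 10 * (x.1 - y.1)‖ ≤
      10 ^ 10 * ‖x.1 - y.1‖ + 10 ^ 9 * ‖x.2 - y.2‖

/-- `m` is the limit distribution of the preimages along `P`. -/
structure Equi (g : C2 → C2) (m : Measure C2) : Prop where
  prob : IsProbabilityMeasure m
  supp : m PPᶜ = 0
  conv : ∀ φ : C2 → ℝ, ContinuousOn φ PP →
    ∀ᵐ b : C2, b ∈ BB → Tendsto (fun n => avg g n φ b) atTop (𝓝 (∫ x, φ x ∂m))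

/-- `ball b r` is contained in `B` and misses all the images of the critical set. -/
def Away (g : C2 → C2) (b : C2) (r : ℝ) : Prop :=
  0 < r ∧ ball b r ⊆ BB ∧ ∀ j, 1 ≤ j → Disjoint (ball b r) (VV g j)

/-- The first component of `(D gⁿ)⁻¹ (1, 0)`. -/
def aa (g : C2 → C2) (n : ℕ) (x : C2) : ℂ := ((fderiv ℂ g^[n] x).inverse (1, 0)).1

end

end Pool.Agent.H429
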