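import Pool.Agent.H429.Defs
import Pool.Agent.H429.Core

open MeasureTheory Filter Topology Metric

namespace Pool.Agent.H429

noncomputable section

/-! ### The monomials of degree two -/

def m200 : Mon 2 := ⟨![2, 0, 0], by decide⟩
def m020 : Mon 2 := ⟨![0, 2, 0], by decide⟩
def m002 : Mon 2 := ⟨![0, 0, 2], by decide⟩
def m110 : Mon 2 := ⟨![1, 1, 0], by decide⟩
def m101 : Mon 2 := ⟨![1, 0, 1], by decide⟩
def m011 : Mon 2 := ⟨![0, 1, 1], by decide⟩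

/-- The chart `(z, w) ↦ (z, w, 1)`. -/
def ch (x : C2) : Vec := ![x.1, x.2, 1]

/-- The lift in the chart. -/
def FF (c : Coef 2) (x : C2) : Vec := poly c (ch x)

/-- The map in the chart. -/
def GG (c : Coef 2) (x : C2) : C2 := (FF c x 0 / FF c x 2, FF c x 1 / FF c x 2)

/-! ### Elimination for the equation `GG c (z, w) = b`

`C1 = F₀ - b₁ F₂ = A020 w² + (A110 z + A011) w + (A200 z² + A101 z + A002)` and
`C2 = F₁ - b₂ F₂ = B020 w² + (B110 z + B011) w + (B200 z² + B101 z + B002)`. -/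

def cA (c : Coef 2) (b : C2) (m : Mon 2) : ℂ := c 0 m - b.1 * c 2 m
def cB (c : Coef 2) (b : C2) (m : Mon 2) : ℂ := c 1 m - b.2 * c 2 m

/-- `X(z) = x2 z² + x1 z + x0`. -/
def ex2 (c : Coef 2) (b : C2) : ℂ := cA c b m020 * cB c b m200 - cB c b m020 * cA c b m200
def ex1 (c : Coef 2) (b : C2) : ℂ := cA c b m020 * cB c b m101 - cB c b m020 * cA c b m101
def ex0 (c : Coef 2) (b : C2) : ℂ := cA c b m020 * cB c b m002 - cB c b m020 * cA c b m002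
/-- `Y(z) = y1 z + y0`. -/
def ey1 (c : Coef 2) (b : C2) : ℂ := cA c b m020 * cB c b m110 - cB c b m020 * cA c b m110
def ey0 (c : Coef 2) (b : C2) : ℂ := cA c b m020 * cB c b m011 - cB c b m020 * cA c b m011
/-- `Z(z) = z3 z³ + z2 z² + z1 z + z0`. -/
def ez3 (c : Coef 2) (b : C2) : ℂ := cA c b m110 * cB c b m200 - cB c b m110 * cA c b m200
def ez2 (c : Coef 2) (b : C2) : ℂ := cA c b m110 * cB c b m101 + cA c b m011 * cB c b m200 -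
  cB c b m110 * cA c b m101 - cB c b m011 * cA c b m200
def ez1 (c : Coef 2) (b : C2) : ℂ := cA c b m110 * cB c b m002 + cA c b m011 * cB c b m101 -
  cB c b m110 * cA c b m002 - cB c b m011 * cA c b m101
def ez0 (c : Coef 2) (b : C2) : ℂ := cA c b m011 * cB c b m002 - cB c b m011 * cA c b m002
/-- `Q = X² - Y Z = q4 z⁴ + q3 z³ + q2 z² + q1 z + q0`. -/
def eq4 (c : Coef 2) (b : C2) : ℂ := ex2 c b ^ 2 - ey1 c b * ez3 c b
def eq3 (c : Coef 2) (b : C2) : ℂ := 2 * ex2 c b * ex1 c b - ey1 c b * ez2 c b - ey0 c b * ez3 c b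
def eq2 (c : Coef 2) (b : C2) : ℂ := ex1 c b ^ 2 + 2 * ex2 c b * ex0 c b - ey1 c b * ez1 c b -
  ey0 c b * ez2 c b
def eq1 (c : Coef 2) (b : C2) : ℂ := 2 * ex1 c b * ex0 c b - ey1 c b * ez0 c b - ey0 c b * ez1 c b
def eq0 (c : Coef 2) (b : C2) : ℂ := ex0 c b ^ 2 - ey0 c b * ez0 c b

/-- The open conditions which define the open set `U` of maps. -/
structure Good (c : Coef 2) : Prop where
  u1 : ∀ x ∈ closedBall (0 : C2) 1, FF c x 2 ≠ 0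
  u2 : ∀ v : Vec, v ≠ 0 → ‖v 2‖ ≤ 12 * max ‖v 0‖ ‖v 1‖ → ‖poly c v 2‖ < max ‖poly c v 0‖ ‖poly c v 1‖
  u3a : ∀ x ∈ PP, ‖(fderiv ℂ (GG c) x (1, 0)).1‖ < 1000
  u3b : ∀ x ∈ PP, ‖(fderiv ℂ (GG c) x (0, 1)).1‖ < 2 * 10 ^ 5
  u3c : ∀ x ∈ PP, ‖(fderiv ℂ (GG c) x (1, 0)).2‖ < 2 * 10 ^ 6
  u3d : ∀ x ∈ PP, ‖(fderiv ℂ (GG c) x (0, 1)).2 - 10 ^ 7‖ < 10 ^ 5
  u4a : ∀ b ∈ closedBall (0 : C2) 1, cA c b m020 ≠ 0
  u4b : ∀ b ∈ closedBall (0 : C2) 1, ∀ z ∈ closedBall (0 : ℂ) (1 / 12), ey1 c b * z + ey0 c b ≠ 0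
  u4c : ∀ b ∈ closedBall (0 : C2) 1, ‖eq3 c b‖ < ‖eq4 c b‖ / 1000
  u4d : ∀ b ∈ closedBall (0 : C2) 1, ‖eq2 c b + eq4 c b / 250‖ < ‖eq4 c b‖ / 1000
  u5a : ∀ x ∈ PP, GG c x ∈ closedBall (0 : C2) 1 → jac (GG c) x = 0 → x ∈ ball (0 : C2) (1 / 200000)
  u5b : ∀ x ∈ closedBall (0 : C2) (1 / 100000),
    ‖fderiv ℂ (jac (GG c)) x (1, 0) + 8 * 10 ^ 10‖ < 10 ^ 10
  u5c : ∀ x ∈ closedBall (0 : C2) (1 / 100000), ‖fderiv ℂ (jac (GG c)) x (0, 1)‖ < 10 ^ 9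
  u6 : ∀ v w : Vec, ‖v‖ = 1 → ‖w‖ = 1 → ‖v 2‖ ≤ max ‖v 0‖ ‖v 1‖ → ‖w 2‖ ≤ max ‖w 0‖ ‖w 1‖ →
    2 * ‖(fderiv ℂ (poly c) v).det‖ ^ 2 < ‖poly c w‖ ^ 6

/-- The explicit family `(z, w) ↦ (10⁶ w² - 4000 w + l, 10⁷ (w - z²))`. -/
def cc (l : ℂ) : Coef 2 := fun i m =>
  if i = 0 then
    (if m = m020 then 10 ^ 6 else if m = m011 then -4000 else if m = m002 then l else 0)
  else if i = 1 then (if m = m011 then 10 ^ 7 else if m = m200 then -10 ^ 7 else 0)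
  else (if m = m002 then 1 else 0)

lemma ch_ne_zero (x : C2) : ch x ≠ 0 := by
  intro h
  have := congrFun h 2
  simp [ch] at this

/-- The chart, with values in the projective plane. -/
def io (x : C2) : P2 := Projectivization.mk ℂ (ch x) (ch_ne_zero x)

end

end Pool.Agent.H429
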