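import Pool.Agent.H429.Stmts3

open MeasureTheory Filter Topology Metric

namespace Pool.Agent.H429

noncomputable section

/-- Homogeneity. -/
lemma chartpre_hom {d : ℕ} (c : Coef d) (a : ℂ) (v : Vec) : poly c (a • v) = a ^ d • poly c v := by
  funext i
  simp only [poly, Pi.smul_apply, smul_eq_mul, Finset.mul_sum]
  refine Finset.sum_congr rfl fun m _ => ?_
  have h1 : ∏ j, (a * v j) ^ (m.1 j : ℕ) = a ^ d * ∏ j, v j ^ (m.1 j : ℕ) := by
    simp only [mul_pow, Finset.prod_mul_distrib]
    congr 1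
    rw [Finset.prod_pow_eq_pow_sum, m.2]
  rw [h1]; ring

/-- The self-map on a class. -/
lemma chartpre_selfMap_mk {d : ℕ} (c : Lift d) (p : Vec) (hp : p ≠ 0) :
    selfMap c (Projectivization.mk ℂ p hp) =
      Projectivization.mk ℂ (poly c.1 p) (fun h => hp (c.2 _ h)) := by
  unfold selfMap
  rw [Projectivization.mk_eq_mk_iff']
  obtain ⟨a, ha⟩ := Projectivization.exists_smul_eq_mk_rep ℂ p hp
  refine ⟨(a : ℂ) ^ d, ?_⟩
  rw [← chartpre_hom]
  congr 1

/-- One step of the lift. -/
lemma chartpre_step (c : Lift 2) (y : P2) (q : Vec) (hq : q ≠ 0) :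
    selfMap c y = Projectivization.mk ℂ q hq ↔
      ∃ (p : Vec) (hp : p ≠ 0), y = Projectivization.mk ℂ p hp ∧ poly c.1 p = q := by
  constructor
  · intro h
    unfold selfMap at h
    rw [Projectivization.mk_eq_mk_iff'] at h
    obtain ⟨a, ha⟩ := h
    -- a • q = poly y.rep
    have ha0 : a ≠ 0 := by
      rintro rfl
      rw [zero_smul] at ha
      exact y.rep_nonzero (c.2 _ ha.symm)
    obtain ⟨s, hs⟩ := IsAlgClosed.exists_pow_nat_eq (a⁻¹) (n := 2) (by norm_num)
    have hs0 : s ≠ 0 := by
      rintro rfl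
      rw [zero_pow (by norm_num)] at hs
      exact inv_ne_zero ha0 hs.symm
    refine ⟨s • y.rep, smul_ne_zero hs0 y.rep_nonzero, ?_, ?_⟩
    · conv_lhs => rw [← y.mk_rep]
      rw [Projectivization.mk_eq_mk_iff']
      refine ⟨s⁻¹, ?_⟩
      rw [smul_smul, inv_mul_cancel₀ hs0, one_smul]
    · rw [chartpre_hom, hs, ← ha, smul_smul, inv_mul_cancel₀ ha0, one_smul]
  · rintro ⟨p, hp, rfl, rfl⟩
    exact chartpre_selfMap_mk c p hp

/-- TARGETS -/
theorem t_lift (_hp : S_poly) : S_lift := by
  intro c n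
  induction n with
  | zero =>
    intro y v hv
    simp only [Function.iterate_zero, id_eq]
    constructor
    · intro h
      exact ⟨v, hv, h, rfl⟩
    · rintro ⟨p, hp, h1, h2⟩
      subst h2
      exact h1
  | succ n ih =>
    intro y v hv
    rw [Function.iterate_succ_apply, ih]
    constructor
    · rintro ⟨q, hq, h1, h2⟩
      obtain ⟨p, hp, h3, h4⟩ := (chartpre_step c y q hq).1 h1
      refine ⟨p, hp, h3, ?_⟩
      rw [Function.iterate_succ_apply, h4, h2]
    · rintro ⟨p, hp, h1, h2⟩
      rw [Function.iterate_succ_apply] at h2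
      have hq : poly c.1 p ≠ 0 := fun h => hp (c.2 _ h)
      exact ⟨poly c.1 p, hq, (chartpre_step c y _ hq).2 ⟨p, hp, h1, rfl⟩, h2⟩

lemma chartpre_io_injective : Function.Injective io := by
  intro x y h
  unfold io at h
  rw [Projectivization.mk_eq_mk_iff'] at h
  obtain ⟨a, ha⟩ := h
  have h2 := congrFun ha 2
  have h0 := congrFun ha 0
  have h1 := congrFun ha 1
  simp [ch] at h0 h1 h2
  subst h2
  simp at h0 h1
  exact Prod.ext h0.symm h1.symm

lemma chartpre_io_continuous : Continuous io := by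
  have h1 : Continuous (Projectivization.mk' ℂ : {v : Vec // v ≠ 0} → P2) :=
    continuous_coinduced_rng
  have h2 : Continuous (fun x : C2 => (⟨ch x, ch_ne_zero x⟩ : {v : Vec // v ≠ 0})) := by
    refine Continuous.subtype_mk ?_ _
    refine continuous_pi fun i => ?_
    fin_cases i
    · exact continuous_fst
    · exact continuous_snd
    · exact continuous_const
  exact h1.comp h2

lemma chartpre_mem_PP (x : C2) : x ∈ PP ↔ ‖x.1‖ ≤ 1 / 12 ∧ ‖x.2‖ ≤ 1 / 12 := by
  unfold PP
  rw [mem_closedBall, dist_zero_right, Prod.norm_def, max_le_iff]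

lemma chartpre_mem_ball1 (x : C2) : x ∈ closedBall (0 : C2) 1 ↔ ‖x.1‖ ≤ 1 ∧ ‖x.2‖ ≤ 1 := by
  rw [mem_closedBall, dist_zero_right, Prod.norm_def, max_le_iff]

lemma chartpre_PP_sub (x : C2) (hx : x ∈ PP) : x ∈ closedBall (0 : C2) 1 := by
  rw [chartpre_mem_PP] at hx
  rw [chartpre_mem_ball1]
  exact ⟨hx.1.trans (by norm_num), hx.2.trans (by norm_num)⟩

/-- A point of the chart maps to a point of the chart. -/
lemma chartpre_forward (c : Lift 2) (hg : Good c.1) (x' : C2) (hx' : x' ∈ PP) :
    selfMap c (io x') = io (GG c.1 x') := by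
  have hF : FF c.1 x' 2 ≠ 0 := hg.u1 x' (chartpre_PP_sub x' hx')
  unfold io
  rw [chartpre_selfMap_mk, Projectivization.mk_eq_mk_iff']
  refine ⟨FF c.1 x' 2, ?_⟩
  funext i
  fin_cases i
  · simp [ch, GG, FF] at hF ⊢
    field_simp
  · simp [ch, GG, FF] at hF ⊢
    field_simp
  · simp [ch, GG, FF]

/-- The preimages of a point of the closed unit bidisc are in the small bidisc. -/
lemma chartpre_backward (c : Lift 2) (hg : Good c.1) (y : P2) (x : C2)
    (hx : x ∈ closedBall (0 : C2) 1) (h : selfMap c y = io x) :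
    ∃ x' ∈ PP, y = io x' ∧ GG c.1 x' = x := by
  obtain ⟨p, hp, hyp, hpq⟩ := (chartpre_step c y (ch x) (ch_ne_zero x)).1 h
  have e0 : poly c.1 p 0 = x.1 := by rw [hpq]; simp [ch]
  have e1 : poly c.1 p 1 = x.2 := by rw [hpq]; simp [ch]
  have e2 : poly c.1 p 2 = 1 := by rw [hpq]; simp [ch]
  rw [chartpre_mem_ball1] at hx
  have hlt : ¬ (‖p 2‖ ≤ 12 * max ‖p 0‖ ‖p 1‖) := by
    intro hle
    have h3 := hg.u2 p hp hle
    rw [e0, e1, e2, norm_one] at h3
    have : max ‖x.1‖ ‖x.2‖ ≤ 1 := max_le hx.1 hx.2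
    linarith
  push Not at hlt
  have hm0 : 0 ≤ max ‖p 0‖ ‖p 1‖ := le_max_of_le_left (norm_nonneg _)
  have hp2n : 0 < ‖p 2‖ := by linarith
  have hp2 : p 2 ≠ 0 := norm_pos_iff.1 hp2n
  have b0 : ‖p 0‖ ≤ max ‖p 0‖ ‖p 1‖ := le_max_left _ _
  have b1 : ‖p 1‖ ≤ max ‖p 0‖ ‖p 1‖ := le_max_right _ _
  have hx'P : ((p 0 / p 2, p 1 / p 2) : C2) ∈ PP := by
    rw [chartpre_mem_PP]
    simp only [norm_div]
    constructor
    · rw [div_le_iff₀ hp2n]; linarith
    · rw [div_le_iff₀ hp2n]; linarith
  have hyio : y = io (p 0 / p 2, p 1 / p 2) := by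
    rw [hyp]
    unfold io
    rw [Projectivization.mk_eq_mk_iff']
    refine ⟨p 2, ?_⟩
    funext i
    fin_cases i
    · simp [ch]; field_simp
    · simp [ch]; field_simp
    · simp [ch]
  refine ⟨_, hx'P, hyio, ?_⟩
  have h4 := chartpre_forward c hg _ hx'P
  rw [← hyio, h] at h4
  exact (chartpre_io_injective h4).symm

theorem t_chart (_hp : S_poly) : S_chart := by
  refine ⟨chartpre_io_injective, chartpre_io_continuous, ?_⟩
  intro c hg n
  have key : ∀ b : C2, b ∈ closedBall (0 : C2) 1 →
      {y : P2 | (selfMap c)^[n] y = io b} = io '' pre (GG c.1) n b := by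
    induction n with
    | zero =>
      intro b _
      ext y
      simp only [Function.iterate_zero, id_eq, Set.mem_ofPred_eq, Set.mem_image, pre]
      constructor
      · intro h
        exact ⟨b, ⟨rfl, fun i hi => absurd hi (Nat.not_lt_zero i)⟩, h.symm⟩
      · rintro ⟨x, ⟨rfl, _⟩, rfl⟩
        rfl
    | succ n ih =>
      intro b hb
      ext y
      have h1 : (y ∈ {y : P2 | (selfMap c)^[n + 1] y = io b}) ↔
          selfMap c y ∈ io '' pre (GG c.1) n b := by
        rw [← ih b hb]
        simp only [Set.mem_ofPred_eq, Function.iterate_succ_apply]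
      rw [h1]
      constructor
      · rintro ⟨x, hx, hxy⟩
        have hxB : x ∈ closedBall (0 : C2) 1 := by
          rcases Nat.eq_zero_or_pos n with h0 | h0
          · subst h0
            have := hx.1
            simp only [Function.iterate_zero, id_eq] at this
            rw [this]; exact hb
          · have := hx.2 0 h0
            simp only [Function.iterate_zero, id_eq] at this
            exact chartpre_PP_sub x this
        obtain ⟨x', hx'P, hy, hG⟩ := chartpre_backward c hg y x hxB hxy.symm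
        refine ⟨x', ⟨?_, ?_⟩, hy.symm⟩
        · rw [Function.iterate_succ_apply, hG]; exact hx.1
        · intro i hi
          rcases i with _ | i
          · exact hx'P
          · rw [Function.iterate_succ_apply, hG]
            exact hx.2 i (Nat.lt_of_succ_lt_succ hi)
      · rintro ⟨x', hx', rfl⟩
        have hx'P : x' ∈ PP := by
          have := hx'.2 0 (Nat.succ_pos n)
          simpa only [Function.iterate_zero, id_eq] using this
        refine ⟨GG c.1 x', ⟨?_, ?_⟩, (chartpre_forward c hg x' hx'P).symm⟩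
        · have := hx'.1
          rwa [Function.iterate_succ_apply] at this
        · intro i hi
          have := hx'.2 (i + 1) (Nat.succ_lt_succ hi)
          rwa [Function.iterate_succ_apply] at this
  intro b hb
  exact key b (ball_subset_closedBall hb)

end

end Pool.Agent.H429
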