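import Pool.Agent.H429.Stmts3

open MeasureTheory Filter Topology Metric

namespace Pool.Agent.H429

noncomputable section

/-- the derivative of an iterate along `PP`, away from the critical set -/
theorem cone_iter {g : C2 → C2} (hg : Sys g) (n : ℕ) : ∀ x : C2, (∀ i < n, g^[i] x ∈ PP) →
    (∀ i < n, jac g (g^[i] x) ≠ 0) → DifferentiableAt ℂ g^[n] x ∧
      (∃ L : C2 ≃L[ℂ] C2, (L : C2 →L[ℂ] C2) = fderiv ℂ g^[n] x) ∧
      ∀ v : C2, ‖v.1‖ ≤ ‖v.2‖ / 20 → ‖(fderiv ℂ g^[n] x v).1‖ ≤ ‖(fderiv ℂ g^[n] x v).2‖ / 20 ∧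
        2 ^ n * ‖v.2‖ ≤ ‖(fderiv ℂ g^[n] x v).2‖ := by
  induction n with
  | zero =>
    intro x _ _
    have h0 : fderiv ℂ g^[0] x = ContinuousLinearMap.id ℂ C2 := by
      rw [Function.iterate_zero]
      exact fderiv_id
    refine ⟨differentiableAt_id, ⟨ContinuousLinearEquiv.refl ℂ C2, ?_⟩, fun v hv => ?_⟩
    · rw [h0]
      rfl
    · rw [h0]
      refine ⟨hv, ?_⟩
      simp
  | succ n ih =>
    intro x hP hj
    obtain ⟨h1, ⟨L, hL⟩, h2⟩ := ih x (fun i hi => hP i (hi.trans (Nat.lt_succ_self n)))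
      (fun i hi => hj i (hi.trans (Nat.lt_succ_self n)))
    have hx : g^[n] x ∈ PP := hP n (Nat.lt_succ_self n)
    have hg1 : DifferentiableAt ℂ g (g^[n] x) := (hg.an _ hx).differentiableAt
    have hd : (fderiv ℂ g (g^[n] x)).det ≠ 0 := hj n (Nat.lt_succ_self n)
    have hcomp : fderiv ℂ g^[n + 1] x = (fderiv ℂ g (g^[n] x)).comp (fderiv ℂ g^[n] x) := by
      rw [Function.iterate_succ']
      exact fderiv_comp x hg1 h1
    refine ⟨?_, ⟨L.trans ((fderiv ℂ g (g^[n] x)).toContinuousLinearEquivOfDetNeZero hd), ?_⟩,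
      fun v hv => ?_⟩
    · rw [Function.iterate_succ']
      exact hg1.comp x h1
    · rw [hcomp, ← hL]
      exact ContinuousLinearMap.ext fun v => rfl
    · rw [hcomp]
      obtain ⟨h3, h4⟩ := h2 v hv
      obtain ⟨h5, h6⟩ := hg.cone _ hx _ h3
      refine ⟨h5, le_trans ?_ h6⟩
      rw [pow_succ']
      linarith

theorem cone_norm {v : C2} (h : ¬ ‖v.1‖ ≤ ‖v.2‖ / 20) : ‖v‖ ≤ 20 * ‖v.1‖ := by
  rw [Prod.norm_def]
  refine max_le ?_ ?_
  · have := norm_nonneg v.1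
    linarith
  · rw [not_le] at h
    linarith

/-- TARGET -/
theorem t_cone : S_cone := by
  intro g hg n b x hb hx
  obtain ⟨hxb, hxP⟩ := hx
  have hj : ∀ i < n, jac g (g^[i] x) ≠ 0 := by
    intro i hi
    refine hb.2 (n - i) (by omega) (by omega) _ ⟨?_, fun j hj => ?_⟩
    · rw [← Function.iterate_add_apply, Nat.sub_add_cancel hi.le, hxb]
    · rw [← Function.iterate_add_apply]
      exact hxP _ (by omega)
  obtain ⟨_, ⟨L, hL⟩, hcone⟩ := cone_iter hg n x hxP hj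
  have hDL : ∀ v, fderiv ℂ g^[n] x v = L v := fun v => by rw [← hL]; rfl
  refine ⟨(L.symm : C2 →L[ℂ] C2), ?_, ?_, fun e => ?_⟩
  · rw [← hL]
    exact ContinuousLinearMap.ext fun v => L.apply_symm_apply v
  · rw [← hL]
    exact ContinuousLinearMap.ext fun v => L.symm_apply_apply v
  obtain ⟨v, hv⟩ : ∃ v, v = L.symm (1, 0) := ⟨_, rfl⟩
  obtain ⟨v', hv'⟩ : ∃ v', v' = L.symm (0, 1) := ⟨_, rfl⟩
  have hLv : L v = (1, 0) := by rw [hv]; simp
  have hLv' : L v' = (0, 1) := by rw [hv']; simp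
  have h1 : ¬ ‖v.1‖ ≤ ‖v.2‖ / 20 := by
    intro h
    have h2 := (hcone v h).1
    rw [hDL, hLv] at h2
    norm_num at h2
  have hv1 : v.1 ≠ 0 := by
    intro h
    apply h1
    rw [h, norm_zero]
    positivity
  obtain ⟨c, hc⟩ : ∃ c, c = v'.1 / v.1 := ⟨_, rfl⟩
  obtain ⟨u, hu⟩ : ∃ u, u = v' - c • v := ⟨_, rfl⟩
  have hu1 : u.1 = 0 := by
    rw [hu, hc]
    simp only [Prod.fst_sub, Prod.smul_fst, smul_eq_mul]
    rw [div_mul_cancel₀ _ hv1, sub_self]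
  have hLu : L u = (-c, 1) := by
    rw [hu, map_sub, map_smul, hLv, hLv']
    ext <;> simp
  obtain ⟨h2, h3⟩ := hcone u (by rw [hu1, norm_zero]; positivity)
  rw [hDL, hLu] at h2 h3
  simp only [norm_neg, norm_one] at h2 h3
  have hun : ‖u‖ ≤ (1 / 2) ^ n := by
    rw [Prod.norm_def, hu1, norm_zero]
    refine max_le (by positivity) ?_
    rw [one_div, inv_pow, ← one_div, le_div_iff₀ (by positivity)]
    linarith
  have hvn := cone_norm h1
  have he : L.symm e = (e.1 + c * e.2) • v + e.2 • u := by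
    apply L.injective
    rw [L.apply_symm_apply, map_add, map_smul, map_smul, hLv, hLu]
    ext
    · simp only [Prod.fst_add, Prod.smul_fst, smul_eq_mul]
      ring
    · simp only [Prod.snd_add, Prod.smul_snd, smul_eq_mul]
      ring
  change ‖L.symm e‖ ≤ 30 * (‖(L.symm (1, 0)).1‖ + (1 / 2) ^ n) * ‖e‖
  rw [← hv, he]
  have he1 : ‖e.1‖ ≤ ‖e‖ := norm_fst_le e
  have he2 : ‖e.2‖ ≤ ‖e‖ := norm_snd_le e
  have h4 : ‖e.1 + c * e.2‖ ≤ 21 / 20 * ‖e‖ := by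
    refine (norm_add_le _ _).trans ?_
    rw [norm_mul]
    have : ‖c‖ * ‖e.2‖ ≤ 1 / 20 * ‖e‖ :=
      mul_le_mul h2 he2 (norm_nonneg _) (by norm_num)
    linarith
  have hp : (0 : ℝ) ≤ (1 / 2) ^ n := by positivity
  calc ‖(e.1 + c * e.2) • v + e.2 • u‖ ≤ ‖e.1 + c * e.2‖ * ‖v‖ + ‖e.2‖ * ‖u‖ := by
        refine (norm_add_le _ _).trans ?_
        rw [norm_smul, norm_smul]
    _ ≤ 21 / 20 * ‖e‖ * (20 * ‖v.1‖) + ‖e‖ * (1 / 2) ^ n := by
        refine add_le_add ?_ ?_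
        · exact mul_le_mul h4 hvn (norm_nonneg _) (by positivity)
        · exact mul_le_mul he2 hun (norm_nonneg _) (norm_nonneg _)
    _ ≤ 30 * (‖v.1‖ + (1 / 2) ^ n) * ‖e‖ := by
        nlinarith [mul_nonneg (norm_nonneg e) (norm_nonneg v.1), mul_nonneg (norm_nonneg e) hp]

end

end Pool.Agent.H429
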