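import Pool.Agent.H429.Stmts3

open MeasureTheory Filter Topology Metric

namespace Pool.Agent.H429

noncomputable section

theorem count_isCompact_PP : IsCompact PP := isCompact_closedBall _ _

theorem count_contOn {g : C2 → C2} (hg : Sys g) : ContinuousOn g PP := fun x hx =>
  (hg.an x hx).continuousAt.continuousWithinAt

theorem count_jac_contOn {g : C2 → C2} (hg : Sys g) : ContinuousOn (jac g) PP := fun x hx => by
  have h1 : ContinuousAt (fderiv ℂ g) x := (hg.an x hx).fderiv.continuousAt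
  have h2 : ContinuousAt (fun y => (fderiv ℂ g y).det) x :=
    ContinuousLinearMap.continuous_det.continuousAt.comp h1
  exact h2.continuousWithinAt

theorem count_K1_compact {g : C2 → C2} (hg : Sys g) :
    IsCompact {x | x ∈ PP ∧ g x ∈ closedBall (0 : C2) 1} := by
  have h1 : IsClosed (PP ∩ g ⁻¹' (closedBall (0 : C2) 1)) :=
    (count_contOn hg).preimage_isClosed_of_isClosed isClosed_closedBall isClosed_closedBall
  exact count_isCompact_PP.of_isClosed_subset h1 Set.inter_subset_left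

/-- the points of small Jacobian are near the origin -/
theorem count_delta {g : C2 → C2} (hg : Sys g) : ∃ δ₀ : ℝ, 0 < δ₀ ∧
    ∀ x ∈ PP, g x ∈ closedBall (0 : C2) 1 → ‖jac g x‖ < δ₀ → x ∈ ball (0 : C2) (1 / 200000) := by
  set K : Set C2 := {x | x ∈ PP ∧ g x ∈ closedBall (0 : C2) 1} \ ball (0 : C2) (1 / 200000) with hK
  have hKc : IsCompact K := (count_K1_compact hg).diff isOpen_ball
  have hcont : ContinuousOn (fun x => ‖jac g x‖) K :=
    ((count_jac_contOn hg).mono (fun x hx => hx.1.1)).norm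
  rcases K.eq_empty_or_nonempty with he | hne
  · refine ⟨1, one_pos, fun x hx hgx _ => ?_⟩
    by_contra hx2
    have : x ∈ K := ⟨⟨hx, hgx⟩, hx2⟩
    rw [he] at this
    exact this
  · obtain ⟨x₀, hx₀, hmin⟩ := hKc.exists_isMinOn hne hcont
    have hpos : 0 < ‖jac g x₀‖ := by
      rw [norm_pos_iff]
      intro h0
      exact hx₀.2 (hg.crit x₀ hx₀.1.1 hx₀.1.2 h0)
    refine ⟨‖jac g x₀‖, hpos, fun x hx hgx hlt => ?_⟩
    by_contra hx2
    have h1 : x ∈ K := ⟨⟨hx, hgx⟩, hx2⟩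
    have h2 : ‖jac g x₀‖ ≤ ‖jac g x‖ := hmin h1
    linarith

theorem count_PP_sub : PP ⊆ closedBall (0 : C2) 1 := closedBall_subset_closedBall (by norm_num)

theorem count_BB_sub : BB ⊆ closedBall (0 : C2) 1 := ball_subset_closedBall

/-- the image of the `i`-th point of an orbit is in the unit bidisc -/
theorem count_img {g : C2 → C2} {n : ℕ} {b x : C2} (hb : b ∈ BB) (hx : x ∈ pre g n b) {i : ℕ}
    (hi : i ≤ n) : g^[i] x ∈ closedBall (0 : C2) 1 := by
  rcases hi.eq_or_lt with h | h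
  · rw [h, hx.1]; exact count_BB_sub hb
  · exact count_PP_sub (hx.2 i h)

theorem count_small {g : C2 → C2} (_hg : Sys g) {δ₀ : ℝ}
    (hδ : ∀ x ∈ PP, g x ∈ closedBall (0 : C2) 1 → ‖jac g x‖ < δ₀ →
      x ∈ ball (0 : C2) (1 / 200000)) {n : ℕ} (hn : 1 ≤ n) {b x : C2} (hb : b ∈ BB)
    (hx : x ∈ pre g n b) (hj : ‖jac g x‖ < δ₀) : x ∈ ball (0 : C2) (1 / 200000) := by
  have h0 : x ∈ PP := hx.2 0 (by omega)
  have h1 := count_img hb hx hn
  exact hδ x h0 h1 hj

theorem count_iter {g : C2 → C2} (hg : Sys g) {x y : C2} {δ : ℝ} (hδ : 0 ≤ δ)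
    (h0 : ‖x.1 - y.1‖ ≤ ‖x.2 - y.2‖ / 20 + δ) (i : ℕ) (hx : ∀ j < i, g^[j] x ∈ PP)
    (hy : ∀ j < i, g^[j] y ∈ PP) :
    ‖(g^[i] x).1 - (g^[i] y).1‖ ≤ ‖(g^[i] x).2 - (g^[i] y).2‖ / 20 + (10 ^ 5 : ℝ) ^ i * δ := by
  induction i with
  | zero => simpa using h0
  | succ i ih =>
    have h1 := ih (fun j hj => hx j (by omega)) (fun j hj => hy j (by omega))
    have h2 := hg.vrel' _ (hx i (by omega)) _ (hy i (by omega)) _ (by positivity) h1
    rw [Function.iterate_succ_apply', Function.iterate_succ_apply', pow_succ]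
    calc _ ≤ _ := h2
      _ = _ := by ring

theorem t_count (hc : S_card) : S_count := by
  classical
  intro g hg
  obtain ⟨δ₀, hδ₀, hK⟩ := count_delta hg
  refine ⟨δ₀, hδ₀, ?_⟩
  intro n m b δ hb hδ hδm hmn
  set S : Set C2 := {x | x ∈ pre g n b ∧ ‖jac g x‖ < δ} with hS
  have hfin : S.Finite := (hc g hg n b hb).1.subset (fun x hx => hx.1)
  have hn : 1 ≤ n := by omega
  -- vertical relation
  have hrel : ∀ x ∈ S, ∀ y ∈ S, 0 ≤ δ ∧ ‖x.1 - y.1‖ ≤ ‖x.2 - y.2‖ / 20 + δ := by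
    intro x hx y hy
    have hδ0 : 0 ≤ δ := (norm_nonneg _).trans hx.2.le
    have bx := count_small hg hK hn hb hx.1 (lt_of_lt_of_le hx.2 hδ)
    have bY := count_small hg hK hn hb hy.1 (lt_of_lt_of_le hy.2 hδ)
    have sub : ball (0 : C2) (1 / 200000) ⊆ closedBall (0 : C2) (1 / 100000) :=
      (ball_subset_closedBall).trans (closedBall_subset_closedBall (by norm_num))
    have h1 := hg.jz x (sub bx) y (sub bY)
    have h2 : ‖(8 * 10 ^ 10 : ℂ) * (x.1 - y.1)‖ = 8 * 10 ^ 10 * ‖x.1 - y.1‖ := by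
      rw [norm_mul]
      norm_num
    have h3 : ‖(8 * 10 ^ 10 : ℂ) * (x.1 - y.1)‖ ≤
        ‖jac g x - jac g y + 8 * 10 ^ 10 * (x.1 - y.1)‖ + ‖jac g x - jac g y‖ := by
      have := norm_sub_le (jac g x - jac g y + 8 * 10 ^ 10 * (x.1 - y.1)) (jac g x - jac g y)
      rwa [add_sub_cancel_left] at this
    have h4 := norm_sub_le (jac g x) (jac g y)
    have h5 := hx.2
    have h6 := hy.2
    have h7 := norm_nonneg (x.2 - y.2)
    rw [h2] at h3
    refine ⟨hδ0, ?_⟩
    linarith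
  -- the images
  set T : ℕ → Finset C2 := fun i => hfin.toFinset.image (g^[i]) with hT
  have hTm : ∀ i z, z ∈ T i ↔ ∃ x ∈ S, g^[i] x = z := by
    intro i z
    rw [hT]
    simp only [Finset.mem_image, Set.Finite.mem_toFinset]
  have hTsucc : ∀ i, T (i + 1) = (T i).image g := by
    intro i
    rw [hT]
    simp only [Finset.image_image]
    congr 1
    funext x
    rw [Function.iterate_succ_apply']
    rfl
  have hstep : ∀ i, i ≤ m → (T i).card ≤ 3 * (T (i + 1)).card := by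
    intro i hi
    rw [hTsucc]
    apply Finset.card_le_mul_card_image
    intro z hz
    rw [← hTsucc, hTm] at hz
    obtain ⟨x₀, hx₀, hz⟩ := hz
    have hz1 : z ∈ closedBall (0 : C2) 1 := by
      rw [← hz]; exact count_img hb hx₀.1 (by omega)
    have h1 := hg.spread z hz1 ((({w ∈ T i | g w = z} : Finset C2)) : Set C2) ?_ ?_
    · rwa [Set.ncard_coe_finset] at h1
    · intro w hw
      rw [Finset.mem_coe, Finset.mem_filter, hTm] at hw
      obtain ⟨⟨x, hx, hxw⟩, hgw⟩ := hw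
      refine ⟨hgw, fun j hj => ?_⟩
      have : j = 0 := by omega
      subst this
      rw [Function.iterate_zero, id, ← hxw]
      exact hx.1.2 i (by omega)
    · intro w hw w' hw'
      rw [Finset.mem_coe, Finset.mem_filter, hTm] at hw hw'
      obtain ⟨⟨x, hx, hxw⟩, _⟩ := hw
      obtain ⟨⟨y, hy, hyw⟩, _⟩ := hw'
      obtain ⟨hδ0, hxy⟩ := hrel x hx y hy
      have h2 := count_iter hg hδ0 hxy i (fun j hj => hx.1.2 j (by omega))
        (fun j hj => hy.1.2 j (by omega))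
      rw [hxw, hyw] at h2
      have hwP : w ∈ PP := by rw [← hxw]; exact hx.1.2 i (by omega)
      have hwP' : w' ∈ PP := by rw [← hyw]; exact hy.1.2 i (by omega)
      rw [PP, mem_closedBall_zero_iff] at hwP hwP'
      have h3 : ‖w.2 - w'.2‖ ≤ 1 / 6 := by
        have a1 := norm_sub_le w.2 w'.2
        have a2 := norm_snd_le w
        have a3 := norm_snd_le w'
        linarith
      have h4 : (10 ^ 5 : ℝ) ^ i * δ ≤ 1 / 100 := by
        refine le_trans ?_ hδm
        apply mul_le_mul_of_nonneg_right _ hδ0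
        exact pow_le_pow_right₀ (by norm_num) hi
      linarith
  have hall : ∀ i, i ≤ m + 1 → (T 0).card ≤ 3 ^ i * (T i).card := by
    intro i hi
    induction i with
    | zero => simp
    | succ i ih =>
      have h1 := ih (by omega)
      have h2 := hstep i (by omega)
      calc (T 0).card ≤ 3 ^ i * (T i).card := h1
        _ ≤ 3 ^ i * (3 * (T (i + 1)).card) := Nat.mul_le_mul_left _ h2
        _ = 3 ^ (i + 1) * (T (i + 1)).card := by ring
  have hT0 : (T 0).card = S.ncard := by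
    rw [hT, Set.ncard_eq_toFinset_card S hfin]
    simp
  have hlast : (T (m + 1)).card ≤ 4 ^ (n - (m + 1)) := by
    obtain ⟨f1, f2, _⟩ := hc g hg (n - (m + 1)) b hb
    rw [← Set.ncard_coe_finset]
    refine (Set.ncard_le_ncard ?_ f1).trans f2
    intro z hz
    rw [Finset.mem_coe, hTm] at hz
    obtain ⟨x, hx, rfl⟩ := hz
    refine ⟨?_, fun i hi => ?_⟩
    · rw [← Function.iterate_add_apply, Nat.sub_add_cancel hmn]
      exact hx.1.1
    · rw [← Function.iterate_add_apply]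
      exact hx.1.2 _ (by omega)
  rw [← hT0]
  exact (hall (m + 1) le_rfl).trans (Nat.mul_le_mul_left _ hlast)

/-- existence of a zero of the Jacobian near a point with small Jacobian -/
theorem count_zero {g : C2 → C2} (hg : Sys g) {x : C2} (hx : x ∈ ball (0 : C2) (1 / 200000))
    (hρ : ‖jac g x‖ ≤ 1 / 1000000) :
    ∃ s : ℂ, ‖s‖ ≤ ‖jac g x‖ ∧ jac g (x.1 + s, x.2) = 0 := by
  obtain ⟨ρ, hρdef⟩ : ∃ ρ, ρ = ‖jac g x‖ := ⟨_, rfl⟩
  rw [← hρdef] at hρ ⊢
  have hρ0 : 0 ≤ ρ := by rw [hρdef]; exact norm_nonneg _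
  have hx' : ‖x‖ < 1 / 200000 := by rwa [mem_ball_zero_iff] at hx
  have hmem : ∀ s : ℂ, ‖s‖ ≤ ρ → ((x.1 + s, x.2) : C2) ∈ closedBall (0 : C2) (1 / 100000) := by
    intro s hs
    rw [mem_closedBall_zero_iff, Prod.norm_def]
    have a1 := norm_add_le x.1 s
    have a2 := norm_fst_le x
    have a3 := norm_snd_le x
    simp only
    refine max_le ?_ ?_ <;> linarith
  set Φ : ℂ → ℂ := fun s => s + jac g (x.1 + s, x.2) / (8 * 10 ^ 10) with hΦ
  have hN : ‖(8 * 10 ^ 10 : ℂ)‖ = 8 * 10 ^ 10 := by norm_num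
  have hN0 : (8 * 10 ^ 10 : ℂ) ≠ 0 := by norm_num
  have hcontr : ∀ s s' : ℂ, ‖s‖ ≤ ρ → ‖s'‖ ≤ ρ → ‖Φ s - Φ s'‖ ≤ 1 / 8 * ‖s - s'‖ := by
    intro s s' hs hs'
    have h1 := hg.jz _ (hmem s hs) _ (hmem s' hs')
    simp only [sub_self, norm_zero, mul_zero, add_zero, add_sub_add_left_eq_sub] at h1
    have e : Φ s - Φ s' = (jac g (x.1 + s, x.2) - jac g (x.1 + s', x.2) +
        8 * 10 ^ 10 * (s - s')) / (8 * 10 ^ 10) := by
      rw [hΦ]
      field_simp
      ring
    rw [e, norm_div, hN, div_le_iff₀ (by norm_num)]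
    refine h1.trans (le_of_eq ?_)
    ring
  have hΦ0 : ‖Φ 0‖ ≤ ρ / (8 * 10 ^ 10) := by
    rw [hΦ]
    simp only [zero_add, add_zero, Prod.mk.eta]
    rw [norm_div, hN, ← hρdef]
  have hmaps : Set.MapsTo Φ (closedBall (0 : ℂ) ρ) (closedBall (0 : ℂ) ρ) := by
    intro s hs
    rw [mem_closedBall_zero_iff] at hs ⊢
    have h1 := hcontr s 0 hs (by simpa using hρ0)
    rw [sub_zero] at h1
    have h2 := norm_add_le (Φ s - Φ 0) (Φ 0)
    rw [sub_add_cancel] at h2
    have h3 : ρ / (8 * 10 ^ 10) ≤ ρ / 2 := by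
      apply div_le_div_of_nonneg_left hρ0 <;> norm_num
    linarith
  have hcw : ContractingWith (1 / 8) (hmaps.restrict Φ _ _) := by
    refine ⟨by norm_num, LipschitzWith.of_dist_le_mul fun s s' => ?_⟩
    rw [Subtype.dist_eq, Subtype.dist_eq, dist_eq_norm, dist_eq_norm]
    have hs := s.2
    have hs' := s'.2
    rw [mem_closedBall_zero_iff] at hs hs'
    have := hcontr s s' hs hs'
    simpa using this
  obtain ⟨s, hs, hfix, _⟩ := hcw.exists_fixedPoint' isClosed_closedBall.isComplete hmaps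
    (x := 0) (by simpa using hρ0) (edist_ne_top _ _)
  rw [mem_closedBall_zero_iff] at hs
  refine ⟨s, hs, ?_⟩
  have h1 : s + jac g (x.1 + s, x.2) / (8 * 10 ^ 10) = s := hfix
  have h2 : jac g (x.1 + s, x.2) / (8 * 10 ^ 10) = 0 := by
    have := congrArg (fun z => z - s) h1
    simpa using this
  rcases div_eq_zero_iff.1 h2 with h | h
  · exact h
  · exact absurd h hN0

theorem t_lower : S_lower := by
  intro g hg r hr
  obtain ⟨δ₀, hδ₀, hK⟩ := count_delta hg
  have hK1 := count_K1_compact hg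
  have hK1sub : {x | x ∈ PP ∧ g x ∈ closedBall (0 : C2) 1} ⊆ ball (0 : C2) (1 / 12) :=
    fun x hx => hg.inn x hx.1 hx.2
  obtain ⟨η, hη, hthick⟩ := hK1.exists_thickening_subset_open isOpen_ball hK1sub
  set κ : ℝ := min (min δ₀ η) (min r (1 / 1000000)) with hκ
  have hκ0 : 0 < κ := by
    rw [hκ]
    exact lt_min (lt_min hδ₀ hη) (lt_min hr (by norm_num))
  have k1 : κ ≤ δ₀ := (min_le_left _ _).trans (min_le_left _ _)
  have k2 : κ ≤ η := (min_le_left _ _).trans (min_le_right _ _)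
  have k3 : κ ≤ r := (min_le_right _ _).trans (min_le_left _ _)
  have k4 : κ ≤ 1 / 1000000 := (min_le_right _ _).trans (min_le_right _ _)
  refine ⟨κ, hκ0, ?_⟩
  intro b hb n hn x hx
  by_contra hcon
  push Not at hcon
  obtain ⟨hr', hbr, hdis⟩ := hb
  have hbB : b ∈ BB := hbr (mem_ball_self hr')
  obtain ⟨ρ, hρdef⟩ : ∃ ρ, ρ = ‖jac g x‖ := ⟨_, rfl⟩
  rw [← hρdef] at hcon
  have hρ0 : 0 ≤ ρ := by rw [hρdef]; exact norm_nonneg _
  have hpow : ∀ i ≤ n, (2 * 10 ^ 7 : ℝ) ^ i * ρ < κ := by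
    intro i hi
    have h1 : (2 * 10 ^ 7 : ℝ) ^ i ≤ (2 * 10 ^ 7 : ℝ) ^ n := pow_le_pow_right₀ (by norm_num) hi
    calc (2 * 10 ^ 7 : ℝ) ^ i * ρ ≤ (2 * 10 ^ 7 : ℝ) ^ n * ρ := mul_le_mul_of_nonneg_right h1 hρ0
      _ < (2 * 10 ^ 7 : ℝ) ^ n * (κ * (1 / (2 * 10 ^ 7)) ^ n) :=
          mul_lt_mul_of_pos_left hcon (by positivity)
      _ = κ := by
        rw [mul_left_comm, ← mul_pow]
        norm_num
  have hρκ : ρ < κ := by simpa using hpow 0 (Nat.zero_le _)
  have hxs : x ∈ ball (0 : C2) (1 / 200000) :=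
    count_small hg hK hn hbB hx (by rw [← hρdef]; linarith)
  obtain ⟨s, hs, hzero⟩ := count_zero hg hxs (by rw [← hρdef]; linarith)
  rw [← hρdef] at hs
  obtain ⟨x', hx'def⟩ : ∃ x' : C2, x' = (x.1 + s, x.2) := ⟨_, rfl⟩
  rw [← hx'def] at hzero
  have hd0 : ‖x' - x‖ ≤ ρ := by
    rw [hx'def, Prod.norm_def]
    simp only [Prod.fst_sub, Prod.snd_sub, add_sub_cancel_left, sub_self, norm_zero]
    exact max_le hs hρ0
  have hmemPP : ∀ i, i < n → ∀ y : C2, ‖y - g^[i] x‖ < κ → y ∈ PP := by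
    intro i hi y hy
    have h1 : g^[i] x ∈ {x | x ∈ PP ∧ g x ∈ closedBall (0 : C2) 1} := by
      refine ⟨hx.2 i hi, ?_⟩
      have := count_img hbB hx (i := i + 1) (by omega)
      rwa [Function.iterate_succ_apply'] at this
    have h2 : y ∈ thickening η {x | x ∈ PP ∧ g x ∈ closedBall (0 : C2) 1} := by
      rw [mem_thickening_iff]
      refine ⟨_, h1, ?_⟩
      rw [dist_eq_norm]
      linarith
    exact ball_subset_closedBall (hthick h2)
  have hind : ∀ i, i ≤ n → ‖g^[i] x' - g^[i] x‖ ≤ (2 * 10 ^ 7 : ℝ) ^ i * ρ := by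
    intro i hi
    induction i with
    | zero => simpa using hd0
    | succ i ih =>
      have h1 := ih (by omega)
      have h2 : g^[i] x' ∈ PP := hmemPP i (by omega) _ (lt_of_le_of_lt h1 (hpow i (by omega)))
      have h3 := hg.lip _ h2 _ (hx.2 i (by omega))
      rw [Function.iterate_succ_apply', Function.iterate_succ_apply']
      calc _ ≤ _ := h3
        _ ≤ 2 * 10 ^ 7 * ((2 * 10 ^ 7 : ℝ) ^ i * ρ) := by gcongr
        _ = _ := by ring
  have hPP : ∀ i < n, g^[i] x' ∈ PP := fun i hi =>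
    hmemPP i hi _ (lt_of_le_of_lt (hind i hi.le) (hpow i hi.le))
  have hlast : g^[n] x' ∈ ball b r := by
    rw [mem_ball, dist_eq_norm]
    have := hind n le_rfl
    rw [hx.1] at this
    have h2 := hpow n le_rfl
    linarith
  refine Set.disjoint_left.1 (hdis n hn) hlast ⟨hbr hlast, x', ⟨rfl, hPP⟩, hzero⟩

end

end Pool.Agent.H429
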