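import Mathlib

open MeasureTheory Filter Topology

namespace Pool.Agent.H429

noncomputable section

/-- Homogeneous coordinates on the complex projective plane. -/
abbrev Vec : Type := Fin 3 → ℂ

/-- The complex projective plane. -/
abbrev P2 : Type := Projectivization ℂ Vec

/-- The quotient topology on the projective plane. -/
instance instTopP2 : TopologicalSpace P2 :=
  TopologicalSpace.coinduced (Projectivization.mk' ℂ : {v : Vec // v ≠ 0} → P2) inferInstance

/-- The Borel sigma-algebra of the projective plane. -/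
instance instMeasP2 : MeasurableSpace P2 := borel P2

instance instBorelP2 : BorelSpace P2 := ⟨rfl⟩

/-- Exponents of the monomials of degree `d` in three variables. -/
abbrev Mon (d : ℕ) : Type := {m : Fin 3 → Fin (d + 1) // ∑ i, (m i : ℕ) = d}

/-- Coefficient vectors of triples of homogeneous polynomials of degree `d` in three variables. -/
abbrev Coef (d : ℕ) : Type := Fin 3 → Mon d → ℂ

/-- The homogeneous polynomial map `ℂ³ → ℂ³` of degree `d` with coefficient vector `c`. -/
def poly {d : ℕ} (c : Coef d) (v : Vec) : Vec :=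
  fun i => ∑ m : Mon d, c i m * ∏ j, v j ^ (m.1 j : ℕ)

/-- Lifts of holomorphic self-maps of `ℙ²` of algebraic degree `d`: the three homogeneous
polynomials of degree `d` have no common zero except the origin. -/
def Lift (d : ℕ) : Type := {c : Coef d // ∀ v : Vec, poly c v = 0 → v = 0}

instance instTopLift (d : ℕ) : TopologicalSpace (Lift d) := instTopologicalSpaceSubtype

/-- Two lifts define the same self-map of `ℙ²` iff they are proportional. -/
def liftSetoid (d : ℕ) : Setoid (Lift d) where
  r c c' := ∃ a : ℂ, a ≠ 0 ∧ c'.1 = a • c.1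
  iseqv :=
    { refl := fun c => ⟨1, one_ne_zero, by simp⟩
      symm := by
        rintro c c' ⟨a, ha, h⟩
        exact ⟨a⁻¹, inv_ne_zero ha, by rw [h, smul_smul, inv_mul_cancel₀ ha, one_smul]⟩
      trans := by
        rintro c c' c'' ⟨a, ha, h⟩ ⟨b, hb, h'⟩
        exact ⟨b * a, mul_ne_zero hb ha, by rw [h', h, smul_smul]⟩ }

/-- The space `H_d(ℙ²)` of holomorphic self-maps of `ℙ²` of algebraic degree `d`. -/
def Endo (d : ℕ) : Type := Quotient (liftSetoid d)

/-- The quotient topology on `H_d(ℙ²)`. -/
instance instTopEndo (d : ℕ) : TopologicalSpace (Endo d) := instTopologicalSpaceQuotient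

/-- The class of a lift. -/
def toEndo {d : ℕ} (c : Lift d) : Endo d := Quotient.mk (liftSetoid d) c

/-- A lift of an element of `H_d(ℙ²)`. -/
def Endo.lift {d : ℕ} (f : Endo d) : Lift d := Quotient.out f

/-- The self-map of `ℙ²` with lift `c`. -/
def selfMap {d : ℕ} (c : Lift d) (p : P2) : P2 :=
  Projectivization.mk ℂ (poly c.1 p.rep) (fun h => p.rep_nonzero (c.2 _ h))

/-- The average of `φ` over the finite set `f⁻ⁿ(x)`. -/
def preAvg (f : P2 → P2) (n : ℕ) (φ : P2 → ℝ) (x : P2) : ℝ :=
  (∑ᶠ y ∈ {y | f^[n] y = x}, φ y) / Set.ncard {y | f^[n] y = x}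

/-- `μ` is the equilibrium measure of `f`: the probability measure towards which the iterated
preimages of Lebesgue almost every point `x = [v]` of `ℙ²` are equidistributed. -/
structure IsEquilibrium (f : P2 → P2) (μ : Measure P2) : Prop where
  prob : IsProbabilityMeasure μ
  tendsto : ∀ φ : C(P2, ℝ), ∀ᵐ v : Vec, ∀ hv : v ≠ 0,
    Tendsto (fun n => preAvg f n φ (Projectivization.mk ℂ v hv)) atTop (𝓝 (∫ y, φ y ∂μ))

open Classical in
/-- The equilibrium measure of `f`. -/
def eqMeasure (f : P2 → P2) : Measure P2 :=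
  if h : ∃ μ, IsEquilibrium f μ then h.choose else 0

/-- The hermitian norm on `ℂ³`. -/
def hnorm (v : Vec) : ℝ := Real.sqrt (∑ i, ‖v i‖ ^ 2)

/-- The modulus of the complex Jacobian of the self-map with lift `c`, at the point `p`, with
respect to the Fubini-Study metric. -/
def jacFS {d : ℕ} (c : Lift d) (p : P2) : ℝ :=
  ‖(fderiv ℂ (poly c.1) p.rep).det‖ * hnorm p.rep ^ 3 / (d * hnorm (poly c.1 p.rep) ^ 3)

/-- The sum `L(f)` of the two Lyapunov exponents of `f` with respect to its equilibrium measure. -/
def lyap {d : ℕ} (f : Endo d) : ℝ :=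
  ∫ p, Real.log (jacFS f.lift p) ∂(eqMeasure (selfMap f.lift))

/-- `L` is pluriharmonic on `W`: it is harmonic along every holomorphic disc in `W`. -/
def IsPluriharmonicOn {d : ℕ} (L : Endo d → ℝ) (W : Set (Endo d)) : Prop :=
  ∀ (Ω : Set ℂ) (γ : ℂ → Lift d), IsOpen Ω → DifferentiableOn ℂ (fun t => (γ t).1) Ω →
    (∀ t ∈ Ω, toEndo (γ t) ∈ W) →
      InnerProductSpace.HarmonicOnNhd (fun t => L (toEndo (γ t))) Ω

/-- The bifurcation locus: the support of `dd^c L`, i.e. the complement of the largest open set on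
which `L` is pluriharmonic. -/
def Bif (d : ℕ) : Set (Endo d) :=
  {f | ∀ W : Set (Endo d), IsOpen W → f ∈ W → ¬ IsPluriharmonicOn lyap W}

end

end Pool.Agent.H429
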