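import Pool.Agent.H429.Stmts3

open MeasureTheory Filter Topology Metric

namespace Pool.Agent.H429

noncomputable section

theorem density_PP_sub : PP ⊆ closedBall (0 : C2) 1 :=
  closedBall_subset_closedBall (by norm_num)

/-- the iterates are jointly continuous along orbits in `P` -/
theorem density_cont (hj : S_joint) {c0 : Coef 2} (hc : Good c0) {y : C2} : ∀ n : ℕ,
    (∀ i < n, (GG c0)^[i] y ∈ PP) →
      ContinuousAt (fun q : Coef 2 × C2 => (GG q.1)^[n] q.2) (c0, y)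
  | 0, _ => continuousAt_snd
  | n + 1, h => by
    have h1 : ContinuousAt (fun q : Coef 2 × C2 => (GG q.1)^[n] q.2) (c0, y) :=
      density_cont hj hc n fun i hi => h i (Nat.lt_succ_of_lt hi)
    have h2 : ContinuousAt (fun q : Coef 2 × C2 => GG q.1 q.2) (c0, (GG c0)^[n] y) :=
      (hj c0 _ (hc.u1 _ (density_PP_sub (h n (Nat.lt_succ_self n))))).continuousAt
    have h3 : ContinuousAt (fun q : Coef 2 × C2 => (q.1, (GG q.1)^[n] q.2)) (c0, y) :=
      continuousAt_fst.prodMk h1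
    have h4 := ContinuousAt.comp (f := fun q : Coef 2 × C2 => (q.1, (GG q.1)^[n] q.2))
      (g := fun q : Coef 2 × C2 => GG q.1 q.2) (x := (c0, y)) h2 h3
    refine h4.congr (Filter.Eventually.of_forall fun q => ?_)
    simp only [Function.comp_apply, Function.iterate_succ_apply']

/-- the set of critical points with an orbit of length `n` in `P` -/
def densityK (n : ℕ) (c : Coef 2) : Set C2 :=
  {x | jac (GG c) x = 0 ∧ (∀ i < n, (GG c)^[i] x ∈ PP) ∧ (GG c)^[n] x ∈ closedBall (0 : C2) 1}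

/-- the closedness lemma -/
theorem density_K (hj : S_joint) (hja : S_jan) {T : Set (C2 × C2)} (hT : IsClosed T)
    {c0 : Coef 2} (hc : Good c0) (b0 : C2) (n : ℕ)
    (h : ∀ x ∈ densityK n c0, (b0, (GG c0)^[n] x) ∉ T) :
    ∀ᶠ p : Coef 2 × C2 in 𝓝 (c0, b0), ∀ x ∈ PP, x ∈ densityK n p.1 →
      (p.2, (GG p.1)^[n] x) ∉ T := by
  classical
  have hP : IsCompact PP := isCompact_closedBall _ _
  refine hP.eventually_forall_of_forall_eventually ?_
  intro y hy
  -- the map `((c, b), x) ↦ (c, x)`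
  have hπ : Continuous fun z : (Coef 2 × C2) × C2 => (z.1.1, z.2) := by fun_prop
  have hit : ∀ m : ℕ, (∀ i < m, (GG c0)^[i] y ∈ PP) →
      ContinuousAt (fun z : (Coef 2 × C2) × C2 => (GG z.1.1)^[m] z.2) ((c0, b0), y) := by
    intro m hm
    exact ContinuousAt.comp (f := fun z : (Coef 2 × C2) × C2 => (z.1.1, z.2))
      (g := fun q : Coef 2 × C2 => (GG q.1)^[m] q.2) (x := ((c0, b0), y))
      (density_cont hj hc m hm) hπ.continuousAt
  by_cases hjac : jac (GG c0) y = 0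
  · by_cases hin : ∀ i < n, (GG c0)^[i] y ∈ PP
    · -- the last iterate
      have h1 : ContinuousAt (fun z : (Coef 2 × C2) × C2 => (z.1.2, (GG z.1.1)^[n] z.2))
          ((c0, b0), y) := (by fun_prop : ContinuousAt (fun z : (Coef 2 × C2) × C2 => z.1.2)
            ((c0, b0), y)).prodMk (hit n hin)
      have hcl : IsClosed (T ∩ {q : C2 × C2 | q.2 ∈ closedBall (0 : C2) 1}) :=
        hT.inter (isClosed_closedBall.preimage continuous_snd)
      have hnot : (b0, (GG c0)^[n] y) ∉ T ∩ {q : C2 × C2 | q.2 ∈ closedBall (0 : C2) 1} := by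
        rintro ⟨h2, h3⟩
        exact h y ⟨hjac, hin, h3⟩ h2
      have h4 := h1.eventually (hcl.isOpen_compl.mem_nhds hnot)
      filter_upwards [h4] with z hz hzK hzT
      exact hz ⟨hzT, hzK.2.2⟩
    · -- the first iterate which leaves `P`
      push Not at hin
      have hex : ∃ i, i < n ∧ (GG c0)^[i] y ∉ PP := hin
      have hs := Nat.find_spec hex
      have hmin : ∀ i < Nat.find hex, (GG c0)^[i] y ∈ PP := by
        intro i hi
        by_contra hcon
        exact Nat.find_min hex hi ⟨hi.trans hs.1, hcon⟩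
      have h1 := hit (Nat.find hex) hmin
      have hcl : IsClosed PP := isClosed_closedBall
      have h4 := h1.eventually (hcl.isOpen_compl.mem_nhds hs.2)
      filter_upwards [h4] with z hz hzK _
      exact hz (hzK.2.1 _ hs.1)
  · have h1 : AnalyticAt ℂ (fun q : Coef 2 × C2 => GG q.1 q.2) (c0, y) :=
      hj c0 y (hc.u1 y (density_PP_sub hy))
    have h2 : ContinuousAt (fun q : Coef 2 × C2 => jac (GG q.1) q.2) (c0, y) :=
      (hja (Coef 2) GG c0 y h1).2.continuousAt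
    have h3 : ContinuousAt (fun z : (Coef 2 × C2) × C2 => jac (GG z.1.1) z.2) ((c0, b0), y) :=
      ContinuousAt.comp (f := fun z : (Coef 2 × C2) × C2 => (z.1.1, z.2))
        (g := fun q : Coef 2 × C2 => jac (GG q.1) q.2) (x := ((c0, b0), y)) h2
        hπ.continuousAt
    have h4 := h3.eventually (isOpen_ne.mem_nhds hjac)
    filter_upwards [h4] with z hz hzK _
    exact hz hzK.1

theorem density_VV {c : Coef 2} {k n : ℕ} (hk : n ≤ k) {b : C2} (hb : b ∈ VV (GG c) k) :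
    ∃ x ∈ densityK n c, (n = k → (GG c)^[n] x = b) := by
  obtain ⟨hbB, x, ⟨hx1, hx2⟩, hx3⟩ := hb
  refine ⟨x, ⟨hx3, fun i hi => hx2 i (hi.trans_le hk), ?_⟩, ?_⟩
  · rcases hk.lt_or_eq with h | h
    · exact density_PP_sub (hx2 n h)
    · rw [h, hx1]
      exact ball_subset_closedBall hbB
  · intro h
    rw [h, hx1]

theorem density_K_mem {c : Coef 2} {n : ℕ} (hn : 1 ≤ n) {x : C2} (hx : x ∈ densityK n c) :
    x ∈ PP ∧ GG c x ∈ closedBall (0 : C2) 1 := by
  refine ⟨hx.2.1 0 hn, ?_⟩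
  rcases hn.lt_or_eq with h | h
  · exact density_PP_sub (hx.2.1 1 h)
  · have := hx.2.2
    rw [← h] at this
    exact this

/-- TARGET -/
theorem t_density (hs1 : S_sys1) (hs : S_sys) (hv : S_vpair) (hj : S_jan) (hjt : S_joint) : S_density := by
  intro O hO hOne hOG
  by_cases hcase : ∃ c1 ∈ O, ∃ n : ℕ, 1 ≤ n ∧ densityK n c1 = ∅
  · obtain ⟨c1, hc1, n, hn, hemp⟩ := hcase
    have hg1 : Good c1 := hOG hc1
    -- related points
    have hrel : ∀ k, 1 ≤ k → ∀ x ∈ densityK k c1, ∀ y ∈ densityK k c1,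
        VRel ((GG c1)^[k] x) ((GG c1)^[k] y) := by
      intro k hk x hx y hy
      obtain ⟨hv1, hv2, -⟩ := hv (GG c1) (hs c1 hg1) k hk
      obtain ⟨hx1, hx2⟩ := density_K_mem hk hx
      obtain ⟨hy1, hy2⟩ := density_K_mem hk hy
      exact (hv2 x y hx.2.1 hy.2.1 (hv1 x hx1 y hy1 hx2 hy2 hx.1 hy.1)).1
    -- the choice of the base point
    have hfin : ∀ k, 1 ≤ k → {s : ℝ | ∃ x ∈ densityK k c1, (GG c1)^[k] x = ((s : ℂ), 0)}.Finite := by
      intro k hk
      refine Set.Subsingleton.finite ?_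
      rintro s ⟨x, hx, hxs⟩ t ⟨y, hy, hyt⟩
      have h := hrel k hk x hx y hy
      rw [hxs, hyt, VRel] at h
      simp only [sub_self, norm_zero, zero_div, norm_le_zero_iff, sub_eq_zero] at h
      exact_mod_cast h
    have hfin2 : (⋃ k ∈ Finset.Ico 1 n,
        {s : ℝ | ∃ x ∈ densityK k c1, (GG c1)^[k] x = ((s : ℂ), 0)}).Finite := by
      refine Set.Finite.biUnion (Finset.finite_toSet _) ?_
      intro k hk
      exact hfin k (Finset.mem_Ico.1 hk).1
    have hinf : (Set.Ioo (1 / 2 : ℝ) (3 / 4)).Infinite := Set.Ioo_infinite (by norm_num)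
    obtain ⟨s, hs12, hsn⟩ := (hinf.sdiff hfin2).nonempty
    have hb : ∀ k, 1 ≤ k → k < n → ∀ x ∈ densityK k c1, (GG c1)^[k] x ≠ ((s : ℂ), 0) := by
      intro k hk hkn x hx hxs
      apply hsn
      simp only [Set.mem_iUnion]
      exact ⟨k, Finset.mem_Ico.2 ⟨hk, hkn⟩, x, hx, hxs⟩
    set b : C2 := ((s : ℂ), 0) with hbdef
    have hsnorm : ‖(s : ℂ)‖ = s := by
      rw [Complex.norm_real, Real.norm_eq_abs, abs_of_pos (by linarith [hs12.1])]
    have hbBB : b ∈ BB := by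
      rw [BB, mem_ball_zero_iff, hbdef, Prod.norm_mk, norm_zero, hsnorm]
      have := hs12.2
      have := hs12.1
      rw [max_lt_iff]
      constructor <;> linarith
    have e1 : ∀ᶠ p : Coef 2 × C2 in 𝓝 (c1, b), ∀ x ∈ PP, x ∈ densityK n p.1 →
        (p.2, (GG p.1)^[n] x) ∉ (Set.univ : Set (C2 × C2)) :=
      density_K hjt hj isClosed_univ hg1 b n (by rw [hemp]; simp)
    have e2 : ∀ k ∈ Finset.Ico 1 n, ∀ᶠ p : Coef 2 × C2 in 𝓝 (c1, b), ∀ x ∈ PP,
        x ∈ densityK k p.1 → (p.2, (GG p.1)^[k] x) ∉ Set.diagonal C2 := by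
      intro k hk
      obtain ⟨hk1, hkn⟩ := Finset.mem_Ico.1 hk
      refine density_K hjt hj isClosed_diagonal hg1 b k ?_
      intro x hx h
      exact hb k hk1 hkn x hx (Set.mem_diagonal_iff.1 h).symm
    have e3 := (Filter.eventually_all_finset (Finset.Ico 1 n)).2 e2
    have e4 : ∀ᶠ p : Coef 2 × C2 in 𝓝 (c1, b), p.1 ∈ O ∧ p.2 ∈ BB :=
      (hO.prod isOpen_ball).mem_nhds ⟨hc1, hbBB⟩
    have e5 := e1.and (e3.and e4)
    rw [nhds_prod_eq, Filter.eventually_prod_iff] at e5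
    obtain ⟨pa, hpa, pb, hpb, hpp⟩ := e5
    obtain ⟨W, hWp, hWo, hWc⟩ := _root_.eventually_nhds_iff.1 hpa
    obtain ⟨r, hr, hrb⟩ := Metric.eventually_nhds_iff_ball.1 hpb
    refine ⟨W, ?_, hWo, ⟨c1, hWc⟩, b, hbBB, ?_⟩
    · intro c hc
      exact (hpp (hWp c hc) (hrb b (mem_ball_self hr))).2.2.1
    · intro c hc
      refine ⟨r, hr, ?_, ?_⟩
      · intro b' hb'
        exact (hpp (hWp c hc) (hrb b' hb')).2.2.2
      · intro k hk
        rw [Set.disjoint_left]
        intro b' hb' hV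
        obtain ⟨h1, h2, -⟩ := hpp (hWp c hc) (hrb b' hb')
        by_cases hkn : k < n
        · obtain ⟨x, hx, hxb⟩ := density_VV (le_refl k) hV
          refine h2 k (Finset.mem_Ico.2 ⟨hk, hkn⟩) x (density_K_mem hk hx).1 hx ?_
          rw [Set.mem_diagonal_iff]
          exact (hxb rfl).symm
        · obtain ⟨x, hx, -⟩ := density_VV (not_lt.1 hkn) hV
          exact h1 x (density_K_mem hn hx).1 hx (Set.mem_univ _)
  · push Not at hcase
    refine ⟨O, subset_rfl, hO, hOne, ((1 / 2 : ℂ), 0), ?_, ?_⟩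
    · rw [BB, mem_ball_zero_iff, Prod.norm_mk, norm_zero]
      norm_num
    · intro c hc
      refine ⟨1 / 4, by norm_num, ?_, ?_⟩
      · intro b' hb'
        rw [mem_ball, dist_eq_norm] at hb'
        rw [BB, mem_ball_zero_iff]
        have h1 : ‖b'‖ ≤ ‖b' - ((1 / 2 : ℂ), (0 : ℂ))‖ + ‖((1 / 2 : ℂ), (0 : ℂ))‖ := by
          simpa using norm_add_le (b' - ((1 / 2 : ℂ), (0 : ℂ))) ((1 / 2 : ℂ), (0 : ℂ))
        have h2 : ‖((1 / 2 : ℂ), (0 : ℂ))‖ = 1 / 2 := by
          rw [Prod.norm_mk, norm_zero]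
          norm_num
        rw [h2] at h1
        linarith
      · intro k hk
        rw [Set.disjoint_left]
        intro b' hb' hV
        obtain ⟨x, hx, hxb⟩ := density_VV (le_refl k) hV
        have hxb := hxb rfl
        obtain ⟨y, hy⟩ := hcase c hc (k + 1) (by omega)
        obtain ⟨hv1, hv2, -⟩ := hv (GG c) (hs c (hOG hc)) k hk
        obtain ⟨hx1, hx2⟩ := density_K_mem hk hx
        obtain ⟨hy1, hy2⟩ := density_K_mem (by omega : 1 ≤ k + 1) hy
        have hr := (hv2 x y hx.2.1 (fun i hi => hy.2.1 i (by omega))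
          (hv1 x hx1 y hy1 hx2 hy2 hx.1 hy.1)).1
        have hyk := hy.2.1 k (by omega)
        rw [hxb] at hr
        set y' := (GG c)^[k] y with hy'
        rw [PP, mem_closedBall_zero_iff, Prod.norm_def, max_le_iff] at hyk
        rw [mem_ball, dist_eq_norm, Prod.norm_def, max_lt_iff] at hb'
        simp only [Prod.fst_sub, Prod.snd_sub, sub_zero] at hb'
        unfold VRel at hr
        have h1 : ‖(1 / 2 : ℂ)‖ ≤ ‖b'.1 - 1 / 2‖ + ‖b'.1 - y'.1‖ + ‖y'.1‖ := by
          have : (1 / 2 : ℂ) = -(b'.1 - 1 / 2) + (b'.1 - y'.1) + y'.1 := by ring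
          calc ‖(1 / 2 : ℂ)‖ = ‖-(b'.1 - 1 / 2) + (b'.1 - y'.1) + y'.1‖ := by rw [← this]
            _ ≤ ‖-(b'.1 - 1 / 2)‖ + ‖b'.1 - y'.1‖ + ‖y'.1‖ := norm_add₃_le
            _ = _ := by rw [norm_neg]
        have h2 : ‖b'.2 - y'.2‖ ≤ ‖b'.2‖ + ‖y'.2‖ := norm_sub_le _ _
        have h3 : ‖(1 / 2 : ℂ)‖ = 1 / 2 := by norm_num
        rw [h3] at h1
        linarith [hb'.1, hb'.2, hyk.1, hyk.2]

end

end Pool.Agent.H429
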