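import Pool.Agent.H429.Stmts3

open MeasureTheory Filter Topology Metric

namespace Pool.Agent.H429

noncomputable section

/-- The first equation. -/
def elim_C1 (c : Coef 2) (b : C2) (z w : ℂ) : ℂ :=
  cA c b m020 * w ^ 2 + (cA c b m110 * z + cA c b m011) * w +
    (cA c b m200 * z ^ 2 + cA c b m101 * z + cA c b m002)

/-- The second equation. -/
def elim_C2 (c : Coef 2) (b : C2) (z w : ℂ) : ℂ :=
  cB c b m020 * w ^ 2 + (cB c b m110 * z + cB c b m011) * w +
    (cB c b m200 * z ^ 2 + cB c b m101 * z + cB c b m002)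

/-- The polynomial `X`. -/
def elim_X (c : Coef 2) (b : C2) (z : ℂ) : ℂ := ex2 c b * z ^ 2 + ex1 c b * z + ex0 c b

/-- The polynomial `Y`. -/
def elim_Y (c : Coef 2) (b : C2) (z : ℂ) : ℂ := ey1 c b * z + ey0 c b

/-- The polynomial `Z`. -/
def elim_Z (c : Coef 2) (b : C2) (z : ℂ) : ℂ :=
  ez3 c b * z ^ 3 + ez2 c b * z ^ 2 + ez1 c b * z + ez0 c b

/-- The resultant. -/
def elim_Q (c : Coef 2) (b : C2) : Polynomial ℂ :=
  Polynomial.C (eq4 c b) * Polynomial.X ^ 4 + Polynomial.C (eq3 c b) * Polynomial.X ^ 3 +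
    Polynomial.C (eq2 c b) * Polynomial.X ^ 2 + Polynomial.C (eq1 c b) * Polynomial.X +
    Polynomial.C (eq0 c b)

lemma elim_Q_eval (c : Coef 2) (b : C2) (z : ℂ) : (elim_Q c b).eval z =
    eq4 c b * z ^ 4 + eq3 c b * z ^ 3 + eq2 c b * z ^ 2 + eq1 c b * z + eq0 c b := by
  simp [elim_Q]

lemma elim_Q_deriv (c : Coef 2) (b : C2) (z : ℂ) : (elim_Q c b).derivative.eval z =
    4 * eq4 c b * z ^ 3 + 3 * eq3 c b * z ^ 2 + 2 * eq2 c b * z + eq1 c b := by
  simp only [elim_Q, Polynomial.derivative_add, Polynomial.derivative_C_mul,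
    Polynomial.derivative_X_pow, Polynomial.derivative_X, Polynomial.derivative_C,
    Polynomial.eval_add, Polynomial.eval_mul, Polynomial.eval_C, Polynomial.eval_pow,
    Polynomial.eval_X, Polynomial.eval_one, Polynomial.eval_zero]
  push_cast
  norm_num
  ring

lemma elim_Q_natDegree (c : Coef 2) (b : C2) (h : eq4 c b ≠ 0) : (elim_Q c b).natDegree = 4 := by
  unfold elim_Q
  compute_degree!

lemma elim_id1 (c : Coef 2) (b : C2) (z w : ℂ) :
    cA c b m020 * elim_C2 c b z w - cB c b m020 * elim_C1 c b z w =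
      elim_Y c b z * w + elim_X c b z := by
  simp only [elim_C1, elim_C2, elim_X, elim_Y, ex2, ex1, ex0, ey1, ey0]
  ring

lemma elim_id2 (c : Coef 2) (b : C2) (z w : ℂ) :
    (cA c b m110 * z + cA c b m011) * elim_C2 c b z w -
      (cB c b m110 * z + cB c b m011) * elim_C1 c b z w =
      -elim_Y c b z * w ^ 2 + elim_Z c b z := by
  simp only [elim_C1, elim_C2, elim_Z, elim_Y, ez3, ez2, ez1, ez0, ey1, ey0]
  ring

lemma elim_id3 (c : Coef 2) (b : C2) (z : ℂ) :
    (elim_Q c b).eval z = elim_X c b z ^ 2 - elim_Y c b z * elim_Z c b z := by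
  rw [elim_Q_eval]
  simp only [elim_X, elim_Y, elim_Z, eq4, eq3, eq2, eq1, eq0]
  ring

lemma elim_idY (c : Coef 2) (b : C2) (z : ℂ) :
    elim_Y c b z = cA c b m020 * (cB c b m110 * z + cB c b m011) -
      (cA c b m110 * z + cA c b m011) * cB c b m020 := by
  simp only [elim_Y, ey1, ey0]
  ring

/-- The derivatives in z and w. -/
def elim_C1z (c : Coef 2) (b : C2) (z w : ℂ) : ℂ :=
  cA c b m110 * w + (2 * cA c b m200 * z + cA c b m101)
def elim_C1w (c : Coef 2) (b : C2) (z w : ℂ) : ℂ :=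
  2 * cA c b m020 * w + (cA c b m110 * z + cA c b m011)
def elim_C2z (c : Coef 2) (b : C2) (z w : ℂ) : ℂ :=
  cB c b m110 * w + (2 * cB c b m200 * z + cB c b m101)
def elim_C2w (c : Coef 2) (b : C2) (z w : ℂ) : ℂ :=
  2 * cB c b m020 * w + (cB c b m110 * z + cB c b m011)

lemma elim_id4 (c : Coef 2) (b : C2) (z w : ℂ) (h1 : elim_C1 c b z w = 0)
    (h2 : elim_C2 c b z w = 0) :
    (elim_Q c b).derivative.eval z = elim_Y c b z *
      (elim_C1z c b z w * elim_C2w c b z w - elim_C1w c b z w * elim_C2z c b z w) := by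
  have key : (elim_Q c b).derivative.eval z - elim_Y c b z *
      (elim_C1z c b z w * elim_C2w c b z w - elim_C1w c b z w * elim_C2z c b z w) =
      (-2 * cB c b m020 * (cA c b m020 * elim_C2z c b z w - cB c b m020 * elim_C1z c b z w)
        + ey1 c b * elim_C2w c b z w + elim_Y c b z * cB c b m110) * elim_C1 c b z w +
      (2 * cA c b m020 * (cA c b m020 * elim_C2z c b z w - cB c b m020 * elim_C1z c b z w)
        - ey1 c b * elim_C1w c b z w - elim_Y c b z * cA c b m110) * elim_C2 c b z w := by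
    rw [elim_Q_deriv]
    simp only [elim_C1, elim_C2, elim_Y, elim_C1z, elim_C1w, elim_C2z, elim_C2w, eq4, eq3, eq2,
      eq1, ex2, ex1, ex0, ey1, ey0, ez3, ez2, ez1, ez0]
    ring
  rw [h1, h2] at key
  linear_combination key

lemma elim_FF (hp : S_poly) (c : Coef 2) (x : C2) (i : Fin 3) : FF c x i =
    c i m200 * x.1 ^ 2 + c i m020 * x.2 ^ 2 + c i m002 + c i m110 * (x.1 * x.2) +
      c i m101 * x.1 + c i m011 * x.2 := by
  rw [FF, hp]
  simp [ch]

lemma elim_eq1 (hp : S_poly) (c : Coef 2) (b x : C2) :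
    elim_C1 c b x.1 x.2 = FF c x 0 - b.1 * FF c x 2 := by
  rw [elim_FF hp, elim_FF hp, elim_C1]
  simp only [cA]
  ring

lemma elim_eq2 (hp : S_poly) (c : Coef 2) (b x : C2) :
    elim_C2 c b x.1 x.2 = FF c x 1 - b.2 * FF c x 2 := by
  rw [elim_FF hp, elim_FF hp, elim_C2]
  simp only [cB]
  ring

lemma elim_GG_iff (hp : S_poly) (c : Coef 2) (b x : C2) (h2 : FF c x 2 ≠ 0) :
    GG c x = b ↔ elim_C1 c b x.1 x.2 = 0 ∧ elim_C2 c b x.1 x.2 = 0 := by
  rw [elim_eq1 hp, elim_eq2 hp, GG, Prod.ext_iff, sub_eq_zero, sub_eq_zero]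
  simp only [div_eq_iff h2]

lemma elim_hasFDerivAt (hp : S_poly) (c : Coef 2) (i : Fin 3) (x : C2) :
    HasFDerivAt (fun x => FF c x i)
      ((2 * c i m200 * x.1 + c i m110 * x.2 + c i m101) • ContinuousLinearMap.fst ℂ ℂ ℂ +
        (2 * c i m020 * x.2 + c i m110 * x.1 + c i m011) • ContinuousLinearMap.snd ℂ ℂ ℂ) x := by
  have h0 : (fun x => FF c x i) = fun x : C2 => c i m200 * x.1 ^ 2 + c i m020 * x.2 ^ 2 +
      c i m002 + c i m110 * (x.1 * x.2) + c i m101 * x.1 + c i m011 * x.2 := by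
    funext x
    exact elim_FF hp c x i
  rw [h0]
  have hf : HasFDerivAt (fun x : C2 => x.1) (ContinuousLinearMap.fst ℂ ℂ ℂ) x := hasFDerivAt_fst
  have hs : HasFDerivAt (fun x : C2 => x.2) (ContinuousLinearMap.snd ℂ ℂ ℂ) x := hasFDerivAt_snd
  have h := ((((((hf.pow 2).const_mul (c i m200)).add ((hs.pow 2).const_mul (c i m020))).add_const
    (c i m002)).add ((hf.mul hs).const_mul (c i m110))).add (hf.const_mul (c i m101))).add
    (hs.const_mul (c i m011))
  refine h.congr_fderiv ?_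
  ext
  · simp
    ring
  · simp
    ring

lemma elim_det (A : C2 →L[ℂ] C2) :
    A.det = (A (1, 0)).1 * (A (0, 1)).2 - (A (0, 1)).1 * (A (1, 0)).2 := by
  rw [ContinuousLinearMap.det, ← LinearMap.det_toMatrix (Module.Basis.finTwoProd ℂ),
    Matrix.det_fin_two]
  simp [LinearMap.toMatrix_apply]

lemma elim_jac (hp : S_poly) (c : Coef 2) (b x : C2) (h2 : FF c x 2 ≠ 0) (hb : GG c x = b)
    (hd : DifferentiableAt ℂ (GG c) x) :
    elim_C1z c b x.1 x.2 * elim_C2w c b x.1 x.2 - elim_C1w c b x.1 x.2 * elim_C2z c b x.1 x.2 =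
      FF c x 2 ^ 2 * jac (GG c) x := by
  have hG := hd.hasFDerivAt
  set A := fderiv ℂ (GG c) x with hA
  have hne : ∀ᶠ y in 𝓝 x, FF c y 2 ≠ 0 :=
    (elim_hasFDerivAt hp c 2 x).continuousAt.eventually_ne h2
  have e0 : (fun y => FF c y 0) =ᶠ[𝓝 x] fun y => (GG c y).1 * FF c y 2 := by
    filter_upwards [hne] with y hy
    simp [GG, hy]
  have e1 : (fun y => FF c y 1) =ᶠ[𝓝 x] fun y => (GG c y).2 * FF c y 2 := by
    filter_upwards [hne] with y hy
    simp [GG, hy]
  have d0 := ((hG.fst.mul (elim_hasFDerivAt hp c 2 x)).congr_of_eventuallyEq e0).unique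
    (elim_hasFDerivAt hp c 0 x)
  have d1 := ((hG.snd.mul (elim_hasFDerivAt hp c 2 x)).congr_of_eventuallyEq e1).unique
    (elim_hasFDerivAt hp c 1 x)
  have a0 := DFunLike.congr_fun d0 ((1, 0) : C2)
  have a1 := DFunLike.congr_fun d0 ((0, 1) : C2)
  have a2 := DFunLike.congr_fun d1 ((1, 0) : C2)
  have a3 := DFunLike.congr_fun d1 ((0, 1) : C2)
  simp [hb] at a0 a1 a2 a3
  rw [jac, elim_det, ← hA]
  have c0 : elim_C1z c b x.1 x.2 = FF c x 2 * (A (1, 0)).1 := by
    simp only [elim_C1z, cA]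
    linear_combination -a0
  have c1 : elim_C1w c b x.1 x.2 = FF c x 2 * (A (0, 1)).1 := by
    simp only [elim_C1w, cA]
    linear_combination -a1
  have c2 : elim_C2z c b x.1 x.2 = FF c x 2 * (A (1, 0)).2 := by
    simp only [elim_C2z, cB]
    linear_combination -a2
  have c3 : elim_C2w c b x.1 x.2 = FF c x 2 * (A (0, 1)).2 := by
    simp only [elim_C2w, cB]
    linear_combination -a3
  rw [c0, c1, c2, c3]
  ring

lemma elim_pre (g : C2 → C2) (b x : C2) : x ∈ pre g 1 b ↔ x ∈ PP ∧ g x = b := by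
  simp [pre, and_comm]

lemma elim_PP (x : C2) : x ∈ PP ↔ ‖x.1‖ ≤ 1 / 12 ∧ ‖x.2‖ ≤ 1 / 12 := by
  rw [PP, mem_closedBall_zero_iff, Prod.norm_def, sup_le_iff]

lemma elim_PP_sub : PP ⊆ closedBall (0 : C2) 1 := closedBall_subset_closedBall (by norm_num)

/-- Points of `pre` give roots. -/
lemma elim_root (hp : S_poly) {c : Coef 2} (hc : Good c) {b : C2} (hb : b ∈ closedBall (0 : C2) 1)
    {x : C2} (hx : x ∈ pre (GG c) 1 b) :
    (elim_Q c b).eval x.1 = 0 ∧ elim_Y c b x.1 ≠ 0 ∧ x.2 = -elim_X c b x.1 / elim_Y c b x.1 := by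
  obtain ⟨hxP, hxb⟩ := (elim_pre _ _ _).1 hx
  have h2 := hc.u1 x (elim_PP_sub hxP)
  obtain ⟨k1, k2⟩ := (elim_GG_iff hp c b x h2).1 hxb
  have hY : elim_Y c b x.1 ≠ 0 :=
    hc.u4b b hb x.1 (mem_closedBall_zero_iff.2 ((elim_PP x).1 hxP).1)
  have i1 := elim_id1 c b x.1 x.2
  have i2 := elim_id2 c b x.1 x.2
  rw [k1, k2] at i1 i2
  refine ⟨?_, hY, ?_⟩
  · rw [elim_id3]
    have hX : elim_X c b x.1 = -(elim_Y c b x.1 * x.2) := by linear_combination -i1
    have hZ : elim_Z c b x.1 = elim_Y c b x.1 * x.2 ^ 2 := by linear_combination -i2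
    rw [hX, hZ]
    ring
  · rw [eq_div_iff hY]
    linear_combination -i1

/-- Roots come from points of `pre`. -/
lemma elim_surj (hp : S_poly) (hn : S_nondeg) {c : Coef 2} (hc : Good c) {b : C2}
    (hb : b ∈ closedBall (0 : C2) 1) {z : ℂ} (hz : (elim_Q c b).eval z = 0) :
    ∃ x ∈ pre (GG c) 1 b, x.1 = z := by
  have hA := hc.u4a b hb
  obtain ⟨w, k1, k2⟩ : ∃ w, elim_C1 c b z w = 0 ∧ elim_C2 c b z w = 0 := by
    rw [elim_id3] at hz
    by_cases hY : elim_Y c b z = 0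
    · rw [hY, zero_mul, sub_zero] at hz
      have hX : elim_X c b z = 0 := by simpa using hz
      obtain ⟨w, hw⟩ := exists_quadratic_eq_zero hA (b := cA c b m110 * z + cA c b m011)
        (c := cA c b m200 * z ^ 2 + cA c b m101 * z + cA c b m002)
        (IsAlgClosed.exists_eq_mul_self _)
      have h1 : elim_C1 c b z w = 0 := by
        rw [elim_C1, ← hw]
        ring
      refine ⟨w, h1, ?_⟩
      have i1 := elim_id1 c b z w
      rw [h1, hY, hX] at i1
      have : cA c b m020 * elim_C2 c b z w = 0 := by linear_combination i1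
      exact (mul_eq_zero.1 this).resolve_left hA
    · refine ⟨-elim_X c b z / elim_Y c b z, ?_⟩
      set w := -elim_X c b z / elim_Y c b z with hw
      have hw' : elim_Y c b z * w = -elim_X c b z := by
        rw [hw]
        field_simp
      have i1 := elim_id1 c b z w
      have i2 := elim_id2 c b z w
      have i3 : -elim_Y c b z * w ^ 2 + elim_Z c b z = 0 := by
        have : elim_Y c b z * (-elim_Y c b z * w ^ 2 + elim_Z c b z) = 0 := by
          linear_combination (-elim_Y c b z * w + elim_X c b z) * hw' - hz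
        exact (mul_eq_zero.1 this).resolve_left hY
      rw [hw', neg_add_cancel] at i1
      rw [i3] at i2
      have iY := elim_idY c b z
      have h1 : elim_C1 c b z w = 0 := by
        have : elim_Y c b z * elim_C1 c b z w = 0 := by
          rw [iY]
          linear_combination (cA c b m110 * z + cA c b m011) * i1 - cA c b m020 * i2
        exact (mul_eq_zero.1 this).resolve_left hY
      refine ⟨h1, ?_⟩
      rw [h1] at i1
      have : cA c b m020 * elim_C2 c b z w = 0 := by linear_combination i1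
      exact (mul_eq_zero.1 this).resolve_left hA
  have e1 := elim_eq1 hp c b (z, w)
  have e2 := elim_eq2 hp c b (z, w)
  simp only [k1, k2] at e1 e2
  have f0 : FF c (z, w) 0 = b.1 * FF c (z, w) 2 := by linear_combination -e1
  have f1 : FF c (z, w) 1 = b.2 * FF c (z, w) 2 := by linear_combination -e2
  have h2 : FF c (z, w) 2 ≠ 0 := by
    intro h
    rw [h, mul_zero] at f0 f1
    have : poly c (ch (z, w)) = 0 := by
      funext i
      fin_cases i
      · exact f0
      · exact f1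
      · exact h
    exact ch_ne_zero _ (hn c hc _ this)
  have hb' : ‖b.1‖ ≤ 1 ∧ ‖b.2‖ ≤ 1 := by
    rwa [mem_closedBall_zero_iff, Prod.norm_def, sup_le_iff] at hb
  have n0 : ‖FF c (z, w) 0‖ ≤ ‖FF c (z, w) 2‖ := by
    rw [f0, norm_mul]
    exact mul_le_of_le_one_left (norm_nonneg _) hb'.1
  have n1 : ‖FF c (z, w) 1‖ ≤ ‖FF c (z, w) 2‖ := by
    rw [f1, norm_mul]
    exact mul_le_of_le_one_left (norm_nonneg _) hb'.2
  have hu : ¬ ‖ch (z, w) 2‖ ≤ 12 * max ‖ch (z, w) 0‖ ‖ch (z, w) 1‖ := by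
    intro h
    have h3 := hc.u2 (ch (z, w)) (ch_ne_zero _) h
    exact absurd (h3.trans_le (max_le n0 n1)) (lt_irrefl _)
  have hu' : 12 * max ‖z‖ ‖w‖ < 1 := by
    simpa [ch] using hu
  have hP : (z, w) ∈ PP := by
    rw [elim_PP]
    have := le_max_left ‖z‖ ‖w‖
    have := le_max_right ‖z‖ ‖w‖
    constructor <;> simp only <;> linarith
  exact ⟨(z, w), (elim_pre _ _ _).2 ⟨hP, (elim_GG_iff hp c b (z, w) h2).2 ⟨k1, k2⟩⟩, rfl⟩

lemma elim_eq4_ne {c : Coef 2} (hc : Good c) {b : C2} (hb : b ∈ closedBall (0 : C2) 1) :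
    eq4 c b ≠ 0 := by
  intro h
  have := hc.u4c b hb
  rw [h, norm_zero, zero_div] at this
  exact absurd this (not_lt.2 (norm_nonneg _))

lemma elim_image (hp : S_poly) (hn : S_nondeg) {c : Coef 2} (hc : Good c) {b : C2}
    (hb : b ∈ closedBall (0 : C2) 1) :
    Set.InjOn Prod.fst (pre (GG c) 1 b) ∧
      Prod.fst '' pre (GG c) 1 b = ((elim_Q c b).roots.toFinset : Set ℂ) := by
  classical
  have h4 := elim_eq4_ne hc hb
  have hQ : elim_Q c b ≠ 0 := by
    intro h
    have := elim_Q_natDegree c b h4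
    rw [h] at this
    simp at this
  refine ⟨?_, ?_⟩
  · intro x hx y hy hxy
    obtain ⟨-, -, h1⟩ := elim_root hp hc hb hx
    obtain ⟨-, -, h2⟩ := elim_root hp hc hb hy
    refine Prod.ext hxy ?_
    rw [h1, h2, hxy]
  · ext z
    simp only [Set.mem_image, Finset.mem_coe, Multiset.mem_toFinset, Polynomial.mem_roots hQ,
      Polynomial.IsRoot.def]
    constructor
    · rintro ⟨x, hx, rfl⟩
      exact (elim_root hp hc hb hx).1
    · intro hz
      exact elim_surj hp hn hc hb hz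

/-- The estimate for four roots. -/
lemma elim_four (q4 q3 q2 q1 q0 : ℂ) (z : Fin 4 → ℂ) (hz : Function.Injective z)
    (hr : ∀ i, q4 * z i ^ 4 + q3 * z i ^ 3 + q2 * z i ^ 2 + q1 * z i + q0 = 0)
    (h3 : ‖q3‖ < ‖q4‖ / 1000) (h2 : ‖q2 + q4 / 250‖ < ‖q4‖ / 1000)
    (hd : ∀ i j, ‖z i - z j‖ ≤ 1 / 50) : False := by
  have h4 : q4 ≠ 0 := by
    rintro rfl
    rw [norm_zero, zero_div] at h3
    exact absurd h3 (not_lt.2 (norm_nonneg _))
  have hne : ∀ i j, i ≠ j → z i - z j ≠ 0 := fun i j hij => sub_ne_zero.2 fun h => hij (hz h)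
  -- divided differences
  have d1 : ∀ i j, i ≠ j → q4 * (z i ^ 3 + z i ^ 2 * z j + z i * z j ^ 2 + z j ^ 3) +
      q3 * (z i ^ 2 + z i * z j + z j ^ 2) + q2 * (z i + z j) + q1 = 0 := by
    intro i j hij
    refine (mul_eq_zero.1 ?_).resolve_left (hne i j hij)
    linear_combination hr i - hr j
  have d2 : ∀ i j k, i ≠ j → i ≠ k → j ≠ k → q4 * (z i ^ 2 + z j ^ 2 + z k ^ 2 + z i * z j +
      z i * z k + z j * z k) + q3 * (z i + z j + z k) + q2 = 0 := by
    intro i j k hij hik hjk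
    refine (mul_eq_zero.1 ?_).resolve_left (hne j k hjk)
    linear_combination d1 i j hij - d1 i k hik
  have d3 : q4 * (z 0 + z 1 + z 2 + z 3) + q3 = 0 := by
    refine (mul_eq_zero.1 ?_).resolve_left (hne 2 3 (by decide))
    linear_combination d2 0 1 2 (by decide) (by decide) (by decide) -
      d2 0 1 3 (by decide) (by decide) (by decide)
  have d4 := d2 0 1 2 (by decide) (by decide) (by decide)
  have hpos : 0 < ‖q4‖ := norm_pos_iff.2 h4
  -- the elementary symmetric functions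
  have s1 : ‖z 0 + z 1 + z 2 + z 3‖ < 1 / 1000 := by
    have : q3 = -(q4 * (z 0 + z 1 + z 2 + z 3)) := by linear_combination d3
    rw [this, norm_neg, norm_mul] at h3
    have : ‖q4‖ * ‖z 0 + z 1 + z 2 + z 3‖ < ‖q4‖ * (1 / 1000) := by linarith
    exact lt_of_mul_lt_mul_left this hpos.le
  have s2 : ‖(z 0 * z 1 + z 0 * z 2 + z 0 * z 3 + z 1 * z 2 + z 1 * z 3 + z 2 * z 3) + 1 / 250‖
      < 1 / 1000 := by
    have : q2 + q4 / 250 = q4 * ((z 0 * z 1 + z 0 * z 2 + z 0 * z 3 + z 1 * z 2 + z 1 * z 3 +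
        z 2 * z 3) + 1 / 250) := by
      linear_combination d4 - (z 0 + z 1 + z 2) * d3
    rw [this, norm_mul] at h2
    have : ‖q4‖ * ‖(z 0 * z 1 + z 0 * z 2 + z 0 * z 3 + z 1 * z 2 + z 1 * z 3 +
        z 2 * z 3) + 1 / 250‖ < ‖q4‖ * (1 / 1000) := by linarith
    exact lt_of_mul_lt_mul_left this hpos.le
  have hbound : ∀ i, ‖z i‖ ≤ 61 / 4000 := by
    intro i
    have e : 4 * z i = (z 0 + z 1 + z 2 + z 3) + ((z i - z 0) + (z i - z 1) + (z i - z 2) +
        (z i - z 3)) := by ring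
    have h : ‖4 * z i‖ ≤ 1 / 1000 + 3 / 50 := by
      have t : ∃ S : ℂ, 4 * z i = (z 0 + z 1 + z 2 + z 3) + S ∧ ‖S‖ ≤ 3 / 50 := by
        refine ⟨_, e, ?_⟩
        have a0 := hd i 0
        have a1 := hd i 1
        have a2 := hd i 2
        have a3 := hd i 3
        have n3 : ∀ x y w : ℂ, ‖x + y + w‖ ≤ ‖x‖ + ‖y‖ + ‖w‖ := fun x y w => norm_add₃_le
        fin_cases i <;> simp only [Fin.zero_eta, Fin.mk_one, Fin.reduceFinMk, sub_self, zero_add,
          add_zero] at a0 a1 a2 a3 ⊢ <;> refine (n3 _ _ _).trans ?_ <;> linarith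
      obtain ⟨S, hS, hS'⟩ := t
      rw [hS]
      exact (norm_add_le _ _).trans (by linarith)
    rw [norm_mul] at h
    have : ‖(4 : ℂ)‖ = 4 := by simp
    rw [this] at h
    linarith
  have key : 2 * ((z 0 * z 1 + z 0 * z 2 + z 0 * z 3 + z 1 * z 2 + z 1 * z 3 + z 2 * z 3) + 1 / 250)
      - (z 0 + z 1 + z 2 + z 3) ^ 2 + (z 0 ^ 2 + z 1 ^ 2 + z 2 ^ 2 + z 3 ^ 2) = 1 / 125 := by ring
  have hsq : ∀ i, ‖z i ^ 2‖ ≤ (61 / 4000) ^ 2 := fun i => by
    rw [norm_pow]
    exact pow_le_pow_left₀ (norm_nonneg _) (hbound i) 2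
  have hn1 : ‖(1 / 125 : ℂ)‖ = 1 / 125 := by simp
  have hfin : ‖(1 / 125 : ℂ)‖ ≤ 2 * (1 / 1000) + (1 / 1000) ^ 2 + 4 * (61 / 4000) ^ 2 := by
    rw [← key]
    refine (norm_add_le _ _).trans ?_
    have t1 : ‖2 * ((z 0 * z 1 + z 0 * z 2 + z 0 * z 3 + z 1 * z 2 + z 1 * z 3 + z 2 * z 3)
        + 1 / 250) - (z 0 + z 1 + z 2 + z 3) ^ 2‖ ≤ 2 * (1 / 1000) + (1 / 1000) ^ 2 := by
      refine (norm_sub_le _ _).trans ?_
      refine add_le_add ?_ ?_
      · rw [norm_mul]
        have : ‖(2 : ℂ)‖ = 2 := by simp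
        rw [this]
        linarith
      · rw [norm_pow]
        exact pow_le_pow_left₀ (norm_nonneg _) s1.le 2
    have t2 : ‖z 0 ^ 2 + z 1 ^ 2 + z 2 ^ 2 + z 3 ^ 2‖ ≤ 4 * (61 / 4000) ^ 2 := by
      refine (norm_add_le _ _).trans ?_
      have := hsq 0
      have := hsq 1
      have := hsq 2
      have := hsq 3
      have := norm_add₃_le (a := z 0 ^ 2) (b := z 1 ^ 2) (c := z 2 ^ 2)
      linarith
    linarith
  rw [hn1] at hfin
  norm_num at hfin

/-- TARGET -/
theorem t_elim (hp : S_poly) (hs : S_sys1) (hn : S_nondeg) : S_elim := by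
  classical
  intro c hc b hb
  obtain ⟨hinj, himg⟩ := elim_image hp hn hc hb
  have h4 := elim_eq4_ne hc hb
  have hdeg := elim_Q_natDegree c b h4
  have hfin : (pre (GG c) 1 b).Finite :=
    Set.Finite.of_finite_image (himg ▸ Finset.finite_toSet _) hinj
  have hcard : (pre (GG c) 1 b).ncard = (elim_Q c b).roots.toFinset.card := by
    rw [← hinj.ncard_image, himg, Set.ncard_coe_finset]
  have hroots : Multiset.card (elim_Q c b).roots = 4 := by
    rw [← hdeg]
    exact (IsAlgClosed.splits (elim_Q c b)).natDegree_eq_card_roots.symm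
  have hle : (pre (GG c) 1 b).ncard ≤ 4 := by
    rw [hcard, ← hroots]
    exact Multiset.toFinset_card_le _
  refine ⟨⟨hfin, hle⟩, ?_, ?_⟩
  · intro hj
    rw [hcard, ← hroots]
    apply Multiset.toFinset_card_of_nodup
    have hQ : elim_Q c b ≠ 0 := by
      intro h
      rw [h] at hdeg
      simp at hdeg
    rw [Multiset.nodup_iff_count_le_one]
    intro z
    rw [Polynomial.count_roots]
    by_contra hlt
    push Not at hlt
    have hz := (Polynomial.one_lt_rootMultiplicity_iff_isRoot hQ).1 hlt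
    obtain ⟨x, hx, rfl⟩ := elim_surj hp hn hc hb hz.1
    obtain ⟨hxP, hxb⟩ := (elim_pre _ _ _).1 hx
    have h2 := hc.u1 x (elim_PP_sub hxP)
    obtain ⟨k1, k2⟩ := (elim_GG_iff hp c b x h2).1 hxb
    have hd := elim_id4 c b x.1 x.2 k1 k2
    have hz2 : (elim_Q c b).derivative.eval x.1 = 0 := hz.2
    rw [elim_jac hp c b x h2 hxb ((hs c hc).1 x hxP).differentiableAt, hz2] at hd
    have hY := (elim_root hp hc hb hx).2.1
    have := mul_ne_zero hY (mul_ne_zero (pow_ne_zero 2 h2) (hj x hx))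
    exact this hd.symm
  · intro S hS hSd
    by_contra hlt
    push Not at hlt
    have hSf : S.Finite := hfin.subset hS
    have : Fintype S := hSf.fintype
    have hc4 : Fintype.card (Fin 4) ≤ Fintype.card S := by
      rw [Fintype.card_fin, ← Nat.card_eq_fintype_card, Nat.card_coe_set_eq]
      omega
    obtain ⟨e⟩ := Function.Embedding.nonempty_of_card_le hc4
    refine elim_four (eq4 c b) (eq3 c b) (eq2 c b) (eq1 c b) (eq0 c b) (fun i => (e i).1.1) ?_ ?_
      (hc.u4c b hb) (hc.u4d b hb) (fun i j => hSd _ (e i).2 _ (e j).2)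
    · intro i j hij
      exact e.injective (Subtype.ext (hinj (hS (e i).2) (hS (e j).2) hij))
    · intro i
      rw [← elim_Q_eval]
      exact (elim_root hp hc hb (hS (e i).2)).1

end

end Pool.Agent.H429
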