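import Pool.Agent.H429.Stmts3

open MeasureTheory Filter Topology Metric

namespace Pool.Agent.H429

noncomputable section

private theorem energy_pre_mem {g : C2 → C2} {n : ℕ} {b x : C2} (hb : b ∈ BB)
    (hx : x ∈ pre g n b) : x ∈ closedBall (0 : C2) 1 := by
  rcases Nat.eq_zero_or_pos n with rfl | hn
  · have : x = b := hx.1
    rw [this]
    exact ball_subset_closedBall hb
  · exact closedBall_subset_closedBall (by norm_num) (hx.2 0 hn)

private theorem energy_exists_lip (φ : C2 → ℝ) (hφ : ContDiff ℝ 1 φ) :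
    ∃ K : ℝ, 0 ≤ K ∧ ∀ x ∈ closedBall (0 : C2) 1, ‖fderiv ℝ φ x‖ ≤ K := by
  have hc : Continuous (fun x => ‖fderiv ℝ φ x‖) := (hφ.continuous_fderiv one_ne_zero).norm
  obtain ⟨K, hK⟩ := (isCompact_closedBall (0 : C2) 1).bddAbove_image hc.continuousOn
  refine ⟨K, ?_, fun x hx => hK ⟨x, hx, rfl⟩⟩
  exact (norm_nonneg _).trans (hK ⟨0, by simp, rfl⟩)

/-- the local form of the average -/
private theorem energy_local {g : C2 → C2} {n : ℕ} (ψ : C2 → ℝ) {b : C2} {y : Fin (4 ^ n) → C2 → C2}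
    (hinj : Function.Injective (fun i => y i b)) (hpre : pre g n b = Set.range (fun i => y i b)) :
    ∑ᶠ x ∈ pre g n b, ψ x = ∑ i, ψ (y i b) := by
  rw [hpre, finsum_mem_range hinj, finsum_eq_sum_of_fintype]

private theorem energy_deriv {g : C2 → C2} (hcone : S_cone) (hg : Sys g) {n : ℕ} {N : Set C2}
    (hN : IsOpen N) {y : Fin (4 ^ n) → C2 → C2} (hy : ∀ i, AnalyticOnNhd ℂ (y i) N)
    (hreg : ∀ b ∈ N, Reg g n b ∧ Function.Injective (fun i => y i b) ∧
      pre g n b = Set.range (fun i => y i b)) {b : C2} (hb : b ∈ N) (i : Fin (4 ^ n)) :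
    ‖fderiv ℂ (y i) b‖ ≤ 30 * (‖aa g n (y i b)‖ + (1 / 2) ^ n) := by
  obtain ⟨hR, -, hp⟩ := hreg b hb
  have hmem : y i b ∈ pre g n b := by
    rw [hp]
    exact ⟨i, rfl⟩
  obtain ⟨A, h1, h2, h3⟩ := hcone g hg n b (y i b) hR hmem
  have hdiff : DifferentiableAt ℂ g^[n] (y i b) := by
    by_contra hcon
    rw [fderiv_zero_of_not_differentiableAt hcon, ContinuousLinearMap.zero_comp] at h1
    have := congrArg (fun T : C2 →L[ℂ] C2 => (T (1, 0)).1) h1
    simp at this
  have hdy : DifferentiableAt ℂ (y i) b := (hy i b hb).differentiableAt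
  have hev : (g^[n] ∘ y i) =ᶠ[𝓝 b] id := by
    filter_upwards [hN.mem_nhds hb] with b' hb'
    have h4 : y i b' ∈ pre g n b' := by
      rw [(hreg b' hb').2.2]
      exact ⟨i, rfl⟩
    exact h4.1
  have h5 : (fderiv ℂ g^[n] (y i b)).comp (fderiv ℂ (y i) b) = ContinuousLinearMap.id ℂ C2 := by
    rw [← fderiv_comp b hdiff hdy, hev.fderiv_eq, fderiv_id]
  have h6 : fderiv ℂ (y i) b = A := by
    calc fderiv ℂ (y i) b = (ContinuousLinearMap.id ℂ C2).comp (fderiv ℂ (y i) b) := by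
          rw [ContinuousLinearMap.id_comp]
      _ = (A.comp (fderiv ℂ g^[n] (y i b))).comp (fderiv ℂ (y i) b) := by rw [h2]
      _ = A.comp ((fderiv ℂ g^[n] (y i b)).comp (fderiv ℂ (y i) b)) := rfl
      _ = A := by rw [h5, ContinuousLinearMap.comp_id]
  have h7 : (fderiv ℂ g^[n] (y i b)).inverse = A := ContinuousLinearMap.inverse_eq h1 h2
  rw [h6]
  refine ContinuousLinearMap.opNorm_le_bound _ (by positivity) fun e => ?_
  have h8 := h3 e
  rw [aa, h7]
  exact h8

private theorem energy_hasDeriv {g : C2 → C2} (φ : C2 → ℝ) (hφ : ContDiff ℝ 1 φ) {n : ℕ}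
    {N : Set C2} (hN : IsOpen N) {y : Fin (4 ^ n) → C2 → C2} (hy : ∀ i, AnalyticOnNhd ℂ (y i) N)
    (hreg : ∀ b ∈ N, Reg g n b ∧ Function.Injective (fun i => y i b) ∧
      pre g n b = Set.range (fun i => y i b)) {b : C2} (hb : b ∈ N) :
    HasFDerivAt (avg g n φ) ((4 ^ n : ℝ)⁻¹ • ∑ i, (fderiv ℝ φ (y i b)).comp
      ((fderiv ℂ (y i) b).restrictScalars ℝ)) b := by
  have h1 : HasFDerivAt (fun b' => (4 ^ n : ℝ)⁻¹ • ∑ i, φ (y i b')) ((4 ^ n : ℝ)⁻¹ • ∑ i,
      (fderiv ℝ φ (y i b)).comp ((fderiv ℂ (y i) b).restrictScalars ℝ)) b := by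
    have h0 : ∀ i, HasFDerivAt (fun b' => φ (y i b'))
        ((fderiv ℝ φ (y i b)).comp ((fderiv ℂ (y i) b).restrictScalars ℝ)) b := by
      intro i
      have h2 : HasFDerivAt (y i) ((fderiv ℂ (y i) b).restrictScalars ℝ) b :=
        (hy i b hb).differentiableAt.hasFDerivAt.restrictScalars ℝ
      have h3 : HasFDerivAt φ (fderiv ℝ φ (y i b)) (y i b) :=
        (hφ.differentiable one_ne_zero _).hasFDerivAt
      exact h3.comp b h2
    exact (HasFDerivAt.fun_sum fun i _ => h0 i).const_smul ((4 ^ n : ℝ)⁻¹)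
  refine h1.congr_of_eventuallyEq ?_
  filter_upwards [hN.mem_nhds hb] with b' hb'
  obtain ⟨-, h4, h5⟩ := hreg b' hb'
  rw [avg, energy_local φ h4 h5, smul_eq_mul, div_eq_inv_mul]

private theorem energy_bound {g : C2 → C2} (hcone : S_cone) (hg : Sys g) (φ : C2 → ℝ)
    (hφ : ContDiff ℝ 1 φ) {K : ℝ} (hK0 : 0 ≤ K)
    (hK : ∀ x ∈ closedBall (0 : C2) 1, ‖fderiv ℝ φ x‖ ≤ K) {n : ℕ}
    {N : Set C2} (hN : IsOpen N) {y : Fin (4 ^ n) → C2 → C2} (hy : ∀ i, AnalyticOnNhd ℂ (y i) N)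
    (hreg : ∀ b ∈ N, Reg g n b ∧ Function.Injective (fun i => y i b) ∧
      pre g n b = Set.range (fun i => y i b)) {b : C2} (hb : b ∈ N) :
    ‖fderiv ℝ (avg g n φ) b‖ ≤ 45 * K * (1 / 2) ^ n +
      15 * K * (1 / 2) ^ n * ∑ᶠ x ∈ pre g n b, ‖aa g n x‖ ^ 2 := by
  obtain ⟨hR, hi, hp⟩ := hreg b hb
  rw [(energy_hasDeriv φ hφ hN hy hreg hb).fderiv, energy_local (fun x => ‖aa g n x‖ ^ 2) hi hp]
  set s : ℝ := (1 / 2) ^ n with hs
  have hs0 : 0 < s := by positivity
  have h4 : (4 ^ n : ℝ)⁻¹ = s ^ 2 := by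
    rw [hs, ← pow_mul, mul_comm n 2, pow_mul, ← inv_pow]
    norm_num
  rw [norm_smul, h4, Real.norm_of_nonneg (by positivity)]
  have h5 : ‖∑ i, (fderiv ℝ φ (y i b)).comp ((fderiv ℂ (y i) b).restrictScalars ℝ)‖ ≤
      ∑ i : Fin (4 ^ n), K * (30 * (‖aa g n (y i b)‖ + s)) := by
    refine norm_sum_le_of_le _ fun i _ => ?_
    refine (ContinuousLinearMap.opNorm_comp_le _ _).trans ?_
    refine mul_le_mul (hK _ ?_) ?_ (norm_nonneg _) hK0
    · exact energy_pre_mem hR.1 (by rw [hp]; exact ⟨i, rfl⟩)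
    · rw [ContinuousLinearMap.norm_restrictScalars]
      exact energy_deriv hcone hg hN hy hreg hb i
  refine (mul_le_mul_of_nonneg_left h5 (by positivity)).trans ?_
  have h6 : ∀ a : ℝ, s ^ 2 * (K * (30 * (a + s))) ≤
      K * (15 * s ^ 3 + 15 * s * a ^ 2 + 30 * s ^ 3) := by
    intro a
    have h7 : 0 ≤ 15 * s * (a - s) ^ 2 := by positivity
    nlinarith [mul_nonneg hK0 h7]
  rw [Finset.mul_sum]
  refine (Finset.sum_le_sum fun i _ => h6 ‖aa g n (y i b)‖).trans (le_of_eq ?_)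
  have h8 : (4 ^ n : ℝ) * s ^ 2 = 1 := by
    rw [← h4]
    exact mul_inv_cancel₀ (by positivity)
  rw [← Finset.mul_sum, Finset.sum_add_distrib, Finset.sum_add_distrib, Finset.sum_const,
    Finset.sum_const, Finset.card_univ, Fintype.card_fin, ← Finset.mul_sum, nsmul_eq_mul,
    nsmul_eq_mul]
  push_cast
  linear_combination (45 * K * s) * h8

/-- TARGET -/
theorem t_energy (hc : S_card) (hb : S_branch1) (hcone : S_cone) (harea : S_area) : S_energy := by
  intro g hg φ hφ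
  obtain ⟨K, hK0, hK⟩ := energy_exists_lip φ hφ
  have hvol : volume BB ≠ ⊤ := (measure_ball_lt_top (μ := volume) (x := (0 : C2)) (r := 1)).ne
  refine ⟨60 * K * (volume BB).toReal, fun n => ⟨?_, ?_, ?_⟩⟩
  · intro b hbR
    obtain ⟨N, hN, hbN, y, hy, hreg⟩ := hb g hg n b hbR
    exact (energy_hasDeriv φ hφ hN hy hreg hbN).differentiableAt.differentiableWithinAt
  · intro b hbR
    obtain ⟨N, hN, hbN, y, hy, hreg⟩ := hb g hg n b hbR
    refine ContinuousAt.continuousWithinAt ?_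
    have h1 : fderiv ℝ (avg g n φ) =ᶠ[𝓝 b] fun b => (4 ^ n : ℝ)⁻¹ • ∑ i,
        (fderiv ℝ φ (y i b)).comp ((fderiv ℂ (y i) b).restrictScalars ℝ) := by
      filter_upwards [hN.mem_nhds hbN] with b' hb'
      exact (energy_hasDeriv φ hφ hN hy hreg hb').fderiv
    refine ContinuousAt.congr ?_ h1.symm
    have h0 : ∀ i, ContinuousAt (fun b => (fderiv ℝ φ (y i b)).comp
        ((fderiv ℂ (y i) b).restrictScalars ℝ)) b := by
      intro i
      have h2 : ContinuousAt (fun b => fderiv ℝ φ (y i b)) b :=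
        ((hφ.continuous_fderiv one_ne_zero).continuousAt).comp (hy i b hbN).continuousAt
      have h3 : ContinuousAt (fun b => (fderiv ℂ (y i) b).restrictScalars ℝ) b := by
        have h4 : ContinuousAt (fderiv ℂ (y i)) b := (hy i b hbN).fderiv.continuousAt
        exact (ContinuousLinearMap.restrictScalarsL ℂ C2 C2 ℝ ℝ).continuous.continuousAt.comp h4
      exact h2.clm_comp h3
    have h5 : ContinuousAt (fun b => ∑ i, (fderiv ℝ φ (y i b)).comp
        ((fderiv ℂ (y i) b).restrictScalars ℝ)) b := tendsto_finsetSum _ fun i _ => h0 i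
    exact h5.const_smul ((4 ^ n : ℝ)⁻¹)
  · have h0 : ∀ b ∈ {b | Reg g n b}, ENNReal.ofReal ‖fderiv ℝ (avg g n φ) b‖ ≤
        ENNReal.ofReal (45 * K * (1 / 2) ^ n) + ENNReal.ofReal (15 * K * (1 / 2) ^ n) *
          ENNReal.ofReal (∑ᶠ x ∈ pre g n b, ‖aa g n x‖ ^ 2) := by
      intro b hbR
      obtain ⟨N, hN, hbN, y, hy, hreg⟩ := hb g hg n b hbR
      have h1 := energy_bound hcone hg φ hφ hK0 hK hN hy hreg hbN
      rw [← ENNReal.ofReal_mul (by positivity), ← ENNReal.ofReal_add (by positivity)]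
      · exact ENNReal.ofReal_le_ofReal h1
      · refine mul_nonneg (by positivity) ?_
        rw [energy_local (fun x => ‖aa g n x‖ ^ 2) (hreg b hbN).2.1 (hreg b hbN).2.2]
        exact Finset.sum_nonneg fun i _ => by positivity
    have hmeas : MeasurableSet {b | Reg g n b} := by
      have : IsOpen {b | Reg g n b} := by
        rw [isOpen_iff_forall_mem_open]
        intro b hbR
        obtain ⟨N, hN, hbN, y, hy, hreg⟩ := hb g hg n b hbR
        exact ⟨N, fun b' hb' => (hreg b' hb').1, hN, hbN⟩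
      exact this.measurableSet
    refine (setLIntegral_mono_ae' hmeas (Eventually.of_forall fun b hbR => h0 b hbR)).trans ?_
    rw [lintegral_add_left measurable_const, lintegral_const_mul' _ _ ENNReal.ofReal_ne_top,
      setLIntegral_const]
    have h2 : volume {b | Reg g n b} ≤ volume BB := measure_mono fun b hbR => hbR.1
    refine (add_le_add (mul_le_mul_right h2 _) (mul_le_mul_right (harea g hg n) _)).trans ?_
    rw [← add_mul, ← ENNReal.ofReal_add (by positivity) (by positivity)]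
    nth_rewrite 1 [← ENNReal.ofReal_toReal hvol]
    rw [← ENNReal.ofReal_mul (by positivity)]
    refine ENNReal.ofReal_le_ofReal (le_of_eq ?_)
    ring

end

end Pool.Agent.H429
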