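import Pool.Agent.H429.Stmts3

open MeasureTheory Filter Topology Metric

namespace Pool.Agent.H429

noncomputable section

lemma ex_mon : m200 ≠ m020 ∧ m200 ≠ m011 ∧ m200 ≠ m002 ∧ m011 ≠ m020 ∧ m002 ≠ m020 ∧ m002 ≠ m011 ∧ m110 ≠ m020 ∧ m110 ≠ m011 ∧ m110 ≠ m002 ∧ m101 ≠ m020 ∧ m101 ≠ m011 ∧ m101 ≠ m002 ∧ m110 ≠ m200 ∧ m101 ≠ m200 ∧ m002 ≠ m200 ∧ m020 ≠ m200 ∧ m020 ≠ m011 ∧ m020 ≠ m002 ∧ m011 ≠ m002 := by
  refine ⟨?_, ?_, ?_, ?_, ?_, ?_, ?_, ?_, ?_, ?_, ?_, ?_, ?_, ?_, ?_, ?_, ?_, ?_, ?_⟩ <;> decide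

/-- The explicit family written out. -/
lemma ex_poly (hp : S_poly) (l : ℂ) : poly (cc l) = fun v : Vec =>
    ![10 ^ 6 * v 1 ^ 2 - 4000 * (v 1 * v 2) + l * v 2 ^ 2, 10 ^ 7 * (v 1 * v 2) - 10 ^ 7 * v 0 ^ 2,
      v 2 ^ 2] := by
  funext v
  funext i
  rw [hp]
  fin_cases i
  · simp [cc, ex_mon]
    ring
  · simp [cc, ex_mon]
    ring
  · simp [cc, ex_mon]

lemma ex_GG (hp : S_poly) (l : ℂ) : GG (cc l) = fun x : C2 =>
    ((10 ^ 6 * x.2 ^ 2 - 4000 * x.2 + l : ℂ), (10 ^ 7 * (x.2 - x.1 ^ 2) : ℂ)) := by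
  funext x
  simp only [GG, FF, ex_poly hp]
  simp [ch]
  ring

/-- The determinant in dimension two. -/
lemma ex_det2 (A : C2 →L[ℂ] C2) :
    A.det = (A (1, 0)).1 * (A (0, 1)).2 - (A (0, 1)).1 * (A (1, 0)).2 := by
  have h : A.det = LinearMap.det (A : C2 →ₗ[ℂ] C2) := rfl
  rw [h, ← LinearMap.det_toMatrix (Module.Basis.finTwoProd ℂ), Matrix.det_fin_two]
  simp [LinearMap.toMatrix_apply]

lemma ex_det3 (A : Vec →L[ℂ] Vec) :
    A.det = Matrix.det (Matrix.of fun i j : Fin 3 => A (Pi.single j 1) i) := by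
  have h : A.det = LinearMap.det (A : Vec →ₗ[ℂ] Vec) := rfl
  rw [h, ← LinearMap.det_toMatrix']
  congr 1

lemma ex_hasFDerivAt (hp : S_poly) (l : ℂ) (x : C2) : HasFDerivAt (GG (cc l))
    ((((2 * 10 ^ 6 * x.2 - 4000 : ℂ)) • ContinuousLinearMap.snd ℂ ℂ ℂ).prod
      ((10 ^ 7 : ℂ) • ContinuousLinearMap.snd ℂ ℂ ℂ -
        (2 * 10 ^ 7 * x.1 : ℂ) • ContinuousLinearMap.fst ℂ ℂ ℂ)) x := by
  rw [ex_GG hp]
  have h1 : HasFDerivAt (fun y : C2 => y.1) (ContinuousLinearMap.fst ℂ ℂ ℂ) x := hasFDerivAt_fst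
  have h2 : HasFDerivAt (fun y : C2 => y.2) (ContinuousLinearMap.snd ℂ ℂ ℂ) x := hasFDerivAt_snd
  refine HasFDerivAt.prodMk ?_ ?_
  · have h3 := (((h2.pow 2).const_mul (10 ^ 6 : ℂ)).sub (h2.const_mul (4000 : ℂ))).add_const l
    refine h3.congr_fderiv ?_
    ext <;> simp <;> ring
  · have h3 := (h2.sub (h1.pow 2)).const_mul (10 ^ 7 : ℂ)
    refine h3.congr_fderiv ?_
    ext <;> simp <;> ring

lemma ex_jac (hp : S_poly) (l : ℂ) : jac (GG (cc l)) = fun x : C2 =>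
    (4 * 10 ^ 13 * (x.1 * x.2) - 8 * 10 ^ 10 * x.1 : ℂ) := by
  funext x
  rw [jac, (ex_hasFDerivAt hp l x).fderiv, ex_det2]
  simp
  ring

lemma ex_jac_fderiv (hp : S_poly) (l : ℂ) (x : C2) : HasFDerivAt (jac (GG (cc l)))
    ((4 * 10 ^ 13 * x.2 - 8 * 10 ^ 10 : ℂ) • ContinuousLinearMap.fst ℂ ℂ ℂ +
      (4 * 10 ^ 13 * x.1 : ℂ) • ContinuousLinearMap.snd ℂ ℂ ℂ) x := by
  rw [ex_jac hp]
  have h1 : HasFDerivAt (fun y : C2 => y.1) (ContinuousLinearMap.fst ℂ ℂ ℂ) x := hasFDerivAt_fst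
  have h2 : HasFDerivAt (fun y : C2 => y.2) (ContinuousLinearMap.snd ℂ ℂ ℂ) x := hasFDerivAt_snd
  have h3 := ((h1.mul h2).const_mul (4 * 10 ^ 13 : ℂ)).sub (h1.const_mul (8 * 10 ^ 10 : ℂ))
  refine h3.congr_fderiv ?_
  ext <;> simp <;> ring

lemma ex_poly_fderiv (hp : S_poly) (l : ℂ) (v : Vec) : HasFDerivAt (poly (cc l))
    (ContinuousLinearMap.pi ![
      (2 * 10 ^ 6 * v 1 - 4000 * v 2 : ℂ) • (ContinuousLinearMap.proj 1 : Vec →L[ℂ] ℂ) +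
        (2 * l * v 2 - 4000 * v 1 : ℂ) • (ContinuousLinearMap.proj 2 : Vec →L[ℂ] ℂ),
      (10 ^ 7 * v 2 : ℂ) • (ContinuousLinearMap.proj 1 : Vec →L[ℂ] ℂ) +
        (10 ^ 7 * v 1 : ℂ) • (ContinuousLinearMap.proj 2 : Vec →L[ℂ] ℂ) -
        (2 * 10 ^ 7 * v 0 : ℂ) • (ContinuousLinearMap.proj 0 : Vec →L[ℂ] ℂ),
      (2 * v 2 : ℂ) • (ContinuousLinearMap.proj 2 : Vec →L[ℂ] ℂ)]) v := by
  rw [ex_poly hp, hasFDerivAt_pi']
  have h0 : HasFDerivAt (fun y : Vec => y 0) (ContinuousLinearMap.proj 0 : Vec →L[ℂ] ℂ) v :=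
    hasFDerivAt_apply 0 v
  have h1 : HasFDerivAt (fun y : Vec => y 1) (ContinuousLinearMap.proj 1 : Vec →L[ℂ] ℂ) v :=
    hasFDerivAt_apply 1 v
  have h2 : HasFDerivAt (fun y : Vec => y 2) (ContinuousLinearMap.proj 2 : Vec →L[ℂ] ℂ) v :=
    hasFDerivAt_apply 2 v
  intro i
  fin_cases i
  · have h3 := (((h1.pow 2).const_mul (10 ^ 6 : ℂ)).sub ((h1.mul h2).const_mul (4000 : ℂ))).add
      ((h2.pow 2).const_mul l)
    refine h3.congr_fderiv ?_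
    ext w
    simp
    ring
  · have h3 := ((h1.mul h2).const_mul (10 ^ 7 : ℂ)).sub ((h0.pow 2).const_mul (10 ^ 7 : ℂ))
    refine h3.congr_fderiv ?_
    ext w
    simp
    ring
  · have h3 := h2.pow 2
    refine h3.congr_fderiv ?_
    ext w
    simp

lemma ex_poly_det (hp : S_poly) (l : ℂ) (v : Vec) : (fderiv ℂ (poly (cc l)) v).det =
    4 * 10 ^ 7 * (v 2 * v 0) * (2 * 10 ^ 6 * v 1 - 4000 * v 2) := by
  rw [(ex_poly_fderiv hp l v).fderiv, ex_det3, Matrix.det_fin_three]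
  simp
  ring

lemma ex_mem_closedBall {x : C2} {r : ℝ} (hx : x ∈ closedBall (0 : C2) r) :
    ‖x.1‖ ≤ r ∧ ‖x.2‖ ≤ r := by
  rw [mem_closedBall_zero_iff] at hx
  exact ⟨(norm_fst_le x).trans hx, (norm_snd_le x).trans hx⟩

/-- The key estimate for the first component. -/
lemma ex_F0 (l w t : ℂ) (hl : ‖l‖ ≤ 2) :
    10 ^ 6 * ‖w‖ ^ 2 - 4000 * (‖w‖ * ‖t‖) - 2 * ‖t‖ ^ 2 ≤
      ‖10 ^ 6 * w ^ 2 - 4000 * (w * t) + l * t ^ 2‖ := by
  have h1 : ‖(10 : ℂ) ^ 6 * w ^ 2‖ = 10 ^ 6 * ‖w‖ ^ 2 := by simp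
  have h2 : ‖(4000 : ℂ) * (w * t)‖ = 4000 * (‖w‖ * ‖t‖) := by simp
  have h3 : ‖l * t ^ 2‖ ≤ 2 * ‖t‖ ^ 2 := by
    rw [norm_mul, norm_pow]; gcongr
  have h4 := norm_sub_norm_le ((10 : ℂ) ^ 6 * w ^ 2) ((4000 : ℂ) * (w * t))
  have h5 := norm_sub_le ((10 : ℂ) ^ 6 * w ^ 2 - 4000 * (w * t) + l * t ^ 2) (l * t ^ 2)
  rw [add_sub_cancel_right] at h5
  linarith

lemma ex_F1 (z w t : ℂ) : 10 ^ 7 * (‖z‖ ^ 2 - ‖w‖ * ‖t‖) ≤
    ‖10 ^ 7 * (w * t) - 10 ^ 7 * z ^ 2‖ := by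
  have h1 : ‖(10 : ℂ) ^ 7 * z ^ 2‖ = 10 ^ 7 * ‖z‖ ^ 2 := by simp
  have h2 : ‖(10 : ℂ) ^ 7 * (w * t)‖ = 10 ^ 7 * (‖w‖ * ‖t‖) := by simp
  have h4 := norm_sub_norm_le ((10 : ℂ) ^ 7 * z ^ 2) ((10 : ℂ) ^ 7 * (w * t))
  rw [norm_sub_rev] at h4
  linarith

lemma ex_norm_vec (v : Vec) (i : Fin 3) : ‖v i‖ ≤ ‖v‖ := norm_le_pi_norm v i

lemma ex_u2 (hp : S_poly) (l : ℂ) (hl : ‖l‖ ≤ 2) : ∀ v : Vec, v ≠ 0 →
    ‖v 2‖ ≤ 12 * max ‖v 0‖ ‖v 1‖ →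
    ‖poly (cc l) v 2‖ < max ‖poly (cc l) v 0‖ ‖poly (cc l) v 1‖ := by
  intro v hv h
  by_contra hcon
  rw [not_lt] at hcon
  rw [ex_poly hp] at hcon
  simp only [Matrix.cons_val_zero, Matrix.cons_val_one, Matrix.cons_val] at hcon
  have hA := (le_max_left _ _).trans hcon
  have hB := (le_max_right _ _).trans hcon
  have hA' := (ex_F0 l (v 1) (v 2) hl).trans hA
  have hB' := (ex_F1 (v 0) (v 1) (v 2)).trans hB
  rw [norm_pow] at hA' hB'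
  set a := ‖v 0‖ with ha
  set b := ‖v 1‖ with hb
  set s := ‖v 2‖ with hs
  have ha0 : 0 ≤ a := norm_nonneg _
  have hb0 : 0 ≤ b := norm_nonneg _
  have hs0 : 0 ≤ s := norm_nonneg _
  have hb1 : b ≤ s / 200 := by
    by_contra hlt
    rw [not_le] at hlt
    nlinarith [mul_pos (show (0:ℝ) < b by linarith) (show (0:ℝ) < b by linarith),
      mul_nonneg hb0 hs0, mul_nonneg hs0 hs0,
      mul_nonneg hs0 (show (0:ℝ) ≤ b - s / 200 by linarith)]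
  have ha1 : a ^ 2 ≤ s ^ 2 / 150 := by nlinarith [mul_nonneg hs0 (show (0:ℝ) ≤ s / 200 - b by linarith)]
  rcases eq_or_lt_of_le hs0 with h0 | h0
  · apply hv
    have h1 : b = 0 := by rw [← h0] at hb1; linarith
    have h2 : a = 0 := by
      rw [← h0] at ha1
      nlinarith
    funext i
    fin_cases i
    · exact norm_eq_zero.1 h2
    · exact norm_eq_zero.1 h1
    · exact norm_eq_zero.1 h0.symm
  · have h1 : a < s / 12 := by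
      by_contra hlt
      rw [not_lt] at hlt
      nlinarith
    have h2 : b < s / 12 := by linarith
    have h3 : max a b < s / 12 := max_lt h1 h2
    linarith

lemma ex_u6 (hp : S_poly) (l : ℂ) (hl : ‖l‖ ≤ 2) : ∀ v w : Vec, ‖v‖ = 1 → ‖w‖ = 1 →
    ‖v 2‖ ≤ max ‖v 0‖ ‖v 1‖ → ‖w 2‖ ≤ max ‖w 0‖ ‖w 1‖ →
    2 * ‖(fderiv ℂ (poly (cc l)) v).det‖ ^ 2 < ‖poly (cc l) w‖ ^ 6 := by
  intro v w hv hw _ hw2
  have hdet : ‖(fderiv ℂ (poly (cc l)) v).det‖ ≤ 10 ^ 14 := by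
    rw [ex_poly_det hp]
    have h0 := ex_norm_vec v 0
    have h1 := ex_norm_vec v 1
    have h2 := ex_norm_vec v 2
    rw [hv] at h0 h1 h2
    have e1 : ‖(2 * 10 ^ 6 * v 1 - 4000 * v 2 : ℂ)‖ ≤ 2 * 10 ^ 6 + 4000 := by
      refine (norm_sub_le _ _).trans ?_
      have k1 : ‖(2 * 10 ^ 6 * v 1 : ℂ)‖ = 2 * 10 ^ 6 * ‖v 1‖ := by simp
      have k2 : ‖(4000 * v 2 : ℂ)‖ = 4000 * ‖v 2‖ := by simp
      rw [k1, k2]
      linarith
    have k3 : ‖(4 * 10 ^ 7 * (v 2 * v 0) * (2 * 10 ^ 6 * v 1 - 4000 * v 2) : ℂ)‖ =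
        4 * 10 ^ 7 * (‖v 2‖ * ‖v 0‖) * ‖(2 * 10 ^ 6 * v 1 - 4000 * v 2 : ℂ)‖ := by
      rw [norm_mul, norm_mul (4 * 10 ^ 7 : ℂ), norm_mul (v 2)]
      simp
    rw [k3]
    calc 4 * 10 ^ 7 * (‖v 2‖ * ‖v 0‖) * ‖(2 * 10 ^ 6 * v 1 - 4000 * v 2 : ℂ)‖
        ≤ 4 * 10 ^ 7 * (1 * 1) * (2 * 10 ^ 6 + 4000) := by gcongr
      _ ≤ 10 ^ 14 := by norm_num
  have hF : 240000 ≤ ‖poly (cc l) w‖ := by
    have h0 := ex_norm_vec w 0
    have h1 := ex_norm_vec w 1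
    have h2 := ex_norm_vec w 2
    rw [hw] at h0 h1 h2
    have hn0 := norm_nonneg (w 0)
    have hn1 := norm_nonneg (w 1)
    have hn2 := norm_nonneg (w 2)
    have g0 : 10 ^ 6 * ‖w 1‖ ^ 2 - 4000 * (‖w 1‖ * ‖w 2‖) - 2 * ‖w 2‖ ^ 2 ≤ ‖poly (cc l) w‖ := by
      refine (ex_F0 l (w 1) (w 2) hl).trans ?_
      have := ex_norm_vec (poly (cc l) w) 0
      rw [ex_poly hp] at this ⊢
      exact this
    have g1 : 10 ^ 7 * (‖w 0‖ ^ 2 - ‖w 1‖ * ‖w 2‖) ≤ ‖poly (cc l) w‖ := by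
      refine (ex_F1 (w 0) (w 1) (w 2)).trans ?_
      have := ex_norm_vec (poly (cc l) w) 1
      rw [ex_poly hp] at this ⊢
      exact this
    by_cases hc : 1 / 2 ≤ ‖w 1‖
    · refine le_trans ?_ g0
      nlinarith [mul_nonneg hn1 (show (0:ℝ) ≤ 1 - ‖w 2‖ by linarith),
        mul_nonneg hn2 (show (0:ℝ) ≤ 1 - ‖w 2‖ by linarith)]
    · rw [not_le] at hc
      have hz : ‖w 0‖ = 1 := by
        apply le_antisymm h0
        by_contra hlt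
        rw [not_le] at hlt
        have hm : max ‖w 0‖ ‖w 1‖ < 1 := max_lt hlt (by linarith)
        have : ‖w‖ < 1 := by
          rw [pi_norm_lt_iff one_pos]
          intro i
          fin_cases i
          · exact hlt
          · exact (by linarith : ‖w 1‖ < 1)
          · exact lt_of_le_of_lt hw2 hm
        linarith
      refine le_trans ?_ g1
      rw [hz]
      nlinarith [mul_nonneg hn1 (show (0:ℝ) ≤ 1 - ‖w 2‖ by linarith)]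
  calc 2 * ‖(fderiv ℂ (poly (cc l)) v).det‖ ^ 2 ≤ 2 * (10 ^ 14) ^ 2 := by gcongr
    _ < 240000 ^ 6 := by norm_num
    _ ≤ ‖poly (cc l) w‖ ^ 6 := by gcongr

/-- TARGETS -/
theorem t_ex (hp : S_poly) : S_ex := by
  intro l hl
  have m := ex_mon
  have hcA0 : ∀ b : C2, cA (cc l) b m020 = 10 ^ 6 := fun b => by simp [cA, cc, ex_mon]
  have hcA1 : ∀ b : C2, cA (cc l) b m200 = 0 := fun b => by simp [cA, cc, ex_mon]
  have hcA2 : ∀ b : C2, cA (cc l) b m002 = l - b.1 := fun b => by simp [cA, cc, ex_mon]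
  have hcA3 : ∀ b : C2, cA (cc l) b m110 = 0 := fun b => by simp [cA, cc, ex_mon]
  have hcA4 : ∀ b : C2, cA (cc l) b m101 = 0 := fun b => by simp [cA, cc, ex_mon]
  have hcA5 : ∀ b : C2, cA (cc l) b m011 = -4000 := fun b => by simp [cA, cc, ex_mon]
  have hcB0 : ∀ b : C2, cB (cc l) b m020 = 0 := fun b => by simp [cB, cc, ex_mon]
  have hcB1 : ∀ b : C2, cB (cc l) b m200 = -10 ^ 7 := fun b => by simp [cB, cc, ex_mon]
  have hcB2 : ∀ b : C2, cB (cc l) b m002 = - b.2 := fun b => by simp [cB, cc, ex_mon]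
  have hcB3 : ∀ b : C2, cB (cc l) b m110 = 0 := fun b => by simp [cB, cc, ex_mon]
  have hcB4 : ∀ b : C2, cB (cc l) b m101 = 0 := fun b => by simp [cB, cc, ex_mon]
  have hcB5 : ∀ b : C2, cB (cc l) b m011 = 10 ^ 7 := fun b => by simp [cB, cc, ex_mon]
  have he4 : ∀ b : C2, eq4 (cc l) b = 10 ^ 26 := fun b => by
    simp only [eq4, ex2, ey1, ez3, hcA0, hcA1, hcA3, hcB0, hcB1, hcB3]; norm_num
  have he3 : ∀ b : C2, eq3 (cc l) b = 0 := fun b => by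
    simp only [eq3, ex2, ex1, ey0, ey1, ez3, ez2, hcA0, hcA1, hcA3, hcA4, hcA5, hcB0, hcB1, hcB3,
      hcB4, hcB5]; norm_num
  have he2 : ∀ b : C2, eq2 (cc l) b = 2 * 10 ^ 19 * b.2 - 4 * 10 ^ 23 := fun b => by
    simp only [eq2, ex2, ex1, ex0, ey0, ey1, ez1, ez2, hcA0, hcA1, hcA2, hcA3, hcA4, hcA5, hcB0,
      hcB1, hcB2, hcB3, hcB4, hcB5]; ring
  refine
    { u1 := ?_, u2 := ex_u2 hp l hl, u3a := ?_, u3b := ?_, u3c := ?_, u3d := ?_, u4a := ?_,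
      u4b := ?_, u4c := ?_, u4d := ?_, u5a := ?_, u5b := ?_, u5c := ?_, u6 := ex_u6 hp l hl }
  · intro x _
    simp [FF, ex_poly hp, ch]
  · intro x _
    rw [(ex_hasFDerivAt hp l x).fderiv]
    simp
  · intro x hx
    have h2 := (ex_mem_closedBall hx).2
    rw [(ex_hasFDerivAt hp l x).fderiv]
    have e1 : ‖(2 * 10 ^ 6 * x.2 - 4000 : ℂ)‖ ≤ 2 * 10 ^ 6 * (1 / 12) + 4000 := by
      refine (norm_sub_le _ _).trans ?_
      rw [norm_mul]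
      have : ‖(2 * 10 ^ 6 : ℂ)‖ = 2 * 10 ^ 6 := by simp
      rw [this]
      have : ‖(4000 : ℂ)‖ = 4000 := by simp
      rw [this]
      gcongr
    simp only [ContinuousLinearMap.prod_apply, smul_apply,
      ContinuousLinearMap.coe_snd', smul_eq_mul, mul_one]
    refine e1.trans_lt (by norm_num)
  · intro x hx
    have h1 := (ex_mem_closedBall hx).1
    rw [(ex_hasFDerivAt hp l x).fderiv]
    have e1 : ‖(2 * 10 ^ 7 * x.1 : ℂ)‖ ≤ 2 * 10 ^ 7 * (1 / 12) := by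
      rw [norm_mul]
      have : ‖(2 * 10 ^ 7 : ℂ)‖ = 2 * 10 ^ 7 := by simp
      rw [this]
      gcongr
    have e2 : (((((2 * 10 ^ 6 * x.2 - 4000 : ℂ)) • ContinuousLinearMap.snd ℂ ℂ ℂ).prod
      ((10 ^ 7 : ℂ) • ContinuousLinearMap.snd ℂ ℂ ℂ -
        (2 * 10 ^ 7 * x.1 : ℂ) • ContinuousLinearMap.fst ℂ ℂ ℂ)) (1, 0)).2 =
        -(2 * 10 ^ 7 * x.1 : ℂ) := by simp
    rw [e2, norm_neg]
    refine e1.trans_lt (by norm_num)
  · intro x _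
    rw [(ex_hasFDerivAt hp l x).fderiv]
    simp
  · intro b _
    rw [hcA0]; norm_num
  · intro b _ z _
    have h1 : ey1 (cc l) b = 0 := by simp only [ey1, hcA0, hcB3, hcB0, hcA3]; norm_num
    have h0 : ey0 (cc l) b = 10 ^ 13 := by simp only [ey0, hcA0, hcB5, hcB0, hcA5]; norm_num
    rw [h1, h0]; norm_num
  · intro b _
    rw [he3, he4]; simp
  · intro b hb
    have h2 := (ex_mem_closedBall hb).2
    rw [he2, he4]
    have e1 : (2 * 10 ^ 19 * b.2 - 4 * 10 ^ 23 + 10 ^ 26 / 250 : ℂ) = 2 * 10 ^ 19 * b.2 := by ring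
    rw [e1, norm_mul]
    have : ‖(2 * 10 ^ 19 : ℂ)‖ = 2 * 10 ^ 19 := by simp
    rw [this]
    have : ‖(10 ^ 26 : ℂ)‖ = 10 ^ 26 := by simp
    rw [this]
    calc (2 * 10 ^ 19 : ℝ) * ‖b.2‖ ≤ 2 * 10 ^ 19 * 1 := by gcongr
      _ < 10 ^ 26 / 1000 := by norm_num
  · intro x hx hG hj
    rw [ex_jac hp] at hj
    rw [ex_GG hp] at hG
    have hG1 := (ex_mem_closedBall hG).1
    have hG2 := (ex_mem_closedBall hG).2
    simp only at hG1 hG2 hj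
    have hj' : x.1 * (2 * 10 ^ 6 * x.2 - 4000) = 0 := by
      have : (2 * 10 ^ 7 : ℂ) * (x.1 * (2 * 10 ^ 6 * x.2 - 4000)) = 0 := by
        rw [← hj]; ring
      rcases mul_eq_zero.1 this with h | h
      · norm_num at h
      · exact h
    rcases mul_eq_zero.1 hj' with h | h
    · rw [h] at hG2
      have h3 : ‖(10 : ℂ) ^ 7 * (x.2 - 0 ^ 2)‖ = 10 ^ 7 * ‖x.2‖ := by simp
      rw [h3] at hG2
      rw [mem_ball_zero_iff, Prod.norm_def, h]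
      rw [max_lt_iff]
      constructor
      · simp
      · have : ‖x.2‖ ≤ 1 / 10 ^ 7 := by
          rw [le_div_iff₀ (by norm_num)]; linarith
        refine this.trans_lt (by norm_num)
    · exfalso
      have h2 : x.2 = 1 / 500 := by
        have : (2 * 10 ^ 6 : ℂ) * x.2 = 4000 := by linear_combination h
        have h3 : x.2 = 4000 / (2 * 10 ^ 6) := by
          rw [eq_div_iff (by norm_num)]; linear_combination this
        rw [h3]; norm_num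
      rw [h2] at hG1
      have h4 : (10 ^ 6 * (1 / 500) ^ 2 - 4000 * (1 / 500) + l : ℂ) = l - 4 := by ring
      rw [h4] at hG1
      have h5 := norm_sub_norm_le (4 : ℂ) l
      rw [norm_sub_rev] at h5
      have h6 : ‖(4 : ℂ)‖ = 4 := by simp
      rw [h6] at h5
      linarith
  · intro x hx
    have h2 := (ex_mem_closedBall hx).2
    rw [(ex_jac_fderiv hp l x).fderiv]
    have e1 : (((4 * 10 ^ 13 * x.2 - 8 * 10 ^ 10 : ℂ) • ContinuousLinearMap.fst ℂ ℂ ℂ +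
      (4 * 10 ^ 13 * x.1 : ℂ) • ContinuousLinearMap.snd ℂ ℂ ℂ) (1, 0) + 8 * 10 ^ 10 : ℂ) =
        4 * 10 ^ 13 * x.2 := by simp
    rw [e1, norm_mul]
    have : ‖(4 * 10 ^ 13 : ℂ)‖ = 4 * 10 ^ 13 := by simp
    rw [this]
    calc (4 * 10 ^ 13 : ℝ) * ‖x.2‖ ≤ 4 * 10 ^ 13 * (1 / 100000) := by gcongr
      _ < 10 ^ 10 := by norm_num
  · intro x hx
    have h1 := (ex_mem_closedBall hx).1
    rw [(ex_jac_fderiv hp l x).fderiv]
    have e1 : (((4 * 10 ^ 13 * x.2 - 8 * 10 ^ 10 : ℂ) • ContinuousLinearMap.fst ℂ ℂ ℂ +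
      (4 * 10 ^ 13 * x.1 : ℂ) • ContinuousLinearMap.snd ℂ ℂ ℂ) (0, 1) : ℂ) =
        4 * 10 ^ 13 * x.1 := by simp
    rw [e1, norm_mul]
    have : ‖(4 * 10 ^ 13 : ℂ)‖ = 4 * 10 ^ 13 := by simp
    rw [this]
    calc (4 * 10 ^ 13 : ℝ) * ‖x.1‖ ≤ 4 * 10 ^ 13 * (1 / 100000) := by gcongr
      _ < 10 ^ 9 := by norm_num

end

end Pool.Agent.H429
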