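import Pool.Agent.H429.Stmts3

open MeasureTheory Filter Topology Metric

namespace Pool.Agent.H429

noncomputable section

/-- The annulus. -/
def explicit_Om : Set ℂ := {t : ℂ | 3 / 2 < ‖t‖ ∧ ‖t‖ < 7 / 4}

/-- The quotient in the first logarithm. -/
def explicit_w1 (q : ℂ × C2) : ℂ :=
  (q.2.1 - 10 ^ 6 * q.2.2 ^ 2 / 10 ^ 14 + 4000 * q.2.2 / 10 ^ 7) / q.1

/-- The quotient in the second logarithm. -/
def explicit_w2 (q : ℂ × C2) : ℂ := 4 * 10 ^ 6 * (q.1 - q.2.1) / 4000 ^ 2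

/-- The function `e`. -/
def explicit_e (q : ℂ × C2) : ℂ :=
  (1 / 4) * Complex.log (1 + -explicit_w1 q) + (1 / 2) * Complex.log (1 + -explicit_w2 q)

lemma explicit_isOpen_Om : IsOpen explicit_Om := by
  have h1 : IsOpen {t : ℂ | 3 / 2 < ‖t‖} := isOpen_lt continuous_const continuous_norm
  have h2 : IsOpen {t : ℂ | ‖t‖ < 7 / 4} := isOpen_lt continuous_norm continuous_const
  exact h1.inter h2

lemma explicit_PP_norm {x : C2} (hx : x ∈ PP) : ‖x.1‖ ≤ 1 / 12 ∧ ‖x.2‖ ≤ 1 / 12 := by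
  have h : ‖x‖ ≤ 1 / 12 := by simpa [PP] using hx
  exact ⟨(norm_fst_le x).trans h, (norm_snd_le x).trans h⟩

lemma explicit_w1_le {t : ℂ} {x : C2} (ht : t ∈ explicit_Om) (hx : x ∈ PP) :
    ‖explicit_w1 (t, x)‖ ≤ 1 / 2 := by
  obtain ⟨h1, h2⟩ := explicit_PP_norm hx
  have ht1 : 3 / 2 < ‖t‖ := ht.1
  have e1 : ‖(10 ^ 6 * x.2 ^ 2 / 10 ^ 14 : ℂ)‖ = ‖x.2‖ ^ 2 / 10 ^ 8 := by
    rw [norm_div, norm_mul, norm_pow, norm_pow, norm_pow]
    norm_num
    ring
  have e2 : ‖(4000 * x.2 / 10 ^ 7 : ℂ)‖ = 4 * ‖x.2‖ / 10 ^ 4 := by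
    rw [norm_div, norm_mul, norm_pow]
    norm_num
    ring
  have hnum : ‖(x.1 - 10 ^ 6 * x.2 ^ 2 / 10 ^ 14 + 4000 * x.2 / 10 ^ 7 : ℂ)‖ ≤ 3 / 4 := by
    calc ‖(x.1 - 10 ^ 6 * x.2 ^ 2 / 10 ^ 14 + 4000 * x.2 / 10 ^ 7 : ℂ)‖
        ≤ ‖(x.1 - 10 ^ 6 * x.2 ^ 2 / 10 ^ 14 : ℂ)‖ + ‖(4000 * x.2 / 10 ^ 7 : ℂ)‖ := norm_add_le _ _
      _ ≤ ‖x.1‖ + ‖(10 ^ 6 * x.2 ^ 2 / 10 ^ 14 : ℂ)‖ + ‖(4000 * x.2 / 10 ^ 7 : ℂ)‖ := by
          gcongr
          exact norm_sub_le _ _
      _ ≤ 3 / 4 := by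
          rw [e1, e2]
          nlinarith [norm_nonneg x.1, norm_nonneg x.2]
  unfold explicit_w1
  rw [norm_div]
  show ‖(x.1 - 10 ^ 6 * x.2 ^ 2 / 10 ^ 14 + 4000 * x.2 / 10 ^ 7 : ℂ)‖ / ‖t‖ ≤ 1 / 2
  rw [div_le_iff₀ (by linarith)]
  linarith

lemma explicit_w2_le {t : ℂ} {x : C2} (ht : t ∈ explicit_Om) (hx : x ∈ PP) :
    ‖explicit_w2 (t, x)‖ ≤ 1 / 2 := by
  obtain ⟨h1, h2⟩ := explicit_PP_norm hx
  have ht2 : ‖t‖ < 7 / 4 := ht.2
  have e : explicit_w2 (t, x) = (t - x.1) / 4 := by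
    simp only [explicit_w2]
    ring
  rw [e, norm_div]
  have h3 : ‖t - x.1‖ ≤ ‖t‖ + ‖x.1‖ := norm_sub_le _ _
  norm_num
  linarith

lemma explicit_log_le {w : ℂ} (hw : ‖w‖ ≤ 1 / 2) : ‖Complex.log (1 + -w)‖ ≤ 1 := by
  have h := Complex.norm_log_one_add_le (z := -w) (by rw [norm_neg]; linarith)
  rw [norm_neg] at h
  refine h.trans ?_
  have h1 : (1 - ‖w‖)⁻¹ ≤ 2 := by
    rw [inv_le_comm₀ (by linarith) (by norm_num)]
    norm_num
    linarith
  have h0 := norm_nonneg w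
  have h2 : ‖w‖ ^ 2 ≤ 1 / 4 := by nlinarith
  have h3 : ‖w‖ ^ 2 * (1 - ‖w‖)⁻¹ ≤ 1 / 4 * 2 := by
    apply mul_le_mul h2 h1
    · rw [inv_nonneg]; linarith
    · norm_num
  linarith

lemma explicit_e_le {t : ℂ} {x : C2} (ht : t ∈ explicit_Om) (hx : x ∈ PP) :
    ‖explicit_e (t, x)‖ ≤ 1 := by
  unfold explicit_e
  refine (norm_add_le _ _).trans ?_
  rw [norm_mul, norm_mul]
  have h1 := explicit_log_le (explicit_w1_le ht hx)
  have h2 := explicit_log_le (explicit_w2_le ht hx)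
  have e1 : ‖(1 / 4 : ℂ)‖ = 1 / 4 := by norm_num
  have e2 : ‖(1 / 2 : ℂ)‖ = 1 / 2 := by norm_num
  rw [e1, e2]
  linarith

lemma explicit_slit {w : ℂ} (hw : ‖w‖ ≤ 1 / 2) : 1 + -w ∈ Complex.slitPlane := by
  apply Complex.mem_slitPlane_of_norm_lt_one
  rw [norm_neg]
  linarith

lemma explicit_ne_zero {t : ℂ} (ht : t ∈ explicit_Om) : t ≠ 0 := by
  rintro rfl
  have := ht.1
  norm_num at this

lemma explicit_e_analytic {t : ℂ} {x : C2} (ht : t ∈ explicit_Om) (hx : x ∈ PP) :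
    AnalyticAt ℂ explicit_e (t, x) := by
  have ht0 := explicit_ne_zero ht
  have a1 : AnalyticAt ℂ (fun q : ℂ × C2 => q.1) (t, x) := analyticAt_fst
  have a2 : AnalyticAt ℂ (fun q : ℂ × C2 => q.2) (t, x) := analyticAt_snd
  have a3 : AnalyticAt ℂ (fun q : ℂ × C2 => q.2.1) (t, x) :=
    (analyticAt_fst (𝕜 := ℂ) (E := ℂ) (F := ℂ) (p := x)).comp_of_eq a2 rfl
  have a4 : AnalyticAt ℂ (fun q : ℂ × C2 => q.2.2) (t, x) :=
    (analyticAt_snd (𝕜 := ℂ) (E := ℂ) (F := ℂ) (p := x)).comp_of_eq a2 rfl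
  have b1 : AnalyticAt ℂ explicit_w1 (t, x) := by
    unfold explicit_w1
    refine AnalyticAt.div ?_ a1 ht0
    refine AnalyticAt.add (AnalyticAt.sub a3 ?_) ?_
    · refine AnalyticAt.div (analyticAt_const.mul (a4.pow 2)) analyticAt_const ?_
      norm_num
    · refine AnalyticAt.div (analyticAt_const.mul a4) analyticAt_const ?_
      norm_num
  have b2 : AnalyticAt ℂ explicit_w2 (t, x) := by
    unfold explicit_w2
    refine AnalyticAt.div (analyticAt_const.mul (a1.sub a3)) analyticAt_const ?_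
    norm_num
  unfold explicit_e
  refine AnalyticAt.add (analyticAt_const.mul ?_) (analyticAt_const.mul ?_)
  · exact (analyticAt_const.add b1.neg).clog (explicit_slit (explicit_w1_le ht hx))
  · exact (analyticAt_const.add b2.neg).clog (explicit_slit (explicit_w2_le ht hx))

lemma explicit_cc_analytic (t : ℂ) : AnalyticAt ℂ cc t := by
  have h : ∀ i : Fin 3, AnalyticAt ℂ (fun t => cc t i) t := by
    intro i
    have h' : ∀ m : Mon 2, AnalyticAt ℂ (fun t => cc t i m) t := by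
      intro m
      unfold cc
      split_ifs <;> first | exact analyticAt_const | exact analyticAt_id
    exact AnalyticAt.pi h'
  exact AnalyticAt.pi h

lemma explicit_re1 {t : ℂ} {b : C2} (ht : t ∈ explicit_Om) (hb : b ∈ PP) :
    Real.log ‖t - b.1 + 10 ^ 6 * b.2 ^ 2 / 10 ^ 14 - 4000 * b.2 / 10 ^ 7‖ =
      Real.log ‖t‖ + (Complex.log (1 + -explicit_w1 (t, b))).re := by
  have ht0 := explicit_ne_zero ht
  have h0 : 1 + -explicit_w1 (t, b) ≠ 0 :=
    Complex.slitPlane_ne_zero (explicit_slit (explicit_w1_le ht hb))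
  rw [Complex.log_re, ← Real.log_mul (by simpa using ht0) (by simpa using h0), ← norm_mul]
  congr 2
  simp only [explicit_w1]
  field_simp
  ring

lemma explicit_re2 {t : ℂ} {b : C2} (ht : t ∈ explicit_Om) (hb : b ∈ PP) :
    Real.log ‖4 * 10 ^ 6 * (t - b.1) - 4000 ^ 2‖ =
      Real.log (4000 ^ 2) + (Complex.log (1 + -explicit_w2 (t, b))).re := by
  have h0 : 1 + -explicit_w2 (t, b) ≠ 0 :=
    Complex.slitPlane_ne_zero (explicit_slit (explicit_w2_le ht hb))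
  rw [Complex.log_re, ← Real.log_mul (by norm_num) (by simpa using h0)]
  congr 1
  have e : (4 * 10 ^ 6 * (t - b.1) - 4000 ^ 2 : ℂ) = -(4000 ^ 2 * (1 + -explicit_w2 (t, b))) := by
    simp only [explicit_w2]
    ring
  rw [e, norm_neg, norm_mul, norm_pow]
  norm_num

/-- The constant. -/
def explicit_k : ℝ :=
  Real.log (2 * 10 ^ 7) - (1 / 4) * Real.log (10 ^ 6) + (1 / 2) * Real.log (4000 ^ 2)

lemma explicit_T1 (hT : S_T1) {t : ℂ} {b : C2} (ht : t ∈ explicit_Om) (hb : b ∈ PP) :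
    avg (GG (cc t)) 1 (fun x => Real.log ‖jac (GG (cc t)) x‖) b =
      explicit_k + (1 / 4) * Real.log ‖t‖ + (explicit_e (t, b)).re := by
  have hbB : b ∈ BB := by
    have : ‖b‖ ≤ 1 / 12 := by simpa [PP] using hb
    simp only [BB, mem_ball, dist_zero_right]
    linarith
  rw [(hT t ht.1 ht.2).2 b hbB, explicit_re1 ht hb, explicit_re2 ht hb]
  have e1 : ((1 / 4 : ℂ) * Complex.log (1 + -explicit_w1 (t, b))).re =
      (1 / 4) * (Complex.log (1 + -explicit_w1 (t, b))).re := by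
    have : (1 / 4 : ℂ) = ((1 / 4 : ℝ) : ℂ) := by push_cast; rfl
    rw [this, Complex.re_ofReal_mul]
  have e2 : ((1 / 2 : ℂ) * Complex.log (1 + -explicit_w2 (t, b))).re =
      (1 / 2) * (Complex.log (1 + -explicit_w2 (t, b))).re := by
    have : (1 / 2 : ℂ) = ((1 / 2 : ℝ) : ℂ) := by push_cast; rfl
    rw [this, Complex.re_ofReal_mul]
  simp only [explicit_e, explicit_k, Complex.add_re, e1, e2]
  ring

lemma explicit_away {t : ℂ} (hT : S_T1) (ht : t ∈ explicit_Om) : Away (GG (cc t)) 0 1 := by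
  refine ⟨one_pos, subset_rfl, ?_⟩
  intro j hj
  obtain ⟨i, rfl⟩ : ∃ i, j = i + 1 := ⟨j - 1, by omega⟩
  rw [(hT t ht.1 ht.2).1 i]
  exact Set.disjoint_empty _

lemma explicit_zero_mem : (0 : C2) ∈ BB := by simp [BB]

lemma explicit_reg {t : ℂ} (hT : S_T1) (ht : t ∈ explicit_Om) (n : ℕ) : Reg (GG (cc t)) n 0 := by
  refine ⟨explicit_zero_mem, ?_⟩
  intro k hk _ x hx h0
  obtain ⟨i, rfl⟩ : ∃ i, k = i + 1 := ⟨k - 1, by omega⟩
  have : (0 : C2) ∈ VV (GG (cc t)) (i + 1) := ⟨explicit_zero_mem, x, hx, h0⟩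
  rw [(hT t ht.1 ht.2).1 i] at this
  exact this

lemma explicit_sub {g : C2 → C2} {n : ℕ} (hn : 1 ≤ n) {b x : C2} (hx : x ∈ pre g n b) : x ∈ PP :=
  hx.2 0 (by omega)

lemma explicit_avg_add {g : C2 → C2} (hg : Sys g) (hc : S_card) {n : ℕ} (hn : 1 ≤ n)
    (hr : Reg g n 0) (φ ψ : C2 → ℝ) (a : ℝ) (h : ∀ x ∈ PP, φ x = a + ψ x) :
    avg g n φ 0 = a + avg g n ψ 0 := by
  obtain ⟨hf, _, hcard⟩ := hc g hg n 0 explicit_zero_mem
  have hcard := hcard hr
  have hcard' : hf.toFinset.card = 4 ^ n := by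
    rw [← hcard, Set.ncard_eq_toFinset_card _ hf]
  unfold avg
  rw [finsum_mem_eq_finite_toFinset_sum _ hf, finsum_mem_eq_finite_toFinset_sum _ hf]
  have e : ∑ x ∈ hf.toFinset, φ x = ∑ x ∈ hf.toFinset, (a + ψ x) := by
    apply Finset.sum_congr rfl
    intro x hx
    exact h x (explicit_sub hn (hf.mem_toFinset.1 hx))
  rw [e, Finset.sum_add_distrib, Finset.sum_const, hcard', nsmul_eq_mul]
  have : (4 : ℝ) ^ n ≠ 0 := by positivity
  push_cast
  field_simp

/-- The complex averages. -/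
def explicit_E (n : ℕ) (t : ℂ) : ℂ :=
  (∑ᶠ x ∈ pre (GG (cc t)) n 0, explicit_e (t, x)) / 4 ^ n

lemma explicit_E_eq {t : ℂ} (hg : Sys (GG (cc t))) (hc : S_card) (n : ℕ) :
    explicit_E n t = ((avg (GG (cc t)) n (fun x => (explicit_e (t, x)).re) 0 : ℝ) : ℂ) +
      ((avg (GG (cc t)) n (fun x => (-Complex.I * explicit_e (t, x)).re) 0 : ℝ) : ℂ) * Complex.I := by
  obtain ⟨hf, _⟩ := hc _ hg n 0 explicit_zero_mem
  unfold avg explicit_E
  rw [finsum_mem_eq_finite_toFinset_sum _ hf, finsum_mem_eq_finite_toFinset_sum _ hf,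
    finsum_mem_eq_finite_toFinset_sum _ hf]
  push_cast
  rw [div_mul_eq_mul_div, ← add_div, Finset.sum_mul, ← Finset.sum_add_distrib]
  congr 1
  apply Finset.sum_congr rfl
  intro x _
  rw [neg_mul, Complex.neg_re, Complex.I_mul_re, neg_neg]
  exact (Complex.re_add_im _).symm

lemma explicit_E_le {t : ℂ} (hT : S_T1) (hg : Sys (GG (cc t))) (hc : S_card) (ht : t ∈ explicit_Om)
    {n : ℕ} (hn : 1 ≤ n) : ‖explicit_E n t‖ ≤ 1 := by
  obtain ⟨hf, _, hcard⟩ := hc _ hg n 0 explicit_zero_mem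
  have hcard := hcard (explicit_reg hT ht n)
  have hcard' : hf.toFinset.card = 4 ^ n := by
    rw [← hcard, Set.ncard_eq_toFinset_card _ hf]
  unfold explicit_E
  rw [finsum_mem_eq_finite_toFinset_sum _ hf, norm_div, norm_pow]
  have e4 : ‖(4 : ℂ)‖ = 4 := by norm_num
  rw [e4, div_le_one (by positivity)]
  calc ‖∑ x ∈ hf.toFinset, explicit_e (t, x)‖ ≤ ∑ x ∈ hf.toFinset, ‖explicit_e (t, x)‖ :=
        norm_sum_le _ _
    _ ≤ ∑ x ∈ hf.toFinset, (1 : ℝ) := by
        apply Finset.sum_le_sum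
        intro x hx
        exact explicit_e_le ht (explicit_sub hn (hf.mem_toFinset.1 hx))
    _ = 4 ^ n := by
        rw [Finset.sum_const, hcard', nsmul_eq_mul]
        push_cast
        ring

/-- TARGET -/
theorem t_explicit (hc : S_card) (ha : S_avgsucc) (hs : S_sys) (hex : S_ex) (hT : S_T1) (hlog : S_log) (hhol : S_hol)
    (hfh : S_famhol) (hlim : S_holim) (hjt : S_joint) (hm : S_measure) : S_explicit := by
  classical
  have hgood : ∀ t ∈ explicit_Om, Good (cc t) := fun t ht => hex t (by linarith [ht.2])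
  have hsys : ∀ t ∈ explicit_Om, Sys (GG (cc t)) := fun t ht => hs _ (hgood t ht)
  -- convergence of the complex averages for every equilibrium measure
  have hpt : ∀ t ∈ explicit_Om, ∀ x ∈ PP, AnalyticAt ℂ (fun x : C2 => explicit_e (t, x)) x := by
    intro t ht x hx
    exact (explicit_e_analytic ht hx).comp_of_eq (analyticAt_const.prod analyticAt_id) rfl
  have hre : ∀ t ∈ explicit_Om, ∀ m : Measure C2, Equi (GG (cc t)) m →
      Tendsto (fun n => avg (GG (cc t)) n (fun x => (explicit_e (t, x)).re) 0) atTop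
        (𝓝 (∫ x, (explicit_e (t, x)).re ∂m)) := fun t ht m hm' =>
    hhol _ (hsys t ht) m hm' 0 1 (explicit_away hT ht) _ (hpt t ht)
  have him : ∀ t ∈ explicit_Om, ∀ m : Measure C2, Equi (GG (cc t)) m →
      Tendsto (fun n => avg (GG (cc t)) n (fun x => (-Complex.I * explicit_e (t, x)).re) 0) atTop
        (𝓝 (∫ x, (-Complex.I * explicit_e (t, x)).re ∂m)) := fun t ht m hm' =>
    hhol _ (hsys t ht) m hm' 0 1 (explicit_away hT ht) _
      (fun x hx => analyticAt_const.mul (hpt t ht x hx))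
  have hE : ∀ t ∈ explicit_Om, ∀ m : Measure C2, Equi (GG (cc t)) m →
      Tendsto (fun n => explicit_E n t) atTop
        (𝓝 (((∫ x, (explicit_e (t, x)).re ∂m : ℝ) : ℂ) +
          ((∫ x, (-Complex.I * explicit_e (t, x)).re ∂m : ℝ) : ℂ) * Complex.I)) := by
    intro t ht m hm'
    have h1 := (Complex.continuous_ofReal.tendsto _).comp (hre t ht m hm')
    have h2 := (Complex.continuous_ofReal.tendsto _).comp (him t ht m hm')
    refine (h1.add (h2.mul_const Complex.I)).congr ?_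
    intro n
    rw [explicit_E_eq (hsys t ht) hc n]
    rfl
  -- the measures
  choose! M hM using fun t (ht : t ∈ explicit_Om) => hm _ (hsys t ht)
  refine ⟨fun t => ((∫ x, (explicit_e (t, x)).re ∂(M t) : ℝ) : ℂ) +
          ((∫ x, (-Complex.I * explicit_e (t, x)).re ∂(M t) : ℝ) : ℂ) * Complex.I, explicit_k, ?_, ?_⟩
  · -- holomorphy
    refine hlim explicit_Om (fun n => explicit_E (n + 1)) _ 1 explicit_isOpen_Om ?_ ?_ ?_
    · intro n
      refine hfh (fun t => GG (cc t)) explicit_Om explicit_isOpen_Om hsys ?_ (n + 1) 0 ?_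
        explicit_zero_mem (by omega) explicit_e (fun t ht x hx => explicit_e_analytic ht hx)
      · intro t ht x hx
        have hx1 : x ∈ closedBall (0 : C2) 1 := closedBall_subset_closedBall (by norm_num) hx
        have h := hjt (cc t) x ((hgood t ht).u1 x hx1)
        refine h.comp_of_eq (g := fun q : Coef 2 × C2 => GG q.1 q.2)
          (f := fun q : ℂ × C2 => (cc q.1, q.2)) ?_ rfl
        refine AnalyticAt.prod ?_ analyticAt_snd
        exact (explicit_cc_analytic t).comp_of_eq analyticAt_fst rfl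
      · intro t ht j
        rw [(hT t ht.1 ht.2).1 j]
        exact fun h => h
    · intro n t ht
      exact explicit_E_le hT (hsys t ht) hc ht (by omega)
    · intro t ht
      exact (tendsto_add_atTop_iff_nat 1).2 (hE t ht (M t) (hM t ht))
  · intro t h1 h2
    have ht : t ∈ explicit_Om := ⟨h1, h2⟩
    refine ⟨(hT t h1 h2).1, ?_⟩
    intro m hm'
    have hl := (hlog _ (hsys t ht) m hm' 0 1 (explicit_away hT ht)).2.2
    have hl' := (tendsto_add_atTop_iff_nat 2).2 hl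
    have key : ∀ n : ℕ, avg (GG (cc t)) (n + 2) (fun x => Real.log ‖jac (GG (cc t)) x‖) 0 =
        explicit_k + (1 / 4) * Real.log ‖t‖ +
          avg (GG (cc t)) (n + 1) (fun x => (explicit_e (t, x)).re) 0 := by
      intro n
      rw [(ha _ (hsys t ht) (n + 1) 0 (explicit_reg hT ht (n + 2))).2.2.2]
      exact explicit_avg_add (hsys t ht) hc (by omega) (explicit_reg hT ht _) _ _ _
        (fun x hx => explicit_T1 hT ht hx)
    have hr : Tendsto (fun n => avg (GG (cc t)) (n + 2) (fun x => Real.log ‖jac (GG (cc t)) x‖) 0)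
        atTop (𝓝 (explicit_k + (1 / 4) * Real.log ‖t‖ + ∫ x, (explicit_e (t, x)).re ∂(M t))) := by
      simp only [key]
      exact tendsto_const_nhds.add ((tendsto_add_atTop_iff_nat 1).2 (hre t ht (M t) (hM t ht)))
    have hu := tendsto_nhds_unique hl' hr
    rw [hu]
    simp

end

end Pool.Agent.H429
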