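import Pool.Agent.H429.Stmts3

open MeasureTheory Filter Topology Metric

namespace Pool.Agent.H429

noncomputable section

private lemma exterior_sets (f : P2 → P2) (x : P2) (n₀ k : ℕ) :
    {y | f^[n₀ + k] y = x} = ⋃ z ∈ {z | f^[n₀] z = x}, {y | f^[k] y = z} := by
  ext y
  simp only [Function.iterate_add_apply, Set.mem_ofPred_eq, Set.mem_iUnion, exists_prop,
    exists_eq_right']

private lemma exterior_avg (f : P2 → P2) (x : P2) (n₀ k : ℕ) (φ : P2 → ℝ)
    (h0 : {z | f^[n₀] z = x}.Finite)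
    (hk : ∀ z, f^[n₀] z = x → {y | f^[k] y = z}.Finite ∧ {y | f^[k] y = z}.ncard = 4 ^ k) :
    preAvg f (n₀ + k) φ x =
      (∑ z ∈ h0.toFinset, (∑ᶠ y ∈ {y | f^[k] y = z}, φ y) / 4 ^ k) / h0.toFinset.card := by
  have hdis : {z | f^[n₀] z = x}.PairwiseDisjoint fun z => {y | f^[k] y = z} := by
    intro z _ z' _ hzz'
    refine Set.disjoint_left.2 fun y hy hy' => hzz' ?_
    have hy1 : f^[k] y = z := hy
    have hy2 : f^[k] y = z' := hy'
    rw [← hy1, ← hy2]
  have hsum : ∀ (M : Type) [AddCommMonoid M] (ψ : P2 → M),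
      ∑ᶠ y ∈ {y | f^[n₀ + k] y = x}, ψ y =
        ∑ z ∈ h0.toFinset, ∑ᶠ y ∈ {y | f^[k] y = z}, ψ y := by
    intro M _ ψ
    rw [exterior_sets, finsum_mem_biUnion hdis h0 fun z hz => (hk z hz).1,
      finsum_mem_eq_finite_toFinset_sum _ h0]
  have hcard : ({y | f^[n₀ + k] y = x}.ncard : ℝ) = h0.toFinset.card * 4 ^ k := by
    have h1 := hsum ℕ fun _ => 1
    rw [finsum_one] at h1
    rw [h1]
    have h2 : ∑ z ∈ h0.toFinset, ∑ᶠ y ∈ {y | f^[k] y = z}, (1 : ℕ) =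
        ∑ z ∈ h0.toFinset, 4 ^ k := by
      refine Finset.sum_congr rfl fun z hz => ?_
      rw [finsum_one]
      exact (hk z (by simpa using hz)).2
    rw [h2, Finset.sum_const, smul_eq_mul]
    push_cast
    ring
  rw [preAvg, hcard, hsum ℝ φ, ← Finset.sum_div, div_div, mul_comm]

private lemma exterior_mk_eq_io {p : Vec} (hp : p ≠ 0) (h2 : p 2 ≠ 0) :
    Projectivization.mk ℂ p hp = io (p 0 / p 2, p 1 / p 2) := by
  refine (Projectivization.mk_eq_mk_iff' ℂ _ _ _ _).2 ⟨p 2, ?_⟩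
  funext i
  fin_cases i
  · simp [ch]
    field_simp
  · simp [ch]
    field_simp
  · simp [ch]

/-- TARGET -/
theorem t_exterior (hc : S_card) (hn : S_null) (hs : S_sys) (h1 : S_vol) (h2 : S_fin) (h3 : S_nullF)
    (h4 : S_chart) (h5 : S_lift) (hnd : S_nondeg) (hp : S_poly) : S_exterior := by
  intro c hgood m hm
  have hsys : Sys (GG c.1) := hs c.1 hgood
  obtain ⟨hinj, hcont, hpre⟩ := h4
  have hprob := hm.prob
  have hmeas : Measurable io := hcont.measurable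
  refine ⟨Measure.isProbabilityMeasure_map hmeas.aemeasurable, fun φ => ?_⟩
  have hint : ∫ y, φ y ∂(m.map io) = ∫ x, φ (io x) ∂m :=
    integral_map hmeas.aemeasurable φ.continuous.aestronglyMeasurable
  rw [hint]
  -- the bad sets
  set Z3 : Set C2 := {b | b ∈ BB ∧ ¬ ((∀ n, Reg (GG c.1) n b) ∧
    Tendsto (fun n => avg (GG c.1) n (fun x => φ (io x)) b) atTop (𝓝 (∫ x, φ (io x) ∂m)))}
    with hZ3
  have hZ3null : volume Z3 = 0 := by
    have h6 : ∀ᵐ b : C2, ∀ n, b ∈ BB → Reg (GG c.1) n b := by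
      rw [ae_all_iff]
      intro n
      have h7 := (hn (GG c.1) hsys).1 n
      rw [ae_iff]
      refine measure_mono_null ?_ h7
      intro b hb
      simp only [Set.mem_ofPred_eq, Classical.not_imp] at hb
      exact ⟨hb.1, hb.2⟩
    have h8 := hm.conv (fun x => φ (io x)) (φ.continuous.comp hcont).continuousOn
    have h9 : ∀ᵐ b : C2, b ∉ Z3 := by
      filter_upwards [h6, h8] with b hb1 hb2 hb3
      exact hb3.2 ⟨fun n => hb1 n hb3.1, hb2 hb3.1⟩
    rw [ae_iff] at h9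
    simpa using h9
  obtain ⟨Z, hZ, hfin⟩ := h2 c hgood
  have hN1 := h1 c.1 hgood
  have hN2 : ∀ᵐ v : Vec, ∀ n : ℕ, v ∉ (poly c.1)^[n] '' Z := by
    rw [ae_all_iff]
    intro n
    exact measure_eq_zero_iff_ae_notMem.1 (h3.1 c.1 Z hZ n)
  have hN3 : ∀ᵐ v : Vec, ∀ n : ℕ,
      v ∉ (poly c.1)^[n] '' {v : Vec | v 2 ≠ 0 ∧ (v 0 / v 2, v 1 / v 2) ∈ Z3} := by
    rw [ae_all_iff]
    intro n
    exact measure_eq_zero_iff_ae_notMem.1 (h3.1 c.1 _ (h3.2 Z3 hZ3null) n)
  have hN1' : ∀ᵐ v : Vec, ∃ n : ℕ, ∀ p ∈ Out, (poly c.1)^[n] p ≠ v := by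
    rw [ae_iff]
    refine measure_mono_null ?_ hN1
    intro v hv
    simp only [Set.mem_ofPred_eq, not_exists, not_forall, not_not] at hv
    intro n
    obtain ⟨p, hp1, hp2⟩ := hv n
    exact ⟨p, hp1, hp2⟩
  filter_upwards [hN1', hN2, hN3] with v hv1 hv2 hv3 hv
  obtain ⟨n₀, hn₀⟩ := hv1
  -- all the preimage sets are finite and nonempty
  have hY : ∀ j : ℕ, {y | (selfMap c)^[j] y = Projectivization.mk ℂ v hv}.Finite ∧
      {y | (selfMap c)^[j] y = Projectivization.mk ℂ v hv}.Nonempty := by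
    intro j
    induction j with
    | zero =>
      refine ⟨?_, ⟨Projectivization.mk ℂ v hv, rfl⟩⟩
      exact Set.finite_singleton (Projectivization.mk ℂ v hv)
    | succ j ih =>
      have h6 : ∀ z, (selfMap c)^[j] z = Projectivization.mk ℂ v hv →
          {y | selfMap c y = z}.Finite ∧ {y | selfMap c y = z}.Nonempty := by
        intro z hz
        obtain ⟨p, hp0, rfl, hp1⟩ := (h5 c j z v hv).1 hz
        exact hfin p hp0 fun hpZ => hv2 j ⟨p, hpZ, hp1⟩
      rw [exterior_sets (selfMap c) _ j 1]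
      refine ⟨ih.1.biUnion fun z hz => (h6 z hz).1, ?_⟩
      obtain ⟨z, hz⟩ := ih.2
      obtain ⟨y, hy⟩ := (h6 z hz).2
      exact ⟨y, Set.mem_biUnion hz hy⟩
  obtain ⟨h0, hne⟩ := hY n₀
  -- the points of the preimage set of order `n₀`
  have hgoodpt : ∀ z, (selfMap c)^[n₀] z = Projectivization.mk ℂ v hv → ∃ b ∈ BB, z = io b ∧
      (∀ n, Reg (GG c.1) n b) ∧
      Tendsto (fun n => avg (GG c.1) n (fun x => φ (io x)) b) atTop (𝓝 (∫ x, φ (io x) ∂m)) := by
    intro z hz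
    obtain ⟨p, hp0, rfl, hp1⟩ := (h5 c n₀ z v hv).1 hz
    have hpO : p ∉ Out := fun h => hn₀ p h hp1
    have hlt : max ‖p 0‖ ‖p 1‖ < ‖p 2‖ := not_le.1 hpO
    have hp2 : p 2 ≠ 0 := by
      rw [← norm_pos_iff]
      exact (le_max_of_le_left (norm_nonneg _)).trans_lt hlt
    have hpos : 0 < ‖p 2‖ := norm_pos_iff.2 hp2
    have hb : (p 0 / p 2, p 1 / p 2) ∈ BB := by
      rw [BB, mem_ball_zero_iff, Prod.norm_def]
      refine max_lt ?_ ?_
      · rw [norm_div, div_lt_one hpos]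
        exact (le_max_left _ _).trans_lt hlt
      · rw [norm_div, div_lt_one hpos]
        exact (le_max_right _ _).trans_lt hlt
    have hb3 : (p 0 / p 2, p 1 / p 2) ∉ Z3 := fun h => hv3 n₀ ⟨p, ⟨hp2, h⟩, hp1⟩
    have h7 := not_and_not_right.1 hb3 hb
    exact ⟨_, hb, exterior_mk_eq_io hp0 hp2, h7.1, h7.2⟩
  -- the sets over such a point
  have hset : ∀ z, (selfMap c)^[n₀] z = Projectivization.mk ℂ v hv → ∀ k,
      {y | (selfMap c)^[k] y = z}.Finite ∧ {y | (selfMap c)^[k] y = z}.ncard = 4 ^ k := by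
    intro z hz k
    obtain ⟨b, hb, rfl, hreg, _⟩ := hgoodpt z hz
    obtain ⟨h8, _, h9⟩ := hc (GG c.1) hsys k b hb
    rw [hpre c hgood k b hb]
    exact ⟨h8.image _, by rw [Set.ncard_image_of_injective _ hinj, h9 (hreg k)]⟩
  have hlim : ∀ z, (selfMap c)^[n₀] z = Projectivization.mk ℂ v hv →
      Tendsto (fun k => (∑ᶠ y ∈ {y | (selfMap c)^[k] y = z}, φ y) / 4 ^ k) atTop
        (𝓝 (∫ x, φ (io x) ∂m)) := by
    intro z hz
    obtain ⟨b, hb, rfl, _, ht⟩ := hgoodpt z hz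
    refine ht.congr fun k => ?_
    rw [hpre c hgood k b hb, avg, finsum_mem_image hinj.injOn]
  rw [← tendsto_add_atTop_iff_nat n₀]
  have hcard : (h0.toFinset.card : ℝ) ≠ 0 := by
    have h8 : h0.toFinset.Nonempty := by
      rw [Set.Finite.toFinset_nonempty]
      exact hne
    exact_mod_cast (Finset.card_pos.2 h8).ne'
  have hmain : Tendsto (fun k => (∑ z ∈ h0.toFinset,
      (∑ᶠ y ∈ {y | (selfMap c)^[k] y = z}, φ y) / 4 ^ k) / (h0.toFinset.card : ℝ)) atTop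
      (𝓝 ((∑ _z ∈ h0.toFinset, ∫ x, φ (io x) ∂m) / (h0.toFinset.card : ℝ))) := by
    refine Tendsto.div_const (tendsto_finsetSum _ fun z hz => ?_) _
    exact hlim z (by simpa using hz)
  rw [Finset.sum_const, nsmul_eq_mul, mul_div_cancel_left₀ _ hcard] at hmain
  refine hmain.congr fun k => ?_
  rw [add_comm k n₀, exterior_avg (selfMap c) _ n₀ k φ h0 fun z hz => hset z hz k]

end

end Pool.Agent.H429
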