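import Pool.Agent.H429.Stmts3

open MeasureTheory Filter Topology Metric

namespace Pool.Agent.H429

noncomputable section

theorem fam_reg (G : ℂ → C2 → C2) (t : ℂ) (n : ℕ) (b : C2) (hb : b ∈ BB)
    (hV : ∀ j, b ∉ VV (G t) (j + 1)) : Reg (G t) n b := by
  refine ⟨hb, fun k hk _ x hx h => ?_⟩
  obtain ⟨j, rfl⟩ : ∃ j, k = j + 1 := ⟨k - 1, by omega⟩
  exact hV j ⟨hb, x, hx, h⟩

theorem fam_sum (G : ℂ → C2 → C2) (n : ℕ) (b : C2) (t : ℂ) (y : Fin (4 ^ n) → ℂ × C2 → C2)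
    (hi : Function.Injective (fun i => y i (t, b)))
    (hr : pre (G t) n b = Set.range (fun i => y i (t, b))) {M : Type} [AddCommMonoid M]
    (φ : C2 → M) : ∑ᶠ x ∈ pre (G t) n b, φ x = ∑ i, φ (y i (t, b)) := by
  rw [hr, finsum_mem_range hi, finsum_eq_sum_of_fintype]

theorem fam_mem (g : C2 → C2) (n : ℕ) (hn : 1 ≤ n) (b x : C2) (hx : x ∈ pre g n b) : x ∈ PP :=
  hx.2 0 hn

theorem fam_harm_sum {ι : Type} (s : Finset ι) (f : ι → ℂ → ℝ) (t : ℂ)
    (h : ∀ i ∈ s, InnerProductSpace.HarmonicAt (f i) t) :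
    InnerProductSpace.HarmonicAt (fun z => ∑ i ∈ s, f i z) t := by
  classical
  induction s using Finset.induction_on with
  | empty =>
    simp only [Finset.sum_empty]
    exact InnerProductSpace.harmonicAt_const (0 : ℝ)
  | insert a s ha ih =>
    simp only [Finset.sum_insert ha]
    exact (h a (Finset.mem_insert_self a s)).add (ih fun i hi => h i (Finset.mem_insert_of_mem hi))

/-- TARGETS -/
theorem t_family (hc : S_card) (hj : S_jan) (hb : S_branch) : S_family := by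
  intro G Ω hΩ hS hG n b hV hbB hn t ht
  have hreg := fam_reg G t n b hbB (hV t ht)
  obtain ⟨N, hN, htN, y, hy, hq⟩ := hb ℂ G Ω hΩ hS hG n t b ht hreg
  obtain ⟨-, -, hinj, hran⟩ := hq _ htN
  have hev : ∀ᶠ s in 𝓝 t, (s, b) ∈ N := by
    have hc : ContinuousAt (fun s : ℂ => (s, b)) t := by fun_prop
    exact hc.eventually_mem (hN.mem_nhds htN)
  have heq : (fun s => avg (G s) n (fun x => Real.log ‖jac (G s) x‖) b) =ᶠ[𝓝 t]
      fun s => (1 / 4 ^ n : ℝ) • ∑ i, Real.log ‖jac (G s) (y i (s, b))‖ := by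
    filter_upwards [hev] with s hs
    obtain ⟨-, -, hi, hr⟩ := hq _ hs
    unfold avg
    rw [fam_sum G n b s y hi hr]
    simp only [smul_eq_mul]
    ring
  rw [InnerProductSpace.harmonicAt_congr_nhds heq]
  refine InnerProductSpace.HarmonicAt.const_smul ?_
  refine fam_harm_sum _ (fun i s => Real.log ‖jac (G s) (y i (s, b))‖) t fun i _ => ?_
  have hmem : y i (t, b) ∈ pre (G t) n b := by rw [hran]; exact ⟨i, rfl⟩
  have h1 : AnalyticAt ℂ (fun s : ℂ => (s, b)) t := by fun_prop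
  have h2 : AnalyticAt ℂ (fun s : ℂ => y i (s, b)) t := (hy i _ htN).comp_of_eq h1 rfl
  have h3 := (hj ℂ G t (y i (t, b)) (hG t ht _ (fam_mem _ n hn _ _ hmem))).2
  have h4 : AnalyticAt ℂ (fun s : ℂ => jac (G s) (y i (s, b))) t :=
    h3.comp_of_eq (f := fun s : ℂ => (s, y i (s, b))) (analyticAt_id.prod h2) rfl
  exact h4.harmonicAt_log_norm (hreg.2 n hn le_rfl _ hmem)

theorem t_famhol (hc : S_card) (hb : S_branch) : S_famhol := by
  intro G Ω hΩ hS hG n b hV hbB hn e he t ht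
  have hreg := fam_reg G t n b hbB (hV t ht)
  obtain ⟨N, hN, htN, y, hy, hq⟩ := hb ℂ G Ω hΩ hS hG n t b ht hreg
  obtain ⟨-, -, hinj, hran⟩ := hq _ htN
  have hev : ∀ᶠ s in 𝓝 t, (s, b) ∈ N := by
    have hc : ContinuousAt (fun s : ℂ => (s, b)) t := by fun_prop
    exact hc.eventually_mem (hN.mem_nhds htN)
  have heq : (fun s => (∑ᶠ x ∈ pre (G s) n b, e (s, x)) / 4 ^ n) =ᶠ[𝓝 t]
      fun s => (∑ i, e (s, y i (s, b))) / 4 ^ n := by
    filter_upwards [hev] with s hs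
    obtain ⟨-, -, hi, hr⟩ := hq _ hs
    rw [fam_sum G n b s y hi hr]
  refine (DifferentiableAt.congr_of_eventuallyEq ?_ heq).differentiableWithinAt
  refine DifferentiableAt.div_const ?_ _
  refine DifferentiableAt.fun_sum fun i _ => ?_
  have hmem : y i (t, b) ∈ pre (G t) n b := by rw [hran]; exact ⟨i, rfl⟩
  have h1 : AnalyticAt ℂ (fun s : ℂ => (s, b)) t := by fun_prop
  have h2 : AnalyticAt ℂ (fun s : ℂ => y i (s, b)) t := (hy i _ htN).comp_of_eq h1 rfl
  have h3 := he t ht _ (fam_mem _ n hn _ _ hmem)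
  have h4 : AnalyticAt ℂ (fun s : ℂ => e (s, y i (s, b))) t :=
    h3.comp_of_eq (f := fun s : ℂ => (s, y i (s, b))) (analyticAt_id.prod h2) rfl
  exact h4.differentiableAt

end

end Pool.Agent.H429
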