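import Pool.Agent.H429.Stmts3

open MeasureTheory Filter Topology Metric

namespace Pool.Agent.H429

noncomputable section

/-- The product of `v 2`, of `v 2` times the leading coefficient of the first equation and of
`v 2 ^ 4` times the resultant. -/
private def finP (c : Coef 2) (v : Vec) : ℂ :=
  v 2 * (c 0 m020 * v 2 - c 2 m020 * v 0) *
    (((c 0 m020 * v 2 - c 2 m020 * v 0) * (c 1 m200 * v 2 - c 2 m200 * v 1) -
        (c 1 m020 * v 2 - c 2 m020 * v 1) * (c 0 m200 * v 2 - c 2 m200 * v 0)) ^ 2 -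
      ((c 0 m020 * v 2 - c 2 m020 * v 0) * (c 1 m110 * v 2 - c 2 m110 * v 1) -
        (c 1 m020 * v 2 - c 2 m020 * v 1) * (c 0 m110 * v 2 - c 2 m110 * v 0)) *
      ((c 0 m110 * v 2 - c 2 m110 * v 0) * (c 1 m200 * v 2 - c 2 m200 * v 1) -
        (c 1 m110 * v 2 - c 2 m110 * v 1) * (c 0 m200 * v 2 - c 2 m200 * v 0)))

private lemma finP_eq (c : Coef 2) (v : Vec) (h : v 2 ≠ 0) :
    finP c v = v 2 * (v 2 * cA c (v 0 / v 2, v 1 / v 2) m020) *
      (v 2 ^ 4 * eq4 c (v 0 / v 2, v 1 / v 2)) := by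
  simp only [finP, eq4, ex2, ey1, ez3, cA, cB]
  field_simp

private lemma finP_null (c : Coef 2) (hc : Good c) : volume {v : Vec | finP c v = 0} = 0 := by
  have hcont : Continuous (finP c) := by
    unfold finP
    fun_prop
  have hsm : MeasurableSet {v : Vec | finP c v ≠ 0} :=
    (isOpen_ne_fun hcont continuous_const).measurableSet
  have key : ∀ y : Vec, ∀ᵐ t : ℂ,
      y + LinearMap.toSpanSingleton ℂ Vec ![0, 0, 1] t ∈ {v : Vec | finP c v ≠ 0} := by
    intro y
    have hg : AnalyticOnNhd ℂ (fun t : ℂ => finP c (y + LinearMap.toSpanSingleton ℂ Vec ![0, 0, 1] t))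
        Set.univ := by
      intro t _
      simp only [finP, LinearMap.toSpanSingleton_apply, Pi.add_apply, Pi.smul_apply]
      fun_prop
    have hne : ∃ t : ℂ, finP c (y + LinearMap.toSpanSingleton ℂ Vec ![0, 0, 1] t) ≠ 0 := by
      have hM : (0 : ℝ) < max (max ‖y 0‖ ‖y 1‖) 1 := lt_max_of_lt_right one_pos
      set M : ℝ := max (max ‖y 0‖ ‖y 1‖) 1 with hMd
      refine ⟨(M : ℂ) - y 2, ?_⟩
      have h0 : (y + LinearMap.toSpanSingleton ℂ Vec ![0, 0, 1] ((M : ℂ) - y 2)) 0 = y 0 := by
        simp [LinearMap.toSpanSingleton_apply]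
      have h1 : (y + LinearMap.toSpanSingleton ℂ Vec ![0, 0, 1] ((M : ℂ) - y 2)) 1 = y 1 := by
        simp [LinearMap.toSpanSingleton_apply]
      have h2 : (y + LinearMap.toSpanSingleton ℂ Vec ![0, 0, 1] ((M : ℂ) - y 2)) 2 = M := by
        simp [LinearMap.toSpanSingleton_apply]
      have hMc : (M : ℂ) ≠ 0 := by exact_mod_cast hM.ne'
      rw [finP_eq c _ (by rw [h2]; exact hMc), h0, h1, h2]
      have hb : ((y 0 / (M : ℂ), y 1 / (M : ℂ)) : C2) ∈ closedBall (0 : C2) 1 := by
        rw [mem_closedBall_zero_iff, Prod.norm_def]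
        simp only [norm_div, Complex.norm_real, Real.norm_eq_abs, abs_of_pos hM]
        refine max_le ?_ ?_
        · rw [div_le_one hM]
          exact (le_max_left _ _).trans (le_max_left _ _)
        · rw [div_le_one hM]
          exact (le_max_right _ _).trans (le_max_left _ _)
      have ha := hc.u4a _ hb
      have he : eq4 c (y 0 / (M : ℂ), y 1 / (M : ℂ)) ≠ 0 := by
        intro h
        have h3 := hc.u4c _ hb
        rw [h, norm_zero, zero_div] at h3
        exact absurd (norm_nonneg _) (not_le.2 h3)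
      exact mul_ne_zero (mul_ne_zero hMc (mul_ne_zero hMc ha)) (mul_ne_zero (pow_ne_zero _ hMc) he)
    obtain ⟨t0, ht0⟩ := hne
    rcases hg.eqOn_zero_or_eventually_ne_zero_of_preconnected isPreconnected_univ with h1 | h1
    · exact absurd (h1 (Set.mem_univ t0)) ht0
    · have h2 := ae_restrict_le_codiscreteWithin (μ := (volume : Measure ℂ)) MeasurableSet.univ h1
      have h3 := (ae_restrict_iff' MeasurableSet.univ).1 h2
      filter_upwards [h3] with t ht
      exact ht (Set.mem_univ t)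
  have h7 := ae_mem_of_ae_add_linearMap_mem (LinearMap.toSpanSingleton ℂ Vec ![0, 0, 1])
    (volume : Measure ℂ) (volume : Measure Vec) hsm key
  have h8 : {v : Vec | finP c v = 0} = {v : Vec | finP c v ≠ 0}ᶜ := by
    ext v
    simp
  rw [h8]
  exact h7

private lemma fin_smul (hp : S_poly) (c : Coef 2) (a : ℂ) (v : Vec) :
    poly c (a • v) = a ^ 2 • poly c v := by
  ext i
  rw [Pi.smul_apply, hp, hp]
  simp only [Pi.smul_apply, smul_eq_mul]
  ring

/-- The first equation. -/
private def finC1 (c : Coef 2) (b : C2) (v : Vec) : ℂ :=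
  cA c b m200 * v 0 ^ 2 + cA c b m020 * v 1 ^ 2 + cA c b m002 * v 2 ^ 2 + cA c b m110 * (v 0 * v 1) +
    cA c b m101 * (v 0 * v 2) + cA c b m011 * (v 1 * v 2)

/-- The second equation. -/
private def finC2 (c : Coef 2) (b : C2) (v : Vec) : ℂ :=
  cB c b m200 * v 0 ^ 2 + cB c b m020 * v 1 ^ 2 + cB c b m002 * v 2 ^ 2 + cB c b m110 * (v 0 * v 1) +
    cB c b m101 * (v 0 * v 2) + cB c b m011 * (v 1 * v 2)

private lemma finC1_eq (hp : S_poly) (c : Coef 2) (b : C2) (v : Vec) :
    finC1 c b v = poly c v 0 - b.1 * poly c v 2 := by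
  rw [hp, hp]
  simp only [finC1, cA]
  ring

private lemma finC2_eq (hp : S_poly) (c : Coef 2) (b : C2) (v : Vec) :
    finC2 c b v = poly c v 1 - b.2 * poly c v 2 := by
  rw [hp, hp]
  simp only [finC2, cB]
  ring

/-- The quartic. -/
private def finQ (c : Coef 2) (b : C2) : Polynomial ℂ :=
  Polynomial.C (eq4 c b) * Polynomial.X ^ 4 + Polynomial.C (eq3 c b) * Polynomial.X ^ 3 +
    Polynomial.C (eq2 c b) * Polynomial.X ^ 2 + Polynomial.C (eq1 c b) * Polynomial.X +
      Polynomial.C (eq0 c b)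

private lemma finQ_coeff (c : Coef 2) (b : C2) : (finQ c b).coeff 4 = eq4 c b := by
  simp [finQ]

private lemma fin_quad (a b c : ℂ) : (Polynomial.C a * Polynomial.X ^ 2 + Polynomial.C b *
    Polynomial.X + Polynomial.C c).coeff 2 = a := by
  simp only [Polynomial.coeff_add, Polynomial.coeff_C_mul, Polynomial.coeff_X_pow,
    Polynomial.coeff_X, Polynomial.coeff_C]
  norm_num

private lemma fin_div (X Y Z : ℂ) (hY : Y ≠ 0) (h : X ^ 2 - Y * Z = 0) :
    X + Y * (-X / Y) = 0 ∧ Z - Y * (-X / Y) ^ 2 = 0 := by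
  constructor
  · field_simp
    ring
  · field_simp
    linear_combination -h

private lemma finQ_eval (c : Coef 2) (b : C2) (z : ℂ) : (finQ c b).eval z =
    (ex2 c b * z ^ 2 + ex1 c b * z + ex0 c b) ^ 2 - (ey1 c b * z + ey0 c b) *
      (ez3 c b * z ^ 3 + ez2 c b * z ^ 2 + ez1 c b * z + ez0 c b) := by
  simp only [finQ, Polynomial.eval_add, Polynomial.eval_mul, Polynomial.eval_C, Polynomial.eval_pow,
    Polynomial.eval_X, eq4, eq3, eq2, eq1, eq0]
  ring

private lemma fin_id1 (c : Coef 2) (b : C2) (z w : ℂ) :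
    cA c b m020 * finC2 c b ![z, w, 1] - cB c b m020 * finC1 c b ![z, w, 1] =
      (ex2 c b * z ^ 2 + ex1 c b * z + ex0 c b) + (ey1 c b * z + ey0 c b) * w := by
  simp only [finC1, finC2, ex2, ex1, ex0, ey1, ey0, Matrix.cons_val_zero, Matrix.cons_val_one,
    Matrix.cons_val]
  ring

private lemma fin_id2 (c : Coef 2) (b : C2) (z w : ℂ) :
    (cA c b m110 * z + cA c b m011) * finC2 c b ![z, w, 1] -
      (cB c b m110 * z + cB c b m011) * finC1 c b ![z, w, 1] =
      (ez3 c b * z ^ 3 + ez2 c b * z ^ 2 + ez1 c b * z + ez0 c b) -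
        (ey1 c b * z + ey0 c b) * w ^ 2 := by
  simp only [finC1, finC2, ez3, ez2, ez1, ez0, ey1, ey0, Matrix.cons_val_zero, Matrix.cons_val_one,
    Matrix.cons_val]
  ring

/-- TARGETS -/
theorem t_fin (hp : S_poly) (hn : S_nondeg) : S_fin := by
  intro c hc
  refine ⟨{v : Vec | finP c.1 v = 0}, finP_null c.1 hc, ?_⟩
  intro v hv hvZ
  have hvP : finP c.1 v ≠ 0 := hvZ
  have hv2 : v 2 ≠ 0 := by
    intro h
    apply hvP
    simp [finP, h]
  rw [finP_eq c.1 v hv2] at hvP
  set b : C2 := (v 0 / v 2, v 1 / v 2) with hb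
  have hA : cA c.1 b m020 ≠ 0 := by
    intro h
    apply hvP
    rw [h]
    ring
  have hE : eq4 c.1 b ≠ 0 := by
    intro h
    apply hvP
    rw [h]
    ring
  have hb1 : b.1 * v 2 = v 0 := by rw [hb]; field_simp
  have hb2 : b.2 * v 2 = v 1 := by rw [hb]; field_simp
  -- characterisation of the preimages
  have hchar : ∀ (p : Vec) (hp0 : p ≠ 0), selfMap c (Projectivization.mk ℂ p hp0) =
      Projectivization.mk ℂ v hv ↔ finC1 c.1 b p = 0 ∧ finC2 c.1 b p = 0 := by
    intro p hp0
    have h1 : ∃ a : ℂˣ, a • p = (Projectivization.mk ℂ p hp0).rep :=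
      Projectivization.exists_smul_eq_mk_rep ℂ p hp0
    obtain ⟨a, ha⟩ := h1
    have ha0 : (a : ℂ) ≠ 0 := a.ne_zero
    have ha' : (a : ℂ) • p = (Projectivization.mk ℂ p hp0).rep := ha
    have h2 : poly c.1 (Projectivization.mk ℂ p hp0).rep = (a : ℂ) ^ 2 • poly c.1 p := by
      rw [← ha', fin_smul hp]
    rw [selfMap, Projectivization.mk_eq_mk_iff']
    rw [finC1_eq hp, finC2_eq hp]
    constructor
    · rintro ⟨s, hs⟩
      rw [h2] at hs
      have e0 := congrFun hs 0
      have e1 := congrFun hs 1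
      have e2 := congrFun hs 2
      simp only [Pi.smul_apply, smul_eq_mul] at e0 e1 e2
      have ha2 : (a : ℂ) ^ 2 ≠ 0 := pow_ne_zero _ ha0
      constructor
      · apply mul_left_cancel₀ ha2
        rw [mul_sub, ← e0, mul_left_comm, ← e2, mul_zero, ← hb1]
        ring
      · apply mul_left_cancel₀ ha2
        rw [mul_sub, ← e1, mul_left_comm, ← e2, mul_zero, ← hb2]
        ring
    · rintro ⟨h3, h4⟩
      refine ⟨(a : ℂ) ^ 2 * poly c.1 p 2 / v 2, ?_⟩
      rw [h2]
      ext i
      simp only [Pi.smul_apply, smul_eq_mul]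
      have h3' : poly c.1 p 0 = b.1 * poly c.1 p 2 := sub_eq_zero.1 h3
      have h4' : poly c.1 p 1 = b.2 * poly c.1 p 2 := sub_eq_zero.1 h4
      fin_cases i
      · show (a : ℂ) ^ 2 * poly c.1 p 2 / v 2 * v 0 = (a : ℂ) ^ 2 * poly c.1 p 0
        rw [h3', ← hb1]
        field_simp
      · show (a : ℂ) ^ 2 * poly c.1 p 2 / v 2 * v 1 = (a : ℂ) ^ 2 * poly c.1 p 1
        rw [h4', ← hb2]
        field_simp
      · show (a : ℂ) ^ 2 * poly c.1 p 2 / v 2 * v 2 = (a : ℂ) ^ 2 * poly c.1 p 2
        field_simp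
  have hQ0 : finQ c.1 b ≠ 0 := by
    intro h
    apply hE
    rw [← finQ_coeff, h, Polynomial.coeff_zero]
  constructor
  · -- finiteness
    have hfin : ({x : C2 | (finQ c.1 b).eval x.1 = 0 ∧ finC1 c.1 b ![x.1, x.2, 1] = 0}).Finite := by
      have h1 : {x : C2 | (finQ c.1 b).eval x.1 = 0 ∧ finC1 c.1 b ![x.1, x.2, 1] = 0} ⊆
          ⋃ z ∈ {z : ℂ | (finQ c.1 b).eval z = 0},
            (fun w : ℂ => ((z, w) : C2)) '' {w : ℂ | finC1 c.1 b ![z, w, 1] = 0} := by
        rintro ⟨z, w⟩ ⟨hz, hw⟩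
        simp only [Set.mem_iUnion]
        exact ⟨z, hz, w, hw, rfl⟩
      refine Set.Finite.subset (Set.Finite.biUnion ?_ ?_) h1
      · have := (finQ c.1 b).rootSet_finite ℂ
        refine this.subset ?_
        intro z hz
        rw [Polynomial.mem_rootSet]
        exact ⟨hQ0, by simpa using hz⟩
      · intro z _
        apply Set.Finite.image
        let q : Polynomial ℂ := Polynomial.C (cA c.1 b m020) * Polynomial.X ^ 2 +
          Polynomial.C (cA c.1 b m110 * z + cA c.1 b m011) * Polynomial.X +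
          Polynomial.C (cA c.1 b m200 * z ^ 2 + cA c.1 b m101 * z + cA c.1 b m002)
        have hq0 : q ≠ 0 := by
          intro h
          apply hA
          have : q.coeff 2 = cA c.1 b m020 := fin_quad _ _ _
          rw [← this, h, Polynomial.coeff_zero]
        refine (q.rootSet_finite ℂ).subset ?_
        intro w hw
        rw [Polynomial.mem_rootSet]
        refine ⟨hq0, ?_⟩
        have hw' : finC1 c.1 b ![z, w, 1] = 0 := hw
        simp only [q, map_add, map_mul, Polynomial.aeval_C, Polynomial.aeval_X, map_pow,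
          Algebra.algebraMap_self, RingHom.id_apply]
        rw [← hw']
        simp only [finC1, Matrix.cons_val_zero, Matrix.cons_val_one, Matrix.cons_val]
        ring
    refine (hfin.image io).subset ?_
    intro y hy
    have hy' : selfMap c y = Projectivization.mk ℂ v hv := hy
    have hyr : y = Projectivization.mk ℂ y.rep y.rep_nonzero := (Projectivization.mk_rep y).symm
    rw [hyr, hchar] at hy'
    obtain ⟨h1, h2⟩ := hy'
    set p : Vec := y.rep with hpdef
    have hp2 : p 2 ≠ 0 := by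
      intro ht
      simp only [finC1, finC2, ht] at h1 h2
      have h3 : eq4 c.1 b * p 0 ^ 4 = 0 := by
        simp only [eq4, ex2, ey1, ez3]
        have k1 : cA c.1 b m200 * p 0 ^ 2 = -(cA c.1 b m020 * p 1 ^ 2) - cA c.1 b m110 * (p 0 * p 1) := by
          linear_combination h1
        have k2 : cB c.1 b m200 * p 0 ^ 2 = -(cB c.1 b m020 * p 1 ^ 2) - cB c.1 b m110 * (p 0 * p 1) := by
          linear_combination h2
        have e1 : (cA c.1 b m020 * cB c.1 b m200 - cB c.1 b m020 * cA c.1 b m200) * p 0 ^ 2 =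
            -((cA c.1 b m020 * cB c.1 b m110 - cB c.1 b m020 * cA c.1 b m110) * (p 0 * p 1)) := by
          linear_combination cA c.1 b m020 * k2 - cB c.1 b m020 * k1
        have e2 : (cA c.1 b m110 * cB c.1 b m200 - cB c.1 b m110 * cA c.1 b m200) * p 0 ^ 2 =
            (cA c.1 b m020 * cB c.1 b m110 - cB c.1 b m020 * cA c.1 b m110) * p 1 ^ 2 := by
          linear_combination cA c.1 b m110 * k2 - cB c.1 b m110 * k1
        calc _ = ((cA c.1 b m020 * cB c.1 b m200 - cB c.1 b m020 * cA c.1 b m200) * p 0 ^ 2) ^ 2 -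
              (cA c.1 b m020 * cB c.1 b m110 - cB c.1 b m020 * cA c.1 b m110) * p 0 ^ 2 *
              ((cA c.1 b m110 * cB c.1 b m200 - cB c.1 b m110 * cA c.1 b m200) * p 0 ^ 2) := by ring
          _ = 0 := by
            rw [e1, e2]
            ring
      have h4 : p 0 = 0 := by
        have := (mul_eq_zero.1 h3).resolve_left hE
        exact pow_eq_zero_iff (by norm_num) |>.1 this
      have h5 : p 1 = 0 := by
        rw [h4] at h1
        have h6 : cA c.1 b m020 * p 1 ^ 2 = 0 := by linear_combination h1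
        have := (mul_eq_zero.1 h6).resolve_left hA
        exact pow_eq_zero_iff (by norm_num) |>.1 this
      apply y.rep_nonzero
      ext i
      fin_cases i
      · exact h4
      · exact h5
      · exact ht
    refine ⟨(p 0 / p 2, p 1 / p 2), ?_, ?_⟩
    · have hs1 : finC1 c.1 b ![p 0 / p 2, p 1 / p 2, 1] = 0 := by
        have : finC1 c.1 b ![p 0 / p 2, p 1 / p 2, 1] = finC1 c.1 b p / p 2 ^ 2 := by
          simp only [finC1, Matrix.cons_val_zero, Matrix.cons_val_one, Matrix.cons_val]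
          field_simp
        rw [this, h1, zero_div]
      have hs2 : finC2 c.1 b ![p 0 / p 2, p 1 / p 2, 1] = 0 := by
        have : finC2 c.1 b ![p 0 / p 2, p 1 / p 2, 1] = finC2 c.1 b p / p 2 ^ 2 := by
          simp only [finC2, Matrix.cons_val_zero, Matrix.cons_val_one, Matrix.cons_val]
          field_simp
        rw [this, h2, zero_div]
      refine ⟨?_, hs1⟩
      have i1 := fin_id1 c.1 b (p 0 / p 2) (p 1 / p 2)
      have i2 := fin_id2 c.1 b (p 0 / p 2) (p 1 / p 2)
      rw [hs1, hs2] at i1 i2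
      show (finQ c.1 b).eval (p 0 / p 2) = 0
      rw [finQ_eval]
      generalize p 0 / p 2 = z at *
      generalize p 1 / p 2 = w at *
      linear_combination (-(ex2 c.1 b * z ^ 2 + ex1 c.1 b * z + ex0 c.1 b) +
        (ey1 c.1 b * z + ey0 c.1 b) * w) * i1 + (ey1 c.1 b * z + ey0 c.1 b) * i2
    · rw [hyr]
      show Projectivization.mk ℂ (ch (p 0 / p 2, p 1 / p 2)) _ = _
      rw [Projectivization.mk_eq_mk_iff']
      refine ⟨(p 2)⁻¹, ?_⟩
      ext i
      fin_cases i
      · show (p 2)⁻¹ * p 0 = p 0 / p 2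
        field_simp
      · show (p 2)⁻¹ * p 1 = p 1 / p 2
        field_simp
      · show (p 2)⁻¹ * p 2 = 1
        field_simp
  · -- existence
    have hdeg : (finQ c.1 b).degree ≠ 0 := by
      intro h
      have h1 := Polynomial.eq_C_of_degree_eq_zero h
      have h2 := finQ_coeff c.1 b
      rw [h1, Polynomial.coeff_C] at h2
      simp at h2
      exact hE h2.symm
    obtain ⟨z, hz⟩ := IsAlgClosed.exists_root (finQ c.1 b) hdeg
    rw [Polynomial.IsRoot.def, finQ_eval] at hz
    have key : ∃ w : ℂ, finC1 c.1 b ![z, w, 1] = 0 ∧ finC2 c.1 b ![z, w, 1] = 0 := by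
      by_cases hY : ey1 c.1 b * z + ey0 c.1 b = 0
      · have hX : ex2 c.1 b * z ^ 2 + ex1 c.1 b * z + ex0 c.1 b = 0 := by
          rw [hY, zero_mul, sub_zero] at hz
          exact pow_eq_zero_iff (by norm_num) |>.1 hz
        let q : Polynomial ℂ := Polynomial.C (cA c.1 b m020) * Polynomial.X ^ 2 +
          Polynomial.C (cA c.1 b m110 * z + cA c.1 b m011) * Polynomial.X +
          Polynomial.C (cA c.1 b m200 * z ^ 2 + cA c.1 b m101 * z + cA c.1 b m002)
        have hqc : q.coeff 2 = cA c.1 b m020 := fin_quad _ _ _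
        have hqd : q.degree ≠ 0 := by
          intro h
          have h1 := Polynomial.eq_C_of_degree_eq_zero h
          rw [h1, Polynomial.coeff_C] at hqc
          simp at hqc
          exact hA hqc.symm
        obtain ⟨w, hw⟩ := IsAlgClosed.exists_root q hqd
        have hw1 : finC1 c.1 b ![z, w, 1] = 0 := by
          rw [Polynomial.IsRoot.def] at hw
          rw [← hw]
          simp only [q, finC1, Matrix.cons_val_zero, Matrix.cons_val_one, Matrix.cons_val,
            Polynomial.eval_add, Polynomial.eval_mul, Polynomial.eval_C, Polynomial.eval_pow,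
            Polynomial.eval_X]
          ring
        refine ⟨w, hw1, ?_⟩
        have i1 := fin_id1 c.1 b z w
        rw [hw1, hX, hY] at i1
        have : cA c.1 b m020 * finC2 c.1 b ![z, w, 1] = 0 := by linear_combination i1
        exact (mul_eq_zero.1 this).resolve_left hA
      · have i1 := fin_id1 c.1 b z (-(ex2 c.1 b * z ^ 2 + ex1 c.1 b * z + ex0 c.1 b) /
          (ey1 c.1 b * z + ey0 c.1 b))
        have i2 := fin_id2 c.1 b z (-(ex2 c.1 b * z ^ 2 + ex1 c.1 b * z + ex0 c.1 b) /
          (ey1 c.1 b * z + ey0 c.1 b))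
        refine ⟨-(ex2 c.1 b * z ^ 2 + ex1 c.1 b * z + ex0 c.1 b) / (ey1 c.1 b * z + ey0 c.1 b), ?_⟩
        obtain ⟨j1, j2⟩ := fin_div _ _ _ hY hz
        rw [j1] at i1
        rw [j2] at i2
        have hYd : ey1 c.1 b * z + ey0 c.1 b = cA c.1 b m020 * (cB c.1 b m110 * z + cB c.1 b m011) -
            cB c.1 b m020 * (cA c.1 b m110 * z + cA c.1 b m011) := by
          simp only [ey1, ey0]
          ring
        constructor
        · apply mul_left_cancel₀ hY
          rw [mul_zero, hYd]
          rw [hYd] at i1 i2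
          linear_combination (cA c.1 b m110 * z + cA c.1 b m011) * i1 - cA c.1 b m020 * i2
        · apply mul_left_cancel₀ hY
          rw [mul_zero, hYd]
          rw [hYd] at i1 i2
          linear_combination (cB c.1 b m110 * z + cB c.1 b m011) * i1 - cB c.1 b m020 * i2
    obtain ⟨w, hw1, hw2⟩ := key
    have hp0 : (![z, w, 1] : Vec) ≠ 0 := by
      intro h
      have := congrFun h 2
      simp at this
    exact ⟨Projectivization.mk ℂ ![z, w, 1] hp0, (hchar _ hp0).2 ⟨hw1, hw2⟩⟩

end

end Pool.Agent.H429
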