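import Pool.Agent.H429.Stmts3

open MeasureTheory Filter Topology Metric

namespace Pool.Agent.H429

noncomputable section

/-- pointwise limits of uniformly bounded continuous functions on a circle are circle integrable -/
private theorem harmlim_circleIntegrable {E : Type*} [NormedAddCommGroup E]
    [NormedSpace ℝ E] (F : ℕ → ℂ → E) (G : ℂ → E) (c : ℂ) (R B : ℝ)
    (hF : ∀ n, ContinuousOn (F n) (sphere c |R|))
    (hb : ∀ n, ∀ z ∈ sphere c |R|, ‖F n z‖ ≤ B)
    (hl : ∀ z ∈ sphere c |R|, Tendsto (fun n => F n z) atTop (𝓝 (G z))) :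
    CircleIntegrable G c R := by
  have hm : ∀ θ : ℝ, circleMap c R θ ∈ sphere c |R| := fun θ => circleMap_mem_sphere' c R θ
  have hcont : ∀ n, Continuous fun θ : ℝ => F n (circleMap c R θ) := fun n =>
    (hF n).comp_continuous (continuous_circleMap c R) hm
  have hmeas : AEStronglyMeasurable (fun θ : ℝ => G (circleMap c R θ)) volume := by
    refine aestronglyMeasurable_of_tendsto_ae atTop (fun n => (hcont n).aestronglyMeasurable) ?_
    exact Eventually.of_forall fun θ => hl _ (hm θ)
  have hbG : ∀ θ : ℝ, ‖G (circleMap c R θ)‖ ≤ B := fun θ =>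
    le_of_tendsto (hl _ (hm θ)).norm (Eventually.of_forall fun n => hb n _ (hm θ))
  refine (intervalIntegrable_const (c := B)).mono_fun hmeas.restrict ?_
  refine Eventually.of_forall fun θ => ?_
  have h1 : ‖G (circleMap c R θ)‖ ≤ B := hbG θ
  exact h1.trans (le_abs_self B)

/-- dominated convergence for circle averages -/
private theorem harmlim_average {E : Type*} [NormedAddCommGroup E] [NormedSpace ℝ E]
    (F : ℕ → ℂ → E) (G : ℂ → E) (c : ℂ) (R B : ℝ)
    (hF : ∀ n, ContinuousOn (F n) (sphere c |R|))
    (hb : ∀ n, ∀ z ∈ sphere c |R|, ‖F n z‖ ≤ B)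
    (hl : ∀ z ∈ sphere c |R|, Tendsto (fun n => F n z) atTop (𝓝 (G z))) :
    Tendsto (fun n => Real.circleAverage (F n) c R) atTop (𝓝 (Real.circleAverage G c R)) := by
  have hm : ∀ θ : ℝ, circleMap c R θ ∈ sphere c |R| := fun θ => circleMap_mem_sphere' c R θ
  have hcont : ∀ n, Continuous fun θ : ℝ => F n (circleMap c R θ) := fun n =>
    (hF n).comp_continuous (continuous_circleMap c R) hm
  simp only [Real.circleAverage_def]
  refine Tendsto.const_smul ?_ _
  refine intervalIntegral.tendsto_integral_filter_of_dominated_convergence (fun _ => B)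
    (Eventually.of_forall fun n => (hcont n).aestronglyMeasurable) ?_
    intervalIntegrable_const ?_
  · exact Eventually.of_forall fun n => Eventually.of_forall fun θ _ => hb n _ (hm θ)
  · exact Eventually.of_forall fun θ _ => hl _ (hm θ)

/-- Harnack's inequality -/
private theorem harmlim_harnack {v : ℂ → ℝ} {c w : ℂ} {R : ℝ} (hR : 0 < R)
    (hv : InnerProductSpace.HarmonicOnNhd v (closedBall c R))
    (h0 : ∀ z ∈ closedBall c R, 0 ≤ v z) (hw : ‖w - c‖ ≤ R / 2) : v w ≤ 3 * v c := by
  have hwb : w ∈ ball c R := by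
    rw [mem_ball_iff_norm]
    linarith
  have hsp : sphere c |R| ⊆ closedBall c R := by
    rw [abs_of_pos hR]
    exact sphere_subset_closedBall
  have hvc : ContinuousOn v (sphere c |R|) := hv.continuousOn.mono hsp
  have h1 := hv.circleAverage_re_herglotzRieszKernel_smul hwb
  have h2 : Real.circleAverage v c R = v c := by
    apply InnerProductSpace.HarmonicOnNhd.circleAverage_eq
    rwa [abs_of_pos hR]
  have hK : ContinuousOn (fun z => (herglotzRieszKernel c w z).re) (sphere c |R|) :=
    Complex.continuous_re.comp_continuousOn (continuousOn_herglotzRieszKernel_sphere hwb)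
  rw [← h1, ← h2]
  have h3 : Real.circleAverage ((Complex.re ∘ herglotzRieszKernel c w) • v) c R
      ≤ Real.circleAverage ((3 : ℝ) • v) c R := by
    refine Real.circleAverage_mono ?_ ?_ ?_
    · exact ContinuousOn.circleIntegrable' (hK.smul hvc)
    · exact ContinuousOn.circleIntegrable' (continuousOn_const.smul hvc)
    · intro z hz
      have hz' : z ∈ sphere c R := by rwa [abs_of_pos hR] at hz
      have h4 := re_herglotzRieszKernel_le hz' hwb
      have h5 : (R + ‖w - c‖) / (R - ‖w - c‖) ≤ 3 := by
        rw [div_le_iff₀ (by linarith)]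
        linarith
      have h6 : (herglotzRieszKernel c w z).re ≤ 3 := by
        rw [herglotzRieszKernel_def]
        exact h4.trans h5
      change (herglotzRieszKernel c w z).re * v z ≤ 3 * v z
      exact mul_le_mul_of_nonneg_right h6 (h0 z (hsp hz))
  rw [Real.circleAverage_smul] at h3
  exact h3

/-- TARGETS -/
theorem t_harmlim : S_harmlim := by
  intro Ω h H C hΩ hh hC hlim t₀ ht₀
  obtain ⟨R, hR, hball⟩ := Metric.nhds_basis_closedBall.mem_iff.1 (hΩ.mem_nhds ht₀)
  -- uniform bound
  obtain ⟨B, hB⟩ := (hlim t₀ ht₀).bddBelow_range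
  have hBn : ∀ n, B ≤ h n t₀ := fun n => hB ⟨n, rfl⟩
  have hlow : ∀ n z, z ∈ closedBall t₀ (R / 2) → C - 3 * (C - B) ≤ h n z := by
    intro n z hz
    have h1 := harmlim_harnack (v := fun z => C - h n z) (w := z) hR
      (by
        have := (InnerProductSpace.harmonicOnNhd_const (s := closedBall t₀ R) (C : ℝ)).sub
          ((hh n).mono hball)
        exact this)
      (fun y hy => sub_nonneg.2 (hC n y (hball hy)))
      (by rwa [mem_closedBall_iff_norm] at hz)
    have h2 := hBn n
    linarith
  set r : ℝ := R / 2 with hr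
  have hr0 : 0 < r := by positivity
  have hrR : closedBall t₀ r ⊆ closedBall t₀ R := closedBall_subset_closedBall (by linarith)
  set M : ℝ := |C| + |C - 3 * (C - B)| with hM
  have hbd : ∀ n, ∀ z ∈ closedBall t₀ r, ‖h n z‖ ≤ M := by
    intro n z hz
    have h1 := hlow n z hz
    have h2 := hC n z (hball (hrR hz))
    rw [Real.norm_eq_abs, abs_le]
    have h3 := neg_abs_le (C - 3 * (C - B))
    have h4 := le_abs_self C
    have h5 := abs_nonneg C
    have h6 := abs_nonneg (C - 3 * (C - B))
    constructor <;> linarith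
  have hsp : sphere t₀ |r| ⊆ closedBall t₀ r := by
    rw [abs_of_pos hr0]
    exact sphere_subset_closedBall
  have hhc : ∀ n, ContinuousOn (h n) (sphere t₀ |r|) := fun n =>
    (hh n).continuousOn.mono (hsp.trans (hrR.trans hball))
  have hHint : CircleIntegrable H t₀ r :=
    harmlim_circleIntegrable h H t₀ r M hhc (fun n z hz => hbd n z (hsp hz))
      (fun z hz => hlim z (hball (hrR (hsp hz))))
  -- the Poisson formula for the limit
  have hP : ∀ w ∈ ball t₀ r,
      Real.circleAverage ((Complex.re ∘ herglotzRieszKernel t₀ w) • H) t₀ r = H w := by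
    intro w hw
    have hK : ContinuousOn (fun z => (herglotzRieszKernel t₀ w z).re) (sphere t₀ |r|) :=
      Complex.continuous_re.comp_continuousOn (continuousOn_herglotzRieszKernel_sphere hw)
    obtain ⟨A, hA⟩ := (isCompact_sphere t₀ |r|).exists_bound_of_continuousOn hK
    have hM0 : 0 ≤ M := by positivity
    have h1 : Tendsto (fun n => Real.circleAverage
        ((Complex.re ∘ herglotzRieszKernel t₀ w) • h n) t₀ r) atTop
        (𝓝 (Real.circleAverage ((Complex.re ∘ herglotzRieszKernel t₀ w) • H) t₀ r)) := by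
      refine harmlim_average _ _ t₀ r (A * M) (fun n => hK.smul (hhc n)) ?_ ?_
      · intro n z hz
        change ‖(herglotzRieszKernel t₀ w z).re • h n z‖ ≤ A * M
        rw [norm_smul]
        exact mul_le_mul (hA z hz) (hbd n z (hsp hz)) (norm_nonneg _)
          ((norm_nonneg _).trans (hA z hz))
      · intro z hz
        exact (hlim z (hball (hrR (hsp hz)))).const_smul (herglotzRieszKernel t₀ w z).re
    have h2 : ∀ n, Real.circleAverage ((Complex.re ∘ herglotzRieszKernel t₀ w) • h n) t₀ r
        = h n w := fun n =>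
      ((hh n).mono (hrR.trans hball)).circleAverage_re_herglotzRieszKernel_smul hw
    simp only [h2] at h1
    exact tendsto_nhds_unique h1 (hlim w (hball (hrR (ball_subset_closedBall hw))))
  -- the holomorphic function
  set H0 : ℂ → ℝ := fun z => H (z + t₀) with hH0
  have hH0int : CircleIntegrable H0 0 r := by
    have h1 : (fun θ : ℝ => H0 (circleMap 0 r θ)) = fun θ : ℝ => H (circleMap t₀ r θ) := by
      funext θ
      simp only [hH0]
      congr 1
      simp [circleMap, add_comm]
    unfold CircleIntegrable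
    rw [h1]
    exact hHint
  set Φ : ℂ → ℂ := fun w => Real.circleAverage
    (fun ζ => herglotzRieszKernel 0 w ζ • ((H0 ζ : ℝ) : ℂ)) 0 r with hΦ
  have hH0c : CircleIntegrable (fun ζ => ((H0 ζ : ℝ) : ℂ)) 0 r := by
    simp only [CircleIntegrable, intervalIntegrable_iff] at hH0int ⊢
    exact Complex.ofRealCLM.integrable_comp hH0int
  have hΦan : AnalyticOnNhd ℂ Φ (ball 0 r) :=
    analyticOnNhd_circleAverage_herglotzRieszKernel_smul hH0c
  have hΦre : ∀ w ∈ ball t₀ r, (Φ (w - t₀)).re = H w := by
    intro w hw
    have hw0 : w - t₀ ∈ ball (0 : ℂ) r := by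
      rw [mem_ball_iff_norm] at hw
      rw [mem_ball_zero_iff]
      exact hw
    rw [hΦ]
    simp only
    rw [re_circleAverage_herglotzRieszKernel_smul hH0int hw0, ← hP w hw,
      ← Real.circleAverage_map_add_const (f := (Complex.re ∘ herglotzRieszKernel t₀ w) • H)
        (c := t₀) (R := r)]
    congr 1
    funext z
    simp only [hH0, Pi.smul_apply', Function.comp_apply, herglotzRieszKernel_add_const]
  have h1 : AnalyticAt ℂ (fun w => Φ (w - t₀)) t₀ := by
    have h2 : AnalyticAt ℂ Φ (t₀ - t₀) := by
      rw [sub_self]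
      exact hΦan 0 (mem_ball_self hr0)
    exact AnalyticAt.fun_comp h2 (analyticAt_id.sub analyticAt_const)
  have h3 := h1.harmonicAt_re
  refine (InnerProductSpace.harmonicAt_congr_nhds ?_).1 h3
  filter_upwards [ball_mem_nhds t₀ hr0] with w hw
  exact hΦre w hw

theorem t_holim : S_holim := by
  intro Ω h H C hΩ hh hC hlim t₀ ht₀
  obtain ⟨R, hR, hball⟩ := Metric.nhds_basis_closedBall.mem_iff.1 (hΩ.mem_nhds ht₀)
  have hsp : sphere t₀ |R| ⊆ closedBall t₀ R := by
    rw [abs_of_pos hR]
    exact sphere_subset_closedBall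
  have hhc : ∀ n, ContinuousOn (h n) (sphere t₀ |R|) := fun n =>
    (hh n).continuousOn.mono (hsp.trans hball)
  have hHint : CircleIntegrable H t₀ R :=
    harmlim_circleIntegrable h H t₀ R C hhc (fun n z hz => hC n z (hball (hsp hz)))
      (fun z hz => hlim z (hball (hsp hz)))
  have hcau : ∀ w ∈ ball t₀ R,
      (2 * Real.pi * Complex.I : ℂ)⁻¹ • (∮ z in C(t₀, R), (z - w)⁻¹ • H z) = H w := by
    intro w hw
    have hm : ∀ θ : ℝ, circleMap t₀ R θ ∈ sphere t₀ |R| := fun θ => circleMap_mem_sphere' t₀ R θ
    have hne : ∀ z ∈ sphere t₀ |R|, z - w ≠ 0 := by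
      intro z hz h0
      rw [sub_eq_zero] at h0
      rw [abs_of_pos hR, mem_sphere] at hz
      rw [h0] at hz
      rw [mem_ball] at hw
      exact absurd hz hw.ne
    have hK : ContinuousOn (fun z : ℂ => (z - w)⁻¹) (sphere t₀ |R|) :=
      (continuousOn_id.sub continuousOn_const).inv₀ hne
    obtain ⟨A, hA⟩ := (isCompact_sphere t₀ |R|).exists_bound_of_continuousOn hK
    have hC0 : 0 ≤ C := (norm_nonneg _).trans (hC 0 t₀ ht₀)
    have h1 : Tendsto (fun n => ∮ z in C(t₀, R), (z - w)⁻¹ • h n z) atTop
        (𝓝 (∮ z in C(t₀, R), (z - w)⁻¹ • H z)) := by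
      unfold circleIntegral
      refine intervalIntegral.tendsto_integral_filter_of_dominated_convergence
        (fun _ => |R| * (A * C)) (Eventually.of_forall fun n => ?_) ?_
        intervalIntegrable_const ?_
      · have hc1 : Continuous fun θ : ℝ => deriv (circleMap t₀ R) θ := by
          simp only [deriv_circleMap]
          exact (continuous_circleMap 0 R).mul continuous_const
        have hc2 : Continuous fun θ : ℝ => (circleMap t₀ R θ - w)⁻¹ • h n (circleMap t₀ R θ) :=
          (hK.smul (hhc n)).comp_continuous (continuous_circleMap t₀ R) hm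
        exact (hc1.smul hc2).aestronglyMeasurable
      · refine Eventually.of_forall fun n => Eventually.of_forall fun θ _ => ?_
        rw [norm_smul, norm_smul, deriv_circleMap, norm_mul, norm_circleMap_zero, Complex.norm_I,
          mul_one]
        refine mul_le_mul_of_nonneg_left ?_ (abs_nonneg R)
        exact mul_le_mul (hA _ (hm θ)) (hC n _ (hball (hsp (hm θ)))) (norm_nonneg _)
          ((norm_nonneg _).trans (hA _ (hm θ)))
      · refine Eventually.of_forall fun θ _ => ?_
        exact ((hlim _ (hball (hsp (hm θ)))).const_smul _).const_smul _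
    have h2 : ∀ n, (2 * Real.pi * Complex.I : ℂ)⁻¹ •
        (∮ z in C(t₀, R), (z - w)⁻¹ • h n z) = h n w := by
      intro n
      have hd : DiffContOnCl ℂ (h n) (ball t₀ R) := by
        refine DifferentiableOn.diffContOnCl ?_
        rw [closure_ball t₀ hR.ne']
        exact (hh n).mono hball
      exact hd.two_pi_i_inv_smul_circleIntegral_sub_inv_smul hw
    have h3 := h1.const_smul (2 * Real.pi * Complex.I : ℂ)⁻¹
    simp only [h2] at h3
    exact tendsto_nhds_unique h3 (hlim w (hball (ball_subset_closedBall hw)))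
  have hR' : 0 < R.toNNReal := Real.toNNReal_pos.2 hR
  have hcoe : ((R.toNNReal : NNReal) : ℝ) = R := Real.coe_toNNReal R hR.le
  have h4 := hasFPowerSeriesOn_cauchy_integral (f := H) (c := t₀) (R := R.toNNReal)
    (by rw [hcoe]; exact hHint) hR'
  rw [hcoe] at h4
  have h5 := h4.analyticAt.differentiableAt
  refine (DifferentiableAt.congr_of_eventuallyEq h5 ?_).differentiableWithinAt
  filter_upwards [ball_mem_nhds t₀ hR] with w hw
  exact (hcau w hw).symm

end

end Pool.Agent.H429
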