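import Pool.Agent.H429.Stmts3

open MeasureTheory Filter Topology Metric

namespace Pool.Agent.H429

noncomputable section

/-- The matrix of partial derivatives of the quadratic map with coefficient vector `c`. -/
def jacfs_J (c : Coef 2) (v : Vec) : Matrix (Fin 3) (Fin 3) ℂ := fun i =>
  ![2 * c i m200 * v 0 + c i m110 * v 1 + c i m101 * v 2,
    2 * c i m020 * v 1 + c i m110 * v 0 + c i m011 * v 2,
    2 * c i m002 * v 2 + c i m101 * v 0 + c i m011 * v 1]

/-- The same matrix as a continuous linear map. -/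
def jacfs_L (c : Coef 2) (v : Vec) : Vec →L[ℂ] Vec :=
  LinearMap.toContinuousLinearMap (Matrix.toLin' (jacfs_J c v))

theorem jacfs_L_apply (c : Coef 2) (v w : Vec) (i : Fin 3) : jacfs_L c v w i =
    (2 * c i m200 * v 0 + c i m110 * v 1 + c i m101 * v 2) * w 0 +
    (2 * c i m020 * v 1 + c i m110 * v 0 + c i m011 * v 2) * w 1 +
    (2 * c i m002 * v 2 + c i m101 * v 0 + c i m011 * v 1) * w 2 := by
  simp [jacfs_L, jacfs_J, Matrix.toLin'_apply, Matrix.mulVec, dotProduct, Fin.sum_univ_three]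

theorem jacfs_hasFDerivAt (hp : S_poly) (c : Coef 2) (v : Vec) :
    HasFDerivAt (poly c) (jacfs_L c v) v := by
  rw [hasFDerivAt_pi']
  intro i
  have h0 : HasFDerivAt (fun v : Vec => v 0) (ContinuousLinearMap.proj (R := ℂ) (φ := fun _ : Fin 3 => ℂ) 0) v :=
    (ContinuousLinearMap.proj (R := ℂ) (φ := fun _ : Fin 3 => ℂ) 0).hasFDerivAt
  have h1 : HasFDerivAt (fun v : Vec => v 1) (ContinuousLinearMap.proj (R := ℂ) (φ := fun _ : Fin 3 => ℂ) 1) v :=
    (ContinuousLinearMap.proj (R := ℂ) (φ := fun _ : Fin 3 => ℂ) 1).hasFDerivAt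
  have h2 : HasFDerivAt (fun v : Vec => v 2) (ContinuousLinearMap.proj (R := ℂ) (φ := fun _ : Fin 3 => ℂ) 2) v :=
    (ContinuousLinearMap.proj (R := ℂ) (φ := fun _ : Fin 3 => ℂ) 2).hasFDerivAt
  have key := ((((((h0.mul h0).const_mul (c i m200)).add ((h1.mul h1).const_mul (c i m020))).add
    ((h2.mul h2).const_mul (c i m002))).add ((h0.mul h1).const_mul (c i m110))).add
    ((h0.mul h2).const_mul (c i m101))).add ((h1.mul h2).const_mul (c i m011))
  have hfun : (fun x => poly c x i) = (fun v : Vec => c i m200 * (v 0 * v 0) + c i m020 * (v 1 * v 1) +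
      c i m002 * (v 2 * v 2) + c i m110 * (v 0 * v 1) + c i m101 * (v 0 * v 2) + c i m011 * (v 1 * v 2)) := by
    funext x
    rw [hp c x i]
    ring
  rw [hfun]
  refine key.congr_fderiv ?_
  ext w
  simp [jacfs_L_apply]
  ring

theorem jacfs_fderiv_det (hp : S_poly) (c : Coef 2) (v : Vec) :
    (fderiv ℂ (poly c) v).det = (jacfs_J c v).det := by
  rw [(jacfs_hasFDerivAt hp c v).fderiv]
  simp [jacfs_L, ContinuousLinearMap.det]

theorem jacfs_J_smul (c : Coef 2) (a : ℂ) (v : Vec) : jacfs_J c (a • v) = a • jacfs_J c v := by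
  ext i j
  fin_cases j <;> simp [jacfs_J] <;> ring

theorem jacfs_det_smul (c : Coef 2) (a : ℂ) (v : Vec) :
    (jacfs_J c (a • v)).det = a ^ 3 * (jacfs_J c v).det := by
  rw [jacfs_J_smul, Matrix.det_smul]
  simp

theorem jacfs_hnorm_smul (a : ℂ) (v : Vec) : hnorm (a • v) = ‖a‖ * hnorm v := by
  unfold hnorm
  have : ∑ i, ‖(a • v) i‖ ^ 2 = ‖a‖ ^ 2 * ∑ i, ‖v i‖ ^ 2 := by
    rw [Finset.mul_sum]
    refine Finset.sum_congr rfl fun i _ => ?_
    simp [mul_pow]
  rw [this, Real.sqrt_mul (by positivity), Real.sqrt_sq (norm_nonneg _)]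

theorem jacfs_poly_smul (hp : S_poly) (c : Coef 2) (a : ℂ) (v : Vec) :
    poly c (a • v) = a ^ 2 • poly c v := by
  funext i
  have h1 := hp c (a • v) i
  have h2 := hp c v i
  simp only [Pi.smul_apply, smul_eq_mul] at h1 ⊢
  rw [h1, h2]
  ring

theorem jacfs_hnorm_pos {v : Vec} (hv : v ≠ 0) : 0 < hnorm v := by
  unfold hnorm
  apply Real.sqrt_pos.mpr
  obtain ⟨i, hi⟩ := Function.ne_iff.mp hv
  have h1 : 0 < ‖v i‖ ^ 2 := by
    have : v i ≠ 0 := hi
    positivity
  exact lt_of_lt_of_le h1 (Finset.single_le_sum (f := fun i => ‖v i‖ ^ 2) (fun j _ => by positivity) (Finset.mem_univ i))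

/-- The formula of `jacFS` at a representative. -/
def jacfs_form (c : Coef 2) (v : Vec) : ℝ :=
  ‖(jacfs_J c v).det‖ * hnorm v ^ 3 / (2 * hnorm (poly c v) ^ 3)

theorem jacfs_form_smul (hp : S_poly) (c : Coef 2) (a : ℂ) (ha : a ≠ 0) (v : Vec) :
    jacfs_form c (a • v) = jacfs_form c v := by
  unfold jacfs_form
  rw [jacfs_det_smul, jacfs_hnorm_smul, jacfs_poly_smul hp, jacfs_hnorm_smul, norm_mul, norm_pow,
    norm_pow]
  have h : ‖a‖ ≠ 0 := norm_ne_zero_iff.mpr ha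
  rw [show ‖a‖ ^ 3 * ‖(jacfs_J c v).det‖ * (‖a‖ * hnorm v) ^ 3 =
    ‖a‖ ^ 6 * (‖(jacfs_J c v).det‖ * hnorm v ^ 3) by ring,
    show 2 * (‖a‖ ^ 2 * hnorm (poly c v)) ^ 3 = ‖a‖ ^ 6 * (2 * hnorm (poly c v) ^ 3) by ring]
  exact mul_div_mul_left _ _ (pow_ne_zero _ h)

theorem jacfs_eq_form (hp : S_poly) (c : Lift 2) (v : Vec) (hv : v ≠ 0) :
    jacFS c (Projectivization.mk ℂ v hv) = jacfs_form c.1 v := by
  have h1 : jacFS c (Projectivization.mk ℂ v hv) =
      jacfs_form c.1 (Projectivization.mk ℂ v hv).rep := by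
    unfold jacFS jacfs_form
    rw [jacfs_fderiv_det hp]
    norm_num
  obtain ⟨a, ha⟩ := Projectivization.exists_smul_eq_mk_rep ℂ v hv
  rw [h1, ← ha]
  exact jacfs_form_smul hp c.1 (a : ℂ) (Units.ne_zero a) v

theorem jacfs_hnorm_continuous : Continuous hnorm := by
  unfold hnorm
  fun_prop

theorem jacfs_poly_continuous (hp : S_poly) (c : Coef 2) : Continuous (poly c) := by
  rw [continuous_iff_continuousAt]
  intro v
  exact (jacfs_hasFDerivAt hp c v).continuousAt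

theorem jacfs_J_continuous (c : Coef 2) : Continuous (jacfs_J c) := by
  refine continuous_matrix fun i j => ?_
  fin_cases j <;> simp [jacfs_J] <;> fun_prop

theorem jacfs_continuous (hp : S_poly) (c : Lift 2) : Continuous (jacFS c) := by
  rw [continuous_coinduced_dom]
  have h : (jacFS c ∘ (Projectivization.mk' ℂ : {v : Vec // v ≠ 0} → P2)) =
      fun v : {v : Vec // v ≠ 0} => jacfs_form c.1 v.1 := by
    funext v
    exact jacfs_eq_form hp c v.1 v.2
  rw [h]
  unfold jacfs_form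
  have hJ : Continuous fun v : {v : Vec // v ≠ 0} => (jacfs_J c.1 v.1).det :=
    ((jacfs_J_continuous c.1).comp continuous_subtype_val).matrix_det
  have hh : Continuous fun v : {v : Vec // v ≠ 0} => hnorm v.1 :=
    jacfs_hnorm_continuous.comp continuous_subtype_val
  have hpc : Continuous fun v : {v : Vec // v ≠ 0} => hnorm (poly c.1 v.1) :=
    jacfs_hnorm_continuous.comp ((jacfs_poly_continuous hp c.1).comp continuous_subtype_val)
  refine Continuous.div (hJ.norm.mul (hh.pow 3)) (continuous_const.mul (hpc.pow 3)) ?_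
  intro v
  have : 0 < hnorm (poly c.1 v.1) := jacfs_hnorm_pos (fun h => v.2 (c.2 _ h))
  positivity

/-- The determinant of an endomorphism of `ℂ × ℂ`. -/
theorem jacfs_det_two (A : C2 →L[ℂ] C2) :
    A.det = (A (1, 0)).1 * (A (0, 1)).2 - (A (0, 1)).1 * (A (1, 0)).2 := by
  unfold ContinuousLinearMap.det
  rw [← LinearMap.det_toMatrix (Module.Basis.finTwoProd ℂ), Matrix.det_fin_two]
  simp [LinearMap.toMatrix_apply]

theorem jacfs_ch_hasFDerivAt (x : C2) :
    HasFDerivAt ch (ContinuousLinearMap.pi (fun i : Fin 3 =>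
      ![ContinuousLinearMap.fst ℂ ℂ ℂ, ContinuousLinearMap.snd ℂ ℂ ℂ, 0] i)) x := by
  rw [hasFDerivAt_pi']
  intro i
  fin_cases i
  · exact (ContinuousLinearMap.fst ℂ ℂ ℂ).hasFDerivAt
  · exact (ContinuousLinearMap.snd ℂ ℂ ℂ).hasFDerivAt
  · exact hasFDerivAt_const (1 : ℂ) x

theorem jacfs_div {f g : C2 → ℂ} {f' g' : C2 →L[ℂ] ℂ} {x : C2} (hf : HasFDerivAt f f' x)
    (hg : HasFDerivAt g g' x) (h : g x ≠ 0) :
    HasFDerivAt (fun y => f y / g y) ((g x)⁻¹ • f' - (f x / g x ^ 2) • g') x := by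
  have h1 : HasFDerivAt (fun y => (g y)⁻¹) ((-(g x ^ 2)⁻¹) • g') x :=
    (hasDerivAt_inv h).comp_hasFDerivAt x hg
  have h2 := hf.mul h1
  refine h2.congr_fderiv ?_
  ext <;> simp <;> ring

theorem jacfs_chart (hp : S_poly) (c : Lift 2) (hc : Good c.1) (x : C2) (hx : x ∈ PP) :
    jacFS c (io x) = ‖jac (GG c.1) x‖ * hnorm (ch x) ^ 3 / hnorm (ch (GG c.1 x)) ^ 3 := by
  have hx1 : x ∈ closedBall (0 : C2) 1 := by
    refine closedBall_subset_closedBall ?_ hx
    norm_num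
  have hF2 : FF c.1 x 2 ≠ 0 := hc.u1 x hx1
  unfold io
  rw [jacfs_eq_form hp]
  -- the derivative of the lift in the chart
  have hFF : HasFDerivAt (FF c.1) ((jacfs_L c.1 (ch x)).comp (ContinuousLinearMap.pi (fun i : Fin 3 =>
      ![ContinuousLinearMap.fst ℂ ℂ ℂ, ContinuousLinearMap.snd ℂ ℂ ℂ, 0] i))) x :=
    (jacfs_hasFDerivAt hp c.1 (ch x)).comp x (jacfs_ch_hasFDerivAt x)
  rw [hasFDerivAt_pi'] at hFF
  have hd0 := jacfs_div (hFF 0) (hFF 2) hF2
  have hd1 := jacfs_div (hFF 1) (hFF 2) hF2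
  have hG := hd0.prodMk hd1
  have hfd := HasFDerivAt.fderiv hG
  have hGG : (fun y => (FF c.1 y 0 / FF c.1 y 2, FF c.1 y 1 / FF c.1 y 2)) = GG c.1 := rfl
  rw [hGG] at hfd
  have hjac : 2 * FF c.1 x 2 ^ 3 * jac (GG c.1) x = (jacfs_J c.1 (ch x)).det := by
    unfold jac
    rw [hfd, jacfs_det_two]
    simp only [ContinuousLinearMap.prod_apply, ContinuousLinearMap.coe_sub', Pi.sub_apply,
      ContinuousLinearMap.coe_smul', Pi.smul_apply, ContinuousLinearMap.coe_comp', Function.comp_apply,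
      ContinuousLinearMap.proj_apply, jacfs_L_apply, ContinuousLinearMap.coe_pi', smul_eq_mul,
      Matrix.cons_val_zero, Matrix.cons_val_one, Matrix.cons_val,
      ContinuousLinearMap.coe_fst', ContinuousLinearMap.coe_snd', ContinuousLinearMap.zero_apply]
    have e0 : FF c.1 x 0 = _ := hp c.1 (ch x) 0
    have e1 : FF c.1 x 1 = _ := hp c.1 (ch x) 1
    have e2 : FF c.1 x 2 = _ := hp c.1 (ch x) 2
    simp only [ch, Matrix.cons_val_zero, Matrix.cons_val_one, Matrix.cons_val] at e0 e1 e2 ⊢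
    rw [Matrix.det_fin_three]
    simp only [jacfs_J, Matrix.cons_val_zero, Matrix.cons_val_one, Matrix.cons_val]
    field_simp
    rw [e0, e1, e2]
    ring
  have hsm : poly c.1 (ch x) = FF c.1 x 2 • ch (GG c.1 x) := by
    funext i
    simp only [Pi.smul_apply, smul_eq_mul]
    fin_cases i
    · change FF c.1 x 0 = FF c.1 x 2 * (FF c.1 x 0 / FF c.1 x 2)
      field_simp
    · change FF c.1 x 1 = FF c.1 x 2 * (FF c.1 x 1 / FF c.1 x 2)
      field_simp
    · change FF c.1 x 2 = FF c.1 x 2 * 1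
      ring
  unfold jacfs_form
  rw [← hjac, hsm, jacfs_hnorm_smul, norm_mul, norm_mul, norm_pow]
  have h3 : ‖FF c.1 x 2‖ ≠ 0 := norm_ne_zero_iff.mpr hF2
  have h4 : hnorm (ch (GG c.1 x)) ≠ 0 := (jacfs_hnorm_pos (ch_ne_zero _)).ne'
  rw [show ‖(2 : ℂ)‖ = 2 by norm_num]
  field_simp

/-- TARGET -/
theorem t_jacfs (hp : S_poly) : S_jacfs :=
  ⟨jacfs_continuous hp, jacfs_chart hp⟩

end

end Pool.Agent.H429
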