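import Pool.Agent.H429.Stmts3

open MeasureTheory Filter Topology Metric

namespace Pool.Agent.H429

noncomputable section

/-- the determinant of an operator of `C2` -/
theorem jan_det (A : C2 →L[ℂ] C2) :
    A.det = (A (1, 0)).1 * (A (0, 1)).2 - (A (0, 1)).1 * (A (1, 0)).2 := by
  rw [ContinuousLinearMap.det, ← LinearMap.det_toMatrix (Module.Basis.finTwoProd ℂ),
    Matrix.det_fin_two]
  simp [LinearMap.toMatrix_apply]

/-- TARGET -/
theorem t_jan : S_jan := by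
  intro E _ _ _ G e x h
  set Φ : E × C2 → C2 := fun q => G q.1 q.2 with hΦ
  have h1 : ∀ᶠ q in 𝓝 (e, x), AnalyticAt ℂ Φ q := h.eventually_analyticAt
  have h2 : (fun q : E × C2 => (fderiv ℂ Φ q).comp (ContinuousLinearMap.inr ℂ E C2)) =ᶠ[𝓝 (e, x)]
      (fun q => fderiv ℂ (G q.1) q.2) := by
    filter_upwards [h1] with q hq
    have h3 : HasFDerivAt Φ (fderiv ℂ Φ q) (q.1, q.2) := hq.differentiableAt.hasFDerivAt
    have h4 : HasFDerivAt (fun y : C2 => (q.1, y)) (ContinuousLinearMap.inr ℂ E C2) q.2 :=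
      hasFDerivAt_prodMk_right q.1 q.2
    exact (h3.comp q.2 h4).fderiv.symm
  have h5 : AnalyticAt ℂ
      (fun q : E × C2 => (fderiv ℂ Φ q).comp (ContinuousLinearMap.inr ℂ E C2)) (e, x) :=
    (((ContinuousLinearMap.compL ℂ C2 (E × C2) C2).flip
      (ContinuousLinearMap.inr ℂ E C2)).analyticAt (fderiv ℂ Φ (e, x))).fun_comp h.fderiv
  have h6 : AnalyticAt ℂ (fun q : E × C2 => fderiv ℂ (G q.1) q.2) (e, x) := h5.congr h2
  refine ⟨h6, ?_⟩
  have hL : ∀ (v : C2) (P : C2 →L[ℂ] ℂ),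
      AnalyticAt ℂ (fun q : E × C2 => P (fderiv ℂ (G q.1) q.2 v)) (e, x) := by
    intro v P
    exact ((P.comp (ContinuousLinearMap.apply ℂ C2 v)).analyticAt _).fun_comp h6
  have h7 : (fun q : E × C2 => jac (G q.1) q.2) = fun q : E × C2 =>
      ContinuousLinearMap.fst ℂ ℂ ℂ (fderiv ℂ (G q.1) q.2 (1, 0)) *
        ContinuousLinearMap.snd ℂ ℂ ℂ (fderiv ℂ (G q.1) q.2 (0, 1)) -
      ContinuousLinearMap.fst ℂ ℂ ℂ (fderiv ℂ (G q.1) q.2 (0, 1)) *
        ContinuousLinearMap.snd ℂ ℂ ℂ (fderiv ℂ (G q.1) q.2 (1, 0)) := by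
    funext q
    rw [jac, jan_det]
    rfl
  rw [h7]
  exact ((hL _ _).mul (hL _ _)).sub ((hL _ _).mul (hL _ _))

end

end Pool.Agent.H429
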