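import Pool.Agent.H429.Stmts3

open MeasureTheory Filter Topology Metric

namespace Pool.Agent.H429

noncomputable section

private lemma limits_continuousOn {g : C2 → C2} (hg : Sys g) : ContinuousOn g PP :=
  fun x hx => (hg.an x hx).continuousAt.continuousWithinAt

private lemma limits_mem_PP {g : C2 → C2} {n : ℕ} {b x : C2} (hn : 1 ≤ n) (hx : x ∈ pre g n b) :
    x ∈ PP := hx.2 0 hn

private lemma limits_avg_one {g : C2 → C2} (φ : C2 → ℝ) {y : C2} (hy : (pre g 1 y).ncard = 4) :
    avg g 1 (fun x => φ (g x)) y = φ y := by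
  have h1 : ∀ x ∈ pre g 1 y, φ (g x) = φ y := fun x hx => by
    rw [show g x = y from hx.1]
  have hfin : (pre g 1 y).Finite := Set.finite_of_ncard_ne_zero (by rw [hy]; norm_num)
  rw [avg, finsum_mem_congr rfl h1, finsum_mem_eq_finite_toFinset_sum _ hfin, Finset.sum_const,
    ← Set.ncard_eq_toFinset_card _ hfin, hy]
  norm_num

/-- TARGETS -/
theorem t_inv (hc : S_card) (hn : S_null) (ha : S_avgsucc) : S_inv := by
  intro g hg m hm φ hφ
  have h1 := hm.conv φ hφ.continuousOn
  have h2 := hm.conv (fun x => φ (g x)) (hφ.comp_continuousOn (limits_continuousOn hg))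
  have h3 : ∀ᵐ b : C2, b ∈ BB → ∀ n, Reg g n b := by
    have : ∀ n, ∀ᵐ b : C2, b ∈ BB → Reg g n b := by
      intro n
      rw [ae_iff]
      convert (hn g hg).1 n using 2
      ext b
      simp only [Set.mem_ofPred_eq, Classical.not_imp, Set.mem_sdiff]
    filter_upwards [ae_all_iff.2 this] with b hb hbB n
    exact hb n hbB
  obtain ⟨b, hb, h1b, h2b, h3b⟩ : ∃ b : C2, b ∈ BB ∧
      Tendsto (fun n => avg g n φ b) atTop (𝓝 (∫ x, φ x ∂m)) ∧
      Tendsto (fun n => avg g n (fun x => φ (g x)) b) atTop (𝓝 (∫ x, φ (g x) ∂m)) ∧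
      ∀ n, Reg g n b := by
    by_contra hcon
    push Not at hcon
    have h4 : ∀ᵐ b : C2, b ∉ BB := by
      filter_upwards [h1, h2, h3] with b h1 h2 h3 hb
      obtain ⟨n, hn⟩ := hcon b hb (h1 hb) (h2 hb)
      exact hn (h3 hb n)
    have h5 : volume BB = 0 := by
      rw [ae_iff] at h4
      simpa using h4
    exact (measure_ball_pos volume (0 : C2) one_pos).ne' h5
  have h4 : ∀ n, avg g (n + 1) (fun x => φ (g x)) b = avg g n φ b := by
    intro n
    obtain ⟨_, h5, _, h6⟩ := ha g hg n b (h3b (n + 1))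
    rw [h6, avg, avg]
    congr 1
    exact finsum_mem_congr rfl fun y hy => limits_avg_one φ (h5 y hy).2
  have h5 := (tendsto_add_atTop_iff_nat 1).2 h2b
  simp only [h4] at h5
  exact tendsto_nhds_unique h5 h1b

theorem t_hol (hc : S_card) (hm : S_mvp) (hp : S_ph) : S_hol := by
  intro g hg m hmE b₀ r hr e he
  have hcont : ContinuousOn (fun x => (e x).re) PP :=
    Complex.continuous_re.comp_continuousOn fun x hx =>
      (he x hx).continuousAt.continuousWithinAt
  have hcomp : IsCompact PP := isCompact_closedBall _ _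
  obtain ⟨C, hC⟩ := hcomp.exists_bound_of_continuousOn hcont
  have hC0 : 0 ≤ C := (norm_nonneg _).trans (hC 0 (by simp [PP]))
  have key := hm b₀ r hr.1 (fun n => avg g (n + 1) (fun x => (e x).re)) C (∫ x, (e x).re ∂m)
    (fun n v => (hp g hg b₀ r hr (n + 1) (Nat.le_add_left 1 n) v).2 e he) ?_ ?_
  · exact (tendsto_add_atTop_iff_nat 1).1 key
  · intro n b hb
    obtain ⟨hfin, hcard, _⟩ := hc g hg (n + 1) b (hr.2.1 hb)
    rw [avg, div_le_iff₀ (by positivity), finsum_mem_eq_finite_toFinset_sum _ hfin]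
    refine (Finset.sum_le_card_nsmul _ _ C fun x hx => ?_).trans ?_
    · exact (le_abs_self _).trans (hC x (limits_mem_PP (Nat.le_add_left 1 n)
        (hfin.mem_toFinset.1 hx)))
    · rw [nsmul_eq_mul, mul_comm]
      refine mul_le_mul_of_nonneg_left ?_ hC0
      rw [← Set.ncard_eq_toFinset_card _ hfin]
      exact_mod_cast hcard
  · filter_upwards [hmE.conv _ hcont] with b hb hbr
    exact (tendsto_add_atTop_iff_nat 1).2 (hb (hr.2.1 hbr))

end

end Pool.Agent.H429
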