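import Pool.Agent.H429.Stmts3

open MeasureTheory Filter Topology Metric

namespace Pool.Agent.H429

noncomputable section

/-- The truncated logarithm of the Jacobian. -/
def log_phi (g : C2 → C2) (k : ℝ) (x : C2) : ℝ := Real.log (max ‖jac g x‖ (Real.exp (-k)))

/-- The logarithm of the Jacobian. -/
def log_u (g : C2 → C2) (x : C2) : ℝ := Real.log ‖jac g x‖

theorem log_phi_anti (g : C2 → C2) {k k' : ℝ} (h : k ≤ k') (x : C2) :
    log_phi g k' x ≤ log_phi g k x := by
  unfold log_phi
  apply Real.log_le_log (lt_max_of_lt_right (Real.exp_pos _))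
  exact max_le_max le_rfl (Real.exp_le_exp.2 (by linarith))

theorem log_u_le_phi (g : C2 → C2) (k : ℝ) {x : C2} (hx : jac g x ≠ 0) :
    log_u g x ≤ log_phi g k x :=
  Real.log_le_log (norm_pos_iff.2 hx) (le_max_left _ _)

theorem log_phi_ge (g : C2 → C2) (k : ℝ) (x : C2) : -k ≤ log_phi g k x := by
  have := Real.log_le_log (Real.exp_pos (-k)) (le_max_right ‖jac g x‖ (Real.exp (-k)))
  rwa [Real.log_exp] at this

theorem log_phi_zero (g : C2 → C2) (k : ℝ) {x : C2} (hx : jac g x = 0) :
    log_phi g k x = -k := by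
  unfold log_phi
  rw [hx, norm_zero, max_eq_right (Real.exp_pos _).le, Real.log_exp]

theorem log_phi_eq (g : C2 → C2) {k : ℝ} {x : C2} (hx : Real.exp (-k) ≤ ‖jac g x‖) :
    log_phi g k x = log_u g x := by
  unfold log_phi log_u
  rw [max_eq_left hx]

theorem log_jac_measurable (g : C2 → C2) : Measurable (jac g) :=
  (ContinuousLinearMap.continuous_det).measurable.comp (measurable_fderiv ℂ g)

theorem log_jac_cont {g : C2 → C2} (hg : Sys g) : ContinuousOn (jac g) PP := by
  intro x hx
  have h1 : ContinuousAt (fderiv ℂ g) x := (hg.an x hx).fderiv.continuousAt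
  exact (ContinuousLinearMap.continuous_det.continuousAt.comp h1).continuousWithinAt

theorem log_phi_cont {g : C2 → C2} (hg : Sys g) (k : ℝ) : ContinuousOn (log_phi g k) PP := by
  unfold log_phi
  apply ContinuousOn.log
  · exact ((log_jac_cont hg).norm).sup continuousOn_const
  · intro x _
    exact (lt_max_of_lt_right (Real.exp_pos _)).ne'

theorem log_phi_measurable (g : C2 → C2) (k : ℝ) : Measurable (log_phi g k) :=
  Real.measurable_log.comp ((log_jac_measurable g).norm.max measurable_const)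

theorem log_u_measurable (g : C2 → C2) : Measurable (log_u g) :=
  Real.measurable_log.comp (log_jac_measurable g).norm

theorem log_bound {g : C2 → C2} (hg : Sys g) :
    ∃ M : ℝ, 0 ≤ M ∧ ∀ x ∈ PP, (∀ k : ℝ, 0 ≤ k → log_phi g k x ≤ M) ∧
      (jac g x ≠ 0 → log_u g x ≤ M) := by
  have hcomp : IsCompact PP := isCompact_closedBall _ _
  obtain ⟨C, hC⟩ := hcomp.exists_bound_of_continuousOn (log_jac_cont hg)
  refine ⟨Real.log (max C 1), Real.log_nonneg (le_max_right _ _), fun x hx => ?_⟩
  have h1 : ∀ k : ℝ, 0 ≤ k → log_phi g k x ≤ Real.log (max C 1) := by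
    intro k hk
    unfold log_phi
    apply Real.log_le_log (lt_max_of_lt_right (Real.exp_pos _))
    apply max_le
    · exact (hC x hx).trans (le_max_left _ _)
    · exact (Real.exp_le_one_iff.2 (by linarith)).trans (le_max_right _ _)
  exact ⟨h1, fun h => (log_u_le_phi g 0 h).trans (h1 0 le_rfl)⟩

theorem log_away_half {g : C2 → C2} {b₀ : C2} {r : ℝ} (h : Away g b₀ r) {b : C2}
    (hb : b ∈ ball b₀ (r / 2)) : Away g b (r / 2) := by
  obtain ⟨hr, h1, h2⟩ := h
  have hsub : ball b (r / 2) ⊆ ball b₀ r := by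
    apply ball_subset_ball'
    rw [mem_ball] at hb
    linarith
  exact ⟨by linarith, hsub.trans h1, fun j hj => (h2 j hj).mono_left hsub⟩

theorem log_away_ne {g : C2 → C2} {b : C2} {r : ℝ} (h : Away g b r) {n : ℕ} (hn : 1 ≤ n) {x : C2}
    (hx : x ∈ pre g n b) : jac g x ≠ 0 := by
  obtain ⟨hr, h1, h2⟩ := h
  intro h0
  exact (Set.disjoint_left.1 (h2 n hn)) (mem_ball_self hr)
    ⟨h1 (mem_ball_self hr), x, hx, h0⟩

theorem log_away_BB {g : C2 → C2} {b : C2} {r : ℝ} (h : Away g b r) : b ∈ BB :=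
  h.2.1 (mem_ball_self h.1)

theorem log_away_reg {g : C2 → C2} {b : C2} {r : ℝ} (h : Away g b r) (n : ℕ) : Reg g n b :=
  ⟨log_away_BB h, fun _ hk _ _ hx => log_away_ne h hk hx⟩

theorem log_avg_mono (hc : S_card) {g : C2 → C2} (hg : Sys g) {n : ℕ} {b : C2} (hb : b ∈ BB)
    {φ ψ : C2 → ℝ} (h : ∀ x ∈ pre g n b, φ x ≤ ψ x) : avg g n φ b ≤ avg g n ψ b := by
  have hfin := (hc g hg n b hb).1
  unfold avg
  apply div_le_div_of_nonneg_right _ (by positivity)
  rw [finsum_mem_eq_finite_toFinset_sum _ hfin, finsum_mem_eq_finite_toFinset_sum _ hfin]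
  exact Finset.sum_le_sum fun x hx => h x (hfin.mem_toFinset.1 hx)

/-- The uniform estimate, for all large natural numbers. -/
theorem log_unif (hc : S_card) (ht : S_tail) {g : C2 → C2} (hg : Sys g) {r : ℝ} (hr : 0 < r)
    {ε : ℝ} (hε : 0 < ε) : ∃ K : ℕ, ∀ k : ℕ, K ≤ k → ∀ b : C2, Away g b r → ∀ n : ℕ, 1 ≤ n →
      avg g n (log_u g) b ≤ avg g n (log_phi g k) b ∧
        avg g n (log_phi g k) b ≤ avg g n (log_u g) b + ε := by
  obtain ⟨κ, hκ, h⟩ := ht g hg r hr ε hε
  refine ⟨⌈κ⌉₊, fun k hk b hb n hn => ?_⟩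
  have hκk : κ ≤ k := (Nat.le_ceil κ).trans (by exact_mod_cast hk)
  have h1 := h b hb n hn
  rw [abs_le] at h1
  have h2 : avg g n (log_phi g k) b ≤ avg g n (log_phi g κ) b :=
    log_avg_mono hc hg (log_away_BB hb) fun x _ => log_phi_anti g hκk x
  have h3 : avg g n (log_u g) b ≤ avg g n (log_phi g k) b :=
    log_avg_mono hc hg (log_away_BB hb) fun x hx => log_u_le_phi g k (log_away_ne hb hn hx)
  refine ⟨h3, h2.trans ?_⟩
  have h4 := h1.2
  change avg g n (log_phi g κ) b - avg g n (log_u g) b ≤ ε at h4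
  linarith

theorem log_phi_integrable {g : C2 → C2} (hg : Sys g) {m : Measure C2} (hE : Equi g m) (k : ℕ) :
    Integrable (log_phi g k) m := by
  haveI := hE.prob
  obtain ⟨M, hM0, hM⟩ := log_bound hg
  refine Integrable.of_bound (log_phi_measurable g k).aestronglyMeasurable (max M k) ?_
  have hae : ∀ᵐ x ∂m, x ∈ PP := by
    rw [ae_iff]
    exact hE.supp
  filter_upwards [hae] with x hx
  rw [Real.norm_eq_abs, abs_le]
  have h1 := (hM x hx).1 k (Nat.cast_nonneg k)
  have h2 := log_phi_ge g k x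
  constructor
  · have := le_max_right M (k : ℝ)
    linarith
  · exact h1.trans (le_max_left _ _)

/-- TARGET -/
theorem t_log (hc : S_card) (hn : S_null) (ht : S_tail) (hm : S_mvp) (hp : S_ph) (hu : S_ub) :
    S_log := by
  intro g hg m hE b₀ r hA
  haveI := hE.prob
  have hr : 0 < r := hA.1
  have hr2 : 0 < r / 2 := by linarith
  have hae : ∀ᵐ x ∂m, x ∈ PP := by
    rw [ae_iff]
    exact hE.supp
  obtain ⟨M, hM0, hM⟩ := log_bound hg
  have hint := fun k : ℕ => log_phi_integrable hg hE k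
  set I : ℕ → ℝ := fun k => ∫ x, log_phi g k x ∂m with hI
  -- almost every point
  have hconv : ∀ᵐ b : C2, b ∈ BB → ∀ k : ℕ,
      Tendsto (fun n => avg g n (log_phi g k) b) atTop (𝓝 (I k)) := by
    have h1 : ∀ k : ℕ, ∀ᵐ b : C2, b ∈ BB →
        Tendsto (fun n => avg g n (log_phi g k) b) atTop (𝓝 (I k)) :=
      fun k => hE.conv (log_phi g k) (log_phi_cont hg k)
    filter_upwards [ae_all_iff.2 h1] with b hb hbB k
    exact hb k hbB
  have hhalf : ball b₀ (r / 2) ⊆ BB := (ball_subset_ball (by linarith)).trans hA.2.1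
  -- a good point
  obtain ⟨b₁, hb₁, hb₁c⟩ : ∃ b₁ ∈ ball b₀ (r / 2), ∀ k : ℕ,
      Tendsto (fun n => avg g n (log_phi g k) b₁) atTop (𝓝 (I k)) := by
    by_contra hcon
    push Not at hcon
    have h1 : volume (ball b₀ (r / 2)) = 0 := by
      refine measure_mono_null (fun b hb => ?_) (ae_iff.1 hconv)
      rw [Set.mem_setOf_eq]
      intro h
      obtain ⟨k, hk⟩ := hcon b hb
      exact hk (h (hhalf hb) k)
    exact (measure_ball_pos volume b₀ hr2).ne' h1
  have hb₁A := log_away_half hA hb₁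
  -- I is bounded below
  obtain ⟨K₁, hK₁⟩ := log_unif hc ht hg hr2 (one_pos)
  have hIlo : ∀ k : ℕ, I K₁ - 1 ≤ I k := by
    intro k
    have h1 : ∀ n : ℕ, 1 ≤ n → avg g n (log_phi g K₁) b₁ - 1 ≤ avg g n (log_phi g k) b₁ := by
      intro n hn1
      have h2 := (hK₁ K₁ le_rfl b₁ hb₁A n hn1).2
      have h3 : avg g n (log_u g) b₁ ≤ avg g n (log_phi g k) b₁ :=
        log_avg_mono hc hg (log_away_BB hb₁A)
          fun x hx => log_u_le_phi g k (log_away_ne hb₁A hn1 hx)
      linarith
    refine le_of_tendsto_of_tendsto ((hb₁c K₁).sub_const 1) (hb₁c k) ?_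
    filter_upwards [eventually_ge_atTop 1] with n hn1
    exact h1 n hn1
  -- monotone convergence
  set F : ℕ → C2 → ENNReal := fun k x => ENNReal.ofReal (M - log_phi g k x) with hF
  have hFmeas : ∀ k, Measurable (F k) := fun k =>
    (measurable_const.sub (log_phi_measurable g k)).ennreal_ofReal
  have hFmono : Monotone F := by
    intro k k' hkk x
    apply ENNReal.ofReal_le_ofReal
    have := log_phi_anti g (k := (k : ℝ)) (k' := (k' : ℝ)) (by exact_mod_cast hkk) x
    linarith
  have hFint : ∀ k, ∫⁻ x, F k x ∂m ≤ ENNReal.ofReal (M - (I K₁ - 1)) := by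
    intro k
    have h1 : ∫⁻ x, F k x ∂m = ENNReal.ofReal (∫ x, (M - log_phi g k x) ∂m) := by
      have hi : Integrable (fun x => M - log_phi g k x) m := (integrable_const M).sub (hint k)
      rw [ofReal_integral_eq_lintegral_ofReal hi]
      filter_upwards [hae] with x hx
      have := (hM x hx).1 k (Nat.cast_nonneg k)
      show 0 ≤ M - log_phi g k x
      linarith
    rw [h1, integral_sub (integrable_const M) (hint k), integral_const]
    apply ENNReal.ofReal_le_ofReal
    have h2 := hIlo k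
    simp only [probReal_univ, one_smul]
    change I K₁ - 1 ≤ ∫ x, log_phi g k x ∂m at h2
    linarith
  have hsup : ∫⁻ x, (⨆ k, F k x) ∂m ≤ ENNReal.ofReal (M - (I K₁ - 1)) := by
    rw [lintegral_iSup hFmeas hFmono]
    exact iSup_le hFint
  have hsup_lt : ∫⁻ x, (⨆ k, F k x) ∂m < ⊤ := hsup.trans_lt ENNReal.ofReal_lt_top
  have hfinite : ∀ᵐ x ∂m, (⨆ k, F k x) < ⊤ :=
    ae_lt_top (Measurable.iSup hFmeas) hsup_lt.ne
  have hnz : ∀ᵐ x ∂m, jac g x ≠ 0 := by
    filter_upwards [hfinite] with x hx h0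
    have h1 : ∀ k : ℕ, (k : ENNReal) ≤ ⨆ k, F k x := by
      intro k
      refine le_trans ?_ (le_iSup (fun k => F k x) k)
      show (k : ENNReal) ≤ ENNReal.ofReal (M - log_phi g k x)
      rw [log_phi_zero g _ h0, ← ENNReal.ofReal_natCast]
      apply ENNReal.ofReal_le_ofReal
      linarith
    obtain ⟨k, hk⟩ := ENNReal.exists_nat_gt hx.ne
    exact absurd (h1 k) (not_le.2 hk)
  have hz : m {x | jac g x = 0} = 0 := by
    have := ae_iff.1 hnz
    simpa using this
  -- eventually constant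
  have hev : ∀ x, jac g x ≠ 0 → ∀ᶠ k : ℕ in atTop, log_phi g k x = log_u g x := by
    intro x hx
    have h1 : Tendsto (fun k : ℕ => Real.exp (-(k : ℝ))) atTop (𝓝 0) :=
      Real.tendsto_exp_neg_atTop_nhds_zero.comp tendsto_natCast_atTop_atTop
    filter_upwards [h1.eventually (Iic_mem_nhds (norm_pos_iff.2 hx))] with k hk
    exact log_phi_eq g hk
  have huint' : Integrable (fun x => M - log_u g x) m := by
    refine ⟨(measurable_const.sub (log_u_measurable g)).aestronglyMeasurable, ?_⟩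
    rw [hasFiniteIntegral_iff_ofReal]
    · refine lt_of_le_of_lt (lintegral_mono_ae ?_) hsup_lt
      filter_upwards [hnz] with x hx
      obtain ⟨k, hk⟩ := (hev x hx).exists
      refine le_trans ?_ (le_iSup (fun k => F k x) k)
      show ENNReal.ofReal (M - log_u g x) ≤ ENNReal.ofReal (M - log_phi g k x)
      rw [hk]
    · filter_upwards [hae, hnz] with x hx hx0
      have := (hM x hx).2 hx0
      show 0 ≤ M - log_u g x
      linarith
  have huint : Integrable (log_u g) m := by
    have h1 := (integrable_const M).sub huint'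
    refine h1.congr (Eventually.of_forall fun x => ?_)
    show M - (M - log_u g x) = log_u g x
    ring
  have hIlim : Tendsto I atTop (𝓝 (∫ x, log_u g x ∂m)) := by
    refine integral_tendsto_of_tendsto_of_antitone hint huint ?_ ?_
    · refine Eventually.of_forall fun x => ?_
      intro k k' hkk
      exact log_phi_anti g (by exact_mod_cast hkk) x
    · filter_upwards [hnz] with x hx
      exact tendsto_const_nhds.congr' ((hev x hx).mono fun k hk => hk.symm)
  refine ⟨hz, huint, ?_⟩
  -- convergence almost everywhere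
  have hconvu : ∀ᵐ b : C2, b ∈ ball b₀ (r / 2) →
      Tendsto (fun n => avg g (n + 1) (log_u g) b) atTop (𝓝 (∫ x, log_u g x ∂m)) := by
    filter_upwards [hconv] with b hb hbB
    have hbA := log_away_half hA hbB
    rw [Metric.tendsto_atTop]
    intro ε hε
    obtain ⟨K, hK⟩ := log_unif hc ht hg hr2 (ε := ε / 4) (by linarith)
    obtain ⟨K', hK'⟩ := (Metric.tendsto_atTop.1 hIlim) (ε / 4) (by linarith)
    set k := max K K' with hk
    obtain ⟨n₀, hn₀⟩ := (Metric.tendsto_atTop.1 (hb (hhalf hbB) k)) (ε / 4) (by linarith)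
    refine ⟨n₀, fun n hnn => ?_⟩
    have h1 := hK k (le_max_left _ _) b hbA (n + 1) (by omega)
    have h2 := hK' k (le_max_right _ _)
    have h3 := hn₀ (n + 1) (by omega)
    rw [Real.dist_eq, abs_lt] at h2 h3
    rw [Real.dist_eq, abs_lt]
    constructor
    · linarith [h1.1, h1.2, h2.1, h2.2, h3.1, h3.2]
    · linarith [h1.1, h1.2, h2.1, h2.2, h3.1, h3.2]
  have hA2 : Away g b₀ (r / 2) := log_away_half hA (mem_ball_self hr2)
  have hfin := hm b₀ (r / 2) hr2 (fun n => avg g (n + 1) (log_u g)) 100 (∫ x, log_u g x ∂m)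
    (fun n v => (hp g hg b₀ (r / 2) hA2 (n + 1) (by omega) v).1)
    (fun n b hb => hu g hg (n + 1) b (by omega) (log_away_reg (log_away_half hA hb) (n + 1)))
    hconvu
  exact (tendsto_add_atTop_iff_nat 1).1 hfin

end

end Pool.Agent.H429
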