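import Pool.Agent.H429.Stmts3

open MeasureTheory Filter Topology Metric

namespace Pool.Agent.H429

noncomputable section

private lemma lyap_hnorm_cont : Continuous hnorm := by
  unfold hnorm
  fun_prop

private lemma lyap_ch_cont : Continuous ch := by
  unfold ch
  refine continuous_pi fun i => ?_
  fin_cases i
  · exact continuous_fst
  · exact continuous_snd
  · exact continuous_const

private lemma lyap_hnorm_pos (x : C2) : 0 < hnorm (ch x) := by
  unfold hnorm
  apply Real.sqrt_pos.mpr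
  have h : ‖ch x 2‖ ^ 2 ≤ ∑ i, ‖ch x i‖ ^ 2 :=
    Finset.single_le_sum (f := fun i => ‖ch x i‖ ^ 2) (fun i _ => by positivity)
      (Finset.mem_univ 2)
  have h2 : ‖ch x 2‖ ^ 2 = 1 := by simp [ch]
  linarith

private lemma lyap_phi_cont : Continuous (fun x : C2 => Real.log (hnorm (ch x))) :=
  (lyap_hnorm_cont.comp lyap_ch_cont).log fun x => (lyap_hnorm_pos x).ne'

private lemma lyap_eqm {f : P2 → P2} {μ : Measure P2} (hu : S_unique) (h : IsEquilibrium f μ) :
    eqMeasure f = μ := by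
  classical
  have hex : ∃ μ, IsEquilibrium f μ := ⟨μ, h⟩
  have h1 : eqMeasure f = hex.choose := by
    unfold eqMeasure
    rw [dif_pos hex]
  rw [h1]
  exact hu f _ _ hex.choose_spec h

/-- TARGET -/
theorem t_lyap (hs : S_sys) (hsm : S_smul) (hinv : S_inv) (hlog : S_log) (hext : S_exterior)
    (hu : S_unique) (hjf : S_jacfs) (hch : S_chart) : S_lyap := by
  intro c hc m hm ⟨b, r, hbr⟩
  set c' : Lift 2 := (toEndo c).lift with hc'def
  have hrel : ∃ a : ℂ, a ≠ 0 ∧ c.1 = a • c'.1 := by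
    have h := Quotient.mk_out (s := liftSetoid 2) c
    exact h
  obtain ⟨a, ha, hac⟩ := hrel
  have hc'1 : c'.1 = a⁻¹ • c.1 := by
    rw [hac, smul_smul, inv_mul_cancel₀ ha, one_smul]
  have hGG : GG c'.1 = GG c.1 := by rw [hc'1]; exact (hsm c.1 a⁻¹ (inv_ne_zero ha)).1
  have hgood : Good c'.1 := by rw [hc'1]; exact (hsm c.1 a⁻¹ (inv_ne_zero ha)).2 hc
  have hm' : Equi (GG c'.1) m := by rw [hGG]; exact hm
  have heq : eqMeasure (selfMap c') = m.map io := lyap_eqm hu (hext c' hgood m hm')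
  have hprob : IsProbabilityMeasure m := hm.prob
  have hsys : Sys (GG c.1) := hs c.1 hc
  obtain ⟨hjac0, hjint, -⟩ := hlog (GG c.1) hsys m hm b r hbr
  have hPPc : IsCompact PP := isCompact_closedBall _ _
  have hPP : ∀ᵐ x ∂m, x ∈ PP := by
    rw [ae_iff]
    exact hm.supp
  have hjne : ∀ᵐ x ∂m, jac (GG c.1) x ≠ 0 := by
    rw [ae_iff]
    simpa using hjac0
  have hio : Continuous io := hch.2.1
  have hg : ContinuousOn (GG c.1) PP := fun x hx => (hsys.an x hx).continuousAt.continuousWithinAt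
  have hint : ∀ ψ : C2 → ℝ, ContinuousOn ψ PP → Integrable ψ m := by
    intro ψ hψ
    have h1 : IntegrableOn ψ PP m := hψ.integrableOn_compact hPPc
    have h2 : m.restrict PP = m := Measure.restrict_eq_self_of_ae_mem hPP
    unfold IntegrableOn at h1
    rwa [h2] at h1
  set φ : C2 → ℝ := fun x => Real.log (hnorm (ch x)) with hφ
  have hφc : Continuous φ := lyap_phi_cont
  have hφi : Integrable φ m := hint φ hφc.continuousOn
  have hφg : Integrable (fun x => φ (GG c.1 x)) m :=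
    hint _ (hφc.comp_continuousOn hg)
  have hmeas : Measurable (fun p : P2 => Real.log (jacFS c' p)) :=
    Real.measurable_log.comp ((hjf.1 c').measurable)
  have e1 : lyap (toEndo c) = ∫ x, Real.log (jacFS c' (io x)) ∂m := by
    have : lyap (toEndo c) = ∫ p, Real.log (jacFS c' p) ∂(m.map io) := by
      unfold lyap
      rw [← hc'def, heq]
    rw [this, integral_map hio.measurable.aemeasurable hmeas.aestronglyMeasurable]
  have e2 : ∫ x, Real.log (jacFS c' (io x)) ∂m =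
      ∫ x, (Real.log ‖jac (GG c.1) x‖ + 3 * φ x - 3 * φ (GG c.1 x)) ∂m := by
    apply integral_congr_ae
    filter_upwards [hPP, hjne] with x hx hj
    have h := hjf.2 c' hgood x hx
    rw [hGG] at h
    have hj' : ‖jac (GG c.1) x‖ ≠ 0 := norm_ne_zero_iff.mpr hj
    have h1 := (lyap_hnorm_pos x).ne'
    have h2 := (lyap_hnorm_pos (GG c.1 x)).ne'
    show Real.log (jacFS c' (io x)) = _
    rw [h, Real.log_div (mul_ne_zero hj' (pow_ne_zero 3 h1)) (pow_ne_zero 3 h2),
      Real.log_mul hj' (pow_ne_zero 3 h1), Real.log_pow, Real.log_pow]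
    norm_num [hφ]
  have e3 : ∫ x, (Real.log ‖jac (GG c.1) x‖ + 3 * φ x - 3 * φ (GG c.1 x)) ∂m =
      (∫ x, Real.log ‖jac (GG c.1) x‖ ∂m + 3 * ∫ x, φ x ∂m) - 3 * ∫ x, φ (GG c.1 x) ∂m := by
    have s1 : ∫ x, (Real.log ‖jac (GG c.1) x‖ + 3 * φ x - 3 * φ (GG c.1 x)) ∂m =
        ∫ x, (Real.log ‖jac (GG c.1) x‖ + 3 * φ x) ∂m - ∫ x, 3 * φ (GG c.1 x) ∂m :=
      integral_sub (hjint.add (hφi.const_mul 3)) (hφg.const_mul 3)
    have s2 : ∫ x, (Real.log ‖jac (GG c.1) x‖ + 3 * φ x) ∂m =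
        ∫ x, Real.log ‖jac (GG c.1) x‖ ∂m + ∫ x, 3 * φ x ∂m :=
      integral_add hjint (hφi.const_mul 3)
    have s3 : ∫ x, 3 * φ x ∂m = 3 * ∫ x, φ x ∂m := integral_const_mul 3 φ
    have s4 : ∫ x, 3 * φ (GG c.1 x) ∂m = 3 * ∫ x, φ (GG c.1 x) ∂m :=
      integral_const_mul 3 (fun x => φ (GG c.1 x))
    rw [s1, s2, s3, s4]
  rw [e1, e2, e3, hinv (GG c.1) hsys m hm φ hφc]
  ring

end

end Pool.Agent.H429
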