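import Pool.Agent.H429.Stmts3

open MeasureTheory Filter Topology Metric CompactlySupported

namespace Pool.Agent.H429

noncomputable section

/-- the algebra of restrictions of functions of class `C¹` -/
def meas_alg : Subalgebra ℝ C(PP, ℝ) where
  carrier := {f | ∃ ψ : C2 → ℝ, ContDiff ℝ 1 ψ ∧ ∀ x : PP, f x = ψ x}
  mul_mem' := by
    rintro f g ⟨ψ, h1, h2⟩ ⟨χ, h3, h4⟩
    exact ⟨fun x => ψ x * χ x, h1.mul h3, fun x => by simp [h2, h4]⟩
  add_mem' := by
    rintro f g ⟨ψ, h1, h2⟩ ⟨χ, h3, h4⟩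
    exact ⟨fun x => ψ x + χ x, h1.add h3, fun x => by simp [h2, h4]⟩
  algebraMap_mem' := by
    intro r
    exact ⟨fun _ => r, contDiff_const, fun x => by simp [Algebra.algebraMap_eq_smul_one]⟩

lemma meas_sep : meas_alg.SeparatesPoints := by
  intro x y hxy
  have hne : (x : C2) ≠ y := fun h => hxy (Subtype.ext h)
  have key : ∀ L : C2 →L[ℝ] ℝ, L x ≠ L y → ∃ f ∈ (fun f : C(PP, ℝ) => (f : PP → ℝ)) '' (meas_alg : Set C(PP, ℝ)), f x ≠ f y := by
    intro L hL
    refine ⟨fun z : PP => L z, ⟨⟨fun z : PP => L z, by fun_prop⟩, ⟨fun z => L z, L.contDiff, fun z => rfl⟩, rfl⟩, hL⟩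
  by_contra hcon
  apply hne
  have h0 : ∀ L : C2 →L[ℝ] ℝ, L x = L y := by
    intro L
    by_contra hL
    exact hcon (key L hL)
  have h1 := h0 (Complex.reCLM.comp (ContinuousLinearMap.fst ℝ ℂ ℂ))
  have h2 := h0 (Complex.imCLM.comp (ContinuousLinearMap.fst ℝ ℂ ℂ))
  have h3 := h0 (Complex.reCLM.comp (ContinuousLinearMap.snd ℝ ℂ ℂ))
  have h4 := h0 (Complex.imCLM.comp (ContinuousLinearMap.snd ℝ ℂ ℂ))
  simp only [ContinuousLinearMap.comp_apply, ContinuousLinearMap.coe_fst',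
    ContinuousLinearMap.coe_snd', Complex.reCLM_apply, Complex.imCLM_apply] at h1 h2 h3 h4
  exact Prod.ext (Complex.ext h1 h2) (Complex.ext h3 h4)

lemma meas_PP : IsCompact PP := isCompact_closedBall _ _

instance meas_cpt : CompactSpace PP := isCompact_iff_compactSpace.1 meas_PP

/-- approximation by functions of class `C¹` -/
lemma meas_approx (φ : C2 → ℝ) (hφ : ContinuousOn φ PP) (ε : ℝ) (hε : 0 < ε) :
    ∃ ψ : C2 → ℝ, ContDiff ℝ 1 ψ ∧ ∀ x ∈ PP, |φ x - ψ x| ≤ ε := by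
  obtain ⟨g, hg⟩ := ContinuousMap.exists_mem_subalgebra_near_continuous_of_separatesPoints
    meas_alg meas_sep (fun x : PP => φ x) (continuousOn_iff_continuous_domRestrict.1 hφ) ε hε
  obtain ⟨ψ, h1, h2⟩ := g.2
  refine ⟨ψ, h1, fun x hx => ?_⟩
  have := hg ⟨x, hx⟩
  rw [Real.norm_eq_abs, abs_sub_comm] at this
  have h3 := h2 ⟨x, hx⟩
  rw [h3] at this
  exact this.le

lemma meas_pre_sub (g : C2 → C2) (n : ℕ) (hn : 1 ≤ n) (b : C2) : pre g n b ⊆ PP :=
  fun _ hx => hx.2 0 hn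

lemma meas_avg_eq {g : C2 → C2} {n : ℕ} {b : C2} (hf : (pre g n b).Finite) (φ : C2 → ℝ) :
    avg g n φ b = (∑ x ∈ hf.toFinset, φ x) / 4 ^ n := by
  unfold avg
  rw [finsum_mem_eq_finite_toFinset_sum _ hf]

lemma meas_avg_congr {g : C2 → C2} {n : ℕ} (hn : 1 ≤ n) {b : C2} {φ ψ : C2 → ℝ}
    (h : ∀ x ∈ PP, φ x = ψ x) : avg g n φ b = avg g n ψ b := by
  unfold avg
  rw [finsum_mem_congr rfl (fun x hx => h x (meas_pre_sub g n hn b hx))]

lemma meas_avg_near (hc : S_card) {g : C2 → C2} (hg : Sys g) {n : ℕ} (hn : 1 ≤ n) {b : C2}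
    (hb : b ∈ BB) {φ ψ : C2 → ℝ} {ε : ℝ} (h : ∀ x ∈ PP, |φ x - ψ x| ≤ ε) (hε : 0 ≤ ε) :
    |avg g n φ b - avg g n ψ b| ≤ ε := by
  obtain ⟨hf, hcard, -⟩ := hc g hg n b hb
  rw [meas_avg_eq hf, meas_avg_eq hf, ← sub_div, ← Finset.sum_sub_distrib, abs_div,
    abs_of_pos (by positivity : (0 : ℝ) < 4 ^ n), div_le_iff₀ (by positivity)]
  calc |∑ x ∈ hf.toFinset, (φ x - ψ x)| ≤ ∑ x ∈ hf.toFinset, |φ x - ψ x| :=
        Finset.abs_sum_le_sum_abs _ _
    _ ≤ ∑ x ∈ hf.toFinset, ε := Finset.sum_le_sum fun x hx =>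
        h x (meas_pre_sub g n hn b (hf.mem_toFinset.1 hx))
    _ = hf.toFinset.card * ε := by rw [Finset.sum_const, nsmul_eq_mul]
    _ ≤ 4 ^ n * ε := by
        apply mul_le_mul_of_nonneg_right _ hε
        rw [← Set.ncard_eq_toFinset_card _ hf]
        exact_mod_cast hcard
    _ = ε * 4 ^ n := mul_comm _ _

/-- `c` is the a.e. limit of the averages of `φ` -/
def meas_Lim (g : C2 → C2) (φ : C2 → ℝ) (c : ℝ) : Prop :=
  ∀ᵐ b : C2, b ∈ BB → Tendsto (fun n => avg g n φ b) atTop (𝓝 c)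

lemma meas_exists {P : C2 → Prop} (h : ∀ᵐ b : C2, b ∈ BB → P b) : ∃ b ∈ BB, P b := by
  by_contra hcon
  push Not at hcon
  have h1 : BB ⊆ {b | ¬ (b ∈ BB → P b)} := fun b hb hP => hcon b hb (hP hb)
  have h2 : volume BB = 0 := measure_mono_null h1 h
  have h3 : 0 < volume BB := measure_ball_pos _ _ one_pos
  exact h3.ne' h2

lemma meas_uniq {g : C2 → C2} {φ : C2 → ℝ} {c c' : ℝ} (h : meas_Lim g φ c)
    (h' : meas_Lim g φ c') : c = c' := by
  have h2 : ∀ᵐ b : C2, b ∈ BB → (Tendsto (fun n => avg g n φ b) atTop (𝓝 c) ∧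
      Tendsto (fun n => avg g n φ b) atTop (𝓝 c')) := by
    filter_upwards [h, h'] with b hb hb' hB
    exact ⟨hb hB, hb' hB⟩
  obtain ⟨b, -, h3, h4⟩ := meas_exists h2
  exact tendsto_nhds_unique h3 h4

lemma meas_ex (hc : S_card) (hae : S_aeconv) {g : C2 → C2} (hg : Sys g) {φ : C2 → ℝ}
    (hφ : ContinuousOn φ PP) : ∃ c, meas_Lim g φ c := by
  have h1 : ∀ k : ℕ, ∃ ψ : C2 → ℝ, ContDiff ℝ 1 ψ ∧ ∀ x ∈ PP, |φ x - ψ x| ≤ 1 / ((k : ℝ) + 1) :=
    fun k => meas_approx φ hφ _ (by positivity)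
  choose ψ hψ hnear using h1
  have h2 : ∀ k : ℕ, ∃ c, meas_Lim g (ψ k) c := fun k => hae g hg (ψ k) (hψ k)
  choose c hcl using h2
  have h3 : ∀ᵐ b : C2, b ∈ BB → ∀ k, Tendsto (fun n => avg g n (ψ k) b) atTop (𝓝 (c k)) := by
    have : ∀ᵐ b : C2, ∀ k, b ∈ BB → Tendsto (fun n => avg g n (ψ k) b) atTop (𝓝 (c k)) :=
      ae_all_iff.2 hcl
    filter_upwards [this] with b hb hB k
    exact hb k hB
  obtain ⟨b0, hb0, hb0'⟩ := meas_exists h3
  have h4 : ∀ k l : ℕ, |c k - c l| ≤ 1 / ((k : ℝ) + 1) + 1 / ((l : ℝ) + 1) := by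
    intro k l
    have t1 : Tendsto (fun n => |avg g n (ψ k) b0 - avg g n (ψ l) b0|) atTop (𝓝 |c k - c l|) :=
      ((hb0' k).sub (hb0' l)).abs
    refine le_of_tendsto t1 ?_
    filter_upwards [eventually_ge_atTop 1] with n hn
    have e1 := meas_avg_near hc hg hn hb0 (hnear k) (by positivity)
    have e2 := meas_avg_near hc hg hn hb0 (hnear l) (by positivity)
    rw [abs_le] at e1 e2 ⊢
    constructor <;> linarith [e1.1, e1.2, e2.1, e2.2]
  have hz : Tendsto (fun k : ℕ => 1 / ((k : ℝ) + 1)) atTop (𝓝 0) :=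
    tendsto_one_div_add_atTop_nhds_zero_nat
  have h5 : CauchySeq c := by
    rw [Metric.cauchySeq_iff]
    intro ε hε
    obtain ⟨N, hN⟩ := (hz.eventually (gt_mem_nhds (half_pos hε))).exists_forall_of_atTop
    refine ⟨N, fun k hk l hl => ?_⟩
    rw [Real.dist_eq]
    have := h4 k l
    have a1 := hN k hk
    have a2 := hN l hl
    linarith
  obtain ⟨L, hL⟩ := cauchySeq_tendsto_of_complete h5
  refine ⟨L, ?_⟩
  filter_upwards [h3] with b hb hB
  rw [Metric.tendsto_atTop]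
  intro ε hε
  have e1 : ∀ᶠ k : ℕ in atTop, 1 / ((k : ℝ) + 1) < ε / 3 := hz.eventually (gt_mem_nhds (by positivity))
  have e2 : ∀ᶠ k : ℕ in atTop, dist (c k) L < ε / 3 := (Metric.tendsto_nhds.1 hL) _ (by positivity)
  obtain ⟨k, hk1, hk2⟩ := (e1.and e2).exists
  obtain ⟨N, hN⟩ := (Metric.tendsto_atTop.1 (hb hB k)) (ε / 3) (by positivity)
  refine ⟨max N 1, fun n hn => ?_⟩
  have f1 := hN n ((le_max_left _ _).trans hn)
  have f2 := meas_avg_near hc hg ((le_max_right _ _).trans hn) hB (hnear k) (by positivity)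
  rw [Real.dist_eq] at f1 hk2 ⊢
  rw [abs_lt] at f1 hk2 ⊢
  rw [abs_le] at f2
  constructor <;> linarith [f1.1, f1.2, f2.1, f2.2, hk2.1, hk2.2]

/-- extension by zero -/
def meas_ext (f : PP → ℝ) : C2 → ℝ := open Classical in fun x => if h : x ∈ PP then f ⟨x, h⟩ else 0

lemma meas_ext_coe (f : PP → ℝ) (x : PP) : meas_ext f x = f x := by
  unfold meas_ext
  rw [dif_pos x.2]

lemma meas_ext_cont (f : PP → ℝ) (hf : Continuous f) : ContinuousOn (meas_ext f) PP := by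
  rw [continuousOn_iff_continuous_domRestrict]
  have : PP.domRestrict (meas_ext f) = f := by
    funext x; exact meas_ext_coe f x
  rw [this]; exact hf

/-- TARGET -/
theorem t_measure (hc : S_card) (hn : S_null) (hae : S_aeconv) : S_measure := by
  intro g hg
  have hreg : ∀ᵐ b : C2, b ∈ BB → ∀ n, Reg g n b := by
    have : ∀ n, ∀ᵐ b : C2, b ∈ BB → Reg g n b := by
      intro n
      have h := (hn g hg).1 n
      refine measure_mono_null ?_ h
      intro b hb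
      simp only [Set.mem_compl_iff, Set.mem_ofPred_eq, Classical.not_imp] at hb
      exact ⟨hb.1, hb.2⟩
    filter_upwards [ae_all_iff.2 this] with b hb hB n
    exact hb n hB
  have hL : ∀ f : C_c(PP, ℝ), ∃ c, meas_Lim g (meas_ext f) c := fun f =>
    meas_ex hc hae hg (meas_ext_cont f f.continuous)
  choose Λ0 hΛ0 using hL
  have hadd : ∀ f f' : C_c(PP, ℝ), Λ0 (f + f') = Λ0 f + Λ0 f' := by
    intro f f'
    apply meas_uniq (hΛ0 (f + f'))
    filter_upwards [hΛ0 f, hΛ0 f'] with b h1 h2 hB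
    have h3 := (h1 hB).add (h2 hB)
    refine h3.congr' ?_
    filter_upwards [eventually_ge_atTop 1] with n hn1
    obtain ⟨hf, -, -⟩ := hc g hg n b hB
    rw [meas_avg_eq hf, meas_avg_eq hf, meas_avg_eq hf, ← add_div, ← Finset.sum_add_distrib]
    congr 1
    apply Finset.sum_congr rfl
    intro x hx
    have hxP := meas_pre_sub g n hn1 b (hf.mem_toFinset.1 hx)
    have e := fun f : PP → ℝ => meas_ext_coe f ⟨x, hxP⟩
    simp only at e
    rw [e, e, e]; rfl
  have hsmul : ∀ (a : ℝ) (f : C_c(PP, ℝ)), Λ0 (a • f) = a * Λ0 f := by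
    intro a f
    apply meas_uniq (hΛ0 (a • f))
    filter_upwards [hΛ0 f] with b h1 hB
    have h3 := (h1 hB).const_mul a
    refine h3.congr' ?_
    filter_upwards [eventually_ge_atTop 1] with n hn1
    obtain ⟨hf, -, -⟩ := hc g hg n b hB
    rw [meas_avg_eq hf, meas_avg_eq hf, ← mul_div_assoc, Finset.mul_sum]
    congr 1
    apply Finset.sum_congr rfl
    intro x hx
    have hxP := meas_pre_sub g n hn1 b (hf.mem_toFinset.1 hx)
    have e := fun f : PP → ℝ => meas_ext_coe f ⟨x, hxP⟩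
    simp only at e
    rw [e, e]; rfl
  have hpos : ∀ f : C_c(PP, ℝ), 0 ≤ f → 0 ≤ Λ0 f := by
    intro f hf0
    have h1 : ∀ᵐ b : C2, b ∈ BB → Tendsto (fun n => avg g n (meas_ext f) b) atTop (𝓝 (Λ0 f)) := hΛ0 f
    obtain ⟨b, hb, ht⟩ := meas_exists h1
    refine ge_of_tendsto ht ?_
    filter_upwards [eventually_ge_atTop 1] with n hn1
    obtain ⟨hf, -, -⟩ := hc g hg n b hb
    rw [meas_avg_eq hf]
    apply div_nonneg _ (by positivity)
    apply Finset.sum_nonneg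
    intro x hx
    have hxP := meas_pre_sub g n hn1 b (hf.mem_toFinset.1 hx)
    rw [show meas_ext f x = f ⟨x, hxP⟩ from meas_ext_coe f ⟨x, hxP⟩]
    exact hf0 ⟨x, hxP⟩
  let Λl : C_c(PP, ℝ) →ₗ[ℝ] ℝ :=
    { toFun := Λ0, map_add' := hadd, map_smul' := fun a f => by simpa using hsmul a f }
  let Λ : C_c(PP, ℝ) →ₚ[ℝ] ℝ := PositiveLinearMap.mk₀ Λl hpos
  have hΛ : ∀ f, Λ f = Λ0 f := fun f => rfl
  set m0 := RealRMK.rieszMeasure Λ with hm0
  have hemb : MeasurableEmbedding (Subtype.val : PP → C2) :=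
    MeasurableEmbedding.subtype_coe (isClosed_closedBall.measurableSet)
  -- every continuous function is compactly supported
  have hint : ∀ φ : C2 → ℝ, ContinuousOn φ PP → ∃ f : C_c(PP, ℝ), (∀ x : PP, f x = φ x) ∧
      ∫ x, φ x ∂(m0.map Subtype.val) = Λ0 f := by
    intro φ hφ
    let f0 : C(PP, ℝ) := ⟨fun x => φ x, continuousOn_iff_continuous_domRestrict.1 hφ⟩
    let f : C_c(PP, ℝ) := ⟨f0, HasCompactSupport.of_compactSpace _⟩
    refine ⟨f, fun x => rfl, ?_⟩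
    rw [hemb.integral_map, ← hΛ, ← RealRMK.integral_rieszMeasure]
    rfl
  have hconv : ∀ φ : C2 → ℝ, ContinuousOn φ PP →
      meas_Lim g φ (∫ x, φ x ∂(m0.map Subtype.val)) := by
    intro φ hφ
    obtain ⟨f, hf, hI⟩ := hint φ hφ
    rw [hI]
    filter_upwards [hΛ0 f] with b h1 hB
    refine (h1 hB).congr' ?_
    filter_upwards [eventually_ge_atTop 1] with n hn1
    apply meas_avg_congr hn1
    intro x hx
    rw [show meas_ext f x = f ⟨x, hx⟩ from meas_ext_coe f ⟨x, hx⟩]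
    exact hf ⟨x, hx⟩
  have hone : meas_Lim g (fun _ => 1) 1 := by
    filter_upwards [hreg] with b hb hB
    have : ∀ n, avg g n (fun _ => 1) b = 1 := by
      intro n
      obtain ⟨hf, -, h4⟩ := hc g hg n b hB
      have h5 := h4 (hb hB n)
      rw [Set.ncard_eq_toFinset_card _ hf] at h5
      rw [meas_avg_eq hf, Finset.sum_const, h5, nsmul_eq_mul, mul_one]
      push_cast
      exact div_self (by positivity)
    simp only [this]
    exact tendsto_const_nhds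
  refine ⟨m0.map Subtype.val, ?_, ?_, hconv⟩
  · have h1 := meas_uniq (hconv (fun _ => 1) continuousOn_const) hone
    rw [integral_const, smul_eq_mul, mul_one] at h1
    constructor
    have h2 : ((m0.map Subtype.val) Set.univ).toReal = 1 := h1
    rw [← ENNReal.ofReal_toReal (a := (m0.map Subtype.val) Set.univ) ?_, h2, ENNReal.ofReal_one]
    intro hinf
    rw [hinf] at h2
    simp at h2
  · rw [hemb.map_apply]
    have : (Subtype.val : PP → C2) ⁻¹' PPᶜ = ∅ := by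
      ext x; simp
    rw [this, measure_empty]

end

end Pool.Agent.H429
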