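import Pool.Agent.H429.Stmts3

open MeasureTheory Filter Topology Metric

namespace Pool.Agent.H429

noncomputable section

theorem null_haar : (volume : Measure C2).IsAddHaarMeasure :=
  Measure.prod.instIsAddHaarMeasure (volume : Measure ℂ) (volume : Measure ℂ)

theorem null_det {A : C2 →L[ℂ] C2} (hA : A.det = 0) : (A.restrictScalars ℝ).det = 0 := by
  have h1 : LinearMap.det (A : C2 →ₗ[ℂ] C2) = 0 := hA
  have h2 : LinearMap.det ((A : C2 →ₗ[ℂ] C2).restrictScalars ℝ) = 0 := by
    rw [LinearMap.det_restrictScalars, h1, Algebra.norm_zero]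
  exact h2

theorem null_hasFDerivAt {g : C2 → C2} (h : Sys g) {x : C2} (hx : x ∈ PP) :
    HasFDerivAt g ((fderiv ℂ g x).restrictScalars ℝ) x :=
  ((h.an x hx).differentiableAt.hasFDerivAt).restrictScalars ℝ

theorem null_image {g : C2 → C2} (h : Sys g) {Z : Set C2} (hZ : volume Z = 0) :
    volume {b | ∃ x ∈ pre g 1 b, x ∈ Z} = 0 := by
  haveI := null_haar
  have h1 : volume (g '' (Z ∩ PP)) = 0 := by
    apply MeasureTheory.addHaar_image_eq_zero_of_differentiableOn_of_addHaar_eq_zero
    · intro x hx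
      exact (null_hasFDerivAt h hx.2).differentiableAt.differentiableWithinAt
    · exact measure_mono_null Set.inter_subset_left hZ
  refine measure_mono_null ?_ h1
  rintro b ⟨x, hx, hxZ⟩
  refine ⟨x, ⟨hxZ, ?_⟩, ?_⟩
  · simpa using hx.2 0 (by norm_num)
  · simpa using hx.1

theorem null_crit {g : C2 → C2} (h : Sys g) :
    volume {b | ∃ x ∈ pre g 1 b, jac g x = 0} = 0 := by
  haveI := null_haar
  have h1 : volume (g '' {x | x ∈ PP ∧ jac g x = 0}) = 0 := by
    apply MeasureTheory.addHaar_image_eq_zero_of_det_fderivWithin_eq_zero volume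
      (f' := fun x => (fderiv ℂ g x).restrictScalars ℝ)
    · intro x hx
      exact (null_hasFDerivAt h hx.1).hasFDerivWithinAt
    · intro x hx
      exact null_det hx.2
  refine measure_mono_null ?_ h1
  rintro b ⟨x, hx, hxj⟩
  refine ⟨x, ⟨?_, hxj⟩, ?_⟩
  · simpa using hx.2 0 (by norm_num)
  · simpa using hx.1

theorem null_iter {g : C2 → C2} (h : Sys g) (k : ℕ) :
    volume {b | ∃ x ∈ pre g (k + 1) b, jac g x = 0} = 0 := by
  induction k with
  | zero => exact null_crit h
  | succ k ih =>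
    refine measure_mono_null ?_ (null_image h ih)
    rintro b ⟨x, hx, hxj⟩
    refine ⟨g^[k + 1] x, ⟨?_, ?_⟩, x, ⟨rfl, ?_⟩, hxj⟩
    · have h1 := hx.1
      rw [Function.iterate_succ_apply'] at h1
      simpa using h1
    · intro i hi
      have hi0 : i = 0 := by omega
      subst hi0
      exact hx.2 (k + 1) (by omega)
    · intro i hi
      exact hx.2 i (by omega)

/-- TARGET -/
theorem t_null (hc : S_card) : S_null := by
  intro g h
  refine ⟨fun n => ?_, fun Z hZ => null_image h hZ⟩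
  have h1 : volume (⋃ k : ℕ, {b | ∃ x ∈ pre g (k + 1) b, jac g x = 0}) = 0 :=
    measure_iUnion_null fun k => null_iter h k
  refine measure_mono_null ?_ h1
  rintro b ⟨hb, hreg⟩
  have h2 : ¬ (∀ k, 1 ≤ k → k ≤ n → ∀ x ∈ pre g k b, jac g x ≠ 0) := fun hh => hreg ⟨hb, hh⟩
  push Not at h2
  obtain ⟨k, hk1, _, x, hx, hxj⟩ := h2
  rw [Set.mem_iUnion]
  refine ⟨k - 1, x, ?_, hxj⟩
  rw [show k - 1 + 1 = k by omega]
  exact hx

end

end Pool.Agent.H429
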