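import Pool.Agent.H429.Stmts3

open MeasureTheory Filter Topology Metric

namespace Pool.Agent.H429

noncomputable section

theorem nullf_diff (hp : S_poly) (c : Coef 2) : Differentiable ℝ (poly c) := by
  rw [differentiable_pi]
  intro i
  have h : (fun v => poly c v i) = fun v : Vec =>
    c i m200 * v 0 ^ 2 + c i m020 * v 1 ^ 2 + c i m002 * v 2 ^ 2 + c i m110 * (v 0 * v 1) +
    c i m101 * (v 0 * v 2) + c i m011 * (v 1 * v 2) := by
    funext v
    exact hp c v i
  rw [h]
  fun_prop

theorem nullf_qmp : Measure.QuasiMeasurePreserving (fun v : Vec => ((v 0, v 1) : C2)) volume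
    volume := by
  have h1 := volume_preserving_piFinSuccAbove (fun _ : Fin 3 => ℂ) 2
  have h2 := volume_preserving_finTwoArrow ℂ
  have h3 : Measure.QuasiMeasurePreserving (Prod.snd : ℂ × (Fin 2 → ℂ) → (Fin 2 → ℂ)) volume
      volume := Measure.quasiMeasurePreserving_snd
  have h4 := h2.quasiMeasurePreserving.comp (h3.comp h1.quasiMeasurePreserving)
  have e : (fun v : Vec => ((v 0, v 1) : C2)) = MeasurableEquiv.finTwoArrow ∘ (Prod.snd ∘
      MeasurableEquiv.piFinSuccAbove (fun _ : Fin 3 => ℂ) 2) := by
    funext v
    rfl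
  rw [e]
  exact h4

/-- TARGET -/
theorem t_nullF (hp : S_poly) : S_nullF := by
  constructor
  · intro c Z hZ n
    induction n with
    | zero => simpa using hZ
    | succ n ih =>
      rw [Function.iterate_succ', Set.image_comp]
      exact addHaar_image_eq_zero_of_differentiableOn_of_addHaar_eq_zero volume
        (nullf_diff hp c).differentiableOn ih
  · intro Z hZ
    have h1 : volume ((fun v : Vec => ((v 0, v 1) : C2)) ⁻¹' Z) = 0 := nullf_qmp.preimage_null hZ
    have hd : Differentiable ℝ (fun v : Vec => (![v 0 * v 2, v 1 * v 2, v 2] : Vec)) := by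
      rw [differentiable_pi]
      intro i
      fin_cases i
      · exact (by fun_prop : Differentiable ℝ (fun v : Vec => v 0 * v 2))
      · exact (by fun_prop : Differentiable ℝ (fun v : Vec => v 1 * v 2))
      · exact (by fun_prop : Differentiable ℝ (fun v : Vec => v 2))
    refine measure_mono_null ?_ (addHaar_image_eq_zero_of_differentiableOn_of_addHaar_eq_zero volume
        hd.differentiableOn h1)
    rintro v ⟨hv, hZv⟩
    refine ⟨![v 0 / v 2, v 1 / v 2, v 2], hZv, ?_⟩
    funext i
    fin_cases i
    · simp [hv]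
    · simp [hv]
    · simp

end

end Pool.Agent.H429
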