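import Pool.Agent.H429.Stmts3

open MeasureTheory Filter Topology Metric

namespace Pool.Agent.H429

noncomputable section

/-- The derivative in the second variable of a jointly analytic map is jointly continuous. -/
lemma open_fderiv_cont {E V W : Type} [NormedAddCommGroup E] [NormedSpace ℂ E]
    [NormedAddCommGroup V] [NormedSpace ℂ V] [NormedAddCommGroup W] [NormedSpace ℂ W]
    [CompleteSpace W] (G : E → V → W) (e : E) (x : V)
    (h : AnalyticAt ℂ (fun q : E × V => G q.1 q.2) (e, x)) :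
    ContinuousAt (fun q : E × V => fderiv ℂ (G q.1) q.2) (e, x) := by
  have h1 : ContinuousAt (fderiv ℂ (fun q : E × V => G q.1 q.2)) (e, x) := h.fderiv.continuousAt
  have h2 : (fun q : E × V => fderiv ℂ (G q.1) q.2) =ᶠ[𝓝 (e, x)]
      fun q => (fderiv ℂ (fun q : E × V => G q.1 q.2) q).comp (ContinuousLinearMap.inr ℂ E V) := by
    filter_upwards [h.eventually_analyticAt] with q hq
    have hd : HasFDerivAt (fun q : E × V => G q.1 q.2)
      (fderiv ℂ (fun q : E × V => G q.1 q.2) q) (q.1, q.2) := hq.differentiableAt.hasFDerivAt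
    have h3 : HasFDerivAt (fun y : V => G q.1 y)
      ((fderiv ℂ (fun q : E × V => G q.1 q.2) q).comp (ContinuousLinearMap.inr ℂ E V)) q.2 :=
      hd.comp q.2 (hasFDerivAt_prodMk_right q.1 q.2)
    exact h3.fderiv
  refine ContinuousAt.congr ?_ h2.symm
  exact h1.clm_comp continuousAt_const

lemma open_poly_cont {d : ℕ} : Continuous (fun q : Coef d × Vec => poly q.1 q.2) := by
  unfold poly
  fun_prop

lemma open_poly_analytic {d : ℕ} (q : Coef d × Vec) :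
    AnalyticAt ℂ (fun q : Coef d × Vec => poly q.1 q.2) q := by
  have : ContDiff ℂ ⊤ (fun q : Coef d × Vec => poly q.1 q.2) := by
    unfold poly
    fun_prop
  exact this.contDiffAt.analyticAt

/-- The derivative of the polynomial map is jointly continuous. -/
lemma open_polydet_cont : Continuous (fun q : Coef 2 × Vec => (fderiv ℂ (poly q.1) q.2).det) := by
  have h : Continuous (fun q : Coef 2 × Vec => fderiv ℂ (poly q.1) q.2) := by
    rw [continuous_iff_continuousAt]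
    rintro ⟨c, v⟩
    exact open_fderiv_cont (fun (c : Coef 2) (v : Vec) => poly c v) c v (open_poly_analytic (c, v))
  exact ContinuousLinearMap.continuous_det.comp h

/-- Scaling. -/
lemma open_poly_smul (hp : S_poly) (c : Coef 2) (a : ℂ) (v : Vec) :
    poly c (a • v) = a ^ 2 • poly c v := by
  funext i
  rw [hp]
  simp only [Pi.smul_apply, smul_eq_mul]
  rw [hp]
  ring

/-- The third component of the lift is continuous. -/
lemma open_FF_cont : Continuous (fun q : Coef 2 × C2 => FF q.1 q.2) := by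
  have h : Continuous (fun q : Coef 2 × C2 => ((q.1, ch q.2) : Coef 2 × Vec)) := by
    unfold ch
    fun_prop
  exact open_poly_cont.comp h

/-- Relations which are open at each point of a compact set hold nearby. -/
lemma open_ev {Y : Type} [TopologicalSpace Y] {c₀ : Coef 2} {K : Set Y} (hK : IsCompact K)
    {P : Coef 2 → Y → Prop} (h : ∀ y ∈ K, ∀ᶠ q : Coef 2 × Y in 𝓝 (c₀, y), P q.1 q.2) :
    ∀ᶠ c in 𝓝 c₀, ∀ y ∈ K, P c y :=
  hK.eventually_forall_of_forall_eventually h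

/-- Strict inequalities between continuous functions are open conditions. -/
lemma open_lt {Y : Type} [TopologicalSpace Y] {q : Y} {f g : Y → ℝ} (hf : ContinuousAt f q)
    (hg : ContinuousAt g q) (h : f q < g q) : ∀ᶠ y in 𝓝 q, f y < g y :=
  hf.eventually_lt hg h

lemma open_u1 {c₀ : Coef 2} (h : Good c₀) :
    ∀ᶠ c in 𝓝 c₀, ∀ x ∈ closedBall (0 : C2) 1, FF c x 2 ≠ 0 := by
  refine open_ev (isCompact_closedBall _ _) (fun x hx => ?_)
  have hc : ContinuousAt (fun q : Coef 2 × C2 => FF q.1 q.2 2) (c₀, x) :=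
    ((continuous_apply 2).comp open_FF_cont).continuousAt
  exact hc.eventually_ne (h.u1 x hx)

lemma open_u2 (hp : S_poly) {c₀ : Coef 2} (h : Good c₀) :
    ∀ᶠ c in 𝓝 c₀, ∀ v : Vec, v ≠ 0 → ‖v 2‖ ≤ 12 * max ‖v 0‖ ‖v 1‖ →
      ‖poly c v 2‖ < max ‖poly c v 0‖ ‖poly c v 1‖ := by
  have hK : IsCompact (sphere (0 : Vec) 1 ∩ {v | ‖v 2‖ ≤ 12 * max ‖v 0‖ ‖v 1‖}) := by
    refine (isCompact_sphere _ _).inter_right ?_
    exact isClosed_le (by fun_prop) (by fun_prop)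
  have h1 : ∀ᶠ c in 𝓝 c₀, ∀ v ∈ sphere (0 : Vec) 1 ∩ {v | ‖v 2‖ ≤ 12 * max ‖v 0‖ ‖v 1‖},
      ‖poly c v 2‖ < max ‖poly c v 0‖ ‖poly c v 1‖ := by
    refine open_ev hK (fun v hv => ?_)
    have hcont : ∀ i, Continuous (fun q : Coef 2 × Vec => poly q.1 q.2 i) :=
      fun i => (continuous_apply i).comp open_poly_cont
    refine open_lt (f := fun q : Coef 2 × Vec => ‖poly q.1 q.2 2‖)
      (g := fun q : Coef 2 × Vec => max ‖poly q.1 q.2 0‖ ‖poly q.1 q.2 1‖)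
      (hcont 2).norm.continuousAt ((hcont 0).norm.max (hcont 1).norm).continuousAt ?_
    refine h.u2 v ?_ hv.2
    intro hv0
    have := hv.1
    rw [hv0] at this
    simp at this
  filter_upwards [h1] with c hc v hv hv2
  have hn : 0 < ‖v‖ := norm_pos_iff.mpr hv
  set u : Vec := ((‖v‖⁻¹ : ℝ) : ℂ) • v with hu
  have hna : ‖((‖v‖⁻¹ : ℝ) : ℂ)‖ = ‖v‖⁻¹ := by
    rw [Complex.norm_real, Real.norm_of_nonneg (by positivity)]
  have hui : ∀ i, ‖u i‖ = ‖v‖⁻¹ * ‖v i‖ := by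
    intro i
    rw [hu, Pi.smul_apply, norm_smul, hna]
  have h3 := hc u ⟨by
    rw [mem_sphere_zero_iff_norm, hu, norm_smul, hna, inv_mul_cancel₀ hn.ne'], by
    show ‖u 2‖ ≤ 12 * max ‖u 0‖ ‖u 1‖
    rw [hui, hui, hui, ← mul_max_of_nonneg _ _ (by positivity : (0 : ℝ) ≤ ‖v‖⁻¹)]
    nlinarith [inv_pos.mpr hn]⟩
  have hpu : ∀ i, ‖poly c u i‖ = (‖v‖⁻¹) ^ 2 * ‖poly c v i‖ := by
    intro i
    rw [hu, open_poly_smul hp, Pi.smul_apply, norm_smul, norm_pow, hna]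
  rw [hpu, hpu, hpu, ← mul_max_of_nonneg _ _ (by positivity : (0 : ℝ) ≤ ‖v‖⁻¹ ^ 2)] at h3
  exact lt_of_mul_lt_mul_left h3 (by positivity)

lemma open_u3 (hjt : S_joint) {c₀ : Coef 2} (h : Good c₀) {x : C2} (hx : x ∈ closedBall (0 : C2) 1) :
    ContinuousAt (fun q : Coef 2 × C2 => fderiv ℂ (GG q.1) q.2) (c₀, x) :=
  open_fderiv_cont (fun (c : Coef 2) (x : C2) => GG c x) c₀ x (hjt c₀ x (h.u1 x hx))

lemma open_PP_sub : PP ⊆ closedBall (0 : C2) 1 := closedBall_subset_closedBall (by norm_num)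

lemma open_u5cont (hj : S_jan) (hjt : S_joint) {c₀ : Coef 2} (h : Good c₀) {x : C2}
    (hx : x ∈ closedBall (0 : C2) 1) :
    ContinuousAt (fun q : Coef 2 × C2 => fderiv ℂ (jac (GG q.1)) q.2) (c₀, x) :=
  open_fderiv_cont (fun (c : Coef 2) (x : C2) => jac (GG c) x) c₀ x
    (hj (Coef 2) (fun (c : Coef 2) (x : C2) => GG c x) c₀ x (hjt c₀ x (h.u1 x hx))).2

lemma open_apply {c₀ : Coef 2} {x : C2} {F : Coef 2 → C2 → (C2 →L[ℂ] C2)}
    (hF : ContinuousAt (fun q : Coef 2 × C2 => F q.1 q.2) (c₀, x)) (v : C2) :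
    ContinuousAt (fun q : Coef 2 × C2 => F q.1 q.2 v) (c₀, x) :=
  hF.clm_apply continuousAt_const

lemma open_u5a (hj : S_jan) (hjt : S_joint) {c₀ : Coef 2} (h : Good c₀) :
    ∀ᶠ c in 𝓝 c₀, ∀ x ∈ PP, GG c x ∈ closedBall (0 : C2) 1 → jac (GG c) x = 0 →
      x ∈ ball (0 : C2) (1 / 200000) := by
  refine open_ev (isCompact_closedBall _ _) (fun x hx => ?_)
  have hx1 := open_PP_sub hx
  have hG : ContinuousAt (fun q : Coef 2 × C2 => GG q.1 q.2) (c₀, x) :=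
    (hjt c₀ x (h.u1 x hx1)).continuousAt
  have hJ : ContinuousAt (fun q : Coef 2 × C2 => jac (GG q.1) q.2) (c₀, x) :=
    (hj (Coef 2) (fun (c : Coef 2) (x : C2) => GG c x) c₀ x (hjt c₀ x (h.u1 x hx1))).2.continuousAt
  by_cases h1 : GG c₀ x ∈ closedBall (0 : C2) 1
  · by_cases h2 : jac (GG c₀) x = 0
    · have h3 := h.u5a x hx h1 h2
      have : ∀ᶠ q : Coef 2 × C2 in 𝓝 (c₀, x), q.2 ∈ ball (0 : C2) (1 / 200000) :=
        continuous_snd.continuousAt.eventually (isOpen_ball.mem_nhds h3)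
      filter_upwards [this] with q hq _ _
      exact hq
    · have : ∀ᶠ q : Coef 2 × C2 in 𝓝 (c₀, x), jac (GG q.1) q.2 ≠ 0 := hJ.eventually_ne h2
      filter_upwards [this] with q hq _ h4
      exact absurd h4 hq
  · have : ∀ᶠ q : Coef 2 × C2 in 𝓝 (c₀, x), GG q.1 q.2 ∈ (closedBall (0 : C2) 1)ᶜ :=
      hG.eventually (isClosed_closedBall.isOpen_compl.mem_nhds h1)
    filter_upwards [this] with q hq h4 _
    exact absurd h4 hq

lemma open_u6 {c₀ : Coef 2} (h : Good c₀) :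
    ∀ᶠ c in 𝓝 c₀, ∀ v w : Vec, ‖v‖ = 1 → ‖w‖ = 1 → ‖v 2‖ ≤ max ‖v 0‖ ‖v 1‖ →
      ‖w 2‖ ≤ max ‖w 0‖ ‖w 1‖ → 2 * ‖(fderiv ℂ (poly c) v).det‖ ^ 2 < ‖poly c w‖ ^ 6 := by
  have hK : IsCompact (sphere (0 : Vec) 1 ∩ {v | ‖v 2‖ ≤ max ‖v 0‖ ‖v 1‖}) := by
    refine (isCompact_sphere _ _).inter_right ?_
    exact isClosed_le (by fun_prop) (by fun_prop)
  have h1 : ∀ᶠ c in 𝓝 c₀, ∀ p ∈ (sphere (0 : Vec) 1 ∩ {v | ‖v 2‖ ≤ max ‖v 0‖ ‖v 1‖}) ×ˢ
      (sphere (0 : Vec) 1 ∩ {v | ‖v 2‖ ≤ max ‖v 0‖ ‖v 1‖}),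
      2 * ‖(fderiv ℂ (poly c) p.1).det‖ ^ 2 < ‖poly c p.2‖ ^ 6 := by
    refine open_ev (hK.prod hK) (fun p hp => ?_)
    have hA : Continuous (fun q : Coef 2 × (Vec × Vec) => (fderiv ℂ (poly q.1) q.2.1).det) :=
      open_polydet_cont.comp (by fun_prop : Continuous (fun q : Coef 2 × (Vec × Vec) =>
        ((q.1, q.2.1) : Coef 2 × Vec)))
    have hB : Continuous (fun q : Coef 2 × (Vec × Vec) => poly q.1 q.2.2) :=
      open_poly_cont.comp (by fun_prop : Continuous (fun q : Coef 2 × (Vec × Vec) =>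
        ((q.1, q.2.2) : Coef 2 × Vec)))
    refine open_lt (f := fun q : Coef 2 × (Vec × Vec) => 2 * ‖(fderiv ℂ (poly q.1) q.2.1).det‖ ^ 2)
      (g := fun q : Coef 2 × (Vec × Vec) => ‖poly q.1 q.2.2‖ ^ 6)
      (continuous_const.mul (hA.norm.pow 2)).continuousAt (hB.norm.pow 6).continuousAt ?_
    exact h.u6 p.1 p.2 (by simpa using hp.1.1) (by simpa using hp.2.1) hp.1.2 hp.2.2
  filter_upwards [h1] with c hc v w hv hw hv2 hw2
  exact hc (v, w) ⟨⟨by simpa using hv, hv2⟩, ⟨by simpa using hw, hw2⟩⟩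

/-- TARGET -/
theorem t_open (hp : S_poly) (hj : S_jan) (hjt : S_joint) : S_open := by
  unfold S_open
  rw [isOpen_iff_eventually]
  intro c₀ h
  change Good c₀ at h
  change ∀ᶠ c in 𝓝 c₀, Good c
  have hPP : IsCompact PP := isCompact_closedBall _ _
  have hsub : ∀ x ∈ PP, x ∈ closedBall (0 : C2) 1 := fun x hx => open_PP_sub hx
  have hsub5 : ∀ x ∈ closedBall (0 : C2) (1 / 100000), x ∈ closedBall (0 : C2) 1 :=
    fun x hx => closedBall_subset_closedBall (by norm_num) hx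
  have u3a : ∀ᶠ c in 𝓝 c₀, ∀ x ∈ PP, ‖(fderiv ℂ (GG c) x (1, 0)).1‖ < 1000 := by
    refine open_ev hPP (fun x hx => ?_)
    exact open_lt (f := fun q : Coef 2 × C2 => ‖(fderiv ℂ (GG q.1) q.2 (1, 0)).1‖)
      (open_apply (F := fun c x => fderiv ℂ (GG c) x) (open_u3 hjt h (hsub x hx)) (1, 0)).fst.norm
      continuousAt_const (h.u3a x hx)
  have u3b : ∀ᶠ c in 𝓝 c₀, ∀ x ∈ PP, ‖(fderiv ℂ (GG c) x (0, 1)).1‖ < 2 * 10 ^ 5 := by
    refine open_ev hPP (fun x hx => ?_)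
    exact open_lt (f := fun q : Coef 2 × C2 => ‖(fderiv ℂ (GG q.1) q.2 (0, 1)).1‖)
      (open_apply (F := fun c x => fderiv ℂ (GG c) x) (open_u3 hjt h (hsub x hx)) (0, 1)).fst.norm
      continuousAt_const (h.u3b x hx)
  have u3c : ∀ᶠ c in 𝓝 c₀, ∀ x ∈ PP, ‖(fderiv ℂ (GG c) x (1, 0)).2‖ < 2 * 10 ^ 6 := by
    refine open_ev hPP (fun x hx => ?_)
    exact open_lt (f := fun q : Coef 2 × C2 => ‖(fderiv ℂ (GG q.1) q.2 (1, 0)).2‖)
      (open_apply (F := fun c x => fderiv ℂ (GG c) x) (open_u3 hjt h (hsub x hx)) (1, 0)).snd.norm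
      continuousAt_const (h.u3c x hx)
  have u3d : ∀ᶠ c in 𝓝 c₀, ∀ x ∈ PP, ‖(fderiv ℂ (GG c) x (0, 1)).2 - 10 ^ 7‖ < 10 ^ 5 := by
    refine open_ev hPP (fun x hx => ?_)
    exact open_lt (f := fun q : Coef 2 × C2 => ‖(fderiv ℂ (GG q.1) q.2 (0, 1)).2 - 10 ^ 7‖)
      ((open_apply (F := fun c x => fderiv ℂ (GG c) x) (open_u3 hjt h (hsub x hx)) (0, 1)).snd.sub
        continuousAt_const).norm continuousAt_const (h.u3d x hx)
  have u4a : ∀ᶠ c in 𝓝 c₀, ∀ b ∈ closedBall (0 : C2) 1, cA c b m020 ≠ 0 := by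
    refine open_ev (isCompact_closedBall _ _) (fun b hb => ?_)
    have hc : Continuous (fun q : Coef 2 × C2 => cA q.1 q.2 m020) := by
      unfold cA
      fun_prop
    exact hc.continuousAt.eventually_ne (h.u4a b hb)
  have u4b : ∀ᶠ c in 𝓝 c₀, ∀ b ∈ closedBall (0 : C2) 1, ∀ z ∈ closedBall (0 : ℂ) (1 / 12),
      ey1 c b * z + ey0 c b ≠ 0 := by
    have h1 : ∀ᶠ c in 𝓝 c₀, ∀ p ∈ (closedBall (0 : C2) 1) ×ˢ (closedBall (0 : ℂ) (1 / 12)),
        ey1 c p.1 * p.2 + ey0 c p.1 ≠ 0 := by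
      refine open_ev ((isCompact_closedBall _ _).prod (isCompact_closedBall _ _)) (fun p hp => ?_)
      have hc : Continuous (fun q : Coef 2 × (C2 × ℂ) => ey1 q.1 q.2.1 * q.2.2 + ey0 q.1 q.2.1) := by
        unfold ey1 ey0 cA cB
        fun_prop
      exact hc.continuousAt.eventually_ne (h.u4b p.1 hp.1 p.2 hp.2)
    filter_upwards [h1] with c hc b hb z hz
    exact hc (b, z) ⟨hb, hz⟩
  have he4 : Continuous (fun q : Coef 2 × C2 => eq4 q.1 q.2) := by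
    unfold eq4 ex2 ey1 ez3 cA cB
    fun_prop
  have he3 : Continuous (fun q : Coef 2 × C2 => eq3 q.1 q.2) := by
    unfold eq3 ex2 ex1 ey1 ey0 ez3 ez2 cA cB
    fun_prop
  have he2 : Continuous (fun q : Coef 2 × C2 => eq2 q.1 q.2) := by
    unfold eq2 ex2 ex1 ex0 ey1 ey0 ez1 ez2 cA cB
    fun_prop
  have u4c : ∀ᶠ c in 𝓝 c₀, ∀ b ∈ closedBall (0 : C2) 1, ‖eq3 c b‖ < ‖eq4 c b‖ / 1000 := by
    refine open_ev (isCompact_closedBall _ _) (fun b hb => ?_)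
    exact open_lt (f := fun q : Coef 2 × C2 => ‖eq3 q.1 q.2‖)
      (g := fun q : Coef 2 × C2 => ‖eq4 q.1 q.2‖ / 1000) he3.norm.continuousAt
      (he4.norm.div_const _).continuousAt (h.u4c b hb)
  have u4d : ∀ᶠ c in 𝓝 c₀, ∀ b ∈ closedBall (0 : C2) 1,
      ‖eq2 c b + eq4 c b / 250‖ < ‖eq4 c b‖ / 1000 := by
    refine open_ev (isCompact_closedBall _ _) (fun b hb => ?_)
    exact open_lt (f := fun q : Coef 2 × C2 => ‖eq2 q.1 q.2 + eq4 q.1 q.2 / 250‖)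
      (g := fun q : Coef 2 × C2 => ‖eq4 q.1 q.2‖ / 1000)
      (he2.add (he4.div_const _)).norm.continuousAt
      (he4.norm.div_const _).continuousAt (h.u4d b hb)
  have u5b : ∀ᶠ c in 𝓝 c₀, ∀ x ∈ closedBall (0 : C2) (1 / 100000),
      ‖fderiv ℂ (jac (GG c)) x (1, 0) + 8 * 10 ^ 10‖ < 10 ^ 10 := by
    refine open_ev (isCompact_closedBall _ _) (fun x hx => ?_)
    exact open_lt (f := fun q : Coef 2 × C2 => ‖fderiv ℂ (jac (GG q.1)) q.2 (1, 0) + 8 * 10 ^ 10‖)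
      (((open_u5cont hj hjt h (hsub5 x hx)).clm_apply continuousAt_const).add
        continuousAt_const).norm continuousAt_const (h.u5b x hx)
  have u5c : ∀ᶠ c in 𝓝 c₀, ∀ x ∈ closedBall (0 : C2) (1 / 100000),
      ‖fderiv ℂ (jac (GG c)) x (0, 1)‖ < 10 ^ 9 := by
    refine open_ev (isCompact_closedBall _ _) (fun x hx => ?_)
    exact open_lt (f := fun q : Coef 2 × C2 => ‖fderiv ℂ (jac (GG q.1)) q.2 (0, 1)‖)
      ((open_u5cont hj hjt h (hsub5 x hx)).clm_apply continuousAt_const).norm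
      continuousAt_const (h.u5c x hx)
  filter_upwards [open_u1 h, open_u2 hp h, u3a, u3b, u3c, u3d, u4a, u4b, u4c, u4d,
    open_u5a hj hjt h, u5b, u5c, open_u6 h] with c k1 k2 k3a k3b k3c k3d k4a k4b k4c k4d k5a k5b
    k5c k6
  exact ⟨k1, k2, k3a, k3b, k3c, k3d, k4a, k4b, k4c, k4d, k5a, k5b, k5c, k6⟩

end

end Pool.Agent.H429
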