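import Pool.Agent.H429.Stmts3

open MeasureTheory Filter Topology Metric

namespace Pool.Agent.H429

noncomputable section

private lemma ph_det (A : C2 →L[ℂ] C2) :
    A.det = (A (1, 0)).1 * (A (0, 1)).2 - (A (0, 1)).1 * (A (1, 0)).2 := by
  rw [ContinuousLinearMap.det, ← LinearMap.det_toMatrix (Module.Basis.finTwoProd ℂ),
    Matrix.det_fin_two]
  simp [LinearMap.toMatrix_apply]

private lemma ph_jac {g : C2 → C2} {x : C2} (hg : AnalyticAt ℂ g x) : AnalyticAt ℂ (jac g) x := by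
  have h1 : AnalyticAt ℂ (fderiv ℂ g) x := hg.fderiv
  have h2 : ∀ v : C2, AnalyticAt ℂ (fun y => fderiv ℂ g y v) x := fun v =>
    ((ContinuousLinearMap.apply ℂ C2 v).analyticAt _).comp h1
  have h3 : jac g = fun y => (fderiv ℂ g y (1, 0)).1 * (fderiv ℂ g y (0, 1)).2 -
      (fderiv ℂ g y (0, 1)).1 * (fderiv ℂ g y (1, 0)).2 := by
    funext y
    exact ph_det _
  rw [h3]
  have h4 : ∀ v : C2, AnalyticAt ℂ (fun y => (fderiv ℂ g y v).1) x := fun v =>
    (ContinuousLinearMap.fst ℂ ℂ ℂ).analyticAt _ |>.comp (h2 v)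
  have h5 : ∀ v : C2, AnalyticAt ℂ (fun y => (fderiv ℂ g y v).2) x := fun v =>
    (ContinuousLinearMap.snd ℂ ℂ ℂ).analyticAt _ |>.comp (h2 v)
  exact ((h4 _).mul (h5 _)).sub ((h4 _).mul (h5 _))

private lemma ph_sum {ι : Type} (s : Finset ι) (f : ι → ℂ → ℝ) (t : ℂ)
    (h : ∀ i ∈ s, InnerProductSpace.HarmonicAt (f i) t) :
    InnerProductSpace.HarmonicAt (fun z => ∑ i ∈ s, f i z) t := by
  classical
  induction s using Finset.induction_on with
  | empty => simp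
  | insert a s ha ih =>
    have h1 := (h a (Finset.mem_insert_self _ _)).add
      (ih fun i hi => h i (Finset.mem_insert_of_mem hi))
    have h2 : (fun z => ∑ i ∈ insert a s, f i z) = f a + fun z => ∑ i ∈ s, f i z := by
      funext z
      simp [Finset.sum_insert ha]
    rw [h2]
    exact h1

private lemma ph_reg {g : C2 → C2} {b₀ : C2} {r : ℝ} (hA : Away g b₀ r) (n : ℕ) {b : C2}
    (hb : b ∈ ball b₀ r) : Reg g n b := by
  refine ⟨hA.2.1 hb, fun k hk _ x hx h0 => ?_⟩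
  exact Set.disjoint_left.1 (hA.2.2 k hk) hb ⟨hA.2.1 hb, x, hx, h0⟩

/-- the general form -/
private lemma ph_main (hb : S_branch1) {g : C2 → C2} (hg : Sys g) {b₀ : C2} {r : ℝ}
    (hA : Away g b₀ r) {n : ℕ} (hn : 1 ≤ n) (v : C2) (φ : C2 → ℝ)
    (hφ : ∀ (x : C2) (y : ℂ → C2) (t : ℂ), x ∈ PP → jac g x ≠ 0 → y t = x → AnalyticAt ℂ y t →
      InnerProductSpace.HarmonicAt (fun s => φ (y s)) t) :
    InnerProductSpace.HarmonicOnNhd (fun t : ℂ => avg g n φ (b₀ + t • v))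
      {t : ℂ | b₀ + t • v ∈ ball b₀ r} := by
  intro t₀ ht₀
  obtain ⟨N, hN, hbN, y, hy, hN2⟩ := hb g hg n (b₀ + t₀ • v) (ph_reg hA n ht₀)
  have hlin : AnalyticAt ℂ (fun t : ℂ => b₀ + t • v) t₀ :=
    analyticAt_const.add (analyticAt_id.smul analyticAt_const)
  have hev : ∀ᶠ t in 𝓝 t₀, b₀ + t • v ∈ N :=
    hlin.continuousAt.eventually_mem (hN.mem_nhds hbN)
  have heq : (fun t : ℂ => avg g n φ (b₀ + t • v)) =ᶠ[𝓝 t₀]
      ((1 / 4 ^ n : ℝ) • fun t => ∑ i, φ (y i (b₀ + t • v))) := by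
    filter_upwards [hev] with t ht
    obtain ⟨_, hinj, hpre⟩ := hN2 _ ht
    simp only [avg, Pi.smul_apply, smul_eq_mul]
    rw [hpre, finsum_mem_range hinj, finsum_eq_sum_of_fintype]
    ring
  rw [InnerProductSpace.harmonicAt_congr_nhds heq]
  refine InnerProductSpace.HarmonicAt.const_smul (ph_sum _ _ _ fun i _ => ?_)
  obtain ⟨hreg, _, hpre⟩ := hN2 _ hbN
  have hmem : y i (b₀ + t₀ • v) ∈ pre g n (b₀ + t₀ • v) := by
    rw [hpre]
    exact ⟨i, rfl⟩
  refine hφ (y i (b₀ + t₀ • v)) (fun t => y i (b₀ + t • v)) t₀ ?_ ?_ rfl ?_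
  · exact hmem.2 0 (by omega)
  · exact hreg.2 n hn le_rfl _ hmem
  · exact AnalyticAt.comp (hy i _ hbN) hlin

/-- TARGETS -/
theorem t_ph (_hc : S_card) (hb : S_branch1) : S_ph := by
  intro g hg b₀ r hA n hn v
  refine ⟨ph_main hb hg hA hn v _ fun x y t hx hj hyt hy => ?_, fun e he =>
    ph_main hb hg hA hn v _ fun x y t hx hj hyt hy => ?_⟩
  · refine AnalyticAt.harmonicAt_log_norm (f := fun s => jac g (y s)) ?_ ?_
    · refine AnalyticAt.comp (g := jac g) ?_ hy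
      rw [hyt]
      exact ph_jac (hg.an x hx)
    · rw [hyt]
      exact hj
  · refine AnalyticAt.harmonicAt_re (f := fun s => e (y s)) ?_
    refine AnalyticAt.comp (g := e) ?_ hy
    rw [hyt]
    exact he x hx

end

end Pool.Agent.H429
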