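import Pool.Agent.H429.Stmts3

open MeasureTheory Filter Topology Metric

namespace Pool.Agent.H429

noncomputable section

/-- The one dimensional estimate. -/
lemma poincare_seg (F : C2 → ℝ) (D : Set C2) (hD : IsOpen D)
    (hF : DifferentiableOn ℝ F D) (hF' : ContinuousOn (fderiv ℝ F) D) (b h : C2)
    (hs : ∀ t ∈ Set.Icc (0 : ℝ) 1, b + t • h ∈ D) :
    ENNReal.ofReal |F b - F (b + h)| ≤ ENNReal.ofReal ‖h‖ *
      ∫⁻ t in Set.Icc (0 : ℝ) 1,
        (D.indicator (fun b => ENNReal.ofReal ‖fderiv ℝ F b‖)) (b + t • h) := by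
  have hcont : ContinuousOn (fun t : ℝ => fderiv ℝ F (b + t • h)) (Set.Icc 0 1) := by
    refine hF'.comp (by fun_prop) (fun t ht => hs t ht)
  have hderiv : ∀ t ∈ Set.uIcc (0 : ℝ) 1,
      HasDerivAt (fun t : ℝ => F (b + t • h)) (fderiv ℝ F (b + t • h) h) t := by
    intro t ht
    rw [Set.uIcc_of_le zero_le_one] at ht
    have h1 : HasFDerivAt F (fderiv ℝ F (b + t • h)) (b + t • h) :=
      (hF.differentiableAt (hD.mem_nhds (hs t ht))).hasFDerivAt
    have h2 : HasDerivAt (fun t : ℝ => b + t • h) h t := by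
      have := ((hasDerivAt_id t).smul_const h).const_add b
      simpa using this
    exact h1.comp_hasDerivAt t h2
  have hcont2 : ContinuousOn (fun t : ℝ => fderiv ℝ F (b + t • h) h) (Set.Icc 0 1) :=
    hcont.clm_apply continuousOn_const
  have hint : IntervalIntegrable (fun t : ℝ => fderiv ℝ F (b + t • h) h) volume 0 1 := by
    apply ContinuousOn.intervalIntegrable
    rwa [Set.uIcc_of_le zero_le_one]
  have hftc := intervalIntegral.integral_eq_sub_of_hasDerivAt hderiv hint
  simp only [one_smul, zero_smul, add_zero] at hftc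
  have hcn : ContinuousOn (fun t : ℝ => ‖fderiv ℝ F (b + t • h)‖ * ‖h‖) (Set.Icc 0 1) :=
    (hcont.norm).mul continuousOn_const
  have hint2 : IntegrableOn (fun t : ℝ => ‖fderiv ℝ F (b + t • h)‖ * ‖h‖) (Set.Icc 0 1) :=
    hcn.integrableOn_Icc
  have h1 : |F b - F (b + h)| ≤ ∫ t in Set.Icc (0 : ℝ) 1, ‖fderiv ℝ F (b + t • h)‖ * ‖h‖ := by
    rw [abs_sub_comm, ← hftc, intervalIntegral.integral_of_le zero_le_one,
      ← integral_Icc_eq_integral_Ioc, ← Real.norm_eq_abs]
    refine (norm_integral_le_integral_norm _).trans ?_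
    refine setIntegral_mono_on ?_ hint2 measurableSet_Icc ?_
    · exact (hcont2.norm).integrableOn_Icc
    · intro t _
      exact (fderiv ℝ F (b + t • h)).le_opNorm h
  calc ENNReal.ofReal |F b - F (b + h)|
      ≤ ENNReal.ofReal (∫ t in Set.Icc (0 : ℝ) 1, ‖fderiv ℝ F (b + t • h)‖ * ‖h‖) :=
        ENNReal.ofReal_le_ofReal h1
    _ = ∫⁻ t in Set.Icc (0 : ℝ) 1, ENNReal.ofReal (‖fderiv ℝ F (b + t • h)‖ * ‖h‖) := by
        rw [ofReal_integral_eq_lintegral_ofReal hint2]
        exact Eventually.of_forall (fun t => by positivity)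
    _ = ∫⁻ t in Set.Icc (0 : ℝ) 1, ENNReal.ofReal ‖h‖ *
          (D.indicator (fun b => ENNReal.ofReal ‖fderiv ℝ F b‖)) (b + t • h) := by
        refine setLIntegral_congr_fun measurableSet_Icc ?_
        intro t ht
        simp only
        rw [Set.indicator_of_mem (hs t ht), mul_comm, ENNReal.ofReal_mul (norm_nonneg _)]
    _ = _ := by
        rw [lintegral_const_mul' _ _ ENNReal.ofReal_ne_top]

/-- TARGET -/
theorem t_poincare : S_poincare := by
  classical
  intro F D hD hDB hvol hF hF' hseg
  have hHaar : (volume : Measure C2).IsAddHaarMeasure :=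
    inferInstanceAs ((volume : Measure ℂ).prod (volume : Measure ℂ)).IsAddHaarMeasure
  set G : C2 → ENNReal := D.indicator (fun b => ENNReal.ofReal ‖fderiv ℝ F b‖) with hG
  have hGm : Measurable G :=
    ((measurable_fderiv ℝ F).norm.ennreal_ofReal).indicator hD.measurableSet
  have hGint : ∫⁻ b, G b = ∫⁻ b in D, ENNReal.ofReal ‖fderiv ℝ F b‖ :=
    lintegral_indicator hD.measurableSet _
  set F1 : C2 → ℝ := D.indicator F with hF1
  have hF1m : Measurable F1 := by
    rw [hF1, ← Set.piecewise_eq_indicator]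
    exact hF.continuousOn.measurable_piecewise continuousOn_const hD.measurableSet
  have hBD : (BB : Set C2) =ᵐ[volume] D := by
    refine (ae_eq_set).2 ⟨hvol, ?_⟩
    rw [Set.sdiff_eq_empty.2 hDB]; simp
  set K : C2 → C2 → ENNReal := fun b b' =>
    D.indicator (fun b => D.indicator (fun b' => ENNReal.ofReal |F1 b - F1 b'|) b') b with hK
  have hKm : Measurable (fun p : C2 × C2 => K p.1 p.2) := by
    have h1 : (fun p : C2 × C2 => K p.1 p.2) =
        (D ×ˢ D).indicator (fun p => ENNReal.ofReal |F1 p.1 - F1 p.2|) := by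
      funext p
      by_cases h1 : p.1 ∈ D <;> by_cases h2 : p.2 ∈ D <;> simp [hK, h1, h2, Set.indicator]
    rw [h1]
    refine Measurable.indicator ?_ (hD.measurableSet.prod hD.measurableSet)
    exact ((hF1m.comp measurable_fst).sub (hF1m.comp measurable_snd)).abs.ennreal_ofReal
  have hstep1 : ∫⁻ b in BB, ∫⁻ b' in BB, ENNReal.ofReal |F b - F b'| =
      ∫⁻ b, ∫⁻ b', K b b' := by
    rw [setLIntegral_congr hBD, ← lintegral_indicator hD.measurableSet]
    refine lintegral_congr (fun b => ?_)
    by_cases hb : b ∈ D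
    · rw [Set.indicator_of_mem hb, setLIntegral_congr hBD, ← lintegral_indicator hD.measurableSet]
      refine lintegral_congr (fun b' => ?_)
      by_cases hb' : b' ∈ D
      · simp [hK, hF1, hb, hb', Set.indicator]
      · simp [hK, hb', Set.indicator]
    · simp [hK, hb, Set.indicator]
  have hstep2 : ∫⁻ b, ∫⁻ b', K b b' = ∫⁻ h, ∫⁻ b, K b (b + h) := by
    have h1 : ∀ b, ∫⁻ b', K b b' = ∫⁻ h, K b (b + h) := fun b =>
      (lintegral_add_left_eq_self (μ := (volume : Measure C2)) (fun b' => K b b') b).symm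
    simp_rw [h1]
    refine lintegral_lintegral_swap ?_
    refine Measurable.aemeasurable ?_
    exact hKm.comp (measurable_fst.prodMk (measurable_fst.add measurable_snd))
  have hstep3 : ∀ h : C2, ∫⁻ b, K b (b + h) ≤
      (ball (0 : C2) 2).indicator (fun _ => 2 * ∫⁻ b, G b) h := by
    intro h
    by_cases hh : h ∈ ball (0 : C2) 2
    · rw [Set.indicator_of_mem hh]
      have hae : ∀ᵐ b : C2, K b (b + h) ≤
          2 * ∫⁻ t in Set.Icc (0 : ℝ) 1, G (b + t • h) := by
        filter_upwards [hseg h] with b hb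
        by_cases h1 : b ∈ D
        · by_cases h2 : b + h ∈ D
          · have h3 := poincare_seg F D hD hF hF' b h (hb (hDB h1) (hDB h2))
            have h4 : K b (b + h) = ENNReal.ofReal |F b - F (b + h)| := by
              simp [hK, hF1, h1, h2, Set.indicator]
            rw [h4]
            refine h3.trans ?_
            gcongr
            rw [show (2 : ENNReal) = ENNReal.ofReal 2 by norm_num]
            apply ENNReal.ofReal_le_ofReal
            have := mem_ball_zero_iff.1 hh
            exact this.le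
          · have h4 : K b (b + h) = 0 := by
              simp [hK, h2, Set.indicator]
            rw [h4]; exact zero_le
        · have h4 : K b (b + h) = 0 := by
            simp [hK, h1, Set.indicator]
          rw [h4]; exact zero_le
      refine (lintegral_mono_ae hae).trans ?_
      have hm : Measurable (fun p : C2 × ℝ => G (p.1 + p.2 • h)) := by
        refine hGm.comp ?_
        exact measurable_fst.add (measurable_snd.smul_const h)
      rw [lintegral_const_mul' _ _ (by norm_num), lintegral_lintegral_swap hm.aemeasurable]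
      gcongr
      have h5 : ∀ t : ℝ, ∫⁻ b, G (b + t • h) = ∫⁻ b, G b := fun t =>
        lintegral_add_right_eq_self (μ := (volume : Measure C2)) G (t • h)
      simp_rw [h5]
      simp
    · rw [Set.indicator_of_notMem hh]
      refine le_of_eq ?_
      rw [lintegral_eq_zero_iff']
      · refine Eventually.of_forall (fun b => ?_)
        by_cases h1 : b ∈ D
        · by_cases h2 : b + h ∈ D
          · exfalso
            apply hh
            have h3 := mem_ball_zero_iff.1 (hDB h1)
            have h4 := mem_ball_zero_iff.1 (hDB h2)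
            rw [mem_ball_zero_iff]
            have : h = (b + h) - b := by abel
            rw [this]
            calc ‖(b + h) - b‖ ≤ ‖b + h‖ + ‖b‖ := norm_sub_le _ _
              _ < 2 := by linarith
          · simp [hK, h2, Set.indicator]
        · simp [hK, h1, Set.indicator]
      · exact (hKm.comp (measurable_id.prodMk (measurable_id.add_const h))).aemeasurable
  have hvolb : volume (ball (0 : C2) 2) * 2 ≤ 10 ^ 4 := by
    have h1 : (ball (0 : C2) 2) = ball (0 : ℂ) 2 ×ˢ ball (0 : ℂ) 2 := by
      rw [ball_prod_same]; rfl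
    rw [h1, Measure.volume_eq_prod, Measure.prod_prod, Complex.volume_ball]
    have h2 : (NNReal.pi : ENNReal) ≤ 4 := by
      have : NNReal.pi ≤ 4 := by
        rw [← NNReal.coe_le_coe]; simpa using Real.pi_le_four
      exact_mod_cast this
    have h3 : ENNReal.ofReal 2 = 2 := by norm_num
    rw [h3]
    calc (2 : ENNReal) ^ 2 * NNReal.pi * (2 ^ 2 * NNReal.pi) * 2
        ≤ 2 ^ 2 * 4 * (2 ^ 2 * 4) * 2 := by gcongr
      _ ≤ 10 ^ 4 := by norm_num
  rw [hstep1, hstep2]
  calc ∫⁻ h, ∫⁻ b, K b (b + h)
      ≤ ∫⁻ h : C2, (ball (0 : C2) 2).indicator (fun _ => 2 * ∫⁻ b, G b) h :=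
        lintegral_mono hstep3
    _ = 2 * (∫⁻ b, G b) * volume (ball (0 : C2) 2) := by
        rw [lintegral_indicator measurableSet_ball, setLIntegral_const]
    _ = (volume (ball (0 : C2) 2) * 2) * ∫⁻ b, G b := by ring
    _ ≤ 10 ^ 4 * ∫⁻ b, G b := by gcongr
    _ = _ := by rw [hGint]

end

end Pool.Agent.H429
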