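import Pool.Agent.H429.Stmts3

open MeasureTheory Filter Topology Metric

namespace Pool.Agent.H429

noncomputable section

private theorem poly_univ : (Finset.univ : Finset (Mon 2)) = {m200, m020, m002, m110, m101, m011} := by
  decide

/-- TARGETS -/
theorem t_poly : S_poly := by
  intro c v i
  unfold poly
  rw [poly_univ, Finset.sum_insert (by decide), Finset.sum_insert (by decide),
    Finset.sum_insert (by decide), Finset.sum_insert (by decide), Finset.sum_insert (by decide),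
    Finset.sum_singleton]
  simp only [Fin.prod_univ_three, m200, m020, m002, m110, m101, m011]
  simp
  ring

private theorem poly_an (hp : S_poly) (i : Fin 3) (q : Coef 2 × C2) :
    AnalyticAt ℂ (fun q : Coef 2 × C2 => FF q.1 q.2 i) q := by
  have hc : ∀ m : Mon 2, AnalyticAt ℂ (fun q : Coef 2 × C2 => q.1 i m) q := by
    intro m
    have := (((ContinuousLinearMap.proj (R := ℂ) (φ := fun _ : Mon 2 => ℂ) m).comp
      (ContinuousLinearMap.proj (R := ℂ) (φ := fun _ : Fin 3 => Mon 2 → ℂ) i)).comp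
      (ContinuousLinearMap.fst ℂ (Coef 2) C2)).analyticAt q
    exact this
  have h1 : AnalyticAt ℂ (fun q : Coef 2 × C2 => q.2.1) q :=
    ((ContinuousLinearMap.fst ℂ ℂ ℂ).comp (ContinuousLinearMap.snd ℂ (Coef 2) C2)).analyticAt q
  have h2 : AnalyticAt ℂ (fun q : Coef 2 × C2 => q.2.2) q :=
    ((ContinuousLinearMap.snd ℂ ℂ ℂ).comp (ContinuousLinearMap.snd ℂ (Coef 2) C2)).analyticAt q
  have e : (fun q : Coef 2 × C2 => FF q.1 q.2 i) = fun q : Coef 2 × C2 =>
      q.1 i m200 * q.2.1 ^ 2 + q.1 i m020 * q.2.2 ^ 2 + q.1 i m002 + q.1 i m110 * (q.2.1 * q.2.2) +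
        q.1 i m101 * q.2.1 + q.1 i m011 * q.2.2 := by
    funext q
    unfold FF
    rw [hp]
    simp [ch]
  rw [e]
  exact (((((hc _).mul (h1.pow 2)).add ((hc _).mul (h2.pow 2))).add (hc _)).add
    ((hc _).mul (h1.mul h2))).add ((hc _).mul h1) |>.add ((hc _).mul h2)

theorem t_joint (hp : S_poly) : S_joint := by
  intro c x hx
  have h0 := poly_an hp 0 (c, x)
  have h1 := poly_an hp 1 (c, x)
  have h2 := poly_an hp 2 (c, x)
  exact (h0.div h2 hx).prod (h1.div h2 hx)

private theorem poly_smul' (c : Coef 2) (a : ℂ) (v : Vec) : poly (a • c) v = a • poly c v := by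
  funext i
  show ∑ m : Mon 2, a * c i m * ∏ j, v j ^ (m.1 j : ℕ) = a * ∑ m : Mon 2, c i m * ∏ j, v j ^ (m.1 j : ℕ)
  rw [Finset.mul_sum]
  exact Finset.sum_congr rfl fun m _ => mul_assoc _ _ _

private theorem poly_diff (hp : S_poly) (c : Coef 2) : Differentiable ℂ (poly c) := by
  rw [differentiable_pi]
  intro i
  have e : (fun v => poly c v i) = fun v : Vec => c i m200 * v 0 ^ 2 + c i m020 * v 1 ^ 2 +
      c i m002 * v 2 ^ 2 + c i m110 * (v 0 * v 1) + c i m101 * (v 0 * v 2) + c i m011 * (v 1 * v 2) := by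
    funext v
    exact hp c v i
  rw [e]
  fun_prop

theorem t_smul (hp : S_poly) : S_smul := by
  intro c a ha
  have hF : ∀ x i, FF (a • c) x i = a * FF c x i := by
    intro x i
    unfold FF
    rw [poly_smul']
    rfl
  have hG : GG (a • c) = GG c := by
    funext x
    unfold GG
    rw [hF, hF, hF, mul_div_mul_left _ _ ha, mul_div_mul_left _ _ ha]
  refine ⟨hG, fun h => ?_⟩
  have hapos : 0 < ‖a‖ := norm_pos_iff.2 ha
  have hA : ∀ b m, cA (a • c) b m = a * cA c b m := by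
    intro b m
    unfold cA
    show a * c 0 m - b.1 * (a * c 2 m) = _
    ring
  have hB : ∀ b m, cB (a • c) b m = a * cB c b m := by
    intro b m
    unfold cB
    show a * c 1 m - b.2 * (a * c 2 m) = _
    ring
  have x2 : ∀ b, ex2 (a • c) b = a ^ 2 * ex2 c b := by
    intro b; unfold ex2; rw [hA, hB, hA, hB]; ring
  have x1 : ∀ b, ex1 (a • c) b = a ^ 2 * ex1 c b := by
    intro b; unfold ex1; rw [hA, hB, hA, hB]; ring
  have x0 : ∀ b, ex0 (a • c) b = a ^ 2 * ex0 c b := by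
    intro b; unfold ex0; rw [hA, hB, hA, hB]; ring
  have y1 : ∀ b, ey1 (a • c) b = a ^ 2 * ey1 c b := by
    intro b; unfold ey1; rw [hA, hB, hA, hB]; ring
  have y0 : ∀ b, ey0 (a • c) b = a ^ 2 * ey0 c b := by
    intro b; unfold ey0; rw [hA, hB, hA, hB]; ring
  have z3 : ∀ b, ez3 (a • c) b = a ^ 2 * ez3 c b := by
    intro b; unfold ez3; simp only [hA, hB]; ring
  have z2 : ∀ b, ez2 (a • c) b = a ^ 2 * ez2 c b := by
    intro b; unfold ez2; simp only [hA, hB]; ring
  have z1 : ∀ b, ez1 (a • c) b = a ^ 2 * ez1 c b := by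
    intro b; unfold ez1; simp only [hA, hB]; ring
  have q4 : ∀ b, eq4 (a • c) b = a ^ 4 * eq4 c b := by
    intro b; unfold eq4; rw [x2, y1, z3]; ring
  have q3 : ∀ b, eq3 (a • c) b = a ^ 4 * eq3 c b := by
    intro b; unfold eq3; rw [x2, x1, y1, z2, y0, z3]; ring
  have q2 : ∀ b, eq2 (a • c) b = a ^ 4 * eq2 c b := by
    intro b; unfold eq2; rw [x1, x2, x0, y1, z1, y0, z2]; ring
  have ha4 : 0 < ‖a‖ ^ 4 := by positivity
  have hder : ∀ v, fderiv ℂ (poly (a • c)) v = a • fderiv ℂ (poly c) v := by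
    intro v
    have e : poly (a • c) = fun v => a • poly c v := by
      funext v; exact poly_smul' c a v
    rw [e]
    exact fderiv_fun_const_smul ((poly_diff hp c) v) a
  refine ⟨?_, ?_, ?_, ?_, ?_, ?_, ?_, ?_, ?_, ?_, ?_, ?_, ?_, ?_⟩
  · intro x hx
    rw [hF]
    exact mul_ne_zero ha (h.u1 x hx)
  · intro v hv hv2
    rw [poly_smul']
    have := h.u2 v hv hv2
    show ‖a * poly c v 2‖ < max ‖a * poly c v 0‖ ‖a * poly c v 1‖
    rw [norm_mul, norm_mul, norm_mul, ← mul_max_of_nonneg _ _ hapos.le]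
    exact mul_lt_mul_of_pos_left this hapos
  · rw [hG]; exact h.u3a
  · rw [hG]; exact h.u3b
  · rw [hG]; exact h.u3c
  · rw [hG]; exact h.u3d
  · intro b hb
    rw [hA]
    exact mul_ne_zero ha (h.u4a b hb)
  · intro b hb z hz
    rw [y1, y0]
    have := mul_ne_zero (pow_ne_zero 2 ha) (h.u4b b hb z hz)
    intro h0
    apply this
    rw [← h0]
    ring
  · intro b hb
    rw [q3, q4, norm_mul, norm_mul, norm_pow, mul_div_assoc]
    exact mul_lt_mul_of_pos_left (h.u4c b hb) ha4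
  · intro b hb
    rw [q2, q4]
    have e : a ^ 4 * eq2 c b + a ^ 4 * eq4 c b / 250 = a ^ 4 * (eq2 c b + eq4 c b / 250) := by ring
    rw [e, norm_mul, norm_mul, norm_pow, mul_div_assoc]
    exact mul_lt_mul_of_pos_left (h.u4d b hb) ha4
  · rw [hG]; exact h.u5a
  · rw [hG]; exact h.u5b
  · rw [hG]; exact h.u5c
  · intro v w hv hw hv2 hw2
    have h6 := h.u6 v w hv hw hv2 hw2
    rw [hder, poly_smul', norm_smul]
    have hdet : (a • fderiv ℂ (poly c) v).det = a ^ 3 * (fderiv ℂ (poly c) v).det := by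
      unfold ContinuousLinearMap.det
      rw [ContinuousLinearMap.toLinearMap_smul, LinearMap.det_smul]
      congr 2
      simp
    rw [hdet, norm_mul, norm_pow]
    have ha6 : 0 < ‖a‖ ^ 6 := by positivity
    have := mul_lt_mul_of_pos_left h6 ha6
    calc 2 * (‖a‖ ^ 3 * ‖(fderiv ℂ (poly c) v).det‖) ^ 2
        = ‖a‖ ^ 6 * (2 * ‖(fderiv ℂ (poly c) v).det‖ ^ 2) := by ring
      _ < ‖a‖ ^ 6 * ‖poly c w‖ ^ 6 := this
      _ = (‖a‖ * ‖poly c w‖) ^ 6 := by ring

theorem t_nondeg (hp : S_poly) : S_nondeg := by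
  intro c h v hv
  by_contra hv0
  rcases le_or_gt ‖v 2‖ (12 * max ‖v 0‖ ‖v 1‖) with h1 | h1
  · have h2 := h.u2 v hv0 h1
    rw [hv] at h2
    simp at h2
  · have h2 : 0 ≤ max ‖v 0‖ ‖v 1‖ := le_max_of_le_left (norm_nonneg _)
    have h3 : 0 < ‖v 2‖ := by linarith
    have hv2 : v 2 ≠ 0 := norm_pos_iff.1 h3
    set x : C2 := (v 0 / v 2, v 1 / v 2) with hx
    have hx1 : x ∈ closedBall (0 : C2) 1 := by
      rw [mem_closedBall_zero_iff, Prod.norm_def, hx]
      simp only [norm_div]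
      apply max_le
      · rw [div_le_one h3]
        have := le_max_left ‖v 0‖ ‖v 1‖
        linarith
      · rw [div_le_one h3]
        have := le_max_right ‖v 0‖ ‖v 1‖
        linarith
    apply h.u1 x hx1
    have h4 : poly c v 2 = 0 := by rw [hv]; rfl
    rw [hp] at h4
    unfold FF
    rw [hp]
    have e : c 2 m200 * (ch x 0) ^ 2 + c 2 m020 * (ch x 1) ^ 2 + c 2 m002 * (ch x 2) ^ 2 +
        c 2 m110 * (ch x 0 * ch x 1) + c 2 m101 * (ch x 0 * ch x 2) + c 2 m011 * (ch x 1 * ch x 2) =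
        (c 2 m200 * v 0 ^ 2 + c 2 m020 * v 1 ^ 2 + c 2 m002 * v 2 ^ 2 + c 2 m110 * (v 0 * v 1) +
          c 2 m101 * (v 0 * v 2) + c 2 m011 * (v 1 * v 2)) / v 2 ^ 2 := by
      simp only [ch, hx, Matrix.cons_val_zero, Matrix.cons_val_one, Matrix.cons_val]
      field_simp
    rw [e, h4, zero_div]

end

end Pool.Agent.H429
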