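import Pool.Agent.H429.Stmts3

open MeasureTheory Filter Topology Metric

namespace Pool.Agent.H429

noncomputable section

private theorem segment_dim (V : Set C2) (hV : ∀ b ∈ V, ∀ b' ∈ V, VRel b b') (h : C2) :
    dimH {b : C2 | ∃ t : ℝ, b + t • h ∈ V} ≤ 3 := by
  classical
  set S : Set ℂ := Prod.snd '' V with hS
  set ψ : ℂ → C2 := Function.invFunOn Prod.snd V with hψ
  have h1 : ∀ s ∈ S, ψ s ∈ V ∧ (ψ s).2 = s := by
    rintro s ⟨b, hb, hs⟩
    have hex : ∃ a ∈ V, Prod.snd a = s := ⟨b, hb, hs⟩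
    exact ⟨Function.invFunOn_mem hex, Function.invFunOn_eq hex⟩
  have h2 : ∀ s ∈ S, ∀ s' ∈ S, ‖ψ s - ψ s'‖ ≤ ‖s - s'‖ := by
    intro s hs s' hs'
    obtain ⟨h3, h4⟩ := h1 s hs
    obtain ⟨h5, h6⟩ := h1 s' hs'
    have h7 := hV _ h3 _ h5
    unfold VRel at h7
    rw [h4, h6] at h7
    rw [Prod.norm_def]
    refine max_le ?_ ?_
    · rw [Prod.fst_sub]
      have := norm_nonneg (s - s')
      linarith
    · rw [Prod.snd_sub, h4, h6]
  have h3 : ∀ b ∈ V, ψ b.2 = b := by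
    intro b hb
    have hs : b.2 ∈ S := ⟨b, hb, rfl⟩
    obtain ⟨h4, h5⟩ := h1 _ hs
    have h7 := hV _ h4 _ hb
    unfold VRel at h7
    rw [h5, sub_self, norm_zero, zero_div] at h7
    refine Prod.ext ?_ h5
    exact sub_eq_zero.1 (norm_le_zero_iff.1 h7)
  set F : ℂ × ℝ → C2 := fun p => ψ p.1 - p.2 • h with hF
  have h4 : {b : C2 | ∃ t : ℝ, b + t • h ∈ V} ⊆ F '' (S ×ˢ Set.univ) := by
    rintro b ⟨t, ht⟩
    refine ⟨((b + t • h).2, t), ⟨⟨_, ht, rfl⟩, Set.mem_univ _⟩, ?_⟩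
    rw [hF]
    simp only
    rw [h3 _ ht, add_sub_cancel_right]
  have h5 : LipschitzOnWith (1 + ‖h‖₊) F (S ×ˢ Set.univ) := by
    refine LipschitzOnWith.of_dist_le_mul ?_
    rintro ⟨s, t⟩ ⟨hs, -⟩ ⟨s', t'⟩ ⟨hs', -⟩
    rw [dist_eq_norm, dist_eq_norm]
    have e : F (s, t) - F (s', t') = (ψ s - ψ s') - (t - t') • h := by
      rw [hF]; simp only; rw [sub_smul]; abel
    rw [e]
    have h6 : ‖s - s'‖ ≤ ‖((s, t) : ℂ × ℝ) - (s', t')‖ := by
      rw [Prod.norm_def]; exact le_max_left _ _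
    have h7 : ‖t - t'‖ ≤ ‖((s, t) : ℂ × ℝ) - (s', t')‖ := by
      rw [Prod.norm_def]; exact le_max_right _ _
    calc ‖(ψ s - ψ s') - (t - t') • h‖ ≤ ‖ψ s - ψ s'‖ + ‖(t - t') • h‖ := norm_sub_le _ _
      _ ≤ ‖s - s'‖ + ‖t - t'‖ * ‖h‖ := by
        rw [norm_smul]
        exact add_le_add (h2 s hs s' hs') le_rfl
      _ ≤ ‖((s, t) : ℂ × ℝ) - (s', t')‖ + ‖((s, t) : ℂ × ℝ) - (s', t')‖ * ‖h‖ := by
        gcongr
      _ = ((1 + ‖h‖₊ : NNReal) : ℝ) * ‖((s, t) : ℂ × ℝ) - (s', t')‖ := by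
        push_cast
        ring
  calc dimH {b : C2 | ∃ t : ℝ, b + t • h ∈ V} ≤ dimH (F '' (S ×ˢ Set.univ)) := dimH_mono h4
    _ ≤ dimH (S ×ˢ (Set.univ : Set ℝ)) := h5.dimH_image_le
    _ ≤ dimH (Set.univ : Set (ℂ × ℝ)) := dimH_mono (Set.subset_univ _)
    _ = 3 := by
      rw [Real.dimH_univ_eq_finrank]
      rw [Module.finrank_prod, Complex.finrank_real_complex, Module.finrank_self]
      norm_num

private theorem segment_null_of_dim (Z : Set C2) (hZ : dimH Z ≤ 3) : volume Z = 0 := by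
  have hfr : Module.finrank ℝ C2 = 4 := by
    rw [Module.finrank_prod, Complex.finrank_real_complex]
  let e : C2 ≃L[ℝ] (Fin 4 → ℝ) := ContinuousLinearEquiv.ofFinrankEq (by rw [hfr]; simp)
  have h1 : volume (e '' Z) = 0 := by
    have h2 : dimH (e '' Z) < ((4 : NNReal) : ENNReal) := by
      rw [ContinuousLinearEquiv.dimH_image]
      refine lt_of_le_of_lt hZ ?_
      norm_num
    have h3 := hausdorffMeasure_of_dimH_lt h2
    have h4 : (Measure.hausdorffMeasure (4 : ℝ) : Measure (Fin 4 → ℝ)) = volume := by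
      have := hausdorffMeasure_pi_real (ι := Fin 4)
      simpa using this
    rw [← h4]
    exact_mod_cast h3
  let μ : Measure C2 := Measure.map e.symm volume
  have h5 : μ Z = 0 := by
    have h6 : μ Z = volume (e.symm ⁻¹' Z) :=
      (e.symm.toHomeomorph.toMeasurableEquiv).map_apply Z
    rw [h6, ← h1]
    congr 1
    exact (e.toEquiv.image_eq_preimage_symm Z).symm
  have : μ.IsAddHaarMeasure := e.symm.isAddHaarMeasure_map volume
  have hvol : (volume : Measure C2).IsAddHaarMeasure := by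
    rw [Measure.volume_eq_prod]
    infer_instance
  exact (Measure.absolutelyContinuous_isAddHaarMeasure (volume : Measure C2) μ) h5

/-- TARGET -/
theorem t_segment (hv : S_vpair) : S_segment := by
  intro g hg n h
  have h1 : ∀ k : ℕ, 1 ≤ k → ∀ᵐ b : C2, ¬ ∃ t : ℝ, b + t • h ∈ VV g k := by
    intro k hk
    rw [ae_iff]
    have h2 : {b : C2 | ¬¬ ∃ t : ℝ, b + t • h ∈ VV g k} = {b : C2 | ∃ t : ℝ, b + t • h ∈ VV g k} := by
      ext b; simp only [not_not]
    rw [h2]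
    exact segment_null_of_dim _ (segment_dim _ (hv g hg k hk).2.2 h)
  have h2 : ∀ᵐ b : C2, ∀ k : ℕ, 1 ≤ k → ¬ ∃ t : ℝ, b + t • h ∈ VV g k := by
    rw [ae_all_iff]
    intro k
    by_cases hk : 1 ≤ k
    · filter_upwards [h1 k hk] with b hb _ using hb
    · exact Eventually.of_forall fun b h3 => absurd h3 hk
  filter_upwards [h2] with b hb hb1 hb2 t ht
  have h3 : b + t • h ∈ BB := by
    have hc : Convex ℝ BB := convex_ball 0 1
    have h4 := hc hb1 hb2 (sub_nonneg.2 ht.2) ht.1 (by ring)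
    have e : (1 - t) • b + t • (b + h) = b + t • h := by
      rw [smul_add, ← add_assoc, ← add_smul, sub_add_cancel, one_smul]
    rwa [e] at h4
  refine ⟨h3, fun k hk _ x hx h0 => ?_⟩
  exact hb k hk ⟨t, h3, x, hx, h0⟩

end

end Pool.Agent.H429
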