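import Pool.Agent.H429.Stmts3

open MeasureTheory Filter Topology Metric

namespace Pool.Agent.H429

noncomputable section

private lemma sysone_mvt (G : C2 → ℂ) (G' : C2 → C2 →L[ℂ] ℂ) (S : Set C2) (hS : Convex ℝ S)
    (hG : ∀ p ∈ S, HasFDerivAt G (G' p) p) {x y : C2} (hx : x ∈ S) (hy : y ∈ S) {C : ℝ}
    (hC : ∀ p ∈ S, ‖G' p (x - y)‖ ≤ C) : ‖G x - G y‖ ≤ C := by
  have hseg : ∀ t ∈ Set.Icc (0 : ℝ) 1, y + t • (x - y) ∈ S := by
    intro t ht
    exact hS.add_smul_sub_mem hy hx ht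
  have h1 : ∀ t ∈ Set.Icc (0 : ℝ) 1, HasDerivWithinAt (fun t : ℝ => G (y + t • (x - y)))
      (G' (y + t • (x - y)) (x - y)) (Set.Icc (0 : ℝ) 1) t := by
    intro t ht
    have hline : HasDerivAt (fun t : ℝ => y + t • (x - y)) (x - y) t := by
      have := ((hasDerivAt_id t).smul_const (x - y)).const_add y
      simpa using this
    have hf := (hG _ (hseg t ht)).restrictScalars ℝ
    exact (hf.comp_hasDerivAt t hline).hasDerivWithinAt
  have h2 := norm_image_sub_le_of_norm_deriv_le_segment_01' (C := C) h1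
    (fun t ht => hC _ (hseg t ⟨ht.1, ht.2.le⟩))
  simpa using h2

private lemma sysone_lin {F : Type*} [NormedAddCommGroup F] [NormedSpace ℂ F] (L : C2 →L[ℂ] F) (v : C2) :
    L v = v.1 • L (1, 0) + v.2 • L (0, 1) := by
  rw [← map_smul, ← map_smul, ← map_add]
  congr 1
  ext <;> simp

private lemma sysone_le {x : C2} {r : ℝ} (hx : x ∈ closedBall (0 : C2) r) : ‖x.1‖ ≤ r ∧ ‖x.2‖ ≤ r := by
  rw [mem_closedBall_zero_iff, Prod.norm_def] at hx
  exact ⟨(le_max_left _ _).trans hx, (le_max_right _ _).trans hx⟩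

/-- TARGET -/
theorem t_sys1 (hp : S_poly) (hj : S_jan) (hjt : S_joint) : S_sys1 := by
  have _hp := hp
  intro c hc
  have hPP1 : PP ⊆ closedBall (0 : C2) 1 := by
    unfold PP
    exact closedBall_subset_closedBall (by norm_num)
  have hB1 : closedBall (0 : C2) (1 / 100000) ⊆ closedBall (0 : C2) 1 :=
    closedBall_subset_closedBall (by norm_num)
  have hjan : ∀ x ∈ closedBall (0 : C2) 1,
      AnalyticAt ℂ (fun q : Coef 2 × C2 => GG q.1 q.2) (c, x) := fun x hx => hjt c x (hc.u1 x hx)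
  have hpair : ∀ x : C2, AnalyticAt ℂ (fun y : C2 => ((c, y) : Coef 2 × C2)) x := fun x =>
    analyticAt_const.prod analyticAt_id
  have han : ∀ x ∈ closedBall (0 : C2) 1, AnalyticAt ℂ (GG c) x := by
    intro x hx
    have h1 : AnalyticAt ℂ ((fun q : Coef 2 × C2 => GG q.1 q.2) ∘ (fun y : C2 => ((c, y) : Coef 2 × C2))) x :=
      AnalyticAt.comp_of_eq (hjan x hx) (hpair x) rfl
    have h2 : ((fun q : Coef 2 × C2 => GG q.1 q.2) ∘ (fun y : C2 => ((c, y) : Coef 2 × C2))) = GG c := by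
      funext y
      rfl
    rw [← h2]
    exact h1
  have hjac : ∀ x ∈ closedBall (0 : C2) 1, AnalyticAt ℂ (jac (GG c)) x := by
    intro x hx
    have h0 : AnalyticAt ℂ (fun q : Coef 2 × C2 => jac (GG q.1) q.2) (c, x) :=
      (hj (Coef 2) GG c x (hjan x hx)).2
    have h1 : AnalyticAt ℂ ((fun q : Coef 2 × C2 => jac (GG q.1) q.2) ∘
        (fun y : C2 => ((c, y) : Coef 2 × C2))) x :=
      AnalyticAt.comp_of_eq h0 (hpair x) rfl
    have h2 : ((fun q : Coef 2 × C2 => jac (GG q.1) q.2) ∘ (fun y : C2 => ((c, y) : Coef 2 × C2))) =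
        jac (GG c) := by
      funext y
      simp only [Function.comp]
    rw [← h2]
    exact h1
  -- derivative estimates
  have hd1 : ∀ x ∈ PP, ∀ v : C2, ‖(fderiv ℂ (GG c) x v).1‖ ≤ 1000 * ‖v.1‖ + 2 * 10 ^ 5 * ‖v.2‖ := by
    intro x hx v
    rw [sysone_lin (fderiv ℂ (GG c) x) v]
    have h1 := (hc.u3a x hx).le
    have h2 := (hc.u3b x hx).le
    calc ‖(v.1 • (fderiv ℂ (GG c) x) (1, 0) + v.2 • (fderiv ℂ (GG c) x) (0, 1)).1‖
        = ‖v.1 * ((fderiv ℂ (GG c) x) (1, 0)).1 + v.2 * ((fderiv ℂ (GG c) x) (0, 1)).1‖ := by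
          simp
      _ ≤ ‖v.1‖ * ‖((fderiv ℂ (GG c) x) (1, 0)).1‖ + ‖v.2‖ * ‖((fderiv ℂ (GG c) x) (0, 1)).1‖ := by
          refine (norm_add_le _ _).trans ?_
          rw [norm_mul, norm_mul]
      _ ≤ ‖v.1‖ * 1000 + ‖v.2‖ * (2 * 10 ^ 5) := by gcongr
      _ = _ := by ring
  have hd2 : ∀ x ∈ PP, ∀ v : C2, ‖(fderiv ℂ (GG c) x v).2 - 10 ^ 7 * v.2‖ ≤
      2 * 10 ^ 6 * ‖v.1‖ + 10 ^ 5 * ‖v.2‖ := by
    intro x hx v
    rw [sysone_lin (fderiv ℂ (GG c) x) v]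
    have h1 := (hc.u3c x hx).le
    have h2 := (hc.u3d x hx).le
    calc ‖(v.1 • (fderiv ℂ (GG c) x) (1, 0) + v.2 • (fderiv ℂ (GG c) x) (0, 1)).2 - 10 ^ 7 * v.2‖
        = ‖v.1 * ((fderiv ℂ (GG c) x) (1, 0)).2 +
            v.2 * (((fderiv ℂ (GG c) x) (0, 1)).2 - 10 ^ 7)‖ := by
          congr 1
          simp
          ring
      _ ≤ ‖v.1‖ * ‖((fderiv ℂ (GG c) x) (1, 0)).2‖ +
            ‖v.2‖ * ‖((fderiv ℂ (GG c) x) (0, 1)).2 - 10 ^ 7‖ := by
          refine (norm_add_le _ _).trans ?_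
          rw [norm_mul, norm_mul]
      _ ≤ ‖v.1‖ * (2 * 10 ^ 6) + ‖v.2‖ * 10 ^ 5 := by gcongr
      _ = _ := by ring
  have hlow : ∀ (w z : ℂ) (s : ℝ), ‖w - 10 ^ 7 * z‖ ≤ s → 10 ^ 7 * ‖z‖ - s ≤ ‖w‖ ∧ ‖w‖ ≤ 10 ^ 7 * ‖z‖ + s := by
    intro w z s hs
    have e1 : ‖(10 : ℂ) ^ 7 * z‖ = 10 ^ 7 * ‖z‖ := by
      rw [norm_mul]
      norm_num
    constructor
    · have := norm_sub_norm_le ((10 : ℂ) ^ 7 * z) w
      rw [norm_sub_rev, e1] at this
      linarith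
    · have := norm_sub_norm_le w ((10 : ℂ) ^ 7 * z)
      rw [e1] at this
      linarith
  -- differences
  have hconvP : Convex ℝ PP := convex_closedBall _ _
  have hD1 : ∀ x ∈ PP, ∀ y ∈ PP, ‖(GG c x).1 - (GG c y).1‖ ≤
      1000 * ‖x.1 - y.1‖ + 2 * 10 ^ 5 * ‖x.2 - y.2‖ := by
    intro x hx y hy
    refine sysone_mvt (fun p => (GG c p).1)
      (fun p => (ContinuousLinearMap.fst ℂ ℂ ℂ).comp (fderiv ℂ (GG c) p)) PP hconvP ?_ hx hy ?_
    · intro p hp'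
      exact (ContinuousLinearMap.fst ℂ ℂ ℂ).hasFDerivAt.comp p
        (han p (hPP1 hp')).differentiableAt.hasFDerivAt
    · intro p hp'
      exact hd1 p hp' (x - y)
  have hD2 : ∀ x ∈ PP, ∀ y ∈ PP, ‖(GG c x).2 - (GG c y).2 - 10 ^ 7 * (x.2 - y.2)‖ ≤
      2 * 10 ^ 6 * ‖x.1 - y.1‖ + 10 ^ 5 * ‖x.2 - y.2‖ := by
    intro x hx y hy
    have := sysone_mvt (fun p => (GG c p).2 - 10 ^ 7 * p.2)
      (fun p => (ContinuousLinearMap.snd ℂ ℂ ℂ).comp (fderiv ℂ (GG c) p) -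
        (10 : ℂ) ^ 7 • ContinuousLinearMap.snd ℂ ℂ ℂ) PP hconvP ?_ hx hy
        (C := 2 * 10 ^ 6 * ‖x.1 - y.1‖ + 10 ^ 5 * ‖x.2 - y.2‖) ?_
    · refine le_trans (le_of_eq ?_) this
      congr 1
      ring
    · intro p hp'
      refine HasFDerivAt.sub ?_ ?_
      · exact (ContinuousLinearMap.snd ℂ ℂ ℂ).hasFDerivAt.comp p
          (han p (hPP1 hp')).differentiableAt.hasFDerivAt
      · exact (ContinuousLinearMap.snd ℂ ℂ ℂ).hasFDerivAt.const_mul ((10 : ℂ) ^ 7)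
    · intro p hp'
      exact hd2 p hp' (x - y)
  refine ⟨fun x hx => han x (hPP1 hx), ?_, ?_, ?_, ?_, ?_, ?_⟩
  · -- (2)
    intro x hx hgx
    by_contra hnot
    have hnorm : 1 / 12 ≤ ‖x‖ := by
      rw [mem_ball_zero_iff, not_lt] at hnot
      exact hnot
    have hu := hc.u2 (ch x) (ch_ne_zero x) (by
      have h0 : ch x 0 = x.1 := rfl
      have h1 : ch x 1 = x.2 := rfl
      have h2 : ch x 2 = 1 := rfl
      rw [h0, h1, h2, norm_one]
      rw [Prod.norm_def] at hnorm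
      linarith)
    have hF2 := hc.u1 x hx
    have hF2' : 0 < ‖FF c x 2‖ := norm_pos_iff.2 hF2
    obtain ⟨ha, hb⟩ := sysone_le hgx
    have ha' : ‖FF c x 0‖ ≤ ‖FF c x 2‖ := by
      have : ‖FF c x 0 / FF c x 2‖ ≤ 1 := ha
      rwa [norm_div, div_le_one hF2'] at this
    have hb' : ‖FF c x 1‖ ≤ ‖FF c x 2‖ := by
      have : ‖FF c x 1 / FF c x 2‖ ≤ 1 := hb
      rwa [norm_div, div_le_one hF2'] at this
    exact absurd hu (not_lt.2 (max_le ha' hb'))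
  · -- (3)
    intro x hx v hv
    have h1 := hd1 x hx v
    have h2 := hlow _ _ _ (hd2 x hx v)
    have h3 := norm_nonneg v.2
    constructor
    · nlinarith [h2.1]
    · nlinarith [h2.1]
  · -- (4)
    intro x hx y hy hxy
    unfold VRel at hxy ⊢
    have h1 := hD1 x hx y hy
    have h2 := hlow _ _ _ (hD2 x hx y hy)
    have h3 := norm_nonneg (x.2 - y.2)
    constructor
    · nlinarith [h2.1]
    · nlinarith [h2.1]
  · -- (5)
    intro x hx y hy δ hδ hxy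
    have h1 := hD1 x hx y hy
    have h2 := hlow _ _ _ (hD2 x hx y hy)
    have h3 := norm_nonneg (x.2 - y.2)
    have h4 := norm_nonneg ((GG c x).2 - (GG c y).2)
    nlinarith [h2.1]
  · -- (6)
    intro x hx y hy
    have h1 := hD1 x hx y hy
    have h2 := hlow _ _ _ (hD2 x hx y hy)
    have ha : ‖x.1 - y.1‖ ≤ ‖x - y‖ := norm_fst_le (x - y)
    have hb : ‖x.2 - y.2‖ ≤ ‖x - y‖ := norm_snd_le (x - y)
    have h0 := norm_nonneg (x - y)
    rw [Prod.norm_def (GG c x - GG c y)]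
    refine max_le ?_ ?_
    · rw [Prod.fst_sub]
      nlinarith [h2.1]
    · rw [Prod.snd_sub]
      nlinarith [h2.2]
  · -- (7)
    intro x hx y hy
    have := sysone_mvt (fun p => jac (GG c) p + 8 * 10 ^ 10 * p.1)
      (fun p => fderiv ℂ (jac (GG c)) p +
        ((8 : ℂ) * 10 ^ 10) • ContinuousLinearMap.fst ℂ ℂ ℂ)
        (closedBall (0 : C2) (1 / 100000)) (convex_closedBall _ _) ?_ hx hy
        (C := 10 ^ 10 * ‖x.1 - y.1‖ + 10 ^ 9 * ‖x.2 - y.2‖) ?_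
    · refine le_trans (le_of_eq ?_) this
      congr 1
      ring
    · intro p hp'
      refine HasFDerivAt.add ?_ ?_
      · exact (hjac p (hB1 hp')).differentiableAt.hasFDerivAt
      · exact (ContinuousLinearMap.fst ℂ ℂ ℂ).hasFDerivAt.const_mul ((8 : ℂ) * 10 ^ 10)
    · intro p hp'
      have h1 := (hc.u5b p hp').le
      have h2 := (hc.u5c p hp').le
      show ‖fderiv ℂ (jac (GG c)) p (x - y) + ((8 : ℂ) * 10 ^ 10) * (x.1 - y.1)‖ ≤ _
      rw [sysone_lin (fderiv ℂ (jac (GG c)) p) (x - y)]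
      calc ‖(x - y).1 • (fderiv ℂ (jac (GG c)) p) (1, 0) + (x - y).2 • (fderiv ℂ (jac (GG c)) p) (0, 1) +
              8 * 10 ^ 10 * (x.1 - y.1)‖
          = ‖(x.1 - y.1) * ((fderiv ℂ (jac (GG c)) p) (1, 0) + 8 * 10 ^ 10) +
              (x.2 - y.2) * (fderiv ℂ (jac (GG c)) p) (0, 1)‖ := by
            congr 1
            simp only [Prod.fst_sub, Prod.snd_sub, smul_eq_mul]
            ring
        _ ≤ ‖x.1 - y.1‖ * ‖(fderiv ℂ (jac (GG c)) p) (1, 0) + 8 * 10 ^ 10‖ +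
              ‖x.2 - y.2‖ * ‖(fderiv ℂ (jac (GG c)) p) (0, 1)‖ := by
            refine (norm_add_le _ _).trans ?_
            rw [norm_mul, norm_mul]
        _ ≤ ‖x.1 - y.1‖ * 10 ^ 10 + ‖x.2 - y.2‖ * 10 ^ 9 := by gcongr
        _ = _ := by ring

end

end Pool.Agent.H429
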