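import Pool.Agent.H429.Stmts3

open MeasureTheory Filter Topology Metric

namespace Pool.Agent.H429

noncomputable section

/-- the explicit map, written out -/
private def tone_g (l : ℂ) (x : C2) : C2 :=
  (10 ^ 6 * x.2 ^ 2 - 4000 * x.2 + l, 10 ^ 7 * (x.2 - x.1 ^ 2))

private theorem tone_GG (hp : S_poly) (l : ℂ) : GG (cc l) = tone_g l := by
  funext x
  have e1 : m020 ≠ m011 := by decide
  have e2 : m020 ≠ m002 := by decide
  have e3 : m011 ≠ m020 := by decide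
  have e4 : m011 ≠ m002 := by decide
  have e5 : m002 ≠ m020 := by decide
  have e6 : m002 ≠ m011 := by decide
  have e7 : m200 ≠ m020 := by decide
  have e8 : m200 ≠ m011 := by decide
  have e9 : m200 ≠ m002 := by decide
  have f1 : m110 ≠ m020 := by decide
  have f2 : m110 ≠ m011 := by decide
  have f3 : m110 ≠ m002 := by decide
  have f4 : m110 ≠ m200 := by decide
  have f5 : m101 ≠ m020 := by decide
  have f6 : m101 ≠ m011 := by decide
  have f7 : m101 ≠ m002 := by decide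
  have f8 : m101 ≠ m200 := by decide
  have f9 : m020 ≠ m200 := by decide
  have g1 : m011 ≠ m200 := by decide
  have g2 : m002 ≠ m200 := by decide
  have h0 : FF (cc l) x 0 = 10 ^ 6 * x.2 ^ 2 - 4000 * x.2 + l := by
    unfold FF
    rw [hp]
    simp [cc, ch, *]
    ring
  have h1 : FF (cc l) x 1 = 10 ^ 7 * (x.2 - x.1 ^ 2) := by
    unfold FF
    rw [hp]
    simp [cc, ch, *]
    ring
  have h2 : FF (cc l) x 2 = 1 := by
    unfold FF
    rw [hp]
    simp [cc, ch, *]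
  unfold GG tone_g
  rw [h0, h1, h2, div_one, div_one]

private def tone_A (x : C2) : C2 →L[ℂ] C2 :=
  ((2 * 10 ^ 6 * x.2 - 4000 : ℂ) • ContinuousLinearMap.snd ℂ ℂ ℂ).prod
    ((10 ^ 7 : ℂ) • ContinuousLinearMap.snd ℂ ℂ ℂ -
      (2 * 10 ^ 7 * x.1 : ℂ) • ContinuousLinearMap.fst ℂ ℂ ℂ)

private theorem tone_hasFDerivAt (l : ℂ) (x : C2) : HasFDerivAt (tone_g l) (tone_A x) x := by
  have h1 : HasFDerivAt (fun y : C2 => y.1) (ContinuousLinearMap.fst ℂ ℂ ℂ) x := hasFDerivAt_fst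
  have h2 : HasFDerivAt (fun y : C2 => y.2) (ContinuousLinearMap.snd ℂ ℂ ℂ) x := hasFDerivAt_snd
  have h3 := ((((h2.pow 2).const_mul (10 ^ 6 : ℂ)).sub (h2.const_mul (4000 : ℂ))).add_const l)
  have h4 := (h2.sub (h1.pow 2)).const_mul (10 ^ 7 : ℂ)
  refine (h3.prodMk h4).congr_fderiv ?_
  ext <;> simp [tone_A] <;> ring

private theorem tone_det (x : C2) :
    (tone_A x).det = 2 * 10 ^ 7 * x.1 * (2 * 10 ^ 6 * x.2 - 4000) := by
  unfold ContinuousLinearMap.det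
  rw [← LinearMap.det_toMatrix (Module.Basis.finTwoProd ℂ), Matrix.det_fin_two]
  simp [LinearMap.toMatrix_apply, tone_A]
  ring

private theorem tone_jac (l : ℂ) (x : C2) :
    jac (tone_g l) x = 2 * 10 ^ 7 * x.1 * (2 * 10 ^ 6 * x.2 - 4000) := by
  unfold jac
  rw [(tone_hasFDerivAt l x).fderiv, tone_det]

private theorem tone_pre1 (g : C2 → C2) (b : C2) : pre g 1 b = {x | x ∈ PP ∧ g x = b} := by
  ext x
  unfold pre
  constructor
  · rintro ⟨h1, h2⟩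
    exact ⟨h2 0 Nat.zero_lt_one, h1⟩
  · rintro ⟨h1, h2⟩
    refine ⟨h2, fun i hi => ?_⟩
    obtain rfl : i = 0 := by omega
    exact h1

private theorem tone_nocrit {l : ℂ} (h1 : 3 / 2 < ‖l‖) (h2 : ‖l‖ < 7 / 4) {x : C2}
    (hx : tone_g l x ∈ closedBall (0 : C2) 1) : jac (tone_g l) x ≠ 0 := by
  intro hj
  rw [tone_jac] at hj
  rw [mem_closedBall, dist_zero_right, Prod.norm_def, max_le_iff] at hx
  obtain ⟨h3, h4⟩ := hx
  simp only [tone_g] at h3 h4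
  rcases mul_eq_zero.1 hj with h5 | h5
  · have h6 : x.1 = 0 := by
      rcases mul_eq_zero.1 h5 with h7 | h7
      · norm_num at h7
      · exact h7
    rw [h6] at h4
    have h7 : ‖x.2‖ ≤ 1 / 10 ^ 7 := by
      have h8 : ‖(10 ^ 7 : ℂ) * (x.2 - 0 ^ 2)‖ = 10 ^ 7 * ‖x.2‖ := by
        rw [norm_mul]
        norm_num
      rw [h8] at h4
      rw [le_div_iff₀ (by norm_num)]
      linarith
    have h9 : l = (10 ^ 6 * x.2 ^ 2 - 4000 * x.2 + l) - 10 ^ 6 * x.2 ^ 2 + 4000 * x.2 := by ring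
    have h10 : ‖l‖ ≤ ‖10 ^ 6 * x.2 ^ 2 - 4000 * x.2 + l‖ + 10 ^ 6 * ‖x.2‖ ^ 2 + 4000 * ‖x.2‖ := by
      conv_lhs => rw [h9]
      refine (norm_add_le _ _).trans (add_le_add ((norm_sub_le _ _).trans
        (add_le_add le_rfl (le_of_eq ?_))) (le_of_eq ?_))
      · rw [norm_mul, norm_pow]; norm_num
      · rw [norm_mul]; norm_num
    have h11 : 0 ≤ ‖x.2‖ := norm_nonneg _
    have h12 : ‖x.2‖ ^ 2 ≤ (1 / 10 ^ 7) ^ 2 := pow_le_pow_left₀ h11 h7 2
    norm_num at h7 h12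
    linarith
  · have h6 : x.2 = 4000 / (2 * 10 ^ 6) := by
      field_simp
      linear_combination h5
    rw [h6] at h3
    have h7 : (10 ^ 6 * (4000 / (2 * 10 ^ 6)) ^ 2 - 4000 * (4000 / (2 * 10 ^ 6)) + l : ℂ) =
        l - 4 := by
      norm_num
      ring
    rw [h7] at h3
    have h8 : (4 : ℂ) = l - (l - 4) := by ring
    have h9 : ‖(4 : ℂ)‖ ≤ ‖l‖ + ‖l - 4‖ := by
      conv_lhs => rw [h8]
      exact norm_sub_le _ _
    have h10 : ‖(4 : ℂ)‖ = 4 := by norm_num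
    linarith

private theorem tone_VV {l : ℂ} (h1 : 3 / 2 < ‖l‖) (h2 : ‖l‖ < 7 / 4) (j : ℕ) :
    VV (tone_g l) (j + 1) = ∅ := by
  ext b
  simp only [Set.mem_empty_iff_false, iff_false]
  rintro ⟨hb, x, ⟨hx1, hx2⟩, hj⟩
  refine tone_nocrit h1 h2 ?_ hj
  rcases Nat.eq_zero_or_pos j with rfl | hj'
  · have : tone_g l x = b := hx1
    rw [this]
    exact ball_subset_closedBall hb
  · have h3 := hx2 1 (by omega)
    have h4 : tone_g l x ∈ PP := h3
    exact closedBall_subset_closedBall (by norm_num) h4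

private theorem tone_avg {l : ℂ} (h1 : 3 / 2 < ‖l‖) (h2 : ‖l‖ < 7 / 4) {b : C2} (hb : b ∈ BB) :
    avg (tone_g l) 1 (fun x => Real.log ‖jac (tone_g l) x‖) b =
    Real.log (2 * 10 ^ 7) - (1 / 4) * Real.log (10 ^ 6) +
      (1 / 4) * Real.log ‖l - b.1 + 10 ^ 6 * b.2 ^ 2 / 10 ^ 14 - 4000 * b.2 / 10 ^ 7‖ +
      (1 / 2) * Real.log ‖4 * 10 ^ 6 * (l - b.1) - 4000 ^ 2‖ := by
  classical
  have hb' : ‖b.1‖ < 1 ∧ ‖b.2‖ < 1 := by
    unfold BB at hb
    rw [mem_ball, dist_zero_right, Prod.norm_def, max_lt_iff] at hb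
    exact hb
  obtain ⟨hb1, hb2⟩ := hb'
  obtain ⟨δ, hδ⟩ : ∃ δ : ℂ, δ ^ 2 = 4000 ^ 2 - 4 * 10 ^ 6 * (l - b.1) :=
    IsAlgClosed.exists_pow_nat_eq _ (by norm_num)
  obtain ⟨β, hβ⟩ : ∃ β : ℂ, β = b.2 / 10 ^ 7 := ⟨_, rfl⟩
  obtain ⟨w₁, hw₁⟩ : ∃ w : ℂ, w = (4000 + δ) / (2 * 10 ^ 6) := ⟨_, rfl⟩
  obtain ⟨w₂, hw₂⟩ : ∃ w : ℂ, w = (4000 - δ) / (2 * 10 ^ 6) := ⟨_, rfl⟩
  obtain ⟨s₁, hs₁⟩ : ∃ s : ℂ, s ^ 2 = w₁ - β := IsAlgClosed.exists_pow_nat_eq _ (by norm_num)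
  obtain ⟨s₂, hs₂⟩ : ∃ s : ℂ, s ^ 2 = w₂ - β := IsAlgClosed.exists_pow_nat_eq _ (by norm_num)
  -- sizes
  have hlb : ‖l - b.1‖ < 11 / 4 := by
    have := norm_sub_le l b.1
    linarith
  have hβn : ‖β‖ ≤ 1 / 10 ^ 7 := by
    rw [hβ, norm_div]
    have : ‖(10 ^ 7 : ℂ)‖ = 10 ^ 7 := by norm_num
    rw [this]
    gcongr
  have hδn : ‖δ‖ ^ 2 ≤ 27000000 := by
    rw [← norm_pow, hδ]
    refine (norm_sub_le _ _).trans ?_
    have e1 : ‖(4000 ^ 2 : ℂ)‖ = 16000000 := by norm_num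
    have e2 : ‖4 * 10 ^ 6 * (l - b.1)‖ = 4000000 * ‖l - b.1‖ := by
      rw [norm_mul]; norm_num
    rw [e1, e2]
    linarith
  have hδn' : ‖δ‖ ≤ 5200 := by
    by_contra hc
    push Not at hc
    nlinarith [norm_nonneg δ]
  have hD : (4000 ^ 2 - 4 * 10 ^ 6 * (l - b.1) : ℂ) ≠ 0 := by
    intro h0
    have h3 : (4000 ^ 2 : ℂ) = 4 * 10 ^ 6 * (l - b.1) := sub_eq_zero.1 h0
    have h4 := congrArg norm h3
    have e1 : ‖(4000 ^ 2 : ℂ)‖ = 16000000 := by norm_num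
    have e2 : ‖4 * 10 ^ 6 * (l - b.1)‖ = 4000000 * ‖l - b.1‖ := by
      rw [norm_mul]; norm_num
    rw [e1, e2] at h4
    linarith
  have hδ0 : δ ≠ 0 := by
    rintro rfl
    rw [zero_pow two_ne_zero] at hδ
    exact hD hδ.symm
  have hwn₁ : ‖w₁‖ ≤ 46 / 10000 := by
    rw [hw₁, norm_div]
    have e1 : ‖(2 * 10 ^ 6 : ℂ)‖ = 2000000 := by norm_num
    have e2 : ‖4000 + δ‖ ≤ 9200 := by
      refine (norm_add_le _ _).trans ?_
      have : ‖(4000 : ℂ)‖ = 4000 := by norm_num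
      rw [this]
      linarith
    rw [e1, div_le_iff₀ (by norm_num)]
    linarith
  have hwn₂ : ‖w₂‖ ≤ 46 / 10000 := by
    rw [hw₂, norm_div]
    have e1 : ‖(2 * 10 ^ 6 : ℂ)‖ = 2000000 := by norm_num
    have e2 : ‖4000 - δ‖ ≤ 9200 := by
      refine (norm_sub_le _ _).trans ?_
      have : ‖(4000 : ℂ)‖ = 4000 := by norm_num
      rw [this]
      linarith
    rw [e1, div_le_iff₀ (by norm_num)]
    linarith
  have hsn : ∀ s w : ℂ, s ^ 2 = w - β → ‖w‖ ≤ 46 / 10000 → ‖s‖ ≤ 1 / 12 := by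
    intro s w hs hw
    by_contra hc
    push Not at hc
    have h3 : ‖s‖ ^ 2 ≤ ‖w‖ + ‖β‖ := by
      rw [← norm_pow, hs]
      exact norm_sub_le _ _
    norm_num at hβn
    nlinarith [norm_nonneg s]
  -- the product
  have hprod : 10 ^ 6 * ((w₁ - β) * (w₂ - β)) = l - b.1 + 10 ^ 6 * β ^ 2 - 4000 * β := by
    rw [hw₁, hw₂]
    field_simp
    linear_combination (-1 : ℂ) * hδ
  have hQ : l - b.1 + 10 ^ 6 * β ^ 2 - 4000 * β ≠ 0 := by
    intro h0
    have h3 : l = b.1 - 10 ^ 6 * β ^ 2 + 4000 * β := by linear_combination h0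
    have h4 : ‖l‖ ≤ ‖b.1‖ + 1000000 * ‖β‖ ^ 2 + 4000 * ‖β‖ := by
      conv_lhs => rw [h3]
      refine (norm_add_le _ _).trans (add_le_add ((norm_sub_le _ _).trans
        (add_le_add le_rfl (le_of_eq ?_))) (le_of_eq ?_))
      · rw [norm_mul, norm_pow]; norm_num
      · rw [norm_mul]; norm_num
    have h5 : ‖β‖ ^ 2 ≤ (1 / 10 ^ 7) ^ 2 := pow_le_pow_left₀ (norm_nonneg _) hβn 2
    norm_num at hβn h5
    linarith
  have hne : (w₁ - β) ≠ 0 ∧ (w₂ - β) ≠ 0 := by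
    constructor
    · intro h0
      rw [h0, zero_mul, mul_zero] at hprod
      exact hQ hprod.symm
    · intro h0
      rw [h0, mul_zero, mul_zero] at hprod
      exact hQ hprod.symm
  have hs₁0 : s₁ ≠ 0 := by
    rintro rfl
    rw [zero_pow two_ne_zero] at hs₁
    exact hne.1 hs₁.symm
  have hs₂0 : s₂ ≠ 0 := by
    rintro rfl
    rw [zero_pow two_ne_zero] at hs₂
    exact hne.2 hs₂.symm
  have hww : w₁ ≠ w₂ := by
    intro h
    apply hδ0
    rw [hw₁, hw₂] at h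
    field_simp at h
    linear_combination (1 / 2 : ℂ) * h
  have hd₁ : 2 * 10 ^ 6 * w₁ - 4000 = δ := by
    rw [hw₁]; field_simp; ring
  have hd₂ : 2 * 10 ^ 6 * w₂ - 4000 = -δ := by
    rw [hw₂]; field_simp; ring
  have hb2' : b.2 = 10 ^ 7 * β := by
    rw [hβ]; field_simp
  -- values of the map
  have hval : ∀ s w : ℂ, s ^ 2 = w - β → (2 * 10 ^ 6 * w - 4000) ^ 2 = δ ^ 2 →
      tone_g l (s, w) = b := by
    intro s w hs hw
    apply Prod.ext
    · simp only [tone_g]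
      rw [hδ] at hw
      linear_combination (1 / (4 * 10 ^ 6) : ℂ) * hw
    · simp only [tone_g]
      rw [hs, hb2']
      ring
  have hset : pre (tone_g l) 1 b =
      ↑({(s₁, w₁), (-s₁, w₁), (s₂, w₂), (-s₂, w₂)} : Finset C2) := by
    rw [tone_pre1]
    ext x
    simp only [Finset.coe_insert, Finset.coe_singleton, Set.mem_insert_iff,
      Set.mem_singleton_iff]
    constructor
    · rintro ⟨_, hx⟩
      obtain ⟨z, w⟩ := x
      have e1 := congrArg Prod.fst hx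
      have e2 := congrArg Prod.snd hx
      simp only [tone_g] at e1 e2
      rw [hb2'] at e2
      have e3 : (2 * 10 ^ 6 * w - 4000) ^ 2 = δ ^ 2 := by
        rw [hδ]
        linear_combination (4 * 10 ^ 6 : ℂ) * e1
      have e4 : z ^ 2 = w - β := by
        have e5 : (10 ^ 7 : ℂ) * (w - z ^ 2 - β) = 0 := by linear_combination e2
        have e6 : (10 ^ 7 : ℂ) ≠ 0 := by norm_num
        have e7 := (mul_eq_zero.1 e5).resolve_left e6
        linear_combination (-1 : ℂ) * e7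
      rcases sq_eq_sq_iff_eq_or_eq_neg.1 e3 with e5 | e5
      · have e6 : w = w₁ := by
          rw [hw₁]; field_simp; linear_combination e5
        subst e6
        rw [← hs₁] at e4
        rcases sq_eq_sq_iff_eq_or_eq_neg.1 e4 with e7 | e7
        · left; rw [e7]
        · right; left; rw [e7]
      · have e6 : w = w₂ := by
          rw [hw₂]; field_simp; linear_combination e5
        subst e6
        rw [← hs₂] at e4
        rcases sq_eq_sq_iff_eq_or_eq_neg.1 e4 with e7 | e7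
        · right; right; left; rw [e7]
        · right; right; right; rw [e7]
    · have hPP : ∀ s w : ℂ, s ^ 2 = w - β → ‖w‖ ≤ 46 / 10000 → (s, w) ∈ PP := by
        intro s w hs hw
        unfold PP
        rw [mem_closedBall, dist_zero_right, Prod.norm_def, max_le_iff]
        exact ⟨hsn s w hs hw, by
          simp only
          linarith⟩
      have hn₁ : (-s₁) ^ 2 = w₁ - β := by rw [neg_sq, hs₁]
      have hn₂ : (-s₂) ^ 2 = w₂ - β := by rw [neg_sq, hs₂]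
      have hq₁ : (2 * 10 ^ 6 * w₁ - 4000) ^ 2 = δ ^ 2 := by rw [hd₁]
      have hq₂ : (2 * 10 ^ 6 * w₂ - 4000) ^ 2 = δ ^ 2 := by rw [hd₂, neg_sq]
      rintro (rfl | rfl | rfl | rfl)
      · exact ⟨hPP _ _ hs₁ hwn₁, hval _ _ hs₁ hq₁⟩
      · exact ⟨hPP _ _ hn₁ hwn₁, hval _ _ hn₁ hq₁⟩
      · exact ⟨hPP _ _ hs₂ hwn₂, hval _ _ hs₂ hq₂⟩
      · exact ⟨hPP _ _ hn₂ hwn₂, hval _ _ hn₂ hq₂⟩
  have hjac : ∀ s w : ℂ, ∀ e : ℂ, 2 * 10 ^ 6 * w - 4000 = e → s ≠ 0 → e ≠ 0 →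
      Real.log ‖jac (tone_g l) (s, w)‖ = Real.log (2 * 10 ^ 7) + Real.log ‖s‖ + Real.log ‖e‖ := by
    intro s w e he hs0 he0
    rw [tone_jac]
    simp only
    rw [he, norm_mul, norm_mul]
    have e1 : ‖(2 * 10 ^ 7 : ℂ)‖ = 2 * 10 ^ 7 := by norm_num
    rw [e1, Real.log_mul (mul_ne_zero (by norm_num) (norm_ne_zero_iff.2 hs0))
      (norm_ne_zero_iff.2 he0), Real.log_mul (by norm_num) (norm_ne_zero_iff.2 hs0)]
  have hnn₁ : s₁ ≠ -s₁ := fun h => hs₁0 (by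
    have : (2 : ℂ) * s₁ = 0 := by linear_combination h
    simpa using this)
  have hnn₂ : s₂ ≠ -s₂ := fun h => hs₂0 (by
    have : (2 : ℂ) * s₂ = 0 := by linear_combination h
    simpa using this)
  unfold avg
  rw [hset, finsum_mem_coe_finset, Finset.sum_insert, Finset.sum_insert, Finset.sum_insert,
    Finset.sum_singleton]
  · rw [hjac s₁ w₁ δ hd₁ hs₁0 hδ0, hjac (-s₁) w₁ δ hd₁ (neg_ne_zero.2 hs₁0) hδ0,
      hjac s₂ w₂ (-δ) hd₂ hs₂0 (neg_ne_zero.2 hδ0),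
      hjac (-s₂) w₂ (-δ) hd₂ (neg_ne_zero.2 hs₂0) (neg_ne_zero.2 hδ0)]
    simp only [norm_neg]
    have e1 : 2 * Real.log ‖δ‖ = Real.log ‖4 * 10 ^ 6 * (l - b.1) - 4000 ^ 2‖ := by
      rw [norm_sub_rev, ← hδ, norm_pow, Real.log_pow]
      norm_num
    have e2 : 2 * Real.log ‖s₁‖ = Real.log ‖w₁ - β‖ := by
      rw [← hs₁, norm_pow, Real.log_pow]
      norm_num
    have e3 : 2 * Real.log ‖s₂‖ = Real.log ‖w₂ - β‖ := by
      rw [← hs₂, norm_pow, Real.log_pow]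
      norm_num
    have e4 : Real.log (10 ^ 6) + (Real.log ‖w₁ - β‖ + Real.log ‖w₂ - β‖) =
        Real.log ‖l - b.1 + 10 ^ 6 * β ^ 2 - 4000 * β‖ := by
      rw [← hprod, norm_mul, norm_mul]
      have e5 : ‖(10 ^ 6 : ℂ)‖ = 10 ^ 6 := by norm_num
      rw [e5, Real.log_mul (by norm_num) (mul_ne_zero (norm_ne_zero_iff.2 hne.1)
        (norm_ne_zero_iff.2 hne.2)), Real.log_mul (norm_ne_zero_iff.2 hne.1)
        (norm_ne_zero_iff.2 hne.2)]
    have e6 : l - b.1 + 10 ^ 6 * b.2 ^ 2 / 10 ^ 14 - 4000 * b.2 / 10 ^ 7 =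
        l - b.1 + 10 ^ 6 * β ^ 2 - 4000 * β := by
      rw [hβ]; ring
    rw [e6, ← e4, ← e1, ← e2, ← e3]
    ring
  · simp only [Finset.mem_singleton, Prod.mk.injEq]
    rintro ⟨h3, _⟩
    exact hnn₂ h3
  · simp only [Finset.mem_insert, Finset.mem_singleton, Prod.mk.injEq]
    rintro (⟨_, h3⟩ | ⟨_, h3⟩)
    · exact hww h3
    · exact hww h3
  · simp only [Finset.mem_insert, Finset.mem_singleton, Prod.mk.injEq]
    rintro (⟨h3, _⟩ | ⟨_, h3⟩ | ⟨_, h3⟩)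
    · exact hnn₁ h3
    · exact hww h3
    · exact hww h3

/-- TARGET -/
theorem t_T1 (hp : S_poly) (hs1 : S_sys1) (he : S_elim) (hex : S_ex) : S_T1 := by
  intro l h1 h2
  rw [tone_GG hp]
  exact ⟨fun j => tone_VV h1 h2 j, fun b hb => tone_avg h1 h2 hb⟩

end

end Pool.Agent.H429
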