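import Pool.Agent.H429.Stmts3

open MeasureTheory Filter Topology Metric

namespace Pool.Agent.H429

noncomputable section

/-- A real number is at most the number of naturals below it. -/
private theorem tail_count (R : ℕ) (t : ℝ) (ht : t ≤ R) :
    t ≤ ∑ j ∈ Finset.range R, (if (j : ℝ) < t then (1 : ℝ) else 0) := by
  induction R with
  | zero => simpa using ht
  | succ R ih =>
    rw [Finset.sum_range_succ]
    by_cases h : t ≤ R
    · have h1 := ih h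
      have h2 : (0 : ℝ) ≤ if (R : ℝ) < t then (1 : ℝ) else 0 := by
        split_ifs <;> norm_num
      linarith
    · push Not at h
      have h1 : ∑ j ∈ Finset.range R, (if (j : ℝ) < t then (1 : ℝ) else 0) = R := by
        rw [Finset.sum_congr rfl (g := fun _ => (1 : ℝ))]
        · simp
        · intro j hj
          rw [if_pos]
          have : (j : ℝ) < R := by exact_mod_cast Finset.mem_range.mp hj
          linarith
      rw [h1, if_pos h]
      push_cast at ht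
      exact ht

/-- The uniform count of the preimages with small Jacobian. -/
private theorem tail_bound {g : C2 → C2} {r : ℝ} {δ₀ κ : ℝ} {c j₀ : ℕ}
    (hcount : ∀ (n m : ℕ) (b : C2) (δ : ℝ), b ∈ BB → δ ≤ δ₀ → (10 ^ 5 : ℝ) ^ m * δ ≤ 1 / 100 →
      m + 1 ≤ n →
      ({x | x ∈ pre g n b ∧ ‖jac g x‖ < δ} : Set C2).ncard ≤ 3 ^ (m + 1) * 4 ^ (n - (m + 1)))
    (hlower : ∀ b : C2, Away g b r → ∀ n : ℕ, 1 ≤ n → ∀ x ∈ pre g n b,
      κ * (1 / (2 * 10 ^ 7)) ^ n ≤ ‖jac g x‖)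
    (hc : (1 / 10 ^ 8 : ℝ) ^ c ≤ κ) (hj₀ : (1 / 10 ^ 5 : ℝ) ^ j₀ ≤ δ₀)
    (j : ℕ) (hj1 : 1 ≤ j) (hj : j₀ ≤ j) (b : C2) (hb : Away g b r) (n : ℕ) (hn : 1 ≤ n) :
    (({x | x ∈ pre g n b ∧ ‖jac g x‖ < (1 / 10 ^ 5 : ℝ) ^ j} : Set C2).ncard : ℝ) ≤
      4 ^ n * ((4 / 3) ^ c * (9 / 10) ^ j) := by
  have hbB : b ∈ BB := hb.2.1 (mem_ball_self hb.1)
  have hδ : (1 / 10 ^ 5 : ℝ) ^ j ≤ δ₀ :=
    (pow_le_pow_of_le_one (by positivity) (by norm_num) hj).trans hj₀
  have hmul : ∀ m : ℕ, m + 1 ≤ j → (10 ^ 5 : ℝ) ^ m * (1 / 10 ^ 5 : ℝ) ^ j ≤ 1 / 100 := by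
    intro m hm
    obtain ⟨l, rfl⟩ := Nat.exists_eq_add_of_le hm
    have h1 : (10 ^ 5 : ℝ) ^ m * (1 / 10 ^ 5 : ℝ) ^ (m + 1 + l) =
        (1 / 10 ^ 5 : ℝ) ^ (1 + l) := by
      rw [show m + 1 + l = m + (1 + l) from by ring, pow_add (1 / 10 ^ 5 : ℝ) m (1 + l), ← mul_assoc,
        ← mul_pow]
      norm_num
    rw [h1]
    calc (1 / 10 ^ 5 : ℝ) ^ (1 + l) ≤ (1 / 10 ^ 5 : ℝ) ^ 1 :=
          pow_le_pow_of_le_one (by positivity) (by norm_num) (by omega)
      _ ≤ 1 / 100 := by norm_num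
  have h43 : (1 : ℝ) ≤ (4 / 3) ^ c := one_le_pow₀ (by norm_num)
  by_cases hjn : j ≤ n
  · have h1 := hcount n (j - 1) b _ hbB hδ (hmul (j - 1) (by omega)) (by omega)
    have h2 : j - 1 + 1 = j := by omega
    rw [h2] at h1
    have h3 : (({x | x ∈ pre g n b ∧ ‖jac g x‖ < (1 / 10 ^ 5 : ℝ) ^ j} : Set C2).ncard : ℝ) ≤
        3 ^ j * 4 ^ (n - j) := by exact_mod_cast h1
    refine h3.trans ?_
    have h4 : (3 : ℝ) ^ j * 4 ^ (n - j) = 4 ^ n * (3 / 4) ^ j := by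
      obtain ⟨l, rfl⟩ := Nat.exists_eq_add_of_le hjn
      rw [Nat.add_sub_cancel_left, div_pow, pow_add]
      field_simp
    rw [h4]
    apply mul_le_mul_of_nonneg_left _ (by positivity)
    calc (3 / 4 : ℝ) ^ j ≤ (9 / 10) ^ j := pow_le_pow_left₀ (by norm_num) (by norm_num) j
      _ = 1 * (9 / 10) ^ j := (one_mul _).symm
      _ ≤ (4 / 3) ^ c * (9 / 10) ^ j := mul_le_mul_of_nonneg_right h43 (by positivity)
  · push Not at hjn
    rcases Set.eq_empty_or_nonempty ({x | x ∈ pre g n b ∧ ‖jac g x‖ < (1 / 10 ^ 5 : ℝ) ^ j} : Set C2)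
      with he | ⟨x, hx1, hx2⟩
    · rw [he, Set.ncard_empty]
      push_cast
      positivity
    · have h1 := hcount n (n - 1) b _ hbB hδ (hmul (n - 1) (by omega)) (by omega)
      have h2 : n - 1 + 1 = n := by omega
      rw [h2, Nat.sub_self, pow_zero, mul_one] at h1
      have h3 : (({x | x ∈ pre g n b ∧ ‖jac g x‖ < (1 / 10 ^ 5 : ℝ) ^ j} : Set C2).ncard : ℝ) ≤
          3 ^ n := by exact_mod_cast h1
      refine h3.trans ?_
      have h4 := hlower b hb n hn x hx1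
      have h5 : (1 / 10 ^ 8 : ℝ) ^ c * (1 / 10 ^ 8 : ℝ) ^ n < (1 / 10 ^ 5 : ℝ) ^ j := by
        calc (1 / 10 ^ 8 : ℝ) ^ c * (1 / 10 ^ 8 : ℝ) ^ n
            ≤ κ * (1 / (2 * 10 ^ 7)) ^ n := by
              apply mul_le_mul hc _ (by positivity) (le_trans (by positivity) hc)
              exact pow_le_pow_left₀ (by positivity) (by norm_num) n
          _ ≤ ‖jac g x‖ := h4
          _ < _ := hx2
      have h6 : j ≤ 2 * (n + c) := by
        by_contra h7
        push Not at h7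
        have h8 : (1 / 10 ^ 5 : ℝ) ^ j ≤ (1 / 10 ^ 8 : ℝ) ^ c * (1 / 10 ^ 8 : ℝ) ^ n := by
          calc (1 / 10 ^ 5 : ℝ) ^ j ≤ (1 / 10 ^ 5 : ℝ) ^ (2 * (n + c)) :=
                pow_le_pow_of_le_one (by positivity) (by norm_num) h7.le
            _ = ((1 / 10 ^ 5 : ℝ) ^ 2) ^ (n + c) := by rw [pow_mul]
            _ ≤ (1 / 10 ^ 8 : ℝ) ^ (n + c) :=
                pow_le_pow_left₀ (by positivity) (by norm_num) _
            _ = _ := by rw [pow_add, mul_comm]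
        linarith
      have h9 : (3 / 4 : ℝ) ^ (n + c) ≤ (9 / 10) ^ j := by
        calc (3 / 4 : ℝ) ^ (n + c) ≤ ((9 / 10 : ℝ) ^ 2) ^ (n + c) :=
              pow_le_pow_left₀ (by norm_num) (by norm_num) _
          _ = (9 / 10 : ℝ) ^ (2 * (n + c)) := by rw [pow_mul]
          _ ≤ (9 / 10 : ℝ) ^ j := pow_le_pow_of_le_one (by norm_num) (by norm_num) h6
      have h10 : (3 : ℝ) ^ n = 4 ^ n * ((4 / 3) ^ c * (3 / 4) ^ (n + c)) := by
        rw [pow_add, mul_comm ((3 / 4 : ℝ) ^ n), ← mul_assoc ((4 / 3 : ℝ) ^ c), ← mul_pow,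
          div_pow 3 4 n]
        norm_num
        rw [mul_div_cancel₀]
        positivity
      rw [h10]
      apply mul_le_mul_of_nonneg_left _ (by positivity)
      exact mul_le_mul_of_nonneg_left h9 (by positivity)

/-- TARGET -/
theorem t_tail (hc : S_card) (h1 : S_count) (h2 : S_lower) : S_tail := by
  intro g hg r hr ε hε
  obtain ⟨δ₀, hδ₀, hcount⟩ := h1 g hg
  obtain ⟨κ, hκ, hlower⟩ := h2 g hg r hr
  obtain ⟨c, hc'⟩ : ∃ c : ℕ, (1 / 10 ^ 8 : ℝ) ^ c < κ :=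
    exists_pow_lt_of_lt_one hκ (by norm_num)
  obtain ⟨j₀, hj₀⟩ : ∃ j₀ : ℕ, (1 / 10 ^ 5 : ℝ) ^ j₀ < δ₀ :=
    exists_pow_lt_of_lt_one hδ₀ (by norm_num)
  have hΛ : 0 < Real.log (10 ^ 5) := Real.log_pos (by norm_num)
  set Λ : ℝ := Real.log (10 ^ 5) with hΛdef
  have hexp : ∀ a : ℕ, Real.exp (-(Λ * a)) = (1 / 10 ^ 5 : ℝ) ^ a := by
    intro a
    rw [Real.exp_neg, mul_comm, Real.exp_nat_mul, hΛdef, Real.exp_log (by norm_num), one_div, inv_pow]
  obtain ⟨K₁, hK₁⟩ : ∃ K₁ : ℕ, (9 / 10 : ℝ) ^ K₁ < ε / (10 * Λ * (4 / 3) ^ c) :=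
    exists_pow_lt_of_lt_one (by positivity) (by norm_num)
  let K : ℕ := K₁ + j₀ + 1
  have hK : Λ * (4 / 3) ^ c * (9 / 10 : ℝ) ^ K * 10 ≤ ε := by
    have h3 : (9 / 10 : ℝ) ^ K ≤ (9 / 10 : ℝ) ^ K₁ :=
      pow_le_pow_of_le_one (by norm_num) (by norm_num) (by omega)
    have h4 : (9 / 10 : ℝ) ^ K ≤ ε / (10 * Λ * (4 / 3) ^ c) := h3.trans hK₁.le
    rw [le_div_iff₀ (by positivity)] at h4
    linarith
  refine ⟨Λ * K, by positivity, ?_⟩
  intro b hb n hn
  have hbB : b ∈ BB := hb.2.1 (mem_ball_self hb.1)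
  have hfin := (hc g hg n b hbB).1
  -- positivity
  have hJpos : ∀ x ∈ pre g n b, 0 < ‖jac g x‖ := fun x hx =>
    lt_of_lt_of_le (by positivity) (hlower b hb n hn x hx)
  unfold avg
  rw [← sub_div, finsum_mem_eq_finite_toFinset_sum _ hfin, finsum_mem_eq_finite_toFinset_sum _ hfin,
    ← Finset.sum_sub_distrib, abs_div, abs_of_pos (by positivity : (0 : ℝ) < 4 ^ n),
    div_le_iff₀ (by positivity)]
  -- the terms
  obtain ⟨R, hR⟩ : ∃ R : ℕ, ∀ x ∈ pre g n b, (1 / 10 ^ 5 : ℝ) ^ (K + R) ≤ ‖jac g x‖ := by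
    obtain ⟨R, hR⟩ : ∃ R : ℕ, (1 / 10 ^ 5 : ℝ) ^ R < κ * (1 / (2 * 10 ^ 7)) ^ n :=
      exists_pow_lt_of_lt_one (by positivity) (by norm_num)
    refine ⟨R, fun x hx => ?_⟩
    calc (1 / 10 ^ 5 : ℝ) ^ (K + R) ≤ (1 / 10 ^ 5 : ℝ) ^ R :=
          pow_le_pow_of_le_one (by positivity) (by norm_num) (by omega)
      _ ≤ _ := hR.le
      _ ≤ _ := hlower b hb n hn x hx
  have hterm : ∀ x ∈ pre g n b,
      0 ≤ Real.log (max ‖jac g x‖ (Real.exp (-(Λ * K)))) - Real.log ‖jac g x‖ ∧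
      Real.log (max ‖jac g x‖ (Real.exp (-(Λ * K)))) - Real.log ‖jac g x‖ ≤
        Λ * ∑ j ∈ Finset.range R, (if ‖jac g x‖ < (1 / 10 ^ 5 : ℝ) ^ (K + j) then (1 : ℝ) else 0) := by
    intro x hx
    have hpos := hJpos x hx
    constructor
    · rw [sub_nonneg]
      exact Real.log_le_log hpos (le_max_left _ _)
    · by_cases hcase : Real.exp (-(Λ * K)) ≤ ‖jac g x‖
      · rw [max_eq_left hcase, sub_self]
        apply mul_nonneg hΛ.le
        apply Finset.sum_nonneg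
        intro j _
        split_ifs <;> norm_num
      · push Not at hcase
        rw [max_eq_right hcase.le, Real.log_exp]
        have hlog : ∀ j : ℕ, (‖jac g x‖ < (1 / 10 ^ 5 : ℝ) ^ (K + j) ↔
            (j : ℝ) < (-(Λ * K) - Real.log ‖jac g x‖) / Λ) := by
          intro j
          rw [← hexp (K + j), ← Real.log_lt_iff_lt_exp hpos, lt_div_iff₀ hΛ]
          push_cast
          constructor <;> intro h <;> linarith
        have h3 := tail_count R ((-(Λ * K) - Real.log ‖jac g x‖) / Λ) (by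
          have h4 := hR x hx
          have h5 : ¬ (‖jac g x‖ < (1 / 10 ^ 5 : ℝ) ^ (K + R)) := not_lt.mpr h4
          rw [hlog R] at h5
          exact not_lt.mp h5)
        rw [div_le_iff₀ hΛ, mul_comm _ Λ] at h3
        refine h3.trans (le_of_eq ?_)
        congr 1
        apply Finset.sum_congr rfl
        intro j _
        simp only [hlog j]
  have hsum_nonneg : 0 ≤ ∑ x ∈ hfin.toFinset,
      (Real.log (max ‖jac g x‖ (Real.exp (-(Λ * K)))) - Real.log ‖jac g x‖) :=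
    Finset.sum_nonneg fun x hx => (hterm x (hfin.mem_toFinset.mp hx)).1
  rw [abs_of_nonneg hsum_nonneg]
  calc ∑ x ∈ hfin.toFinset, (Real.log (max ‖jac g x‖ (Real.exp (-(Λ * K)))) - Real.log ‖jac g x‖)
      ≤ ∑ x ∈ hfin.toFinset, Λ * ∑ j ∈ Finset.range R,
          (if ‖jac g x‖ < (1 / 10 ^ 5 : ℝ) ^ (K + j) then (1 : ℝ) else 0) :=
        Finset.sum_le_sum fun x hx => (hterm x (hfin.mem_toFinset.mp hx)).2
    _ = Λ * ∑ j ∈ Finset.range R, ∑ x ∈ hfin.toFinset,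
          (if ‖jac g x‖ < (1 / 10 ^ 5 : ℝ) ^ (K + j) then (1 : ℝ) else 0) := by
        rw [← Finset.mul_sum, Finset.sum_comm]
    _ ≤ Λ * ∑ j ∈ Finset.range R, 4 ^ n * ((4 / 3) ^ c * (9 / 10) ^ (K + j)) := by
        apply mul_le_mul_of_nonneg_left _ hΛ.le
        apply Finset.sum_le_sum
        intro j _
        have h3 := tail_bound hcount hlower hc'.le hj₀.le (K + j) (by omega) (by omega) b hb n hn
        refine le_trans (le_of_eq ?_) h3
        rw [Finset.sum_boole]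
        congr 1
        rw [← Set.ncard_coe_finset]
        congr 1
        ext x
        simp [hfin.mem_toFinset]
    _ = 4 ^ n * (Λ * (4 / 3) ^ c * (9 / 10 : ℝ) ^ K * ∑ j ∈ Finset.range R, (9 / 10 : ℝ) ^ j) := by
        rw [Finset.mul_sum, Finset.mul_sum, Finset.mul_sum]
        apply Finset.sum_congr rfl
        intro j _
        rw [pow_add]
        ring
    _ ≤ 4 ^ n * (Λ * (4 / 3) ^ c * (9 / 10 : ℝ) ^ K * 10) := by
        apply mul_le_mul_of_nonneg_left _ (by positivity)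
        apply mul_le_mul_of_nonneg_left _ (by positivity)
        rw [geom_sum_eq (by norm_num)]
        have : (0 : ℝ) < (9 / 10) ^ R := by positivity
        rw [div_le_iff_of_neg (by norm_num)]
        linarith
    _ ≤ 4 ^ n * ε := mul_le_mul_of_nonneg_left hK (by positivity)
    _ = ε * 4 ^ n := mul_comm _ _

end

end Pool.Agent.H429
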