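import Pool.Agent.H429.Stmts3

open MeasureTheory Filter Topology Metric

namespace Pool.Agent.H429

noncomputable section

/-- The projector on the line of `v`, as an array of complex numbers. -/
def unique_J (v : Vec) (i k : Fin 3) : ℂ :=
  v i * (starRingEnd ℂ) (v k) / ((∑ l, ‖v l‖ ^ 2 : ℝ) : ℂ)

theorem unique_sum_pos {v : Vec} (hv : v ≠ 0) : 0 < ∑ l, ‖v l‖ ^ 2 := by
  obtain ⟨k, hk⟩ := Function.ne_iff.1 hv
  have h1 : 0 < ‖v k‖ ^ 2 := by
    have : 0 < ‖v k‖ := norm_pos_iff.2 hk
    positivity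
  exact lt_of_lt_of_le h1 (Finset.single_le_sum (f := fun l => ‖v l‖ ^ 2)
    (fun _ _ => by positivity) (Finset.mem_univ k))

theorem unique_J_smul {a : ℂ} (ha : a ≠ 0) (v : Vec) : unique_J (a • v) = unique_J v := by
  funext i k
  unfold unique_J
  have h1 : (∑ l, ‖(a • v) l‖ ^ 2) = ‖a‖ ^ 2 * ∑ l, ‖v l‖ ^ 2 := by
    rw [Finset.mul_sum]
    refine Finset.sum_congr rfl fun l _ => ?_
    rw [Pi.smul_apply, smul_eq_mul, norm_mul, mul_pow]
  have h2 : a * (starRingEnd ℂ) a = ((‖a‖ ^ 2 : ℝ) : ℂ) := by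
    rw [Complex.mul_conj, Complex.normSq_eq_norm_sq]
  have h3 : ((‖a‖ ^ 2 : ℝ) : ℂ) ≠ 0 := by
    rw [← h2]
    exact mul_ne_zero ha ((map_ne_zero _).2 ha)
  rw [h1, Pi.smul_apply, Pi.smul_apply, smul_eq_mul, smul_eq_mul, map_mul, Complex.ofReal_mul,
    ← mul_div_mul_left (v i * (starRingEnd ℂ) (v k)) _ h3]
  congr 1
  rw [← h2]
  ring

theorem unique_J_inj {v w : Vec} (hv : v ≠ 0) (hw : w ≠ 0) (h : unique_J v = unique_J w) :
    ∃ a : ℂ, a • w = v := by
  obtain ⟨k, hk⟩ := Function.ne_iff.1 hw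
  have hk' : (starRingEnd ℂ) (w k) ≠ 0 := (map_ne_zero _).2 hk
  have pv : (((∑ l, ‖v l‖ ^ 2 : ℝ)) : ℂ) ≠ 0 := Complex.ofReal_ne_zero.2 (unique_sum_pos hv).ne'
  have pw : (((∑ l, ‖w l‖ ^ 2 : ℝ)) : ℂ) ≠ 0 := Complex.ofReal_ne_zero.2 (unique_sum_pos hw).ne'
  have hkk := congrFun (congrFun h k) k
  unfold unique_J at hkk
  have hvk : (starRingEnd ℂ) (v k) ≠ 0 := by
    intro h0
    rw [h0, mul_zero, zero_div] at hkk
    exact div_ne_zero (mul_ne_zero hk hk') pw hkk.symm
  refine ⟨(starRingEnd ℂ) (w k) * (((∑ l, ‖v l‖ ^ 2 : ℝ)) : ℂ) /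
    ((((∑ l, ‖w l‖ ^ 2 : ℝ)) : ℂ) * (starRingEnd ℂ) (v k)), ?_⟩
  funext i
  have hi := congrFun (congrFun h i) k
  unfold unique_J at hi
  rw [Pi.smul_apply, smul_eq_mul]
  rw [div_eq_div_iff pv pw] at hi
  rw [div_mul_eq_mul_div, div_eq_iff (mul_ne_zero pw hvk)]
  linear_combination -hi

/-- The embedding of the projective plane. -/
def unique_E : P2 → Fin 3 → Fin 3 → ℂ :=
  Projectivization.lift (fun v => unique_J v.1) (by
    intro a b t h
    have ht : t ≠ 0 := by
      rintro rfl
      exact a.2 (by rw [h, zero_smul])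
    simp only [h]
    exact unique_J_smul ht b.1)

theorem unique_E_mk (v : Vec) (hv : v ≠ 0) : unique_E (Projectivization.mk ℂ v hv) = unique_J v :=
  rfl

theorem unique_E_continuous : Continuous unique_E := by
  refine continuous_coinduced_dom.2 ?_
  change Continuous fun v : {v : Vec // v ≠ 0} => unique_J v.1
  refine continuous_pi fun i => continuous_pi fun k => ?_
  unfold unique_J
  refine Continuous.div ?_ ?_ ?_
  · exact ((continuous_apply i).comp continuous_subtype_val).mul
      (Complex.continuous_conj.comp ((continuous_apply k).comp continuous_subtype_val))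
  · refine Complex.continuous_ofReal.comp (continuous_finsetSum _ fun l _ => ?_)
    exact (((continuous_apply l).comp continuous_subtype_val).norm).pow 2
  · intro v
    exact Complex.ofReal_ne_zero.2 (unique_sum_pos v.2).ne'

theorem unique_E_injective : Function.Injective unique_E := by
  intro p q
  induction p using Projectivization.ind with
  | h v hv =>
    induction q using Projectivization.ind with
    | h w hw =>
      intro h
      rw [unique_E_mk, unique_E_mk] at h
      exact (Projectivization.mk_eq_mk_iff' ℂ v w hv hw).2 (unique_J_inj hv hw h)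

theorem unique_compact : CompactSpace P2 := by
  have hne : ∀ s : sphere (0 : Vec) 1, s.1 ≠ 0 := by
    intro s h
    have := mem_sphere_zero_iff_norm.1 s.2
    rw [h, norm_zero] at this
    exact zero_ne_one this
  have hc : Continuous fun s : sphere (0 : Vec) 1 =>
      (Projectivization.mk' ℂ (⟨s.1, hne s⟩ : {v : Vec // v ≠ 0}) : P2) :=
    (continuous_coinduced_rng : Continuous
      (Projectivization.mk' ℂ : {v : Vec // v ≠ 0} → P2)).comp
      (continuous_subtype_val.subtype_mk _)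
  refine Function.Surjective.compactSpace hc ?_
  intro p
  induction p using Projectivization.ind with
  | h v hv =>
    have hn : ‖v‖ ≠ 0 := norm_ne_zero_iff.2 hv
    refine ⟨⟨((‖v‖⁻¹ : ℝ) : ℂ) • v, ?_⟩, ?_⟩
    · rw [mem_sphere_zero_iff_norm, norm_smul, Complex.norm_real, norm_inv, norm_norm,
        inv_mul_cancel₀ hn]
    · exact (Projectivization.mk_eq_mk_iff' ℂ _ v _ hv).2 ⟨((‖v‖⁻¹ : ℝ) : ℂ), rfl⟩

theorem unique_metrizable : TopologicalSpace.MetrizableSpace P2 := by
  have := unique_compact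
  exact (unique_E_continuous.isClosedEmbedding unique_E_injective).isEmbedding.metrizableSpace

/-- TARGET -/
theorem t_unique : S_unique := by
  intro f μ ν hμ hν
  have := unique_compact
  have := unique_metrizable
  have := hμ.prob
  have := hν.prob
  refine ext_of_forall_integral_eq_of_IsFiniteMeasure fun φ => ?_
  have h1 := hμ.tendsto φ.toContinuousMap
  have h2 := hν.tendsto φ.toContinuousMap
  have h3 : ∀ᵐ v : Vec, v ≠ 0 := by
    rw [ae_iff]
    simp
  obtain ⟨v, ⟨h1, h2⟩, h3⟩ := ((h1.and h2).and h3).exists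
  exact tendsto_nhds_unique (h1 h3) (h2 h3)

end

end Pool.Agent.H429
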