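import Pool.Agent.H429.Stmts3

open MeasureTheory Filter Topology Metric

namespace Pool.Agent.H429

noncomputable section

section vol

open scoped Pointwise ENNReal

theorem vol_poly_eq (hp : S_poly) (c : Coef 2) : poly c = fun (v : Vec) (i : Fin 3) =>
    c i m200 * v 0 ^ 2 + c i m020 * v 1 ^ 2 + c i m002 * v 2 ^ 2 + c i m110 * (v 0 * v 1) +
      c i m101 * (v 0 * v 2) + c i m011 * (v 1 * v 2) := by
  funext v i
  exact hp c v i

theorem vol_contDiff (hp : S_poly) (c : Coef 2) : ContDiff ℂ 1 (poly c) := by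
  rw [vol_poly_eq hp c, contDiff_pi]
  intro i
  fun_prop

theorem vol_smul (hp : S_poly) (c : Coef 2) (a : ℂ) (v : Vec) :
    poly c (a • v) = a ^ 2 • poly c v := by
  funext i
  rw [Pi.smul_apply, hp, hp]
  simp only [Pi.smul_apply, smul_eq_mul]
  ring

theorem vol_iter_smul (hp : S_poly) (c : Coef 2) (a : ℂ) (n : ℕ) (v : Vec) :
    (poly c)^[n] (a • v) = a ^ (2 ^ n) • (poly c)^[n] v := by
  induction n with
  | zero => simp
  | succ n ih =>
    rw [Function.iterate_succ_apply', ih, vol_smul hp, Function.iterate_succ_apply', ← pow_mul,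
      pow_succ]

theorem vol_out_smul {v : Vec} (a : ℂ) (hv : v ∈ Out) : a • v ∈ Out := by
  change ‖(a • v) 2‖ ≤ max ‖(a • v) 0‖ ‖(a • v) 1‖
  simp only [Pi.smul_apply, smul_eq_mul, norm_mul]
  rw [← mul_max_of_nonneg _ _ (norm_nonneg a)]
  exact mul_le_mul_of_nonneg_left hv (norm_nonneg a)

theorem vol_out_closed : IsClosed Out := by
  refine isClosed_le ?_ ?_
  · exact (continuous_apply 2).norm
  · exact (continuous_apply 0).norm.max (continuous_apply 1).norm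

theorem vol_fderiv_smul (hp : S_poly) (c : Coef 2) (a : ℂ) (ha : a ≠ 0) (v : Vec) :
    fderiv ℂ (poly c) (a • v) = a • fderiv ℂ (poly c) v := by
  have hd : Differentiable ℂ (poly c) := (vol_contDiff hp c).differentiable one_ne_zero
  have h1 : HasFDerivAt (fun w : Vec => poly c (a • w)) (a • fderiv ℂ (poly c) (a • v)) v := by
    have h2 : HasFDerivAt (fun w : Vec => a • w) (a • ContinuousLinearMap.id ℂ Vec) v :=
      (hasFDerivAt_id v).const_smul a
    have h3 := ((hd (a • v)).hasFDerivAt).comp v h2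
    refine h3.congr_fderiv ?_
    ext w
    simp
  have h4 : HasFDerivAt (fun w : Vec => poly c (a • w)) (a ^ 2 • fderiv ℂ (poly c) v) v := by
    have h5 : (fun w : Vec => poly c (a • w)) = fun w => a ^ 2 • poly c w :=
      funext fun w => vol_smul hp c a w
    rw [h5]
    exact ((hd v).hasFDerivAt).const_smul (a ^ 2)
  have h6 := h1.unique h4
  rw [pow_two, mul_smul] at h6
  exact smul_right_injective _ ha h6

theorem vol_det_smul (hp : S_poly) (c : Coef 2) (a : ℂ) (ha : a ≠ 0) (v : Vec) :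
    (fderiv ℂ (poly c) (a • v)).det = a ^ 3 * (fderiv ℂ (poly c) v).det := by
  rw [vol_fderiv_smul hp c a ha v]
  have h := LinearMap.det_smul a ((fderiv ℂ (poly c) v : Vec →L[ℂ] Vec) : Vec →ₗ[ℂ] Vec)
  have h3 : Module.finrank ℂ Vec = 3 := by simp
  rw [h3] at h
  exact h

theorem vol_det_real (A : Vec →L[ℂ] Vec) : (A.restrictScalars ℝ).det = ‖A.det‖ ^ 2 := by
  have h := LinearMap.det_restrictScalars (R := ℝ) (S := ℂ) (f := (A : Vec →ₗ[ℂ] Vec))
  rw [Algebra.norm_complex_apply, Complex.normSq_eq_norm_sq] at h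
  exact h

theorem vol_finrank : Module.finrank ℝ Vec = 6 := by
  rw [Module.finrank_pi_fintype]
  simp [Complex.finrank_real_complex]

theorem vol_scale {S : Set Vec} (hcone : ∀ r : ℝ, 0 < r → ∀ v ∈ S, r • v ∈ S) {ρ : ℝ}
    (hρ : 0 < ρ) : volume (S ∩ ball 0 ρ) = ENNReal.ofReal (ρ ^ 6) * volume (S ∩ ball 0 1) := by
  have h1 : S ∩ ball 0 ρ = ρ • (S ∩ ball 0 1) := by
    ext x
    rw [Set.mem_smul_set_iff_inv_smul_mem₀ hρ.ne']
    have h2 : ρ⁻¹ • x ∈ ball (0 : Vec) 1 ↔ x ∈ ball (0 : Vec) ρ := by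
      rw [mem_ball_zero_iff, mem_ball_zero_iff, norm_smul, Real.norm_eq_abs,
        abs_of_pos (inv_pos.2 hρ), inv_mul_lt_iff₀ hρ, mul_one]
    have h3 : ρ⁻¹ • x ∈ S ↔ x ∈ S := by
      constructor
      · intro h
        have h4 := hcone ρ hρ _ h
        rwa [smul_smul, mul_inv_cancel₀ hρ.ne', one_smul] at h4
      · exact fun h => hcone _ (inv_pos.2 hρ) _ h
    exact ⟨fun h => ⟨h3.2 h.1, h2.2 h.2⟩, fun h => ⟨h3.1 h.1, h2.1 h.2⟩⟩
  rw [h1, Measure.addHaar_smul, vol_finrank, abs_of_pos (pow_pos hρ 6)]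

/-- the contraction of the volume -/
theorem vol_contract (hp : S_poly) (c : Coef 2) (hc : Good c) {S : Set Vec}
    (hS : MeasurableSet S) (hSO : S ⊆ Out) (hcone : ∀ r : ℝ, 0 < r → ∀ v ∈ S, r • v ∈ S) :
    volume (poly c '' S ∩ ball 0 1) ≤ 2⁻¹ * volume (S ∩ ball 0 1) := by
  have hC := vol_contDiff hp c
  have hd : Differentiable ℂ (poly c) := hC.differentiable one_ne_zero
  -- the compact set of unit vectors
  have hcomp : IsCompact (Out ∩ sphere (0 : Vec) 1) :=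
    (isCompact_sphere (0 : Vec) 1).inter_left vol_out_closed
  have hne : (Out ∩ sphere (0 : Vec) 1).Nonempty := by
    refine ⟨![1, 0, 0], ?_, ?_⟩
    · change ‖(![1, 0, 0] : Vec) 2‖ ≤ max ‖(![1, 0, 0] : Vec) 0‖ ‖(![1, 0, 0] : Vec) 1‖
      simp
    · rw [mem_sphere_zero_iff_norm]
      refine le_antisymm ((pi_norm_le_iff_of_nonneg zero_le_one).2 fun i => ?_) ?_
      · fin_cases i <;> simp
      · have := norm_le_pi_norm (![1, 0, 0] : Vec) 0
        simpa using this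
  obtain ⟨w, hw, hwmin⟩ := hcomp.exists_isMinOn hne (f := fun v => ‖poly c v‖)
    hC.continuous.norm.continuousOn
  obtain ⟨v, hv, hvmax⟩ := hcomp.exists_isMaxOn hne (f := fun v => ‖(fderiv ℂ (poly c) v).det‖)
    ((ContinuousLinearMap.continuous_det.comp (hC.continuous_fderiv one_ne_zero)).norm.continuousOn)
  have h6 := hc.u6 v w (mem_sphere_zero_iff_norm.1 hv.2) (mem_sphere_zero_iff_norm.1 hw.2) hv.1 hw.1
  obtain ⟨m, hm⟩ : ∃ m, m = ‖poly c w‖ := ⟨_, rfl⟩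
  obtain ⟨D, hD⟩ : ∃ D, D = ‖(fderiv ℂ (poly c) v).det‖ := ⟨_, rfl⟩
  rw [← hm, ← hD] at h6
  have hm0 : 0 < m := by
    rcases (norm_nonneg (poly c w)).eq_or_lt with h | h
    · rw [hm, ← h] at h6
      nlinarith [sq_nonneg D]
    · rw [hm]; exact h
  have hD0 : 0 ≤ D := by rw [hD]; exact norm_nonneg _
  -- bounds by homogeneity
  have hunit : ∀ x ∈ Out, x ≠ 0 → ((‖x‖⁻¹ : ℝ) : ℂ) • x ∈ Out ∩ sphere (0 : Vec) 1 := by
    intro x hx hx0
    refine ⟨vol_out_smul _ hx, ?_⟩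
    rw [mem_sphere_zero_iff_norm, norm_smul, Complex.norm_real, norm_inv, norm_norm,
      inv_mul_cancel₀ (norm_ne_zero_iff.2 hx0)]
  have hback : ∀ x : Vec, x ≠ 0 → ((‖x‖ : ℝ) : ℂ) • ((‖x‖⁻¹ : ℝ) : ℂ) • x = x := by
    intro x hx0
    rw [smul_smul, ← Complex.ofReal_mul, mul_inv_cancel₀ (norm_ne_zero_iff.2 hx0),
      Complex.ofReal_one, one_smul]
  have hlow : ∀ x ∈ Out, m * ‖x‖ ^ 2 ≤ ‖poly c x‖ := by
    intro x hx
    by_cases hx0 : x = 0
    · rw [hx0, norm_zero]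
      simp
    · have h1 : m ≤ ‖poly c (((‖x‖⁻¹ : ℝ) : ℂ) • x)‖ := by
        rw [hm]
        exact hwmin (hunit x hx hx0)
      have h2 : poly c x = ((‖x‖ : ℝ) : ℂ) ^ 2 • poly c (((‖x‖⁻¹ : ℝ) : ℂ) • x) := by
        rw [← vol_smul hp, hback x hx0]
      rw [h2, norm_smul, norm_pow, Complex.norm_real, norm_norm, mul_comm]
      exact mul_le_mul_of_nonneg_left h1 (by positivity)
  have hup : ∀ x ∈ Out, x ≠ 0 → ‖(fderiv ℂ (poly c) x).det‖ ≤ D * ‖x‖ ^ 3 := by
    intro x hx hx0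
    have h1 : ‖(fderiv ℂ (poly c) (((‖x‖⁻¹ : ℝ) : ℂ) • x)).det‖ ≤ D := by
      rw [hD]
      exact hvmax (hunit x hx hx0)
    have hxn : ((‖x‖ : ℝ) : ℂ) ≠ 0 := Complex.ofReal_ne_zero.2 (norm_ne_zero_iff.2 hx0)
    have h2 : (fderiv ℂ (poly c) x).det =
        ((‖x‖ : ℝ) : ℂ) ^ 3 * (fderiv ℂ (poly c) (((‖x‖⁻¹ : ℝ) : ℂ) • x)).det := by
      rw [← vol_det_smul hp c _ hxn, hback x hx0]
    rw [h2, norm_mul, norm_pow, Complex.norm_real, norm_norm, mul_comm D]
    exact mul_le_mul_of_nonneg_left h1 (by positivity)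
  -- the radius
  obtain ⟨ρ, hρ⟩ : ∃ ρ, ρ = Real.sqrt m⁻¹ := ⟨_, rfl⟩
  have hρ0 : 0 < ρ := by rw [hρ]; exact Real.sqrt_pos.2 (inv_pos.2 hm0)
  have hρ2 : ρ ^ 2 = m⁻¹ := by rw [hρ]; exact Real.sq_sqrt (inv_pos.2 hm0).le
  have hsub : poly c '' S ∩ ball 0 1 ⊆ poly c '' (S ∩ ball 0 ρ) := by
    rintro _ ⟨⟨x, hx, rfl⟩, hx1⟩
    refine ⟨x, ⟨hx, ?_⟩, rfl⟩
    rw [mem_ball_zero_iff] at hx1 ⊢
    have h1 := (hlow x (hSO hx)).trans_lt hx1
    have h2 : ‖x‖ ^ 2 < ρ ^ 2 := by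
      rw [hρ2, ← one_div, lt_div_iff₀' hm0]
      exact h1
    exact lt_of_pow_lt_pow_left₀ 2 hρ0.le h2
  have hder : ∀ x ∈ S ∩ ball (0 : Vec) ρ, HasFDerivWithinAt (poly c)
      ((fderiv ℂ (poly c) x).restrictScalars ℝ) (S ∩ ball 0 ρ) x := fun x _ =>
    ((hd x).hasFDerivAt.restrictScalars ℝ).hasFDerivWithinAt
  have hmeas : MeasurableSet (S ∩ ball (0 : Vec) ρ) := hS.inter measurableSet_ball
  calc volume (poly c '' S ∩ ball 0 1) ≤ volume (poly c '' (S ∩ ball 0 ρ)) := measure_mono hsub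
    _ ≤ ∫⁻ x in S ∩ ball 0 ρ, ENNReal.ofReal |((fderiv ℂ (poly c) x).restrictScalars ℝ).det| :=
        addHaar_image_le_lintegral_abs_det_fderiv volume hmeas hder
    _ ≤ ∫⁻ _ in S ∩ ball (0 : Vec) ρ, ENNReal.ofReal (D ^ 2 * ρ ^ 6) := by
        refine lintegral_mono_ae ?_
        have h0 : ∀ᵐ x : Vec, x ≠ 0 := by
          rw [ae_iff]
          simp
        rw [ae_restrict_iff' hmeas]
        filter_upwards [h0] with x hx0 hx
        refine ENNReal.ofReal_le_ofReal ?_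
        rw [vol_det_real, abs_of_nonneg (sq_nonneg _)]
        have h1 := hup x (hSO hx.1) hx0
        have h2 : ‖x‖ ≤ ρ := (mem_ball_zero_iff.1 hx.2).le
        calc ‖(fderiv ℂ (poly c) x).det‖ ^ 2 ≤ (D * ‖x‖ ^ 3) ^ 2 :=
              pow_le_pow_left₀ (norm_nonneg _) h1 2
          _ = D ^ 2 * ‖x‖ ^ 6 := by ring
          _ ≤ D ^ 2 * ρ ^ 6 := mul_le_mul_of_nonneg_left
              (pow_le_pow_left₀ (norm_nonneg _) h2 6) (sq_nonneg D)
    _ = ENNReal.ofReal (D ^ 2 * ρ ^ 6) * volume (S ∩ ball 0 ρ) := setLIntegral_const _ _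
    _ = ENNReal.ofReal (D ^ 2 * ρ ^ 6) * (ENNReal.ofReal (ρ ^ 6) * volume (S ∩ ball 0 1)) := by
        rw [vol_scale hcone hρ0]
    _ = ENNReal.ofReal (D ^ 2 * ρ ^ 12) * volume (S ∩ ball 0 1) := by
        rw [← mul_assoc, ← ENNReal.ofReal_mul (by positivity)]
        ring_nf
    _ ≤ 2⁻¹ * volume (S ∩ ball 0 1) := by
        refine mul_le_mul_left ?_ _
        have h1 : D ^ 2 * ρ ^ 12 ≤ 2⁻¹ := by
          have h2 : ρ ^ 12 = (m ^ 6)⁻¹ := by
            rw [show ρ ^ 12 = (ρ ^ 2) ^ 6 by ring, hρ2, inv_pow]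
          rw [h2, ← div_eq_mul_inv, div_le_iff₀ (pow_pos hm0 6)]
          linarith
        refine (ENNReal.ofReal_le_ofReal h1).trans ?_
        rw [ENNReal.ofReal_inv_of_pos (by norm_num)]
        simp

end vol

open scoped Pointwise ENNReal in
/-- E1: the set of the points which have preimages of all orders in the exterior is a null set. -/
theorem t_vol (hp : S_poly) : S_vol := by
  intro c hc
  have hcont : Continuous (poly c) := (vol_contDiff hp c).continuous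
  -- the images of the exterior
  have hinv : poly c '' Out ⊆ Out := by
    rintro _ ⟨v, hv, rfl⟩
    by_cases h0 : v = 0
    · have h1 : poly c v = 0 := by
        have h2 := vol_smul hp c 0 v
        rw [zero_smul, zero_pow two_ne_zero, zero_smul] at h2
        rw [h0, h2]
      rw [h1]
      change ‖(0 : Vec) 2‖ ≤ max ‖(0 : Vec) 0‖ ‖(0 : Vec) 1‖
      simp
    · refine (hc.u2 v h0 ?_).le
      have h1 : ‖v 2‖ ≤ max ‖v 0‖ ‖v 1‖ := hv
      have h2 : 0 ≤ max ‖v 0‖ ‖v 1‖ := le_max_of_le_left (norm_nonneg _)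
      linarith
  obtain ⟨S, hSdef⟩ : ∃ S : ℕ → Set Vec, S = fun n => (poly c)^[n] '' Out := ⟨_, rfl⟩
  have hSn : ∀ n, S n = (poly c)^[n] '' Out := fun n => by rw [hSdef]
  have hsucc : ∀ n, S (n + 1) = poly c '' S n := fun n => by
    rw [hSn, hSn, Function.iterate_succ', Set.image_comp]
  have hSO : ∀ n, S n ⊆ Out := by
    intro n
    induction n with
    | zero => rw [hSn]; simp
    | succ n ih => rw [hsucc]; exact (Set.image_mono ih).trans hinv
  have hmeas : ∀ n, MeasurableSet (S n) := by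
    intro n
    have h1 : S n = ⋃ k : ℕ, (poly c)^[n] '' (Out ∩ closedBall 0 k) := by
      rw [hSn, ← Set.image_iUnion, ← Set.inter_iUnion, iUnion_closedBall_nat, Set.inter_univ]
    rw [h1]
    refine MeasurableSet.iUnion fun k => ?_
    exact (((isCompact_closedBall (0 : Vec) k).inter_left vol_out_closed).image
      (hcont.iterate n)).isClosed.measurableSet
  have hcone : ∀ n, ∀ r : ℝ, 0 < r → ∀ v ∈ S n, r • v ∈ S n := by
    intro n r hr v hv
    rw [hSn] at hv ⊢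
    obtain ⟨p, hpO, rfl⟩ := hv
    obtain ⟨a, ha⟩ : ∃ a : ℂ, a ^ (2 ^ n) = (r : ℂ) :=
      IsAlgClosed.exists_pow_nat_eq _ (pow_pos two_pos n)
    refine ⟨a • p, vol_out_smul a hpO, ?_⟩
    rw [vol_iter_smul hp, ha]
    exact Complex.coe_smul r _
  have hbound : ∀ n, volume (S n ∩ ball 0 1) ≤ 2⁻¹ ^ n * volume (ball (0 : Vec) 1) := by
    intro n
    induction n with
    | zero =>
      rw [pow_zero, one_mul]
      exact measure_mono Set.inter_subset_right
    | succ n ih =>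
      rw [hsucc]
      refine (vol_contract hp c hc (hmeas n) (hSO n) (hcone n)).trans ?_
      rw [pow_succ', mul_assoc]
      exact mul_le_mul_right ih _
  obtain ⟨T, hT⟩ : ∃ T : Set Vec, T = {v : Vec | ∀ n : ℕ, ∃ p ∈ Out, (poly c)^[n] p = v} :=
    ⟨_, rfl⟩
  have hTS : ∀ n, T ⊆ S n := by
    intro n v hv
    rw [hT] at hv
    rw [hSn]
    obtain ⟨p, hpO, hpv⟩ := hv n
    exact ⟨p, hpO, hpv⟩
  have hTcone : ∀ r : ℝ, 0 < r → ∀ v ∈ T, r • v ∈ T := by
    intro r hr v hv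
    have h1 : ∀ n, r • v ∈ S n := fun n => hcone n r hr v (hTS n hv)
    rw [hT]
    intro n
    have h2 := h1 n
    rw [hSn] at h2
    obtain ⟨p, hpO, hpv⟩ := h2
    exact ⟨p, hpO, hpv⟩
  have hT1 : volume (T ∩ ball 0 1) = 0 := by
    have h1 : ∀ n : ℕ, volume (T ∩ ball 0 1) ≤ 2⁻¹ ^ n * volume (ball (0 : Vec) 1) := fun n =>
      (measure_mono (Set.inter_subset_inter_left _ (hTS n))).trans (hbound n)
    have h2 : Tendsto (fun n : ℕ => (2⁻¹ : ℝ≥0∞) ^ n * volume (ball (0 : Vec) 1)) atTop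
        (𝓝 (0 * volume (ball (0 : Vec) 1))) := by
      refine ENNReal.Tendsto.mul_const ?_ (Or.inr measure_ball_lt_top.ne)
      refine ENNReal.tendsto_pow_atTop_nhds_zero_of_lt_one ?_
      simp
    rw [zero_mul] at h2
    exact le_antisymm (ge_of_tendsto' h2 h1) zero_le
  rw [← hT]
  have h3 : T = ⋃ k : ℕ, T ∩ ball 0 ((k : ℝ) + 1) := by
    ext x
    simp only [Set.mem_iUnion, Set.mem_inter_iff, mem_ball_zero_iff]
    constructor
    · intro hx
      obtain ⟨k, hk⟩ := exists_nat_gt ‖x‖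
      exact ⟨k, hx, by linarith⟩
    · rintro ⟨_, hx, _⟩
      exact hx
  rw [h3, measure_iUnion_null_iff]
  intro k
  rw [vol_scale hTcone (by positivity), hT1, mul_zero]

end

end Pool.Agent.H429
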