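import Pool.Agent.H429.Main
import Pool.Agent.H429.Basic
import Pool.Agent.H429.Jan
import Pool.Agent.H429.Fam
import Pool.Agent.H429.Limits
import Pool.Agent.H429.Poly
import Pool.Agent.H429.NullF
import Pool.Agent.H429.Branch
import Pool.Agent.H429.Null
import Pool.Agent.H429.Cone
import Pool.Agent.H429.Area
import Pool.Agent.H429.Energy
import Pool.Agent.H429.Poincare
import Pool.Agent.H429.Segment
import Pool.Agent.H429.Aeconv
import Pool.Agent.H429.Meas
import Pool.Agent.H429.Count
import Pool.Agent.H429.Tail
import Pool.Agent.H429.Mvp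
import Pool.Agent.H429.Harmlim
import Pool.Agent.H429.Ph
import Pool.Agent.H429.Log
import Pool.Agent.H429.Annulus
import Pool.Agent.H429.SysOne
import Pool.Agent.H429.Elim
import Pool.Agent.H429.Open
import Pool.Agent.H429.Ex
import Pool.Agent.H429.TOne
import Pool.Agent.H429.Vol
import Pool.Agent.H429.Fin
import Pool.Agent.H429.ChartPre
import Pool.Agent.H429.Exterior
import Pool.Agent.H429.Unique
import Pool.Agent.H429.JacFS
import Pool.Agent.H429.Lyap
import Pool.Agent.H429.Density
import Pool.Agent.H429.Explicit

open MeasureTheory Filter Topology Metric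

namespace Pool.Agent.H429

theorem f_card : S_card := t_card
theorem f_avgsucc : S_avgsucc := t_avgsucc f_card
theorem f_vpair : S_vpair := t_vpair
theorem f_ub : S_ub := t_ub f_card
theorem f_jan : S_jan := t_jan
theorem f_branch : S_branch := t_branch f_card f_jan f_avgsucc
theorem f_branch1 : S_branch1 := t_branch1 f_branch
theorem f_regopen : S_regopen := t_regopen f_branch1
theorem f_null : S_null := t_null f_card
theorem f_cone : S_cone := t_cone
theorem f_area : S_area := t_area f_card f_branch1 f_cone
theorem f_energy : S_energy := t_energy f_card f_branch1 f_cone f_area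
theorem f_segment : S_segment := t_segment f_vpair
theorem f_aeconv : S_aeconv :=
  t_aeconv f_card f_avgsucc f_regopen f_null f_energy t_poincare f_segment
theorem f_measure : S_measure := t_measure f_card f_null f_aeconv
theorem f_tail : S_tail := t_tail f_card (t_count f_card) t_lower
theorem f_ph : S_ph := t_ph f_card f_branch1
theorem f_log : S_log := t_log f_card f_null f_tail t_mvp f_ph f_ub
theorem f_inv : S_inv := t_inv f_card f_null f_avgsucc
theorem f_hol : S_hol := t_hol f_card t_mvp f_ph
theorem f_family : S_family := t_family f_card f_jan f_branch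
theorem f_famhol : S_famhol := t_famhol f_card f_branch
theorem f_poly : S_poly := t_poly
theorem f_joint : S_joint := t_joint f_poly
theorem f_smul : S_smul := t_smul f_poly
theorem f_nondeg : S_nondeg := t_nondeg f_poly
theorem f_sys1 : S_sys1 := t_sys1 f_poly f_jan f_joint
theorem f_elim : S_elim := t_elim f_poly f_sys1 f_nondeg
theorem f_sys : S_sys := t_sys f_sys1 f_elim
theorem f_open : S_open := t_open f_poly f_jan f_joint
theorem f_ex : S_ex := t_ex f_poly
theorem f_T1 : S_T1 := t_T1 f_poly f_sys1 f_elim f_ex
theorem f_vol : S_vol := t_vol f_poly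
theorem f_nullF : S_nullF := t_nullF f_poly
theorem f_fin : S_fin := t_fin f_poly f_nondeg
theorem f_lift : S_lift := t_lift f_poly
theorem f_chart : S_chart := t_chart f_poly
theorem f_exterior : S_exterior :=
  t_exterior f_card f_null f_sys f_vol f_fin f_nullF f_chart f_lift f_nondeg f_poly
theorem f_lyap : S_lyap :=
  t_lyap f_sys f_smul f_inv f_log f_exterior t_unique (t_jacfs f_poly) f_chart
theorem f_density : S_density := t_density f_sys1 f_sys f_vpair f_jan f_joint
theorem f_explicit : S_explicit :=
  t_explicit f_card f_avgsucc f_sys f_ex f_T1 f_log f_hol f_famhol t_holim f_joint f_measure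

/-- Existence and uniqueness of the equilibrium measure for the maps in the open set. -/
theorem existsUnique_equilibrium (c : Lift 2) (hc : toEndo c ∈ UU) :
    ∃! μ : Measure P2, IsEquilibrium (selfMap c) μ := by
  obtain ⟨c', hc', he⟩ := hc
  have hg : Good c.1 := good_of_toEndo f_smul he hc'
  obtain ⟨m, hm⟩ := f_measure _ (f_sys _ hg)
  exact ⟨m.map io, f_exterior c hg m hm, fun ν hν => t_unique _ _ _ hν (f_exterior c hg m hm)⟩

/-- The final statement. -/
theorem final_all :
    ∃ U : Set (Endo 2), IsOpen U ∧
      (∀ c : Lift 2, toEndo c ∈ U → ∃! μ : Measure P2, IsEquilibrium (selfMap c) μ) ∧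
      (Bif 2 ∩ U).Nonempty ∧ interior (Bif 2 ∩ U) = ∅ ∧ Bif 2 ≠ closure (interior (Bif 2)) := by
  have h1 : IsOpen UU := isOpen_image_toEndo {c | Good c} f_open
  have h2 := nonempty_bif f_sys f_measure f_lyap f_nondeg f_ex f_explicit t_annulus
  have h3 := empty_interior f_joint f_sys f_smul f_measure f_family f_ub f_log f_lyap t_harmlim
    f_nondeg f_open f_density
  have h5 := final f_joint f_sys f_smul f_measure f_family f_ub f_log f_lyap t_harmlim
    f_nondeg f_open f_density f_ex f_explicit t_annulus
  exact ⟨UU, h1, existsUnique_equilibrium, h2, h3, h5.2⟩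

end Pool.Agent.H429
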