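import Pool.Agent.H429.Stmts3

open MeasureTheory Filter Topology Metric

namespace Pool.Agent.H429

noncomputable section

/-- D1: assembly. -/
theorem t_sys (h1 : S_sys1) (h2 : S_elim) : S_sys := by
  intro c hc
  obtain ⟨a1, a2, a3, a4, a5, a6, a7⟩ := h1 c hc
  refine ⟨a1, ?_, a3, a4, a5, a6, fun b hb => (h2 c hc b hb).1, fun b hb => (h2 c hc b hb).2.1,
    fun b hb => (h2 c hc b hb).2.2, fun x hx hgx hj => hc.u5a x hx hgx hj, a7⟩
  intro x hx hgx
  refine a2 x ?_ hgx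
  exact closedBall_subset_closedBall (by norm_num) hx

/-- The set of classes of good lifts. -/
def UU : Set (Endo 2) := toEndo '' {c : Lift 2 | Good c.1}

lemma toEndo_eq_iff {d : ℕ} (c c' : Lift d) : toEndo c = toEndo c' ↔
    ∃ a : ℂ, a ≠ 0 ∧ c'.1 = a • c.1 := by
  constructor
  · intro h
    exact Quotient.exact h
  · intro h
    exact Quotient.sound h

lemma continuous_toEndo {d : ℕ} : Continuous (toEndo : Lift d → Endo d) := continuous_quotient_mk'

lemma isOpen_iff_preimage {d : ℕ} (W : Set (Endo d)) : IsOpen W ↔ IsOpen (toEndo ⁻¹' W) :=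
  isQuotientMap_quotient_mk'.isOpen_preimage.symm

/-- The saturation of an open set is open. -/
lemma isOpen_image_toEndo (W : Set (Coef 2)) (hW : IsOpen W) :
    IsOpen (toEndo '' {c : Lift 2 | c.1 ∈ W}) := by
  rw [isOpen_iff_preimage]
  have : toEndo ⁻¹' (toEndo '' {c : Lift 2 | c.1 ∈ W}) =
      ⋃ a : {a : ℂ // a ≠ 0}, {c : Lift 2 | a.1 • c.1 ∈ W} := by
    ext c
    simp only [Set.mem_preimage, Set.mem_image, Set.mem_setOf_eq, Set.mem_iUnion]
    constructor
    · rintro ⟨c', hc', he⟩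
      obtain ⟨a, ha, h⟩ := (toEndo_eq_iff c c').1 he.symm
      exact ⟨⟨a, ha⟩, by rw [← h]; exact hc'⟩
    · rintro ⟨⟨a, ha⟩, h⟩
      refine ⟨⟨a • c.1, ?_⟩, h, ?_⟩
      · intro v hv
        apply c.2 v
        have h2 : poly (a • c.1) v = a • poly c.1 v := by
          funext i
          simp [poly, Finset.mul_sum, mul_assoc]
        rw [h2] at hv
        exact (smul_eq_zero.1 hv).resolve_left ha
      · exact ((toEndo_eq_iff _ _).2 ⟨a, ha, rfl⟩).symm
  rw [this]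
  refine isOpen_iUnion fun a => ?_
  exact hW.preimage ((continuous_const_smul a.1).comp continuous_subtype_val)

lemma good_of_toEndo (hsm : S_smul) {c c' : Lift 2} (h : toEndo c = toEndo c') (hc : Good c.1) :
    Good c'.1 := by
  obtain ⟨a, ha, h2⟩ := (toEndo_eq_iff c c').1 h
  rw [h2]
  exact (hsm c.1 a ha).2 hc

lemma harmonicAt_of_nhds {f : ℂ → ℝ} {Ω : Set ℂ} (h : InnerProductSpace.HarmonicOnNhd f Ω) {t : ℂ}
    (ht : t ∈ Ω) : InnerProductSpace.HarmonicAt f t := h t ht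

/-- Stability on an open set. -/
theorem stable (hj : S_joint) (hsys : S_sys) (hsm : S_smul) (hmeas : S_measure) (hfam : S_family)
    (hub : S_ub) (hlog : S_log) (hlyap : S_lyap) (hlim : S_harmlim)
    (W : Set (Coef 2)) (b : C2) (hb : b ∈ BB) (hg : ∀ c ∈ W, Good c)
    (ha : ∀ c ∈ W, ∃ r, Away (GG c) b r) :
    IsPluriharmonicOn lyap (toEndo '' {c : Lift 2 | c.1 ∈ W}) := by
  intro Ω γ hΩ hγ hin
  -- every γ t is good and b is away from the images of the critical set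
  have hgood : ∀ t ∈ Ω, Good (γ t).1 ∧ ∃ r, Away (GG (γ t).1) b r := by
    intro t ht
    obtain ⟨c', hc', he⟩ := hin t ht
    refine ⟨good_of_toEndo hsm he (hg _ hc'), ?_⟩
    obtain ⟨a, ha', h2⟩ := (toEndo_eq_iff c' (γ t)).1 he
    rw [h2, (hsm c'.1 a ha').1]
    exact ha _ hc'
  have hS : ∀ t ∈ Ω, Sys (GG (γ t).1) := fun t ht => hsys _ (hgood t ht).1
  have hjoint : ∀ t ∈ Ω, ∀ x ∈ PP,
      AnalyticAt ℂ (fun q : ℂ × C2 => GG (γ q.1).1 q.2) (t, x) := by
    intro t ht x hx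
    have h1 : AnalyticAt ℂ (fun t => (γ t).1) t :=
      hγ.analyticAt (hΩ.mem_nhds ht)
    have hx1 : x ∈ closedBall (0 : C2) 1 := closedBall_subset_closedBall (by norm_num) hx
    have h2 := hj (γ t).1 x ((hgood t ht).1.u1 x hx1)
    have h3 : AnalyticAt ℂ (fun q : ℂ × C2 => ((γ q.1).1, q.2)) (t, x) := by
      refine AnalyticAt.prod ?_ analyticAt_snd
      exact AnalyticAt.comp (g := fun t => (γ t).1) (f := Prod.fst) (x := (t, x)) h1 analyticAt_fst
    exact AnalyticAt.comp (g := fun q : Coef 2 × C2 => GG q.1 q.2)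
      (f := fun q : ℂ × C2 => ((γ q.1).1, q.2)) (x := (t, x)) h2 h3
  have hVV : ∀ t ∈ Ω, ∀ j, b ∉ VV (GG (γ t).1) (j + 1) := by
    intro t ht j hbj
    obtain ⟨r, hr, _, hd⟩ := (hgood t ht).2
    exact Set.disjoint_left.1 (hd (j + 1) (by omega)) (mem_ball_self hr) hbj
  have hreg : ∀ t ∈ Ω, ∀ n, Reg (GG (γ t).1) n b := by
    intro t ht n
    refine ⟨hb, fun k hk _ x hx h0 => ?_⟩
    obtain ⟨j, rfl⟩ : ∃ j, k = j + 1 := ⟨k - 1, by omega⟩
    exact hVV t ht j ⟨hb, x, hx, h0⟩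
  refine hlim Ω (fun n t => avg (GG (γ t).1) (n + 1) (fun x => Real.log ‖jac (GG (γ t).1) x‖) b)
    _ 100 hΩ ?_ ?_ ?_
  · intro n
    exact hfam (fun t => GG (γ t).1) Ω hΩ hS hjoint (n + 1) b hVV hb (by omega)
  · intro n t ht
    exact hub _ (hS t ht) (n + 1) b (by omega) (hreg t ht _)
  · intro t ht
    obtain ⟨m, hm⟩ := hmeas _ (hS t ht)
    obtain ⟨r, hr⟩ := (hgood t ht).2
    have h1 := (hlog _ (hS t ht) m hm b r hr).2.2
    have h2 := hlyap (γ t) (hgood t ht).1 m hm ⟨b, r, hr⟩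
    rw [h2]
    exact (tendsto_add_atTop_iff_nat 1).2 h1

/-- The bifurcation locus has empty interior in the open set. -/
theorem empty_interior (hj : S_joint) (hsys : S_sys) (hsm : S_smul) (hmeas : S_measure)
    (hfam : S_family) (hub : S_ub) (hlog : S_log) (hlyap : S_lyap) (hlim : S_harmlim)
    (hnd : S_nondeg) (hopen : S_open) (hdens : S_density) :
    interior (Bif 2 ∩ UU) = ∅ := by
  by_contra hne
  obtain ⟨f, hf⟩ := Set.nonempty_iff_ne_empty.2 hne
  set V := interior (Bif 2 ∩ UU) with hV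
  have hVo : IsOpen V := isOpen_interior
  have hVB : V ⊆ Bif 2 ∩ UU := interior_subset
  -- the set of coefficient vectors of elements of V
  let j : {c : Coef 2 // Good c} → Lift 2 := fun c => ⟨c.1, hnd c.1 c.2⟩
  have hjc : Continuous j := by
    exact Continuous.subtype_mk continuous_subtype_val _
  let O : Set (Coef 2) := Subtype.val '' (j ⁻¹' (toEndo ⁻¹' V))
  have hOo : IsOpen O := by
    have h1 : IsOpen (j ⁻¹' (toEndo ⁻¹' V)) := (hVo.preimage continuous_toEndo).preimage hjc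
    exact (IsOpen.isOpenMap_subtype_val hopen) _ h1
  have hOne : O.Nonempty := by
    obtain ⟨c, hc, rfl⟩ := (hVB hf).2
    exact ⟨c.1, ⟨⟨c.1, hc⟩, hf, rfl⟩⟩
  have hOg : O ⊆ {c | Good c} := by
    rintro _ ⟨c, _, rfl⟩
    exact c.2
  obtain ⟨W, hWO, hWo, hWne, b, hb, hA⟩ := hdens O hOo hOne hOg
  have hstab := stable hj hsys hsm hmeas hfam hub hlog hlyap hlim W b hb
    (fun c hc => hOg (hWO hc)) hA
  obtain ⟨c₁, hc₁⟩ := hWne
  obtain ⟨⟨c, hcg⟩, hcV, rfl⟩ := hWO hc₁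
  have hB : toEndo (j ⟨c, hcg⟩) ∈ Bif 2 := (hVB hcV).1
  exact hB _ (isOpen_image_toEndo W hWo) ⟨j ⟨c, hcg⟩, hc₁, rfl⟩ hstab

/-- The explicit family as a family of lifts. -/
def γγ (hnd : S_nondeg) (hex : S_ex) (t : ℂ) : Lift 2 :=
  if h : ‖t‖ ≤ 2 then ⟨cc t, hnd _ (hex t h)⟩ else ⟨cc 0, hnd _ (hex 0 (by simp))⟩

/-- There is a bifurcation in the open set. -/
theorem nonempty_bif (hsys : S_sys) (hmeas : S_measure)
    (hlyap : S_lyap) (hnd : S_nondeg) (hex : S_ex) (hexpl : S_explicit) (hann : S_annulus) :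
    (Bif 2 ∩ UU).Nonempty := by
  by_contra hne
  have hno : ∀ f ∈ UU, f ∉ Bif 2 := fun f hf hB => hne ⟨f, hB, hf⟩
  set γ := γγ hnd hex with hγdef
  have hγ1 : ∀ t, ‖t‖ ≤ 2 → (γ t).1 = cc t := by
    intro t ht
    simp [hγdef, γγ, ht]
  have hdiff : DifferentiableOn ℂ (fun t => (γ t).1) (ball 0 2) := by
    have h1 : Differentiable ℂ (fun t : ℂ => cc t) := by
      refine differentiable_pi.2 fun i => differentiable_pi.2 fun m => ?_
      simp only [cc]
      split_ifs <;> fun_prop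
    refine h1.differentiableOn.congr fun t ht => ?_
    exact hγ1 t (by simpa using (mem_ball.1 ht).le)
  have hcont : ContinuousOn γ (ball 0 2) := by
    have h2 : Topology.IsInducing (fun c : Lift 2 => c.1) := Topology.IsInducing.subtypeVal
    rw [h2.continuousOn_iff]
    exact hdiff.continuousOn
  have hharm : InnerProductSpace.HarmonicOnNhd (fun t => lyap (toEndo (γ t))) (ball 0 2) := by
    intro t₀ ht₀
    have hU : toEndo (γ t₀) ∈ UU := by
      refine ⟨γ t₀, ?_, rfl⟩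
      have h3 := hγ1 t₀ (by simpa using (mem_ball.1 ht₀).le)
      simp only [Set.mem_setOf_eq, h3]
      exact hex t₀ (by simpa using (mem_ball.1 ht₀).le)
    have h4 := hno _ hU
    simp only [Bif, Set.mem_setOf_eq, not_forall, not_not] at h4
    obtain ⟨W, hW, hfW, hplu⟩ := h4
    have hΩ : IsOpen (ball (0 : ℂ) 2 ∩ (fun t => toEndo (γ t)) ⁻¹' W) :=
      (continuous_toEndo.comp_continuousOn hcont).isOpen_inter_preimage isOpen_ball hW
    exact hplu _ γ hΩ (hdiff.mono Set.inter_subset_left) (fun t ht => ht.2) t₀ ⟨ht₀, hfW⟩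
  obtain ⟨E, k, hE, hall⟩ := hexpl
  refine hann (fun t => lyap (toEndo (γ t))) E k hharm hE fun t h1 h2 => ?_
  have ht2 : ‖t‖ ≤ 2 := by linarith
  have hgt : Good (γ t).1 := by rw [hγ1 t ht2]; exact hex t ht2
  obtain ⟨m, hm⟩ := hmeas _ (hsys _ hgt)
  obtain ⟨hv, hint⟩ := hall t h1 h2
  have haw : Away (GG (γ t).1) 0 1 := by
    refine ⟨one_pos, subset_rfl, fun j hj => ?_⟩
    obtain ⟨i, rfl⟩ : ∃ i, j = i + 1 := ⟨j - 1, by omega⟩
    rw [hγ1 t ht2, hv i]
    exact Set.disjoint_empty _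
  have h5 := hlyap (γ t) hgt m hm ⟨0, 1, haw⟩
  have h6 := hint m (by rw [← hγ1 t ht2]; exact hm)
  simp only [h5]
  rw [hγ1 t ht2]
  exact h6

/-- The final statement. -/
theorem final (hj : S_joint) (hsys : S_sys) (hsm : S_smul) (hmeas : S_measure)
    (hfam : S_family) (hub : S_ub) (hlog : S_log) (hlyap : S_lyap) (hlim : S_harmlim)
    (hnd : S_nondeg) (hopen : S_open) (hdens : S_density) (hex : S_ex) (hexpl : S_explicit)
    (hann : S_annulus) :
    (∃ U : Set (Endo 2), IsOpen U ∧ (Bif 2 ∩ U).Nonempty ∧ interior (Bif 2 ∩ U) = ∅) ∧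
      Bif 2 ≠ closure (interior (Bif 2)) := by
  have h1 : IsOpen UU := isOpen_image_toEndo {c | Good c} hopen
  have h2 := nonempty_bif hsys hmeas hlyap hnd hex hexpl hann
  have h3 := empty_interior hj hsys hsm hmeas hfam hub hlog hlyap hlim hnd hopen hdens
  refine ⟨⟨UU, h1, h2, h3⟩, fun heq => ?_⟩
  obtain ⟨f, hfB, hfU⟩ := h2
  rw [heq] at hfB
  obtain ⟨f', hf'U, hf'I⟩ := mem_closure_iff.1 hfB UU h1 hfU
  have h4 : f' ∈ interior (Bif 2 ∩ UU) := by
    rw [interior_inter, h1.interior_eq]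
    exact ⟨hf'I, hf'U⟩
  rw [h3] at h4
  exact h4

end

end Pool.Agent.H429
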