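import Pool.Agent.H429.Stmts3

open MeasureTheory Filter Topology Metric

namespace Pool.Agent.H429

noncomputable section

open InnerProductSpace in
private theorem mvp_harnack {u : ℂ → ℝ} (hu : HarmonicOnNhd u (closedBall 0 2))
    (hpos : ∀ z ∈ closedBall (0 : ℂ) 2, 0 ≤ u z) {w : ℂ} (hw : ‖w‖ ≤ 1) :
    u w ≤ 3 * u 0 ∧ u 0 ≤ 3 * u w := by
  have hw2 : w ∈ ball (0 : ℂ) 2 := by
    rw [mem_ball_zero_iff]; linarith
  have h1 := hu.circleAverage_poissonKernel_smul hw2
  have h2 : Real.circleAverage u 0 2 = u 0 := by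
    apply InnerProductSpace.HarmonicOnNhd.circleAverage_eq
    rwa [abs_of_pos (by norm_num : (0 : ℝ) < 2)]
  have hcu : ContinuousOn u (sphere 0 |(2 : ℝ)|) := by
    rw [abs_of_pos (by norm_num : (0 : ℝ) < 2)]
    exact hu.continuousOn.mono sphere_subset_closedBall
  have hck : ContinuousOn (poissonKernel 0 w) (sphere 0 |(2 : ℝ)|) := by
    rw [abs_of_pos (by norm_num : (0 : ℝ) < 2)]
    have e : poissonKernel 0 w = fun z => (‖z - 0‖ ^ 2 - ‖w - 0‖ ^ 2) / ‖(z - 0) - (w - 0)‖ ^ 2 := by
      ext z; rw [poissonKernel_def]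
    rw [e]
    apply ContinuousOn.div (by fun_prop) (by fun_prop)
    intro z hz
    rw [mem_sphere_zero_iff_norm] at hz
    simp only [sub_zero]
    have : z - w ≠ 0 := by
      rw [sub_ne_zero]
      rintro rfl
      linarith
    positivity
  have hi1 : CircleIntegrable (poissonKernel 0 w • u) 0 2 := (hck.smul hcu).circleIntegrable'
  have hi2 : CircleIntegrable u 0 2 := hcu.circleIntegrable'
  have hk : ∀ z ∈ sphere (0 : ℂ) |(2 : ℝ)|, 1 / 3 ≤ poissonKernel 0 w z ∧ poissonKernel 0 w z ≤ 3 ∧
      0 ≤ u z := by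
    intro z hz
    rw [abs_of_pos (by norm_num : (0 : ℝ) < 2)] at hz
    have hz2 : ‖z‖ = 2 := by simpa using hz
    have hw0 := norm_nonneg w
    have ha : ‖z - w‖ ≤ 2 + ‖w‖ := by
      refine (norm_sub_le _ _).trans ?_
      rw [hz2]
    have hb : 2 - ‖w‖ ≤ ‖z - w‖ := by
      rw [← hz2]; exact norm_sub_norm_le _ _
    have hp : 0 < ‖z - w‖ := by linarith
    rw [poissonKernel_def]
    simp only [sub_zero, hz2]
    refine ⟨?_, ?_, hpos z (sphere_subset_closedBall hz)⟩
    · rw [le_div_iff₀ (by positivity)]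
      nlinarith
    · rw [div_le_iff₀ (by positivity)]
      nlinarith
  constructor
  · rw [← h1, ← h2, ← smul_eq_mul, ← Real.circleAverage_smul]
    apply Real.circleAverage_mono hi1 (hi2.const_smul (a := (3 : ℝ)))
    intro z hz
    obtain ⟨h3, h4, h5⟩ := hk z hz
    simp only [Pi.smul_apply, Pi.smul_apply', smul_eq_mul]
    nlinarith
  · rw [← h1, ← h2, ← smul_eq_mul, ← Real.circleAverage_smul]
    apply Real.circleAverage_mono hi2 (hi1.const_smul (a := (3 : ℝ)))
    intro z hz
    obtain ⟨h3, h4, h5⟩ := hk z hz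
    simp only [Pi.smul_apply, smul_eq_mul, Pi.mul_apply]
    nlinarith

private theorem mvp_rot (z₀ : ℂ) (θ : ℝ) :
    MeasurePreserving (fun z : ℂ => z₀ + circleMap 0 1 θ * (z - z₀)) volume volume := by
  have h1 : MeasurePreserving (fun z : ℂ => z - z₀) volume volume := measurePreserving_sub_right _ _
  have h2 : MeasurePreserving (rotation (Circle.exp θ)) volume volume :=
    (rotation (Circle.exp θ)).measurePreserving
  have h3 : MeasurePreserving (fun z : ℂ => z₀ + z) volume volume := measurePreserving_add_left _ _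
  have h4 := h3.comp (h2.comp h1)
  convert h4 using 1
  ext z
  simp [circleMap, rotation_apply]

private theorem mvp_rot2 (b₀ : C2) (θ : ℝ) :
    MeasurePreserving (fun b : C2 => b₀ + circleMap 0 1 θ • (b - b₀)) volume volume := by
  have h := (mvp_rot b₀.1 θ).prod (mvp_rot b₀.2 θ)
  exact h

/-- TARGETS -/
theorem t_mvp : S_mvp := by
  intro b₀ r hr h C c hh hC hlim
  -- the exceptional set
  obtain ⟨N, hN1, hN2, hN3⟩ := exists_measurable_superset_of_null (ae_iff.1 hlim)
  have hNc : ∀ b ∈ ball b₀ r, b ∉ N → Tendsto (fun n => h n b) atTop (𝓝 c) := by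
    intro b hb hbN
    by_contra hcon
    exact hbN (hN1 (fun h' => hcon (h' hb)))
  have hae : ∀ᵐ b : C2, ∀ᵐ θ : ℝ, b₀ + circleMap 0 1 θ • (b - b₀) ∉ N := by
    rw [Measure.ae_ae_comm]
    · refine Eventually.of_forall fun θ => ?_
      rw [ae_iff]
      simp only [not_not]
      have := (mvp_rot2 b₀ θ).measure_preimage hN2.nullMeasurableSet
      rw [hN3] at this
      exact this
    · have hm : Measurable fun x : C2 × ℝ => b₀ + circleMap 0 1 x.2 • (x.1 - b₀) := by
        apply Continuous.measurable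
        have : Continuous fun x : C2 × ℝ => circleMap 0 1 x.2 :=
          (continuous_circleMap 0 1).comp continuous_snd
        fun_prop
      exact (hm hN2).compl
  obtain ⟨b, hb, hbN⟩ : ∃ b ∈ ball b₀ (r / 5), ∀ᵐ θ : ℝ,
      b₀ + circleMap 0 1 θ • (b - b₀) ∉ N := by
    by_contra hcon
    push Not at hcon
    have h1 : volume (ball b₀ (r / 5)) = 0 := by
      refine measure_mono_null ?_ (ae_iff.1 hae)
      intro b hb h2
      exact hcon b hb h2
    exact (measure_ball_pos volume b₀ (by positivity)).ne' h1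
  set v : C2 := b - b₀ with hv
  have hvn : ‖v‖ < r / 5 := by rwa [hv, ← dist_eq_norm, ← mem_ball]
  have hmem : ∀ t : ℂ, ‖t‖ ≤ 2 → b₀ + t • v ∈ ball b₀ r := by
    intro t ht
    rw [mem_ball, dist_eq_norm, add_sub_cancel_left, norm_smul]
    have := norm_nonneg v
    nlinarith
  set f : ℕ → ℂ → ℝ := fun n t => h n (b₀ + t • v) with hf
  have hfh : ∀ n, InnerProductSpace.HarmonicOnNhd (f n) (closedBall 0 2) := by
    intro n t ht
    exact hh n v t (hmem t (by simpa using ht))
  have hfC : ∀ n, ∀ t ∈ closedBall (0 : ℂ) 2, f n t ≤ C := by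
    intro n t ht
    exact hC n _ (hmem t (by simpa using ht))
  -- Harnack for `C - f n`
  have hharn : ∀ n (w : ℂ), ‖w‖ ≤ 1 → C - f n w ≤ 3 * (C - f n 0) ∧ C - f n 0 ≤ 3 * (C - f n w) := by
    intro n w hw
    have hu : InnerProductSpace.HarmonicOnNhd (fun t => C - f n t) (closedBall 0 2) :=
      (InnerProductSpace.harmonicOnNhd_const C).sub (hfh n)
    exact mvp_harnack hu (fun z hz => by have := hfC n z hz; linarith) hw
  have hcirc : ∀ θ : ℝ, ‖circleMap 0 1 θ‖ = 1 := by
    intro θ; simp
  have hconv : ∀ θ : ℝ, b₀ + circleMap 0 1 θ • v ∉ N →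
      Tendsto (fun n => f n (circleMap 0 1 θ)) atTop (𝓝 c) := by
    intro θ hθ
    exact hNc _ (hmem _ (by rw [hcirc]; norm_num)) hθ
  -- a point of convergence on the circle
  obtain ⟨θ₀, hθ₀⟩ := hbN.exists
  obtain ⟨M, hM⟩ : ∃ M : ℝ, ∀ n, |f n (circleMap 0 1 θ₀)| ≤ M := by
    obtain ⟨M, hM⟩ := (hconv θ₀ hθ₀).norm.bddAbove_range
    exact ⟨M, fun n => hM ⟨n, rfl⟩⟩
  have hbound : ∀ n (w : ℂ), ‖w‖ ≤ 1 → |f n w| ≤ 10 * |C| + 9 * M := by
    intro n w hw
    have h1 := (hharn n w hw).1
    have h2 := (hharn n _ (hcirc θ₀).le).2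
    have h3 := abs_le.1 (hM n)
    have h4 := hfC n w (by simpa using hw.trans (by norm_num))
    have h5 := le_abs_self C
    have h6 := neg_abs_le C
    have h7 := (abs_nonneg _).trans (hM n)
    rw [abs_le]
    constructor <;> linarith
  have hmean : ∀ n, Real.circleAverage (f n) 0 1 = h n b₀ := by
    intro n
    have h1 : InnerProductSpace.HarmonicOnNhd (f n) (closedBall 0 |(1 : ℝ)|) := by
      rw [abs_one]
      exact (hfh n).mono (closedBall_subset_closedBall (by norm_num))
    rw [h1.circleAverage_eq]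
    simp [hf]
  have hfin : Tendsto (fun n => Real.circleAverage (f n) 0 1) atTop
      (𝓝 (Real.circleAverage (fun _ => c) 0 1)) := by
    unfold Real.circleAverage
    apply Tendsto.const_smul
    apply intervalIntegral.tendsto_integral_filter_of_dominated_convergence
      (fun _ => 10 * |C| + 9 * M)
    · refine Eventually.of_forall fun n => ?_
      apply Continuous.aestronglyMeasurable
      rw [← continuousOn_univ]
      apply (hfh n).continuousOn.comp (continuous_circleMap 0 1).continuousOn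
      intro θ _
      rw [mem_closedBall_zero_iff, hcirc]
      norm_num
    · refine Eventually.of_forall fun n => Eventually.of_forall fun θ _ => ?_
      exact hbound n _ (hcirc θ).le
    · exact intervalIntegrable_const
    · filter_upwards [hbN] with θ hθ _
      exact hconv θ hθ
  rw [Real.circleAverage_const] at hfin
  simpa only [hmean] using hfin

end

end Pool.Agent.H429
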