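import Pool.Agent.H429.Defs
import Pool.Agent.H429.Core

open MeasureTheory Filter Topology Metric

namespace Pool.Agent.H429

noncomputable section

/-! ## Part A: the abstract system -/

/-- A1: counting of preimages. -/
def S_card : Prop := ∀ g : C2 → C2, Sys g → ∀ (n : ℕ) (b : C2), b ∈ BB →
  (pre g n b).Finite ∧ (pre g n b).ncard ≤ 4 ^ n ∧ (Reg g n b → (pre g n b).ncard = 4 ^ n)

/-- A2: local branches with a parameter. -/
def S_branch : Prop := ∀ (E : Type) [NormedAddCommGroup E] [NormedSpace ℂ E] [CompleteSpace E]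
  (G : E → C2 → C2) (Ω : Set E), IsOpen Ω → (∀ e ∈ Ω, Sys (G e)) →
  (∀ e ∈ Ω, ∀ x ∈ PP, AnalyticAt ℂ (fun q : E × C2 => G q.1 q.2) (e, x)) →
  ∀ (n : ℕ) (e₀ : E) (b₀ : C2), e₀ ∈ Ω → Reg (G e₀) n b₀ →
    ∃ N : Set (E × C2), IsOpen N ∧ (e₀, b₀) ∈ N ∧ ∃ y : Fin (4 ^ n) → E × C2 → C2,
      (∀ i, AnalyticOnNhd ℂ (y i) N) ∧ ∀ q ∈ N, q.1 ∈ Ω ∧ Reg (G q.1) n q.2 ∧
        Function.Injective (fun i => y i q) ∧ pre (G q.1) n q.2 = Set.range (fun i => y i q)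

/-- A2': local branches of a single map. -/
def S_branch1 : Prop := ∀ g : C2 → C2, Sys g → ∀ (n : ℕ) (b₀ : C2), Reg g n b₀ →
    ∃ N : Set C2, IsOpen N ∧ b₀ ∈ N ∧ ∃ y : Fin (4 ^ n) → C2 → C2,
      (∀ i, AnalyticOnNhd ℂ (y i) N) ∧ ∀ b ∈ N, Reg g n b ∧
        Function.Injective (fun i => y i b) ∧ pre g n b = Set.range (fun i => y i b)

/-- A3: almost every point is regular; images of null sets are null sets. -/
def S_null : Prop := ∀ g : C2 → C2, Sys g →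
  (∀ n : ℕ, volume (BB \ {b | Reg g n b}) = 0) ∧
  (∀ Z : Set C2, volume Z = 0 → volume {b | ∃ x ∈ pre g 1 b, x ∈ Z} = 0)

/-- A4: the cone estimate. -/
def S_cone : Prop := ∀ g : C2 → C2, Sys g → ∀ (n : ℕ) (b x : C2), Reg g n b → x ∈ pre g n b →
  ∃ A : C2 →L[ℂ] C2, (fderiv ℂ g^[n] x).comp A = ContinuousLinearMap.id ℂ C2 ∧
    A.comp (fderiv ℂ g^[n] x) = ContinuousLinearMap.id ℂ C2 ∧
    ∀ e : C2, ‖A e‖ ≤ 30 * (‖(A (1, 0)).1‖ + (1 / 2) ^ n) * ‖e‖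

/-- A5: the area estimate. -/
def S_area : Prop := ∀ g : C2 → C2, Sys g → ∀ n : ℕ,
  ∫⁻ b in {b | Reg g n b}, ENNReal.ofReal (∑ᶠ x ∈ pre g n b, ‖aa g n x‖ ^ 2) ≤ volume BB

/-- A6: the energy estimate for the iterates of the transfer operator. -/
def S_energy : Prop := ∀ g : C2 → C2, Sys g → ∀ φ : C2 → ℝ, ContDiff ℝ 1 φ → ∃ C : ℝ, ∀ n : ℕ,
  DifferentiableOn ℝ (avg g n φ) {b | Reg g n b} ∧ ContinuousOn (fderiv ℝ (avg g n φ)) {b | Reg g n b} ∧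
  ∫⁻ b in {b | Reg g n b}, ENNReal.ofReal ‖fderiv ℝ (avg g n φ) b‖ ≤ ENNReal.ofReal (C * (1 / 2) ^ n)

/-- A7: an `L¹` Poincare inequality on the bidisc, with exceptional sets missed by almost all
segments. -/
def S_poincare : Prop := ∀ (F : C2 → ℝ) (D : Set C2), IsOpen D → D ⊆ BB → volume (BB \ D) = 0 →
  DifferentiableOn ℝ F D → ContinuousOn (fderiv ℝ F) D →
  (∀ h : C2, ∀ᵐ b : C2, b ∈ BB → b + h ∈ BB → ∀ t ∈ Set.Icc (0 : ℝ) 1, b + t • h ∈ D) →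
  ∫⁻ b in BB, ∫⁻ b' in BB, ENNReal.ofReal |F b - F b'| ≤
    10 ^ 4 * ∫⁻ b in D, ENNReal.ofReal ‖fderiv ℝ F b‖

/-- A8: almost all segments in a given direction are regular. -/
def S_segment : Prop := ∀ g : C2 → C2, Sys g → ∀ (n : ℕ) (h : C2), ∀ᵐ b : C2, b ∈ BB → b + h ∈ BB →
  ∀ t ∈ Set.Icc (0 : ℝ) 1, Reg g n (b + t • h)

/-- A9: almost everywhere convergence for smooth functions. -/
def S_aeconv : Prop := ∀ g : C2 → C2, Sys g → ∀ φ : C2 → ℝ, ContDiff ℝ 1 φ → ∃ c : ℝ,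
  ∀ᵐ b : C2, b ∈ BB → Tendsto (fun n => avg g n φ b) atTop (𝓝 c)

/-- A10: equidistribution. -/
def S_measure : Prop := ∀ g : C2 → C2, Sys g → ∃ m : Measure C2, Equi g m

/-- B1: uniform smallness of the part of `log |jac|` below `-k`, with uniform constants for base
points which stay away from the images of the critical set. -/
def S_tail : Prop := ∀ g : C2 → C2, Sys g → ∀ r : ℝ, 0 < r → ∀ ε : ℝ, 0 < ε → ∃ k : ℝ, 0 < k ∧
  ∀ b : C2, Away g b r → ∀ n : ℕ, 1 ≤ n →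
    |avg g n (fun x => Real.log (max ‖jac g x‖ (Real.exp (-k)))) b -
      avg g n (fun x => Real.log ‖jac g x‖) b| ≤ ε

/-- B2: convergence of the averages of `log |jac|`. -/
def S_log : Prop := ∀ g : C2 → C2, Sys g → ∀ m : Measure C2, Equi g m → ∀ (b₀ : C2) (r : ℝ), Away g b₀ r →
    m {x | jac g x = 0} = 0 ∧ Integrable (fun x => Real.log ‖jac g x‖) m ∧
    Tendsto (fun n => avg g n (fun x => Real.log ‖jac g x‖) b₀) atTop
      (𝓝 (∫ x, Real.log ‖jac g x‖ ∂m))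

/-- B3: invariance. -/
def S_inv : Prop := ∀ g : C2 → C2, Sys g → ∀ m : Measure C2, Equi g m →
  ∀ φ : C2 → ℝ, Continuous φ → ∫ x, φ (g x) ∂m = ∫ x, φ x ∂m

/-- B4: convergence at a point for holomorphic functions. -/
def S_hol : Prop := ∀ g : C2 → C2, Sys g → ∀ m : Measure C2, Equi g m → ∀ (b₀ : C2) (r : ℝ), Away g b₀ r →
  ∀ e : C2 → ℂ, (∀ x ∈ PP, AnalyticAt ℂ e x) →
    Tendsto (fun n => avg g n (fun x => (e x).re) b₀) atTop (𝓝 (∫ x, (e x).re ∂m))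

/-- B5: an upper bound. -/
def S_ub : Prop := ∀ g : C2 → C2, Sys g → ∀ (n : ℕ) (b : C2), 1 ≤ n → Reg g n b →
  avg g n (fun x => Real.log ‖jac g x‖) b ≤ 100

/-! ## Part C: harmonic functions -/

/-- C1: pointwise limits of harmonic functions bounded above are harmonic. -/
def S_harmlim : Prop := ∀ (Ω : Set ℂ) (h : ℕ → ℂ → ℝ) (H : ℂ → ℝ) (C : ℝ), IsOpen Ω →
  (∀ n, InnerProductSpace.HarmonicOnNhd (h n) Ω) → (∀ n, ∀ t ∈ Ω, h n t ≤ C) →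
  (∀ t ∈ Ω, Tendsto (fun n => h n t) atTop (𝓝 (H t))) → InnerProductSpace.HarmonicOnNhd H Ω

/-- C2: harmonicity of the averages along a holomorphic family. -/
def S_family : Prop := ∀ (G : ℂ → C2 → C2) (Ω : Set ℂ), IsOpen Ω → (∀ t ∈ Ω, Sys (G t)) →
  (∀ t ∈ Ω, ∀ x ∈ PP, AnalyticAt ℂ (fun q : ℂ × C2 => G q.1 q.2) (t, x)) →
  ∀ (n : ℕ) (b : C2), (∀ t ∈ Ω, ∀ j, b ∉ VV (G t) (j + 1)) → b ∈ BB → 1 ≤ n →
    InnerProductSpace.HarmonicOnNhd (fun t => avg (G t) n (fun x => Real.log ‖jac (G t) x‖) b) Ω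

/-- C3: the logarithm is not the real part of a holomorphic function on an annulus, plus a
harmonic function on the disc. -/
def S_annulus : Prop := ∀ (u : ℂ → ℝ) (E : ℂ → ℂ) (c : ℝ),
  InnerProductSpace.HarmonicOnNhd u (ball 0 2) →
  DifferentiableOn ℂ E {t : ℂ | 3 / 2 < ‖t‖ ∧ ‖t‖ < 7 / 4} →
  ¬ ∀ t : ℂ, 3 / 2 < ‖t‖ → ‖t‖ < 7 / 4 → u t = c + (1 / 4) * Real.log ‖t‖ + (E t).re

end

end Pool.Agent.H429
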