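import Pool.Agent.H429.Chart

open MeasureTheory Filter Topology Metric

namespace Pool.Agent.H429

noncomputable section

/-! ## Part D: quadratic maps of the projective plane -/

/-- D0: the polynomial map of degree two, written out. -/
def S_poly : Prop := ∀ (c : Coef 2) (v : Vec) (i : Fin 3), poly c v i =
  c i m200 * v 0 ^ 2 + c i m020 * v 1 ^ 2 + c i m002 * v 2 ^ 2 + c i m110 * (v 0 * v 1) +
    c i m101 * (v 0 * v 2) + c i m011 * (v 1 * v 2)

/-- D1: the maps in `U` satisfy the abstract properties. -/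
def S_sys : Prop := ∀ c : Coef 2, Good c → Sys (GG c)

/-- D2: joint analyticity. -/
def S_joint : Prop := ∀ c : Coef 2, ∀ x : C2, FF c x 2 ≠ 0 →
  AnalyticAt ℂ (fun q : Coef 2 × C2 => GG q.1 q.2) (c, x)

/-- D3: the good coefficient vectors form an open set. -/
def S_open : Prop := IsOpen {c : Coef 2 | Good c}

/-- D4: scaling. -/
def S_smul : Prop := ∀ (c : Coef 2) (a : ℂ), a ≠ 0 → GG (a • c) = GG c ∧ (Good c → Good (a • c))

/-- D5: nondegeneracy. -/
def S_nondeg : Prop := ∀ c : Coef 2, Good c → ∀ v : Vec, poly c v = 0 → v = 0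

/-- D6: the explicit family is good. -/
def S_ex : Prop := ∀ l : ℂ, ‖l‖ ≤ 2 → Good (cc l)

/-- D7: the equilibrium measure on the projective plane. -/
def S_exterior : Prop := ∀ c : Lift 2, Good c.1 → ∀ m : Measure C2, Equi (GG c.1) m →
  IsEquilibrium (selfMap c) (m.map io)

/-- D8: the formula for the sum of the Lyapunov exponents. -/
def S_lyap : Prop := ∀ c : Lift 2, Good c.1 → ∀ m : Measure C2, Equi (GG c.1) m →
  (∃ b r, Away (GG c.1) b r) → lyap (toEndo c) = ∫ x, Real.log ‖jac (GG c.1) x‖ ∂m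

/-- D9: density of the parameters with a point away from the images of the critical set. -/
def S_density : Prop := ∀ O : Set (Coef 2), IsOpen O → O.Nonempty → O ⊆ {c | Good c} →
  ∃ W ⊆ O, IsOpen W ∧ W.Nonempty ∧ ∃ b : C2, b ∈ BB ∧ ∀ c ∈ W, ∃ r, Away (GG c) b r

/-- D10: the explicit family on the annulus. -/
def S_explicit : Prop := ∃ (E : ℂ → ℂ) (k : ℝ), DifferentiableOn ℂ E {t : ℂ | 3 / 2 < ‖t‖ ∧ ‖t‖ < 7 / 4} ∧
  ∀ t : ℂ, 3 / 2 < ‖t‖ → ‖t‖ < 7 / 4 → (∀ j, VV (GG (cc t)) (j + 1) = ∅) ∧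
    ∀ m : Measure C2, Equi (GG (cc t)) m →
      ∫ x, Real.log ‖jac (GG (cc t)) x‖ ∂m = k + (1 / 4) * Real.log ‖t‖ + (E t).re

end

end Pool.Agent.H429
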