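import Pool.Agent.H429.Stmts
import Pool.Agent.H429.Stmts2

open MeasureTheory Filter Topology Metric

namespace Pool.Agent.H429

noncomputable section

/-! ## Finer statements -/

/-- J0: the derivative in the space variable and the Jacobian are jointly analytic. -/
def S_jan : Prop := ∀ (E : Type) [NormedAddCommGroup E] [NormedSpace ℂ E] [CompleteSpace E]
  (G : E → C2 → C2) (e : E) (x : C2), AnalyticAt ℂ (fun q : E × C2 => G q.1 q.2) (e, x) →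
    AnalyticAt ℂ (fun q : E × C2 => fderiv ℂ (G q.1) q.2) (e, x) ∧
    AnalyticAt ℂ (fun q : E × C2 => jac (G q.1) q.2) (e, x)

/-- A1': composition of the transfer operators. -/
def S_avgsucc : Prop := ∀ g : C2 → C2, Sys g → ∀ (n : ℕ) (b : C2), Reg g (n + 1) b →
  (∀ y ∈ pre g 1 b, Reg g n y) ∧ (∀ y ∈ pre g n b, (1 ≤ n → y ∈ PP) ∧ (pre g 1 y).ncard = 4) ∧
  (∀ φ : C2 → ℝ, avg g (n + 1) φ b = avg g 1 (avg g n φ) b) ∧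
  (∀ φ : C2 → ℝ, avg g (n + 1) φ b = avg g n (avg g 1 φ) b)

/-- A3': the set of regular points is open. -/
def S_regopen : Prop := ∀ g : C2 → C2, Sys g → ∀ n : ℕ, IsOpen {b | Reg g n b}

/-- A8': the images of the critical set consist of pairwise vertically related points. -/
def S_vpair : Prop := ∀ g : C2 → C2, Sys g → ∀ k : ℕ, 1 ≤ k →
  (∀ x ∈ PP, ∀ y ∈ PP, g x ∈ closedBall (0 : C2) 1 → g y ∈ closedBall (0 : C2) 1 →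
    jac g x = 0 → jac g y = 0 → VRel x y) ∧
  (∀ x y : C2, (∀ i < k, g^[i] x ∈ PP) → (∀ i < k, g^[i] y ∈ PP) → VRel x y →
    VRel (g^[k] x) (g^[k] y) ∧ 2 ^ k * ‖x.2 - y.2‖ ≤ ‖(g^[k] x).2 - (g^[k] y).2‖) ∧
  (∀ b ∈ VV g k, ∀ b' ∈ VV g k, VRel b b')

/-- B0: counting of the preimages near the critical set. -/
def S_count : Prop := ∀ g : C2 → C2, Sys g → ∃ δ₀ : ℝ, 0 < δ₀ ∧
  ∀ (n m : ℕ) (b : C2) (δ : ℝ), b ∈ BB → δ ≤ δ₀ → (10 ^ 5 : ℝ) ^ m * δ ≤ 1 / 100 → m + 1 ≤ n →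
    ({x | x ∈ pre g n b ∧ ‖jac g x‖ < δ} : Set C2).ncard ≤ 3 ^ (m + 1) * 4 ^ (n - (m + 1))

/-- B0': lower bound for the Jacobian. -/
def S_lower : Prop := ∀ g : C2 → C2, Sys g → ∀ r : ℝ, 0 < r → ∃ κ : ℝ, 0 < κ ∧
  ∀ b : C2, Away g b r → ∀ n : ℕ, 1 ≤ n → ∀ x ∈ pre g n b, κ * (1 / (2 * 10 ^ 7)) ^ n ≤ ‖jac g x‖

/-- B2': harmonicity of the averages along complex lines. -/
def S_ph : Prop := ∀ g : C2 → C2, Sys g → ∀ (b₀ : C2) (r : ℝ), Away g b₀ r →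
  ∀ n : ℕ, 1 ≤ n → ∀ v : C2,
    InnerProductSpace.HarmonicOnNhd
      (fun t : ℂ => avg g n (fun x => Real.log ‖jac g x‖) (b₀ + t • v))
      {t : ℂ | b₀ + t • v ∈ ball b₀ r} ∧
    ∀ e : C2 → ℂ, (∀ x ∈ PP, AnalyticAt ℂ e x) →
      InnerProductSpace.HarmonicOnNhd (fun t : ℂ => avg g n (fun x => (e x).re) (b₀ + t • v))
        {t : ℂ | b₀ + t • v ∈ ball b₀ r}

/-- B2'': convergence at the centre. -/
def S_mvp : Prop := ∀ (b₀ : C2) (r : ℝ), 0 < r → ∀ (h : ℕ → C2 → ℝ) (C c : ℝ),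
  (∀ n, ∀ v : C2, InnerProductSpace.HarmonicOnNhd (fun t : ℂ => h n (b₀ + t • v))
    {t : ℂ | b₀ + t • v ∈ ball b₀ r}) →
  (∀ n, ∀ b ∈ ball b₀ r, h n b ≤ C) →
  (∀ᵐ b : C2, b ∈ ball b₀ r → Tendsto (fun n => h n b) atTop (𝓝 c)) →
  Tendsto (fun n => h n b₀) atTop (𝓝 c)

/-- C4: bounded pointwise limits of holomorphic functions are holomorphic. -/
def S_holim : Prop := ∀ (Ω : Set ℂ) (h : ℕ → ℂ → ℂ) (H : ℂ → ℂ) (C : ℝ), IsOpen Ω →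
  (∀ n, DifferentiableOn ℂ (h n) Ω) → (∀ n, ∀ t ∈ Ω, ‖h n t‖ ≤ C) →
  (∀ t ∈ Ω, Tendsto (fun n => h n t) atTop (𝓝 (H t))) → DifferentiableOn ℂ H Ω

/-- C5: holomorphy of averages along a holomorphic family. -/
def S_famhol : Prop := ∀ (G : ℂ → C2 → C2) (Ω : Set ℂ), IsOpen Ω → (∀ t ∈ Ω, Sys (G t)) →
  (∀ t ∈ Ω, ∀ x ∈ PP, AnalyticAt ℂ (fun q : ℂ × C2 => G q.1 q.2) (t, x)) →
  ∀ (n : ℕ) (b : C2), (∀ t ∈ Ω, ∀ j, b ∉ VV (G t) (j + 1)) → b ∈ BB → 1 ≤ n →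
  ∀ e : ℂ × C2 → ℂ, (∀ t ∈ Ω, ∀ x ∈ PP, AnalyticAt ℂ e (t, x)) →
    DifferentiableOn ℂ (fun t => (∑ᶠ x ∈ pre (G t) n b, e (t, x)) / 4 ^ n) Ω

/-- D1': the part of `Sys` which comes from derivative estimates. -/
def S_sys1 : Prop := ∀ c : Coef 2, Good c →
  (∀ x ∈ PP, AnalyticAt ℂ (GG c) x) ∧
  (∀ x ∈ closedBall (0 : C2) 1, GG c x ∈ closedBall (0 : C2) 1 → x ∈ ball (0 : C2) (1 / 12)) ∧
  (∀ x ∈ PP, ∀ v : C2, ‖v.1‖ ≤ ‖v.2‖ / 20 →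
    ‖(fderiv ℂ (GG c) x v).1‖ ≤ ‖(fderiv ℂ (GG c) x v).2‖ / 20 ∧
      2 * ‖v.2‖ ≤ ‖(fderiv ℂ (GG c) x v).2‖) ∧
  (∀ x ∈ PP, ∀ y ∈ PP, VRel x y →
    VRel (GG c x) (GG c y) ∧ 2 * ‖x.2 - y.2‖ ≤ ‖(GG c x).2 - (GG c y).2‖) ∧
  (∀ x ∈ PP, ∀ y ∈ PP, ∀ δ : ℝ, 0 ≤ δ → ‖x.1 - y.1‖ ≤ ‖x.2 - y.2‖ / 20 + δ →
    ‖(GG c x).1 - (GG c y).1‖ ≤ ‖(GG c x).2 - (GG c y).2‖ / 20 + 10 ^ 5 * δ) ∧
  (∀ x ∈ PP, ∀ y ∈ PP, ‖GG c x - GG c y‖ ≤ 2 * 10 ^ 7 * ‖x - y‖) ∧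
  (∀ x ∈ closedBall (0 : C2) (1 / 100000), ∀ y ∈ closedBall (0 : C2) (1 / 100000),
    ‖jac (GG c) x - jac (GG c) y + 8 * 10 ^ 10 * (x.1 - y.1)‖ ≤
      10 ^ 10 * ‖x.1 - y.1‖ + 10 ^ 9 * ‖x.2 - y.2‖)

/-- D1'': the part of `Sys` which comes from elimination. -/
def S_elim : Prop := ∀ c : Coef 2, Good c → ∀ b ∈ closedBall (0 : C2) 1,
  ((pre (GG c) 1 b).Finite ∧ (pre (GG c) 1 b).ncard ≤ 4) ∧
  ((∀ x ∈ pre (GG c) 1 b, jac (GG c) x ≠ 0) → (pre (GG c) 1 b).ncard = 4) ∧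
  (∀ S ⊆ pre (GG c) 1 b, (∀ x ∈ S, ∀ y ∈ S, ‖x.1 - y.1‖ ≤ 1 / 50) → S.ncard ≤ 3)

/-- The closed cone over the complement of the unit bidisc. -/
def Out : Set Vec := {v | ‖v 2‖ ≤ max ‖v 0‖ ‖v 1‖}

/-- E1: almost every point has, for some `n`, no preimage of order `n` in the exterior. -/
def S_vol : Prop := ∀ c : Coef 2, Good c →
  volume {v : Vec | ∀ n : ℕ, ∃ p ∈ Out, (poly c)^[n] p = v} = 0

/-- E2: almost every point has finitely many, and at least one, preimages. -/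
def S_fin : Prop := ∀ c : Lift 2, Good c.1 → ∃ Z : Set Vec, volume Z = 0 ∧
  ∀ (v : Vec) (hv : v ≠ 0), v ∉ Z →
    ({y : P2 | selfMap c y = Projectivization.mk ℂ v hv} : Set P2).Finite ∧
    ({y : P2 | selfMap c y = Projectivization.mk ℂ v hv} : Set P2).Nonempty

/-- E3: null sets. -/
def S_nullF : Prop := (∀ (c : Coef 2) (Z : Set Vec), volume Z = 0 →
  ∀ n : ℕ, volume ((poly c)^[n] '' Z) = 0) ∧
  (∀ Z : Set C2, volume Z = 0 → volume {v : Vec | v 2 ≠ 0 ∧ (v 0 / v 2, v 1 / v 2) ∈ Z} = 0)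

/-- E4: the maps in the chart. -/
def S_chart : Prop := Function.Injective io ∧ Continuous io ∧
  ∀ c : Lift 2, Good c.1 → ∀ (n : ℕ) (b : C2), b ∈ BB →
    {y : P2 | (selfMap c)^[n] y = io b} = io '' pre (GG c.1) n b

/-- E5: lifting of orbits. -/
def S_lift : Prop := ∀ (c : Lift 2) (n : ℕ) (y : P2) (v : Vec) (hv : v ≠ 0),
  (selfMap c)^[n] y = Projectivization.mk ℂ v hv ↔
    ∃ (p : Vec) (hp : p ≠ 0), y = Projectivization.mk ℂ p hp ∧ (poly c.1)^[n] p = v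

/-- E6: uniqueness of the equilibrium measure. -/
def S_unique : Prop := ∀ (f : P2 → P2) (μ ν : Measure P2), IsEquilibrium f μ →
  IsEquilibrium f ν → μ = ν

/-- E7: the Jacobian in the chart. -/
def S_jacfs : Prop := (∀ c : Lift 2, Continuous (jacFS c)) ∧
  ∀ c : Lift 2, Good c.1 → ∀ x ∈ PP,
    jacFS c (io x) = ‖jac (GG c.1) x‖ * hnorm (ch x) ^ 3 / hnorm (ch (GG c.1 x)) ^ 3

/-- D10': the first average of `log |jac|` for the explicit family. -/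
def S_T1 : Prop := ∀ l : ℂ, 3 / 2 < ‖l‖ → ‖l‖ < 7 / 4 → (∀ j, VV (GG (cc l)) (j + 1) = ∅) ∧
  ∀ b ∈ BB, avg (GG (cc l)) 1 (fun x => Real.log ‖jac (GG (cc l)) x‖) b =
    Real.log (2 * 10 ^ 7) - (1 / 4) * Real.log (10 ^ 6) +
      (1 / 4) * Real.log ‖l - b.1 + 10 ^ 6 * b.2 ^ 2 / 10 ^ 14 - 4000 * b.2 / 10 ^ 7‖ +
      (1 / 2) * Real.log ‖4 * 10 ^ 6 * (l - b.1) - 4000 ^ 2‖

end

end Pool.Agent.H429
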